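import Pool.Agent.Work.MP_c2ab8b_gt.K8.Tri

/- The abstract configuration of side lengths and the first localisation. -/

noncomputable section
namespace Pool.Agent.Work.MP_c2ab8b_gt.K8
open Real

/-- side data of a polytope of the extremal combinatorial type -/
structure Cfg (y : ℕ → ℝ) : Prop where
  t0 : Tri (y 0) (y 2) (y 7)
  t1 : Tri (y 0) (y 3) (y 6)
  t2 : Tri (y 1) (y 5) (y 8)
  t3 : Tri (y 1) (y 4) (y 9)
  t4 : Tri (y 2) (y 10) (y 14)
  t5 : Tri (y 3) (y 11) (y 15)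
  t6 : Tri (y 4) (y 12) (y 14)
  t7 : Tri (y 5) (y 13) (y 15)
  t8 : Tri (y 6) (y 10) (y 17)
  t9 : Tri (y 7) (y 11) (y 16)
  t10 : Tri (y 8) (y 12) (y 16)
  t11 : Tri (y 9) (y 13) (y 17)
  k0 : A1f (y 0) (y 2) (y 7) + A2f (y 0) (y 2) (y 7) +
    A1f (y 0) (y 3) (y 6) + A3f (y 0) (y 3) (y 6) +
    A1f (y 2) (y 10) (y 14) + A2f (y 2) (y 10) (y 14) +
    A1f (y 6) (y 10) (y 17) + A2f (y 6) (y 10) (y 17) = 2 * π
  k1 : A1f (y 0) (y 2) (y 7) + A3f (y 0) (y 2) (y 7) +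
    A1f (y 0) (y 3) (y 6) + A2f (y 0) (y 3) (y 6) +
    A1f (y 3) (y 11) (y 15) + A2f (y 3) (y 11) (y 15) +
    A1f (y 7) (y 11) (y 16) + A2f (y 7) (y 11) (y 16) = 2 * π
  k2 : A1f (y 1) (y 5) (y 8) + A3f (y 1) (y 5) (y 8) +
    A1f (y 1) (y 4) (y 9) + A2f (y 1) (y 4) (y 9) +
    A1f (y 4) (y 12) (y 14) + A2f (y 4) (y 12) (y 14) +
    A1f (y 8) (y 12) (y 16) + A2f (y 8) (y 12) (y 16) = 2 * π
  k3 : A1f (y 1) (y 5) (y 8) + A2f (y 1) (y 5) (y 8) +
    A1f (y 1) (y 4) (y 9) + A3f (y 1) (y 4) (y 9) +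
    A1f (y 5) (y 13) (y 15) + A2f (y 5) (y 13) (y 15) +
    A1f (y 9) (y 13) (y 17) + A2f (y 9) (y 13) (y 17) = 2 * π
  k4 : A2f (y 1) (y 4) (y 9) + A3f (y 1) (y 4) (y 9) +
    A2f (y 2) (y 10) (y 14) + A3f (y 2) (y 10) (y 14) +
    A1f (y 4) (y 12) (y 14) + A3f (y 4) (y 12) (y 14) +
    A2f (y 6) (y 10) (y 17) + A3f (y 6) (y 10) (y 17) +
    A1f (y 9) (y 13) (y 17) + A3f (y 9) (y 13) (y 17) = 2 * π
  k5 : A2f (y 0) (y 2) (y 7) + A3f (y 0) (y 2) (y 7) +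
    A1f (y 2) (y 10) (y 14) + A3f (y 2) (y 10) (y 14) +
    A2f (y 4) (y 12) (y 14) + A3f (y 4) (y 12) (y 14) +
    A1f (y 7) (y 11) (y 16) + A3f (y 7) (y 11) (y 16) +
    A2f (y 8) (y 12) (y 16) + A3f (y 8) (y 12) (y 16) = 2 * π
  k6 : A2f (y 1) (y 5) (y 8) + A3f (y 1) (y 5) (y 8) +
    A2f (y 3) (y 11) (y 15) + A3f (y 3) (y 11) (y 15) +
    A1f (y 5) (y 13) (y 15) + A3f (y 5) (y 13) (y 15) +
    A2f (y 7) (y 11) (y 16) + A3f (y 7) (y 11) (y 16) +
    A1f (y 8) (y 12) (y 16) + A3f (y 8) (y 12) (y 16) = 2 * π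
  k7 : A2f (y 0) (y 3) (y 6) + A3f (y 0) (y 3) (y 6) +
    A1f (y 3) (y 11) (y 15) + A3f (y 3) (y 11) (y 15) +
    A2f (y 5) (y 13) (y 15) + A3f (y 5) (y 13) (y 15) +
    A1f (y 6) (y 10) (y 17) + A3f (y 6) (y 10) (y 17) +
    A2f (y 9) (y 13) (y 17) + A3f (y 9) (y 13) (y 17) = 2 * π
  d0 : 0 ≤ A1f (y 0) (y 2) (y 7) + A1f (y 0) (y 3) (y 6)
  d1 : 0 ≤ A1f (y 1) (y 5) (y 8) + A1f (y 1) (y 4) (y 9)
  d2 : 0 ≤ A2f (y 0) (y 2) (y 7) + A1f (y 2) (y 10) (y 14)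
  d3 : 0 ≤ A2f (y 0) (y 3) (y 6) + A1f (y 3) (y 11) (y 15)
  d4 : 0 ≤ A2f (y 1) (y 4) (y 9) + A1f (y 4) (y 12) (y 14)
  d5 : 0 ≤ A2f (y 1) (y 5) (y 8) + A1f (y 5) (y 13) (y 15)
  d6 : 0 ≤ A3f (y 0) (y 3) (y 6) + A1f (y 6) (y 10) (y 17)
  d7 : 0 ≤ A3f (y 0) (y 2) (y 7) + A1f (y 7) (y 11) (y 16)
  d8 : 0 ≤ A3f (y 1) (y 5) (y 8) + A1f (y 8) (y 12) (y 16)
  d9 : 0 ≤ A3f (y 1) (y 4) (y 9) + A1f (y 9) (y 13) (y 17)
  d10 : 0 ≤ A2f (y 2) (y 10) (y 14) + A2f (y 6) (y 10) (y 17)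
  d11 : 0 ≤ A2f (y 3) (y 11) (y 15) + A2f (y 7) (y 11) (y 16)
  d12 : 0 ≤ A2f (y 4) (y 12) (y 14) + A2f (y 8) (y 12) (y 16)
  d13 : 0 ≤ A2f (y 5) (y 13) (y 15) + A2f (y 9) (y 13) (y 17)
  d14 : 0 ≤ A3f (y 2) (y 10) (y 14) + A3f (y 4) (y 12) (y 14)
  d15 : 0 ≤ A3f (y 3) (y 11) (y 15) + A3f (y 5) (y 13) (y 15)
  d16 : 0 ≤ A3f (y 7) (y 11) (y 16) + A3f (y 8) (y 12) (y 16)
  d17 : 0 ≤ A3f (y 6) (y 10) (y 17) + A3f (y 9) (y 13) (y 17)

def ary (y : ℕ → ℝ) : ℝ :=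
  √(Uf (y 0) (y 2) (y 7)) + √(Uf (y 0) (y 3) (y 6)) + √(Uf (y 1) (y 5) (y 8)) +
  √(Uf (y 1) (y 4) (y 9)) + √(Uf (y 2) (y 10) (y 14)) + √(Uf (y 3) (y 11) (y 15)) +
  √(Uf (y 4) (y 12) (y 14)) + √(Uf (y 5) (y 13) (y 15)) + √(Uf (y 6) (y 10) (y 17)) +
  √(Uf (y 7) (y 11) (y 16)) + √(Uf (y 8) (y 12) (y 16)) + √(Uf (y 9) (y 13) (y 17))

def mir (y : ℕ → ℝ) (e : ℕ) : ℝ := y ([0, 1, 6, 7, 9, 8, 2, 3, 5, 4, 10, 11, 13, 12, 17, 16, 15, 14].getD e 0)

variable {y : ℕ → ℝ}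

theorem Cfg.mir (C : Cfg y) : Cfg (mir y) ∧ ary (mir y) = ary y := by
  have s0 := sw23 (y 0) (y 3) (y 6)
  have s1 := sw23 (y 0) (y 2) (y 7)
  have s2 := sw23 (y 1) (y 5) (y 8)
  have s3 := sw23 (y 1) (y 4) (y 9)
  refine ⟨⟨C.t1.s23, C.t0.s23, C.t2.s23, C.t3.s23, C.t8, C.t9, C.t11, C.t10, C.t4, C.t5, C.t7, C.t6,
    ?_, ?_, ?_, ?_, ?_, ?_, ?_, ?_, ?_, ?_, ?_, ?_, ?_, ?_, ?_, ?_, ?_, ?_, ?_, ?_, ?_, ?_, ?_, ?_, ?_, ?_⟩, ?_⟩
  · show A1f (y 0) (y 6) (y 3) + A2f (y 0) (y 6) (y 3) +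
      A1f (y 0) (y 7) (y 2) + A3f (y 0) (y 7) (y 2) +
      A1f (y 6) (y 10) (y 17) + A2f (y 6) (y 10) (y 17) +
      A1f (y 2) (y 10) (y 14) + A2f (y 2) (y 10) (y 14) = 2 * π
    linarith only [C.k0, s0.1, s0.2.1, s1.1, s1.2.2.1]
  · show A1f (y 0) (y 6) (y 3) + A3f (y 0) (y 6) (y 3) +
      A1f (y 0) (y 7) (y 2) + A2f (y 0) (y 7) (y 2) +
      A1f (y 7) (y 11) (y 16) + A2f (y 7) (y 11) (y 16) +
      A1f (y 3) (y 11) (y 15) + A2f (y 3) (y 11) (y 15) = 2 * π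
    linarith only [C.k1, s0.1, s0.2.2.1, s1.1, s1.2.1]
  · show A1f (y 1) (y 8) (y 5) + A3f (y 1) (y 8) (y 5) +
      A1f (y 1) (y 9) (y 4) + A2f (y 1) (y 9) (y 4) +
      A1f (y 9) (y 13) (y 17) + A2f (y 9) (y 13) (y 17) +
      A1f (y 5) (y 13) (y 15) + A2f (y 5) (y 13) (y 15) = 2 * π
    linarith only [C.k3, s2.1, s2.2.2.1, s3.1, s3.2.1]
  · show A1f (y 1) (y 8) (y 5) + A2f (y 1) (y 8) (y 5) +
      A1f (y 1) (y 9) (y 4) + A3f (y 1) (y 9) (y 4) +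
      A1f (y 8) (y 12) (y 16) + A2f (y 8) (y 12) (y 16) +
      A1f (y 4) (y 12) (y 14) + A2f (y 4) (y 12) (y 14) = 2 * π
    linarith only [C.k2, s2.1, s2.2.1, s3.1, s3.2.2.1]
  · show A2f (y 1) (y 9) (y 4) + A3f (y 1) (y 9) (y 4) +
      A2f (y 6) (y 10) (y 17) + A3f (y 6) (y 10) (y 17) +
      A1f (y 9) (y 13) (y 17) + A3f (y 9) (y 13) (y 17) +
      A2f (y 2) (y 10) (y 14) + A3f (y 2) (y 10) (y 14) +
      A1f (y 4) (y 12) (y 14) + A3f (y 4) (y 12) (y 14) = 2 * π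
    linarith only [C.k4, s3.2.1, s3.2.2.1]
  · show A2f (y 0) (y 6) (y 3) + A3f (y 0) (y 6) (y 3) +
      A1f (y 6) (y 10) (y 17) + A3f (y 6) (y 10) (y 17) +
      A2f (y 9) (y 13) (y 17) + A3f (y 9) (y 13) (y 17) +
      A1f (y 3) (y 11) (y 15) + A3f (y 3) (y 11) (y 15) +
      A2f (y 5) (y 13) (y 15) + A3f (y 5) (y 13) (y 15) = 2 * π
    linarith only [C.k7, s0.2.1, s0.2.2.1]
  · show A2f (y 1) (y 8) (y 5) + A3f (y 1) (y 8) (y 5) +
      A2f (y 7) (y 11) (y 16) + A3f (y 7) (y 11) (y 16) +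
      A1f (y 8) (y 12) (y 16) + A3f (y 8) (y 12) (y 16) +
      A2f (y 3) (y 11) (y 15) + A3f (y 3) (y 11) (y 15) +
      A1f (y 5) (y 13) (y 15) + A3f (y 5) (y 13) (y 15) = 2 * π
    linarith only [C.k6, s2.2.1, s2.2.2.1]
  · show A2f (y 0) (y 7) (y 2) + A3f (y 0) (y 7) (y 2) +
      A1f (y 7) (y 11) (y 16) + A3f (y 7) (y 11) (y 16) +
      A2f (y 8) (y 12) (y 16) + A3f (y 8) (y 12) (y 16) +
      A1f (y 2) (y 10) (y 14) + A3f (y 2) (y 10) (y 14) +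
      A2f (y 4) (y 12) (y 14) + A3f (y 4) (y 12) (y 14) = 2 * π
    linarith only [C.k5, s1.2.1, s1.2.2.1]
  · show 0 ≤ A1f (y 0) (y 6) (y 3) + A1f (y 0) (y 7) (y 2)
    linarith only [C.d0, s0.1, s1.1]
  · show 0 ≤ A1f (y 1) (y 8) (y 5) + A1f (y 1) (y 9) (y 4)
    linarith only [C.d1, s2.1, s3.1]
  · show 0 ≤ A2f (y 0) (y 6) (y 3) + A1f (y 6) (y 10) (y 17)
    linarith only [C.d6, s0.2.1]
  · show 0 ≤ A2f (y 0) (y 7) (y 2) + A1f (y 7) (y 11) (y 16)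
    linarith only [C.d7, s1.2.1]
  · show 0 ≤ A2f (y 1) (y 9) (y 4) + A1f (y 9) (y 13) (y 17)
    linarith only [C.d9, s3.2.1]
  · show 0 ≤ A2f (y 1) (y 8) (y 5) + A1f (y 8) (y 12) (y 16)
    linarith only [C.d8, s2.2.1]
  · show 0 ≤ A3f (y 0) (y 7) (y 2) + A1f (y 2) (y 10) (y 14)
    linarith only [C.d2, s1.2.2.1]
  · show 0 ≤ A3f (y 0) (y 6) (y 3) + A1f (y 3) (y 11) (y 15)
    linarith only [C.d3, s0.2.2.1]
  · show 0 ≤ A3f (y 1) (y 8) (y 5) + A1f (y 5) (y 13) (y 15)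
    linarith only [C.d5, s2.2.2.1]
  · show 0 ≤ A3f (y 1) (y 9) (y 4) + A1f (y 4) (y 12) (y 14)
    linarith only [C.d4, s3.2.2.1]
  · show 0 ≤ A2f (y 6) (y 10) (y 17) + A2f (y 2) (y 10) (y 14)
    linarith only [C.d10]
  · show 0 ≤ A2f (y 7) (y 11) (y 16) + A2f (y 3) (y 11) (y 15)
    linarith only [C.d11]
  · show 0 ≤ A2f (y 9) (y 13) (y 17) + A2f (y 5) (y 13) (y 15)
    linarith only [C.d13]
  · show 0 ≤ A2f (y 8) (y 12) (y 16) + A2f (y 4) (y 12) (y 14)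
    linarith only [C.d12]
  · show 0 ≤ A3f (y 6) (y 10) (y 17) + A3f (y 9) (y 13) (y 17)
    linarith only [C.d17]
  · show 0 ≤ A3f (y 7) (y 11) (y 16) + A3f (y 8) (y 12) (y 16)
    linarith only [C.d16]
  · show 0 ≤ A3f (y 3) (y 11) (y 15) + A3f (y 5) (y 13) (y 15)
    linarith only [C.d15]
  · show 0 ≤ A3f (y 2) (y 10) (y 14) + A3f (y 4) (y 12) (y 14)
    linarith only [C.d14]
  · show √(Uf (y 0) (y 6) (y 3)) + √(Uf (y 0) (y 7) (y 2)) + √(Uf (y 1) (y 8) (y 5)) +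
      √(Uf (y 1) (y 9) (y 4)) + √(Uf (y 6) (y 10) (y 17)) + √(Uf (y 7) (y 11) (y 16)) +
      √(Uf (y 9) (y 13) (y 17)) + √(Uf (y 8) (y 12) (y 16)) + √(Uf (y 2) (y 10) (y 14)) +
      √(Uf (y 3) (y 11) (y 15)) + √(Uf (y 5) (y 13) (y 15)) + √(Uf (y 4) (y 12) (y 14)) = _
    rw [s0.2.2.2, s1.2.2.2, s2.2.2.2, s3.2.2.2]; unfold ary; ring

def CT0 : List (ℕ × ℕ × ℕ × ℕ) :=
  [(2, 2, 2, 4503595933698621), (1, 1, 1, 31525203653655790), (1, 2, 2, 13510798547104039), (2, 1, 1, 22518001409617560), (2, 1, 2, 13510799139809526), (1, 2, 1, 22518001388142723), (2, 2, 1, 13510799139809526), (1, 1, 2, 22518001388142723)]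
def CT1 : List (ℕ × ℕ × ℕ × ℕ) :=
  [(2, 2, 2, 4503595555741499), (1, 1, 1, 31525204607138529), (1, 2, 2, 13510798852046717), (2, 1, 1, 22518002109697229), (2, 1, 2, 13510798297995936), (1, 2, 1, 22518002784007094), (2, 2, 1, 13510799552126386), (1, 1, 2, 22518001319423246), (2, 1, 0, 18014399561748972), (1, 2, 0, 18014400012720538), (2, 0, 1, 18014400665555567)]
def bx0 : List (ℕ × ℕ) :=
  [(4503600486363955, 751619277), (4503600529313628, 794568950), (4503600529313628, 794568950), (4503600336040099, 762356696), (4503600915860684, 1030792152), (4503600915860684, 1030792152)]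
def EO (e : ℕ) : ℕ := [0, 0, 1, 1, 1, 1, 2, 2, 2, 2, 3, 3, 3, 3, 4, 4, 5, 5].getD e 0
def InB (bx : List (ℕ × ℕ)) (y : ℕ → ℝ) : Prop :=
  ∀ e < 18, Bx (bx.getD (EO e) (0, 0)).1 (bx.getD (EO e) (0, 0)).2 (y e)

theorem inB
    (h0 : Bx 4503600486363955 751619277 (y 0))
    (h1 : Bx 4503600486363955 751619277 (y 1))
    (h2 : Bx 4503600529313628 794568950 (y 2))
    (h3 : Bx 4503600529313628 794568950 (y 3))
    (h4 : Bx 4503600529313628 794568950 (y 4))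
    (h5 : Bx 4503600529313628 794568950 (y 5))
    (h6 : Bx 4503600529313628 794568950 (y 6))
    (h7 : Bx 4503600529313628 794568950 (y 7))
    (h8 : Bx 4503600529313628 794568950 (y 8))
    (h9 : Bx 4503600529313628 794568950 (y 9))
    (h10 : Bx 4503600336040099 762356696 (y 10))
    (h11 : Bx 4503600336040099 762356696 (y 11))
    (h12 : Bx 4503600336040099 762356696 (y 12))
    (h13 : Bx 4503600336040099 762356696 (y 13))
    (h14 : Bx 4503600915860684 1030792152 (y 14))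
    (h15 : Bx 4503600915860684 1030792152 (y 15))
    (h16 : Bx 4503600915860684 1030792152 (y 16))
    (h17 : Bx 4503600915860684 1030792152 (y 17))
    : InB bx0 y := by
  intro e he
  interval_cases e
  exacts [h0, h1, h2, h3, h4, h5, h6, h7, h8, h9, h10, h11, h12, h13, h14, h15, h16, h17]

theorem bxs {a r : ℕ} {L H z : ℝ} (h : L ≤ z * 2 ^ 32 ∧ z * 2 ^ 32 ≤ H) (g : vl a ≤ L ∧ H ≤ vl a + 2 * r) :
    Bx a r z := ⟨g.1.trans h.1, h.2.trans g.2⟩

theorem two {z s t L H a b c d g : ℝ} (l1 : z ≤ L → a ≤ s) (l2 : z ≤ L → b ≤ t) (h1 : H ≤ z → c ≤ s)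
    (h2 : H ≤ z → d ≤ t) (w : s + t < g) (u : g ≤ a + b) (v : g ≤ c + d) : L ≤ z ∧ z ≤ H :=
  ⟨le_of_not_ge fun h => by linarith [l1 h, l2 h], le_of_not_ge fun h => by linarith [h1 h, h2 h]⟩

def F0 (a b c : ℝ) : Prop := (∀ e ∈ CT0, Ct e a b c) ∧ 0 < 2 - a - b - c
def F1 (a b c : ℝ) : Prop := (∀ e ∈ CT1, Ct e a b c) ∧ -2248415379 < A3f a b c * 2 ^ 32 ∧ 0 < 2 - a - b - c

structure S0 (a b c s : ℝ) : Prop where
  n : 0 ≤ s
  l1 : a * 2 ^ 32 ≤ 858993459 → 46086738 ≤ s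
  h1 : 2362232013 ≤ a * 2 ^ 32 → 46086738 ≤ s
  l2 : b * 2 ^ 32 ≤ 901943132 → 56479446 ≤ s
  h2 : 2491081032 ≤ b * 2 ^ 32 → 49545540 ≤ s
  l3 : c * 2 ^ 32 ≤ 901943132 → 56479446 ≤ s
  h3 : 2491081032 ≤ c * 2 ^ 32 → 49545540 ≤ s
  ct : s < 92173475 → 858993459 ≤ a * 2 ^ 32 ∧ a * 2 ^ 32 ≤ 2362232013 → 901943132 ≤ b * 2 ^ 32 ∧ b * 2 ^ 32 ≤ 2491081032 → 901943132 ≤ c * 2 ^ 32 ∧ c * 2 ^ 32 ≤ 2491081032 → F0 a b c

theorem Tri.s0 {a b c : ℝ} (T : Tri a b c) : ∃ s, (√(Uf a b c) + q0.p1.ψ a (A1f a b c) + q0.p2.ψ b (A2f a b c) +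
    q0.p2.ψ c (A3f a b c)) * 2 ^ 32 - 3265378372 * A1f a b c - 3407346111 * A2f a b c - 3407346111 * A3f a b c +
    (0 * a + -242311648 * b + -242311648 * c) + s = -4288977784 ∧ S0 a b c s := by
  have H := T.cl q0_all
  unfold Q8.Cl at H
  refine ⟨-4288977784 - q0.F (√(Uf a b c)) a b c (A1f a b c) (A2f a b c) (A3f a b c) * 2 ^ 32, ?_, ?_⟩
  · have e : q0.p1.ψ = q0.p1.ψ ∧ q0.p2.ψ = q0.p2.ψ ∧ q0.p3.ψ = q0.p2.ψ := ⟨rfl, rfl, rfl⟩
    have w0 : vl q0.p1.p.nw = (-3265378372 : ℤ) := vl_of (by decide)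
    have p0 : vl q0.p1.p.p = (0 : ℤ) := vl_of (by decide)
    have w1 : vl q0.p2.p.nw = (-3407346111 : ℤ) := vl_of (by decide)
    have p1 : vl q0.p2.p.p = (-242311648 : ℤ) := vl_of (by decide)
    have w2 : vl q0.p3.p.nw = (-3407346111 : ℤ) := vl_of (by decide)
    have p2 : vl q0.p3.p.p = (-242311648 : ℤ) := vl_of (by decide)
    rw [Q8.F, P8.f_eq, P8.f_eq, P8.f_eq, w0, w1, w2, p0, p1, p2, e.1, e.2.1, e.2.2]
    push_cast; ring
  generalize q0.F _ _ _ _ _ _ _ = F at H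
  simp only [q0, List.forall_mem_cons, Ho, ft, vl, if_true, Bool.false_eq_true, if_false, List.not_mem_nil,
    IsEmpty.forall_iff, implies_true, and_true, and_imp] at H
  push_cast at H
  obtain ⟨h, h0, h1, h2, h3, h4, h5, h6, h7, h8, h9, h10, h11, h12, h13⟩ := H
  refine ⟨by linarith only [h], fun u => by linarith only [h0 (by linarith only [u])], fun u => by linarith only [h1 (by linarith only [u])], fun u => by linarith only [h2 (by linarith only [u])], fun u => by linarith only [h3 (by linarith only [u])], fun u => by linarith only [h4 (by linarith only [u])], fun u => by linarith only [h5 (by linarith only [u])],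
    fun u x y z => ⟨?_, by linarith only [x.2, y.2, z.2]⟩⟩
  simp only [CT0, List.forall_mem_cons, Ct, cf, List.not_mem_nil, IsEmpty.forall_iff, implies_true, and_true]
  norm_num
  exact ⟨le_of_not_ge fun g => by linarith only [u, h6 (by linarith only [g]) (by linarith only [x.1]) (by linarith only [x.2]) (by linarith only [y.1]) (by linarith only [y.2]) (by linarith only [z.1]) (by linarith only [z.2])],
    le_of_not_ge fun g => by linarith only [u, h7 (by linarith only [g]) (by linarith only [x.1]) (by linarith only [x.2]) (by linarith only [y.1]) (by linarith only [y.2]) (by linarith only [z.1]) (by linarith only [z.2])],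
    le_of_not_ge fun g => by linarith only [u, h8 (by linarith only [g]) (by linarith only [x.1]) (by linarith only [x.2]) (by linarith only [y.1]) (by linarith only [y.2]) (by linarith only [z.1]) (by linarith only [z.2])],
    le_of_not_ge fun g => by linarith only [u, h9 (by linarith only [g]) (by linarith only [x.1]) (by linarith only [x.2]) (by linarith only [y.1]) (by linarith only [y.2]) (by linarith only [z.1]) (by linarith only [z.2])],
    le_of_not_ge fun g => by linarith only [u, h10 (by linarith only [g]) (by linarith only [x.1]) (by linarith only [x.2]) (by linarith only [y.1]) (by linarith only [y.2]) (by linarith only [z.1]) (by linarith only [z.2])],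
    le_of_not_ge fun g => by linarith only [u, h11 (by linarith only [g]) (by linarith only [x.1]) (by linarith only [x.2]) (by linarith only [y.1]) (by linarith only [y.2]) (by linarith only [z.1]) (by linarith only [z.2])],
    le_of_not_ge fun g => by linarith only [u, h12 (by linarith only [g]) (by linarith only [x.1]) (by linarith only [x.2]) (by linarith only [y.1]) (by linarith only [y.2]) (by linarith only [z.1]) (by linarith only [z.2])],
    le_of_not_ge fun g => by linarith only [u, h13 (by linarith only [g]) (by linarith only [x.1]) (by linarith only [x.2]) (by linarith only [y.1]) (by linarith only [y.2]) (by linarith only [z.1]) (by linarith only [z.2])]⟩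

structure S1 (a b c s : ℝ) : Prop where
  n : 0 ≤ s
  l1 : a * 2 ^ 32 ≤ 901943132 → 35694030 ≤ s
  h1 : 2491081032 ≤ a * 2 ^ 32 → 42627936 ≤ s
  l2 : b * 2 ^ 32 ≤ 708669604 → 46086738 ≤ s
  h2 : 2233382994 ≤ b * 2 ^ 32 → 46086738 ≤ s
  l3 : c * 2 ^ 32 ≤ 1288490189 → 46086738 ≤ s
  h3 : 3350074491 ≤ c * 2 ^ 32 → 46086738 ≤ s
  o2 : A3f a b c * 2 ^ 32 ≤ -2248415379 → 2362232013 ≤ c * 2 ^ 32 → c * 2 ^ 32 ≤ 2576980378 → 64663099 ≤ s
  a2 : 2248415379 ≤ A3f a b c * 2 ^ 32 → 2362232013 ≤ c * 2 ^ 32 → c * 2 ^ 32 ≤ 2576980378 → 27510377 ≤ s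
  o3 : A3f a b c * 2 ^ 32 ≤ -2248415379 → 2576980378 ≤ c * 2 ^ 32 → 26469595 ≤ s
  a3 : 2248415379 ≤ A3f a b c * 2 ^ 32 → 2576980378 ≤ c * 2 ^ 32 → 65703881 ≤ s
  o1 : A3f a b c * 2 ^ 32 ≤ -2248415379 → c * 2 ^ 32 ≤ 2362232013 → 901943132 ≤ a * 2 ^ 32 ∧ a * 2 ^ 32 ≤ 2491081032 → 708669604 ≤ b * 2 ^ 32 ∧ b * 2 ^ 32 ≤ 2233382994 → 1288490189 ≤ c * 2 ^ 32 ∧ c * 2 ^ 32 ≤ 3350074491 → 92173475 ≤ s
  ct : s < 92173475 → -2248415379 < A3f a b c * 2 ^ 32 → 901943132 ≤ a * 2 ^ 32 ∧ a * 2 ^ 32 ≤ 2491081032 → 708669604 ≤ b * 2 ^ 32 ∧ b * 2 ^ 32 ≤ 2233382994 → 1288490189 ≤ c * 2 ^ 32 ∧ c * 2 ^ 32 ≤ 3350074491 → F1 a b c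

theorem Tri.s1 {a b c : ℝ} (T : Tri a b c) : ∃ s, (√(Uf a b c) + q0.p2.ψ a (A1f a b c) + m1a.p2.ψ b (A2f a b c) +
    m1a.p3.ψ c (A3f a b c)) * 2 ^ 32 - 3407346111 * A1f a b c - 3407346111 * A2f a b c - 3549313850 * A3f a b c +
    (242311648 * a + 0 * b + 0 * c) + s = -4187893907 ∧ S1 a b c s := by
  have H := T.cl m1a_all
  unfold Q8.Cl at H
  refine ⟨-4187893907 - m1a.F (√(Uf a b c)) a b c (A1f a b c) (A2f a b c) (A3f a b c) * 2 ^ 32, ?_, ?_⟩
  · have e : m1a.p1.ψ = q0.p2.ψ ∧ m1a.p2.ψ = m1a.p2.ψ ∧ m1a.p3.ψ = m1a.p3.ψ := ⟨rfl, rfl, rfl⟩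
    have w0 : vl m1a.p1.p.nw = (-3407346111 : ℤ) := vl_of (by decide)
    have p0 : vl m1a.p1.p.p = (242311648 : ℤ) := vl_of (by decide)
    have w1 : vl m1a.p2.p.nw = (-3407346111 : ℤ) := vl_of (by decide)
    have p1 : vl m1a.p2.p.p = (0 : ℤ) := vl_of (by decide)
    have w2 : vl m1a.p3.p.nw = (-3549313850 : ℤ) := vl_of (by decide)
    have p2 : vl m1a.p3.p.p = (0 : ℤ) := vl_of (by decide)
    rw [Q8.F, P8.f_eq, P8.f_eq, P8.f_eq, w0, w1, w2, p0, p1, p2, e.1, e.2.1, e.2.2]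
    push_cast; ring
  generalize m1a.F _ _ _ _ _ _ _ = F at H
  simp only [m1a, List.forall_mem_cons, Ho, ft, vl, if_true, Bool.false_eq_true, if_false, List.not_mem_nil,
    IsEmpty.forall_iff, implies_true, and_true, and_imp] at H
  push_cast at H
  obtain ⟨h, h0, h1, h2, h3, h4, h5, h6, h7, h8, h9, h10, h11, h12, h13, h14, h15, h16, h17, h18, h19, h20, h21⟩ := H
  refine ⟨by linarith only [h], fun u => by linarith only [h0 (by linarith only [u])], fun u => by linarith only [h1 (by linarith only [u])], fun u => by linarith only [h2 (by linarith only [u])], fun u => by linarith only [h3 (by linarith only [u])], fun u => by linarith only [h4 (by linarith only [u])], fun u => by linarith only [h5 (by linarith only [u])],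
    fun u v w => by linarith only [h6 (by linarith only [u]) (by linarith only [v]) (by linarith only [w])],
    fun u v w => by linarith only [h7 (by linarith only [u]) (by linarith only [v]) (by linarith only [w])],
    fun u v => by linarith only [h8 (by linarith only [u]) (by linarith only [v])],
    fun u v => by linarith only [h9 (by linarith only [u]) (by linarith only [v])],
    fun u v x y z => by linarith only [h10 (by linarith only [u]) (by linarith only [v]) (by linarith only [x.1]) (by linarith only [x.2]) (by linarith only [y.1]) (by linarith only [y.2]) (by linarith only [z.1]) (by linarith only [z.2])],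
    fun u v x y z => ⟨?_, v, by linarith only [x.2, y.2, z.2]⟩⟩
  simp only [CT1, List.forall_mem_cons, Ct, cf, List.not_mem_nil, IsEmpty.forall_iff, implies_true, and_true]
  norm_num
  exact ⟨le_of_not_ge fun g => by linarith only [u, h11 (by linarith only [g]) (by linarith only [v]) (by linarith only [x.1]) (by linarith only [x.2]) (by linarith only [y.1]) (by linarith only [y.2]) (by linarith only [z.1]) (by linarith only [z.2])],
    le_of_not_ge fun g => by linarith only [u, h12 (by linarith only [g]) (by linarith only [v]) (by linarith only [x.1]) (by linarith only [x.2]) (by linarith only [y.1]) (by linarith only [y.2]) (by linarith only [z.1]) (by linarith only [z.2])],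
    le_of_not_ge fun g => by linarith only [u, h13 (by linarith only [g]) (by linarith only [v]) (by linarith only [x.1]) (by linarith only [x.2]) (by linarith only [y.1]) (by linarith only [y.2]) (by linarith only [z.1]) (by linarith only [z.2])],
    le_of_not_ge fun g => by linarith only [u, h14 (by linarith only [g]) (by linarith only [v]) (by linarith only [x.1]) (by linarith only [x.2]) (by linarith only [y.1]) (by linarith only [y.2]) (by linarith only [z.1]) (by linarith only [z.2])],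
    le_of_not_ge fun g => by linarith only [u, h15 (by linarith only [g]) (by linarith only [v]) (by linarith only [x.1]) (by linarith only [x.2]) (by linarith only [y.1]) (by linarith only [y.2]) (by linarith only [z.1]) (by linarith only [z.2])],
    le_of_not_ge fun g => by linarith only [u, h16 (by linarith only [g]) (by linarith only [v]) (by linarith only [x.1]) (by linarith only [x.2]) (by linarith only [y.1]) (by linarith only [y.2]) (by linarith only [z.1]) (by linarith only [z.2])],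
    le_of_not_ge fun g => by linarith only [u, h17 (by linarith only [g]) (by linarith only [v]) (by linarith only [x.1]) (by linarith only [x.2]) (by linarith only [y.1]) (by linarith only [y.2]) (by linarith only [z.1]) (by linarith only [z.2])],
    le_of_not_ge fun g => by linarith only [u, h18 (by linarith only [g]) (by linarith only [v]) (by linarith only [x.1]) (by linarith only [x.2]) (by linarith only [y.1]) (by linarith only [y.2]) (by linarith only [z.1]) (by linarith only [z.2])],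
    le_of_not_ge fun g => by linarith only [u, h19 (by linarith only [g]) (by linarith only [v]) (by linarith only [x.1]) (by linarith only [x.2]) (by linarith only [y.1]) (by linarith only [y.2]) (by linarith only [z.1]) (by linarith only [z.2])],
    le_of_not_ge fun g => by linarith only [u, h20 (by linarith only [g]) (by linarith only [v]) (by linarith only [x.1]) (by linarith only [x.2]) (by linarith only [y.1]) (by linarith only [y.2]) (by linarith only [z.1]) (by linarith only [z.2])],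
    le_of_not_ge fun g => by linarith only [u, h21 (by linarith only [g]) (by linarith only [v]) (by linarith only [x.1]) (by linarith only [x.2]) (by linarith only [y.1]) (by linarith only [y.2]) (by linarith only [z.1]) (by linarith only [z.2])]⟩

theorem obt {a b c s a' b' t : ℝ} (u : S1 a b c s) (v : S1 a' b' c t) (d : 0 ≤ A3f a b c + A3f a' b' c)
    (w : s + t < 92173475) (z : s < 92173475) (x1 : 901943132 ≤ a * 2 ^ 32 ∧ a * 2 ^ 32 ≤ 2491081032)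
    (x2 : 708669604 ≤ b * 2 ^ 32 ∧ b * 2 ^ 32 ≤ 2233382994) (x3 : 1288490189 ≤ c * 2 ^ 32 ∧ c * 2 ^ 32 ≤ 3350074491) :
    -2248415379 < A3f a b c * 2 ^ 32 := by
  by_contra h
  have h := not_lt.1 h
  have g : 2248415379 ≤ A3f a' b' c * 2 ^ 32 := by linarith
  rcases le_total (c * 2 ^ 32) 2362232013 with p | p
  · linarith [u.o1 h p x1 x2 x3]
  rcases le_total (c * 2 ^ 32) 2576980378 with q | q
  · linarith [u.o2 h p q, v.a2 g p q]
  · linarith [u.o3 h q, v.a3 g q]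

structure Z0 (y : ℕ → ℝ) : Prop where
  b : InB bx0 y
  f0 : F0 (y 0) (y 2) (y 7)
  f1 : F0 (y 0) (y 3) (y 6)
  f2 : F0 (y 1) (y 5) (y 8)
  f3 : F0 (y 1) (y 4) (y 9)
  f4 : F1 (y 2) (y 10) (y 14)
  f5 : F1 (y 3) (y 11) (y 15)
  f6 : F1 (y 4) (y 12) (y 14)
  f7 : F1 (y 5) (y 13) (y 15)
  f8 : F1 (y 6) (y 10) (y 17)
  f9 : F1 (y 7) (y 11) (y 16)
  f10 : F1 (y 8) (y 12) (y 16)
  f11 : F1 (y 9) (y 13) (y 17)

theorem Cfg.z0 (C : Cfg y) (h : 34884712220 < ary y * 2 ^ 32) : Z0 y := by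
  obtain ⟨s0, e0, u0⟩ := C.t0.s0
  obtain ⟨s1, e1, u1⟩ := C.t1.s0
  obtain ⟨s2, e2, u2⟩ := C.t2.s0
  obtain ⟨s3, e3, u3⟩ := C.t3.s0
  obtain ⟨s4, e4, u4⟩ := C.t4.s1
  obtain ⟨s5, e5, u5⟩ := C.t5.s1
  obtain ⟨s6, e6, u6⟩ := C.t6.s1
  obtain ⟨s7, e7, u7⟩ := C.t7.s1
  obtain ⟨s8, e8, u8⟩ := C.t8.s1
  obtain ⟨s9, e9, u9⟩ := C.t9.s1
  obtain ⟨s10, e10, u10⟩ := C.t10.s1
  obtain ⟨s11, e11, u11⟩ := C.t11.s1
  have g0 := P8.add (q := q0.p1) (by decide) C.t0.q1 C.d0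
  have g1 := P8.add (q := q0.p1) (by decide) C.t2.q1 C.d1
  have g2 := P8.add (q := q0.p2) (by decide) C.t0.q2 C.d2
  have g3 := P8.add (q := q0.p2) (by decide) C.t1.q2 C.d3
  have g4 := P8.add (q := q0.p2) (by decide) C.t3.q2 C.d4
  have g5 := P8.add (q := q0.p2) (by decide) C.t2.q2 C.d5
  have g6 := P8.add (q := q0.p2) (by decide) C.t1.q3 C.d6
  have g7 := P8.add (q := q0.p2) (by decide) C.t0.q3 C.d7
  have g8 := P8.add (q := q0.p2) (by decide) C.t2.q3 C.d8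
  have g9 := P8.add (q := q0.p2) (by decide) C.t3.q3 C.d9
  have g10 := P8.add (q := m1a.p2) (by decide) C.t4.q2 C.d10
  have g11 := P8.add (q := m1a.p2) (by decide) C.t5.q2 C.d11
  have g12 := P8.add (q := m1a.p2) (by decide) C.t6.q2 C.d12
  have g13 := P8.add (q := m1a.p2) (by decide) C.t7.q2 C.d13
  have g14 := P8.add (q := m1a.p3) (by decide) C.t4.q3 C.d14
  have g15 := P8.add (q := m1a.p3) (by decide) C.t5.q3 C.d15
  have g16 := P8.add (q := m1a.p3) (by decide) C.t9.q3 C.d16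
  have g17 := P8.add (q := m1a.p3) (by decide) C.t8.q3 C.d17
  have S : s0 + s1 + s2 + s3 + s4 + s5 + s6 + s7 + s8 + s9 + s10 + s11 < 92173475 := by
    unfold ary at h
    linarith only [h, pi_lt_d20, e0, e1, e2, e3, e4, e5, e6, e7, e8, e9, e10, e11, g0, g1, g2, g3, g4, g5, g6, g7, g8, g9, g10, g11, g12, g13, g14, g15, g16, g17, C.k0, C.k1, C.k2, C.k3, C.k4, C.k5, C.k6, C.k7]
  clear e0 e1 e2 e3 e4 e5 e6 e7 e8 e9 e10 e11 g0 g1 g2 g3 g4 g5 g6 g7 g8 g9 g10 g11 g12 g13 g14 g15 g16 g17 h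
  have v0 : s0 < 92173475 := by linarith only [S, u1.n, u2.n, u3.n, u4.n, u5.n, u6.n, u7.n, u8.n, u9.n, u10.n, u11.n]
  have v1 : s1 < 92173475 := by linarith only [S, u0.n, u2.n, u3.n, u4.n, u5.n, u6.n, u7.n, u8.n, u9.n, u10.n, u11.n]
  have v2 : s2 < 92173475 := by linarith only [S, u0.n, u1.n, u3.n, u4.n, u5.n, u6.n, u7.n, u8.n, u9.n, u10.n, u11.n]
  have v3 : s3 < 92173475 := by linarith only [S, u0.n, u1.n, u2.n, u4.n, u5.n, u6.n, u7.n, u8.n, u9.n, u10.n, u11.n]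
  have v4 : s4 < 92173475 := by linarith only [S, u0.n, u1.n, u2.n, u3.n, u5.n, u6.n, u7.n, u8.n, u9.n, u10.n, u11.n]
  have v5 : s5 < 92173475 := by linarith only [S, u0.n, u1.n, u2.n, u3.n, u4.n, u6.n, u7.n, u8.n, u9.n, u10.n, u11.n]
  have v6 : s6 < 92173475 := by linarith only [S, u0.n, u1.n, u2.n, u3.n, u4.n, u5.n, u7.n, u8.n, u9.n, u10.n, u11.n]
  have v7 : s7 < 92173475 := by linarith only [S, u0.n, u1.n, u2.n, u3.n, u4.n, u5.n, u6.n, u8.n, u9.n, u10.n, u11.n]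
  have v8 : s8 < 92173475 := by linarith only [S, u0.n, u1.n, u2.n, u3.n, u4.n, u5.n, u6.n, u7.n, u9.n, u10.n, u11.n]
  have v9 : s9 < 92173475 := by linarith only [S, u0.n, u1.n, u2.n, u3.n, u4.n, u5.n, u6.n, u7.n, u8.n, u10.n, u11.n]
  have v10 : s10 < 92173475 := by linarith only [S, u0.n, u1.n, u2.n, u3.n, u4.n, u5.n, u6.n, u7.n, u8.n, u9.n, u11.n]
  have v11 : s11 < 92173475 := by linarith only [S, u0.n, u1.n, u2.n, u3.n, u4.n, u5.n, u6.n, u7.n, u8.n, u9.n, u10.n]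
  have w0 : s0 + s1 < 92173475 := by linarith only [S, u2.n, u3.n, u4.n, u5.n, u6.n, u7.n, u8.n, u9.n, u10.n, u11.n]
  have b0 := two u0.l1 u1.l1 u0.h1 u1.h1 w0 (by norm_num) (by norm_num)
  have w1 : s2 + s3 < 92173475 := by linarith only [S, u0.n, u1.n, u4.n, u5.n, u6.n, u7.n, u8.n, u9.n, u10.n, u11.n]
  have b1 := two u2.l1 u3.l1 u2.h1 u3.h1 w1 (by norm_num) (by norm_num)
  have w2 : s0 + s4 < 92173475 := by linarith only [S, u1.n, u2.n, u3.n, u5.n, u6.n, u7.n, u8.n, u9.n, u10.n, u11.n]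
  have b2 := two u0.l2 u4.l1 u0.h2 u4.h1 w2 (by norm_num) (by norm_num)
  have w3 : s1 + s5 < 92173475 := by linarith only [S, u0.n, u2.n, u3.n, u4.n, u6.n, u7.n, u8.n, u9.n, u10.n, u11.n]
  have b3 := two u1.l2 u5.l1 u1.h2 u5.h1 w3 (by norm_num) (by norm_num)
  have w4 : s3 + s6 < 92173475 := by linarith only [S, u0.n, u1.n, u2.n, u4.n, u5.n, u7.n, u8.n, u9.n, u10.n, u11.n]
  have b4 := two u3.l2 u6.l1 u3.h2 u6.h1 w4 (by norm_num) (by norm_num)
  have w5 : s2 + s7 < 92173475 := by linarith only [S, u0.n, u1.n, u3.n, u4.n, u5.n, u6.n, u8.n, u9.n, u10.n, u11.n]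
  have b5 := two u2.l2 u7.l1 u2.h2 u7.h1 w5 (by norm_num) (by norm_num)
  have w6 : s1 + s8 < 92173475 := by linarith only [S, u0.n, u2.n, u3.n, u4.n, u5.n, u6.n, u7.n, u9.n, u10.n, u11.n]
  have b6 := two u1.l3 u8.l1 u1.h3 u8.h1 w6 (by norm_num) (by norm_num)
  have w7 : s0 + s9 < 92173475 := by linarith only [S, u1.n, u2.n, u3.n, u4.n, u5.n, u6.n, u7.n, u8.n, u10.n, u11.n]
  have b7 := two u0.l3 u9.l1 u0.h3 u9.h1 w7 (by norm_num) (by norm_num)
  have w8 : s2 + s10 < 92173475 := by linarith only [S, u0.n, u1.n, u3.n, u4.n, u5.n, u6.n, u7.n, u8.n, u9.n, u11.n]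
  have b8 := two u2.l3 u10.l1 u2.h3 u10.h1 w8 (by norm_num) (by norm_num)
  have w9 : s3 + s11 < 92173475 := by linarith only [S, u0.n, u1.n, u2.n, u4.n, u5.n, u6.n, u7.n, u8.n, u9.n, u10.n]
  have b9 := two u3.l3 u11.l1 u3.h3 u11.h1 w9 (by norm_num) (by norm_num)
  have w10 : s4 + s8 < 92173475 := by linarith only [S, u0.n, u1.n, u2.n, u3.n, u5.n, u6.n, u7.n, u9.n, u10.n, u11.n]
  have b10 := two u4.l2 u8.l2 u4.h2 u8.h2 w10 (by norm_num) (by norm_num)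
  have w11 : s5 + s9 < 92173475 := by linarith only [S, u0.n, u1.n, u2.n, u3.n, u4.n, u6.n, u7.n, u8.n, u10.n, u11.n]
  have b11 := two u5.l2 u9.l2 u5.h2 u9.h2 w11 (by norm_num) (by norm_num)
  have w12 : s6 + s10 < 92173475 := by linarith only [S, u0.n, u1.n, u2.n, u3.n, u4.n, u5.n, u7.n, u8.n, u9.n, u11.n]
  have b12 := two u6.l2 u10.l2 u6.h2 u10.h2 w12 (by norm_num) (by norm_num)
  have w13 : s7 + s11 < 92173475 := by linarith only [S, u0.n, u1.n, u2.n, u3.n, u4.n, u5.n, u6.n, u8.n, u9.n, u10.n]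
  have b13 := two u7.l2 u11.l2 u7.h2 u11.h2 w13 (by norm_num) (by norm_num)
  have w14 : s4 + s6 < 92173475 := by linarith only [S, u0.n, u1.n, u2.n, u3.n, u5.n, u7.n, u8.n, u9.n, u10.n, u11.n]
  have b14 := two u4.l3 u6.l3 u4.h3 u6.h3 w14 (by norm_num) (by norm_num)
  have w15 : s5 + s7 < 92173475 := by linarith only [S, u0.n, u1.n, u2.n, u3.n, u4.n, u6.n, u8.n, u9.n, u10.n, u11.n]
  have b15 := two u5.l3 u7.l3 u5.h3 u7.h3 w15 (by norm_num) (by norm_num)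
  have w16 : s9 + s10 < 92173475 := by linarith only [S, u0.n, u1.n, u2.n, u3.n, u4.n, u5.n, u6.n, u7.n, u8.n, u11.n]
  have b16 := two u9.l3 u10.l3 u9.h3 u10.h3 w16 (by norm_num) (by norm_num)
  have w17 : s8 + s11 < 92173475 := by linarith only [S, u0.n, u1.n, u2.n, u3.n, u4.n, u5.n, u6.n, u7.n, u9.n, u10.n]
  have b17 := two u8.l3 u11.l3 u8.h3 u11.h3 w17 (by norm_num) (by norm_num)
  have a4 := obt u4 u6 C.d14 w14 v4 b2 b10 b14
  have a6 := obt u6 u4 (add_comm (A3f (y 2) (y 10) (y 14)) _ ▸ C.d14) (add_comm s4 _ ▸ w14) v6 b4 b12 b14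
  have a5 := obt u5 u7 C.d15 w15 v5 b3 b11 b15
  have a7 := obt u7 u5 (add_comm (A3f (y 3) (y 11) (y 15)) _ ▸ C.d15) (add_comm s5 _ ▸ w15) v7 b5 b13 b15
  have a9 := obt u9 u10 C.d16 w16 v9 b7 b11 b16
  have a10 := obt u10 u9 (add_comm (A3f (y 7) (y 11) (y 16)) _ ▸ C.d16) (add_comm s9 _ ▸ w16) v10 b8 b12 b16
  have a8 := obt u8 u11 C.d17 w17 v8 b6 b10 b17
  have a11 := obt u11 u8 (add_comm (A3f (y 6) (y 10) (y 17)) _ ▸ C.d17) (add_comm s8 _ ▸ w17) v11 b9 b13 b17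
  exact ⟨inB 
    (bxs b0 (by unfold vl; norm_num))
    (bxs b1 (by unfold vl; norm_num))
    (bxs b2 (by unfold vl; norm_num))
    (bxs b3 (by unfold vl; norm_num))
    (bxs b4 (by unfold vl; norm_num))
    (bxs b5 (by unfold vl; norm_num))
    (bxs b6 (by unfold vl; norm_num))
    (bxs b7 (by unfold vl; norm_num))
    (bxs b8 (by unfold vl; norm_num))
    (bxs b9 (by unfold vl; norm_num))
    (bxs b10 (by unfold vl; norm_num))
    (bxs b11 (by unfold vl; norm_num))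
    (bxs b12 (by unfold vl; norm_num))
    (bxs b13 (by unfold vl; norm_num))
    (bxs b14 (by unfold vl; norm_num))
    (bxs b15 (by unfold vl; norm_num))
    (bxs b16 (by unfold vl; norm_num))
    (bxs b17 (by unfold vl; norm_num)),
    u0.ct v0 b0 b2 b7,
    u1.ct v1 b0 b3 b6,
    u2.ct v2 b1 b5 b8,
    u3.ct v3 b1 b4 b9,
    u4.ct v4 a4 b2 b10 b14,
    u5.ct v5 a5 b3 b11 b15,
    u6.ct v6 a6 b4 b12 b14,
    u7.ct v7 a7 b5 b13 b15,
    u8.ct v8 a8 b6 b10 b17,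
    u9.ct v9 a9 b7 b11 b16,
    u10.ct v10 a10 b8 b12 b16,
    u11.ct v11 a11 b9 b13 b17⟩

end Pool.Agent.Work.MP_c2ab8b_gt.K8
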