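import Pool.Agent.Work.MP_c2ab8b_gt.K8.RT0
import Pool.Agent.Work.MP_c2ab8b_gt.K8.RT1
import Pool.Agent.Work.MP_c2ab8b_gt.K8.RT2
import Pool.Agent.Work.MP_c2ab8b_gt.K8.RT3
import Pool.Agent.Work.MP_c2ab8b_gt.K8.RT4
import Pool.Agent.Work.MP_c2ab8b_gt.K8.RT5
import Pool.Agent.Work.MP_c2ab8b_gt.K8.RT6
import Pool.Agent.Work.MP_c2ab8b_gt.K8.RT7
import Pool.Agent.Work.MP_c2ab8b_gt.K8.RT8
import Pool.Agent.Work.MP_c2ab8b_gt.K8.RT9
import Pool.Agent.Work.MP_c2ab8b_gt.K8.RT10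
import Pool.Agent.Work.MP_c2ab8b_gt.K8.RT11
import Pool.Agent.Work.MP_c2ab8b_gt.K8.RT12
import Pool.Agent.Work.MP_c2ab8b_gt.K8.RT13
import Pool.Agent.Work.MP_c2ab8b_gt.K8.RT14
import Pool.Agent.Work.MP_c2ab8b_gt.K8.RT15
import Pool.Agent.Work.MP_c2ab8b_gt.K8.RT16
import Pool.Agent.Work.MP_c2ab8b_gt.K8.RT17
import Pool.Agent.Work.MP_c2ab8b_gt.K8.RT18
import Pool.Agent.Work.MP_c2ab8b_gt.K8.RT19
import Pool.Agent.Work.MP_c2ab8b_gt.K8.TMd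

/- The certificates cover the boxes. -/

noncomputable section
namespace Pool.Agent.Work.MP_c2ab8b_gt.K8

theorem c1b0_cov : Cov c1b0.Good 4503600486363955 751619277 4503600529313628 794568950 4503600529313628 794568950 :=
  have w : c1b0.wf = true := by decide +kernel
  (sp2 (sp3 (sp1 (cvT w c1b0_0) (cvT w c1b0_1)) (sp1 (sp2 (cvT w c1b0_2) (cvT w c1b0_3)) (cvT w c1b0_4))) (sp3 (sp1 (cvT w c1b0_5) (cvT w c1b0_6)) (cvT w c1b0_7)))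

theorem c1b1_cov : Cov c1b1.Good 4503600529313628 794568950 4503600336040099 762356696 4503600915860684 1030792152 :=
  have w : c1b1.wf = true := by decide +kernel
  (sp3 (sp1 (sp2 (cvT w c1b1_0) (cvT w c1b1_1)) (cvT w c1b1_2)) (sp1 (sp2 (sp3 (sp1 (sp2 (cvT w c1b1_3) (cvT w c1b1_4)) (sp2 (cvT w c1b1_5) (cvT w c1b1_6))) (sp1 (sp2 (cvT w c1b1_7) (sp3 (sp1 (sp2 (cvT w c1b1_8) (cvT w c1b1_9)) (cvT w c1b1_10)) (cvT w c1b1_11))) (sp2 (sp3 (cvT w c1b1_12) (cvT w c1b1_13)) (sp3 (sp1 (cvT w c1b1_14) (cvT w c1b1_15)) (cvT w c1b1_16))))) (sp3 (cvT w c1b1_17) (cvT w c1b1_18))) (sp2 (sp3 (cvT w c1b1_19) (sp1 (sp2 (cvT w c1b1_20) (cvT w c1b1_21)) (sp2 (cvT w c1b1_22) (cvT w c1b1_23)))) (cvT w c1b1_24))))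

theorem c1b2_cov : Cov c1b2.Good 4503600529313628 794568950 4503600336040099 762356696 4503600915860684 1030792152 :=
  have w : c1b2.wf = true := by decide +kernel
  (sp3 (sp1 (sp2 (cvT w c1b2_0) (cvT w c1b2_1)) (sp2 (cvT w c1b2_2) (cvT w c1b2_3))) (sp1 (sp2 (sp3 (sp1 (sp2 (sp3 (cvT w c1b2_4) (sp1 (cvT w c1b2_5) (cvT w c1b2_6))) (cvT w c1b2_7)) (cvT w c1b2_8)) (sp1 (sp2 (cvT w c1b2_9) (sp3 (cvT w c1b2_10) (cvT w c1b2_11))) (cvT w c1b2_12))) (cvT w c1b2_13)) (sp2 (sp3 (cvT w c1b2_14) (cvT w c1b2_15)) (cvT w c1b2_16))))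

theorem c2b0_cov : Cov c2b0.Good 4503600486363955 751619277 4503600529313628 794568950 4503600529313628 794568950 :=
  have w : c2b0.wf = true := by decide +kernel
  (sp2 (sp3 (sp1 (cvT w c2b0_0) (cvT w c2b0_1)) (sp1 (sp2 (cvT w c2b0_2) (cvT w c2b0_3)) (cvT w c2b0_4))) (sp3 (sp1 (cvT w c2b0_5) (cvT w c2b0_6)) (cvT w c2b0_7)))

theorem c2b1_cov : Cov c2b1.Good 4503600529313628 794568950 4503600336040099 762356696 4503600915860684 1030792152 :=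
  have w : c2b1.wf = true := by decide +kernel
  (sp3 (sp1 (sp2 (cvT w c2b1_0) (cvT w c2b1_1)) (cvT w c2b1_2)) (sp1 (sp2 (sp3 (sp1 (sp2 (cvT w c2b1_3) (cvT w c2b1_4)) (sp2 (cvT w c2b1_5) (cvT w c2b1_6))) (sp1 (sp2 (cvT w c2b1_7) (sp3 (sp1 (sp2 (cvT w c2b1_8) (cvT w c2b1_9)) (cvT w c2b1_10)) (cvT w c2b1_11))) (sp2 (sp3 (cvT w c2b1_12) (cvT w c2b1_13)) (sp3 (sp1 (cvT w c2b1_14) (cvT w c2b1_15)) (cvT w c2b1_16))))) (sp3 (cvT w c2b1_17) (cvT w c2b1_18))) (sp2 (sp3 (cvT w c2b1_19) (sp1 (sp2 (cvT w c2b1_20) (cvT w c2b1_21)) (cvT w c2b1_22))) (cvT w c2b1_23))))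

theorem c2b2_cov : Cov c2b2.Good 4503600529313628 794568950 4503600336040099 762356696 4503600915860684 1030792152 :=
  have w : c2b2.wf = true := by decide +kernel
  (sp3 (sp1 (sp2 (cvT w c2b2_0) (cvT w c2b2_1)) (sp2 (sp3 (cvT w c2b2_2) (cvT w c2b2_3)) (cvT w c2b2_4))) (sp1 (sp2 (sp3 (sp1 (sp2 (sp3 (cvT w c2b2_5) (sp1 (sp2 (cvT w c2b2_6) (sp3 (cvT w c2b2_7) (cvT w c2b2_8))) (cvT w c2b2_9))) (cvT w c2b2_10)) (cvT w c2b2_11)) (sp1 (sp2 (cvT w c2b2_12) (cvT w c2b2_13)) (cvT w c2b2_14))) (cvT w c2b2_15)) (sp2 (sp3 (cvT w c2b2_16) (sp1 (cvT w c2b2_17) (cvT w c2b2_18))) (cvT w c2b2_19))))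

theorem c3b0_cov : Cov c3b0.Good 4503600486363955 751619277 4503600529313628 794568950 4503600529313628 794568950 :=
  have w : c3b0.wf = true := by decide +kernel
  (sp2 (sp3 (sp1 (cvT w c3b0_0) (cvT w c3b0_1)) (sp1 (sp2 (cvT w c3b0_2) (cvT w c3b0_3)) (cvT w c3b0_4))) (sp3 (sp1 (cvT w c3b0_5) (cvT w c3b0_6)) (cvT w c3b0_7)))

theorem c3b1_cov : Cov c3b1.Good 4503600529313628 794568950 4503600336040099 762356696 4503600915860684 1030792152 :=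
  have w : c3b1.wf = true := by decide +kernel
  (sp3 (sp1 (cvT w c3b1_0) (cvT w c3b1_1)) (sp1 (sp2 (sp3 (sp1 (sp2 (sp3 (cvT w c3b1_2) (cvT w c3b1_3)) (cvT w c3b1_4)) (cvT w c3b1_5)) (sp1 (sp2 (cvT w c3b1_6) (sp3 (sp1 (sp2 (cvT w c3b1_7) (cvT w c3b1_8)) (cvT w c3b1_9)) (cvT w c3b1_10))) (sp2 (sp3 (sp1 (cvT w c3b1_11) (cvT w c3b1_12)) (cvT w c3b1_13)) (sp3 (cvT w c3b1_14) (cvT w c3b1_15))))) (sp3 (cvT w c3b1_16) (sp1 (cvT w c3b1_17) (cvT w c3b1_18)))) (sp2 (sp3 (cvT w c3b1_19) (sp1 (sp2 (cvT w c3b1_20) (cvT w c3b1_21)) (cvT w c3b1_22))) (cvT w c3b1_23))))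

theorem c3b2_cov : Cov c3b2.Good 4503600529313628 794568950 4503600336040099 762356696 4503600915860684 1030792152 :=
  have w : c3b2.wf = true := by decide +kernel
  (sp3 (sp1 (sp2 (cvT w c3b2_0) (cvT w c3b2_1)) (sp2 (cvT w c3b2_2) (cvT w c3b2_3))) (sp1 (sp2 (sp3 (sp1 (sp2 (sp3 (cvT w c3b2_4) (sp1 (cvT w c3b2_5) (cvT w c3b2_6))) (sp3 (cvT w c3b2_7) (cvT w c3b2_8))) (cvT w c3b2_9)) (sp1 (sp2 (cvT w c3b2_10) (sp3 (sp1 (cvT w c3b2_11) (cvT w c3b2_12)) (cvT w c3b2_13))) (sp2 (cvT w c3b2_14) (cvT w c3b2_15)))) (cvT w c3b2_16)) (sp2 (sp3 (cvT w c3b2_17) (sp1 (cvT w c3b2_18) (cvT w c3b2_19))) (cvT w c3b2_20))))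

theorem z1a0_cov : Cov z1a0.Good 4503600486363955 751619277 4503600529313628 794568950 4503600529313628 794568950 :=
  have w : z1a0.wf = true := by decide +kernel
  (sp2 (sp3 (sp1 (sp2 (cvT w z1a0_0) (cvT w z1a0_1)) (cvT w z1a0_2)) (sp1 (sp2 (cvT w z1a0_3) (cvT w z1a0_4)) (cvT w z1a0_5))) (sp3 (sp1 (sp3 (cvT w z1a0_6) (cvT w z1a0_7)) (cvT w z1a0_8)) (cvT w z1a0_9)))

theorem z1a1_cov : Cov z1a1.Good 4503600529313628 794568950 4503600336040099 762356696 4503600915860684 1030792152 :=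
  have w : z1a1.wf = true := by decide +kernel
  (sp3 (sp1 (sp2 (cvT w z1a1_0) (sp3 (cvT w z1a1_1) (cvT w z1a1_2))) (sp2 (sp3 (cvT w z1a1_3) (cvT w z1a1_4)) (cvT w z1a1_5))) (sp1 (sp2 (sp3 (sp1 (sp2 (sp3 (cvT w z1a1_6) (sp1 (cvT w z1a1_7) (cvT w z1a1_8))) (cvT w z1a1_9)) (cvT w z1a1_10)) (sp1 (sp2 (cvT w z1a1_11) (sp3 (sp1 (sp2 (cvT w z1a1_12) (cvT w z1a1_13)) (cvT w z1a1_14)) (cvT w z1a1_15))) (sp2 (sp3 (cvT w z1a1_16) (cvT w z1a1_17)) (sp3 (sp1 (cvT w z1a1_18) (cvT w z1a1_19)) (cvT w z1a1_20))))) (sp3 (cvT w z1a1_21) (sp1 (sp2 (sp3 (cvT w z1a1_22) (cvT w z1a1_23)) (cvT w z1a1_24)) (sp2 (cvT w z1a1_25) (cvT w z1a1_26))))) (sp2 (sp3 (cvT w z1a1_27) (sp1 (sp2 (cvT w z1a1_28) (sp3 (sp1 (cvT w z1a1_29) (cvT w z1a1_30)) (cvT w z1a1_31))) (sp2 (cvT w z1a1_32) (cvT w z1a1_33)))) (cvT w z1a1_34))))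

theorem d10_cov : Cov d10.Good 4503600685220941 485975550 4503600885795913 405015417 4503600885795913 405015417 :=
  have w : d10.wf = true := by decide +kernel
  (sp1 (sp2 (cvT w d10_0) (cvT w d10_1)) (sp2 (cvT w d10_2) (cvT w d10_3)))

theorem d11_cov : Cov d11.Good 4503600885795913 405015417 4503600578276255 445173361 4503601418801355 526348243 :=
  have w : d11.wf = true := by decide +kernel
  (sp3 (cvT w d11_0) (sp2 (sp1 (cvT w d11_1) (cvT w d11_2)) (cvT w d11_3)))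

theorem d12_cov : Cov d12.Good 4503600885795913 405015417 4503600578276255 445173361 4503601418801355 526348243 :=
  have w : d12.wf = true := by decide +kernel
  (sp3 (sp2 (cvT w d12_0) (cvT w d12_1)) (sp2 (cvT w d12_2) (cvT w d12_3)))

theorem z2c0_cov : Cov z2c0.Good 4503600685387998 485760802 4503600885773447 405015417 4503600885773447 405015417 :=
  have w : z2c0.wf = true := by decide +kernel
  (sp1 (sp2 (sp3 (cvT w z2c0_0) (cvT w z2c0_1)) (sp3 (cvT w z2c0_2) (cvT w z2c0_3))) (sp2 (sp3 (cvT w z2c0_4) (cvT w z2c0_5)) (sp3 (cvT w z2c0_6) (cvT w z2c0_7))))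

theorem z2c1_cov : Cov z2c1.Good 4503600885773447 405015417 4503600578594924 444958612 4503601419061002 526133494 :=
  have w : z2c1.wf = true := by decide +kernel
  (sp3 (sp2 (sp1 (cvT w z2c1_0) (cvT w z2c1_1)) (sp1 (cvT w z2c1_2) (cvT w z2c1_3))) (sp2 (sp1 (cvT w z2c1_4) (cvT w z2c1_5)) (sp1 (cvT w z2c1_6) (cvT w z2c1_7))))

theorem z3b0_cov : Cov z3b0.Good 4503601006651552 164497248 4503601136599538 154189326 4503601136599538 154189326 :=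
  have w : z3b0.wf = true := by decide +kernel
  (sp1 (sp2 (cvT w z3b0_0) (cvT w z3b0_1)) (sp2 (cvT w z3b0_2) (cvT w z3b0_3)))

theorem z3b1_cov : Cov z3b1.Good 4503601136599538 154189326 4503600869793706 153759830 4503601752350464 192844032 :=
  have w : z3b1.wf = true := by decide +kernel
  (sp3 (sp1 (sp2 (cvT w z3b1_0) (cvT w z3b1_1)) (cvT w z3b1_2)) (sp1 (cvT w z3b1_3) (cvT w z3b1_4)))

theorem fz0_cov : Cov fz0.Good 4503601083531296 87617334 4503601209612946 81174883 4503601209612946 81174883 :=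
  have w : fz0.wf = true := by decide +kernel
  (sp2 (cvT w fz0_0) (cvT w fz0_1))

theorem fz1_cov : Cov fz1.Good 4503601209612946 81174883 4503600943665794 79886392 4503601841686461 103508713 :=
  have w : fz1.wf = true := by decide +kernel
  (sp3 (cvT w fz1_0) (cvT w fz1_1))

end Pool.Agent.Work.MP_c2ab8b_gt.K8
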