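import Pool.Agent.Work.MP_c2ab8b_gt.K8.SpS

/- Kernel evaluation of matrix certificates. -/

noncomputable section
namespace Pool.Agent.Work.MP_c2ab8b_gt.K8

theorem c3b_l : lmi c3b.E 55 c3b.ex = true := by decide +kernel

theorem d1_l : lmi d1.E 55 d1.ex = true := by decide +kernel

end Pool.Agent.Work.MP_c2ab8b_gt.K8
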