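import Pool.Agent.Work.MP_c2ab8b_gt.K8.SpS

/- Kernel evaluation of matrix certificates. -/

noncomputable section
namespace Pool.Agent.Work.MP_c2ab8b_gt.K8

theorem z1a_l : lmi z1a.E 55 z1a.ex = true := by decide +kernel

theorem z2c_l : lmi z2c.E 55 z2c.ex = true := by decide +kernel

theorem z3b_l : lmi z3b.E 55 z3b.ex = true := by decide +kernel

end Pool.Agent.Work.MP_c2ab8b_gt.K8
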