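import Pool.Agent.Work.MP_c2ab8b_gt.K8.RL0
import Pool.Agent.Work.MP_c2ab8b_gt.K8.RL1
import Pool.Agent.Work.MP_c2ab8b_gt.K8.RL2
import Pool.Agent.Work.MP_c2ab8b_gt.K8.CovT

/- A configuration of large area lies in a small box. -/

noncomputable section
namespace Pool.Agent.Work.MP_c2ab8b_gt.K8

variable {y : ℕ → ℝ}

theorem kill {S : St} (h : 34884712220 < ary y * 2 ^ 32) (g : S.gam ≤ 34884712220 * 2 ^ 80 ∧ (0, 0) ∈ S.ex)
    (H : ∀ {e : ℕ × ℕ}, e ∈ S.ex → e.1 < 18 →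
      ary y * 2 ^ 112 ≤ S.gam - e.2 * (y e.1 - S.yz (EO e.1) / 2 ^ 112) ^ 2) : False := by
  have a := H g.2 (by norm_num)
  have b := Int.cast_le (R := ℝ).2 g.1
  push_cast at a b
  linarith

theorem tt_mir (y : ℕ → ℝ) : tt (mir y) = -tt y := by
  show (y 17 + y 16 - y 15 - y 14) / 4 = -((y 14 + y 15 - y 16 - y 17) / 4); ring

theorem step1 (C : Cfg y) (h : 34884712220 < ary y * 2 ^ 32) : tt y * 2 ^ 112 ≤ z1a.t1 := by
  have Z := C.z0 h
  by_contra n
  rcases le_total (tt y * 2 ^ 112) (c1b.t1 : ℝ) with a | a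
  · exact kill h (by decide +kernel) (c1b.run c1b_w c1b_l c1b0_cov c1b1_cov c1b2_cov C Z Z.b (not_le.1 n).le a)
  rcases le_total (tt y * 2 ^ 112) (c2b.t1 : ℝ) with b | b
  · exact kill h (by decide +kernel) (c2b.run c2b_w c2b_l c2b0_cov c2b1_cov c2b2_cov C Z Z.b a b)
  refine kill h (by decide +kernel) (c3b.run c3b_w c3b_l c3b0_cov c3b1_cov c3b2_cov C Z Z.b
    (le_trans (Int.cast_le.2 (by decide +kernel)) b) ?_)
  have a1 : Bx 4503600915860684 1030792152 (y 14) := Z.b 14 (by norm_num)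
  have a2 : Bx 4503600915860684 1030792152 (y 15) := Z.b 15 (by norm_num)
  have a3 : Bx 4503600915860684 1030792152 (y 16) := Z.b 16 (by norm_num)
  have a4 : Bx 4503600915860684 1030792152 (y 17) := Z.b 17 (by norm_num)
  unfold Bx vl at a1 a2 a3 a4
  simp only [tt, c3b]
  push_cast at *
  linarith [a1.2, a2.2, a3.1, a4.1]

theorem step2 (C : Cfg y) (h : 34884712220 < ary y * 2 ^ 32) : InB d1.bx y ∧ InB z2c.bx y := by
  have Z := C.z0 h
  have a := step1 C.mir.1 (C.mir.2 ▸ h)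
  rw [tt_mir] at a
  have b : (z1a.t0 : ℝ) = -z1a.t1 := by rw [← Int.cast_neg]; exact congrArg _ (by decide +kernel)
  have H := @St.run y z1a z1a_w z1a_l z1a0_cov z1a1_cov z1a1_cov C Z Z.b (by linarith) (step1 C h)
  exact ⟨z1a.next (by decide +kernel) h H, z1a.next (by decide +kernel) h H⟩

theorem step3 (C : Cfg y) (h : 34884712220 < ary y * 2 ^ 32) : tt y * 2 ^ 112 ≤ z2c.t1 := by
  by_contra n
  exact kill h (by decide +kernel) (d1.run d1_w d1_l d10_cov d11_cov d12_cov C (C.z0 h) (step2 C h).1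
    (not_le.1 n).le (step1 C h))

theorem chain (C : Cfg y) (h : 34884712220 < ary y * 2 ^ 32) : InB bxF y := by
  have Z := C.z0 h
  have a := step3 C.mir.1 (C.mir.2 ▸ h)
  rw [tt_mir] at a
  have b : (z2c.t0 : ℝ) = -z2c.t1 := by rw [← Int.cast_neg]; exact congrArg _ (by decide +kernel)
  have c : (z2c.t0 : ℝ) ≤ tt y * 2 ^ 112 := by linarith
  exact z3b.next (by decide +kernel) h (z3b.run z3b_w z3b_l z3b0_cov z3b1_cov z3b1_cov C Z (z2c.next
    (by decide +kernel) h (z2c.run z2c_w z2c_l z2c0_cov z2c1_cov z2c1_cov C Z (step2 C h).2 c (step3 C h))) c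
    (step3 C h))

end Pool.Agent.Work.MP_c2ab8b_gt.K8
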