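import Pool.Agent.Work.MP_c2ab8b_gt.K8.ClsA

/- Soundness of the search through the triangulated surfaces. -/

noncomputable section
namespace Pool.Agent.Work.MP_c2ab8b_gt.K8

theorem frc_eq (a : Fin 8) (k : Fin 8 → Bool) : frc a k = k a := by fin_cases a <;> rfl
theorem f8_mem (a : Fin 8) : a ∈ f8 := by revert a; decide
theorem eqf_iff {a b : Fin 8} : eqf a b = true ↔ a = b := by simp [eqf, Fin.ext_iff]

theorem mem_iff {L : List T3} {a b c : Fin 8} : mem L a b c = true ↔ (a, b, c) ∈ L := by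
  simp only [mem, List.any_eq_true, Bool.and_eq_true, eqf_iff]
  exact ⟨fun ⟨s, h, ⟨h1, h2⟩, h3⟩ => by rw [← h1, ← h2, ← h3]; exact h, fun h => ⟨_, h, ⟨rfl, rfl⟩, rfl⟩⟩

theorem tb_sb (s : ℕ) (a b c d : Fin 8) : tb (sb1 s a b) c d = true ↔ tb s c d = true ∨ (c = a ∧ d = b) := by
  have : sb1 s a b = s ||| 2 ^ (8 * a.1 + b.1) := rfl
  rw [this, tb, tb, Nat.testBit_or, Bool.or_eq_true, Nat.testBit_two_pow, decide_eq_true_eq, Fin.ext_iff,
    Fin.ext_iff, Nat.add_eq, Nat.mul_eq]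
  exact or_congr Iff.rfl (by omega)

def Hd (f : Fin 8 → Fin 8 → Fin 8 → Prop) (L : List T3) : Prop := ∀ t ∈ L, f t.1 t.2.1 t.2.2

open Classical in
def Wt (f : Fin 8 → Fin 8 → Fin 8 → Prop) (z : Fin 8 → ℕ) : ℕ :=
  ∑ t : T3, if f t.1 t.2.1 t.2.2 then cm3 (z t.1) (z t.2.1) (z t.2.2) else 0

def Con (f : Fin 8 → Fin 8 → Fin 8 → Prop) : Prop :=
  (∃ σ : Fin 8 → Fin 8, Function.Injective σ ∧ Hd (fun a b c => f (σ a) (σ b) (σ c)) ty0) ∨
    ∃ z : Fin 8 → ℕ, (∀ v, z v < 3) ∧ (∀ a b c, f a b c → 0 < cm3 (z a) (z b) (z c)) ∧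
      18849558 * ∑ v, lam (z v) ≤ 1000000 * (Wt f z + 104654136660)

structure Inv (L : List T3) (s m : ℕ) : Prop where
  nd : L.Nodup
  rc : ∀ a b c, (a, b, c) ∈ L → (b, c, a) ∈ L
  bt : ∀ a b, tb s a b = true ↔ ∃ c, (a, b, c) ∈ L
  vt : ∀ a : Fin 8, a.1 < m ↔ ∃ b c, (a, b, c) ∈ L

variable {f : Fin 8 → Fin 8 → Fin 8 → Prop} {L : List T3} {s m : ℕ}

theorem Ax.comp (A : Ax f) (σ : Fin 8 ≃ Fin 8) : Ax fun a b c => f (σ a) (σ b) (σ c) := by
  refine ⟨A.rot, A.anti, fun x y => σ.injective (A.uniq x y), fun x => ?_, fun a => ?_, fun v S h g b c F => ?_, A.tet⟩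
  · obtain ⟨d, hd⟩ := A.nxt x
    obtain ⟨d, rfl⟩ := σ.surjective d
    exact ⟨d, hd⟩
  · obtain ⟨b, c, hd⟩ := A.vert (σ a)
    obtain ⟨b, rfl⟩ := σ.surjective b
    obtain ⟨c, rfl⟩ := σ.surjective c
    exact ⟨b, c, hd⟩
  · obtain ⟨p, q, h1, h2⟩ := h
    simpa using A.link (σ v) (fun b => S (σ.symm b)) ⟨σ p, σ q, by simpa using h1, h2⟩
      (fun b c x y => g _ _ x (by simpa using y)) F

theorem Con.comp (σ : Fin 8 ≃ Fin 8) (h : Con fun a b c => f (σ a) (σ b) (σ c)) : Con f := by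
  rcases h with ⟨τ, h1, h2⟩ | ⟨z, h1, h2, h3⟩
  · exact Or.inl ⟨_, σ.injective.comp h1, h2⟩
  refine Or.inr ⟨fun v => z (σ.symm v), fun v => h1 _, fun a b c F => h2 _ _ _ (by simpa using F), ?_⟩
  have e : Wt (fun a b c => f (σ a) (σ b) (σ c)) z = Wt f fun v => z (σ.symm v) :=
    Fintype.sum_equiv (σ.prodCongr (σ.prodCongr σ)) _ _ fun t => by simp; rfl
  rw [σ.symm.sum_comp fun v => lam (z v), ← e]
  exact h3

theorem Ax.ne (A : Ax f) {a b c : Fin 8} (h : f a b c) : a ≠ b := by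
  rintro rfl; exact A.anti h (A.rot h)

theorem Ax.full (A : Ax f) (H : Hd f L) (rc : ∀ a b c, (a, b, c) ∈ L → (b, c, a) ∈ L)
    (cl : ∀ a b c, (a, b, c) ∈ L → ∃ d, (b, a, d) ∈ L) {v b c : Fin 8} (h : ∃ p q, (v, p, q) ∈ L) (F : f v b c) :
    (v, b, c) ∈ L := by
  obtain ⟨p, q, h⟩ := h
  obtain ⟨d, g⟩ := A.link v (fun b => ∃ c, (v, b, c) ∈ L) ⟨p, q, ⟨q, h⟩, H _ h⟩ (fun b c ⟨d, x⟩ y => by
    obtain rfl := A.uniq (H _ x) y
    exact cl _ _ _ (rc _ _ _ (rc _ _ _ x))) F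
  rwa [A.uniq F (H _ g)]

theorem Wt_eq (I : L.Nodup) (h : ∀ a b c, f a b c ↔ (a, b, c) ∈ L) (z : Fin 8 → ℕ) :
    Wt f z = (L.map fun t => cm3 (z t.1) (z t.2.1) (z t.2.2)).sum := by
  classical
  unfold Wt
  rw [← List.sum_toFinset _ I, ← Finset.sum_filter]
  congr 1
  ext t
  simp [h]

theorem leaf_s (A : Ax f) (H : Hd f L) (I : Inv L s m) (cl : ∀ a b c, (a, b, c) ∈ L → ∃ d, (b, a, d) ∈ L)
    (h : leaf L s m = true) : Con f := by
  have fu := fun {v b c} => A.full H I.rc cl (v := v) (b := b) (c := c)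
  rcases cond_s h with ⟨g, h⟩ | ⟨g, h⟩
  · have g := Nat.le_of_ble_eq_true g
    have e : ∀ a b c, f a b c ↔ (a, b, c) ∈ L := fun a b c => ⟨fu ((I.vt a).1 (by omega)), H _⟩
    have u : ∀ z, uchk L z = true → Con f := fun z h => by
      simp only [uchk, Bool.and_eq_true, List.all_eq_true, Nat.blt_eq, Nat.ble_eq] at h
      refine Or.inr ⟨fun v => z.getD v 0, fun v => ?_, fun a b c F => h.1.1 _ ((e _ _ _).1 F), ?_⟩
      · simp only [List.getD_eq_getElem?_getD]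
        cases x : z[(v : ℕ)]? with
        | none => simp
        | some y => exact h.1.2 y (List.mem_of_getElem? x)
      · rw [Wt_eq I.nd e, Fin.sum_univ_eight]
        refine le_trans (le_of_eq ?_) h.2
        simp only [add_assoc]; rfl
    simp only [Bool.or_eq_true, List.any_eq_true, List.all_eq_true, mem_iff, Nat.ble_eq] at h
    rcases h with h | ((h | h) | ⟨v, -, h⟩) | ⟨c, hc, h⟩
    · refine Or.inr ⟨fun _ => 1, fun _ => by norm_num, fun _ _ _ _ => (by decide : 0 < cm3 1 1 1), ?_⟩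
      rw [Wt_eq I.nd e, List.map_const', List.sum_replicate_nat, Finset.sum_const, Finset.card_univ, Fintype.card_fin,
        show cm3 1 1 1 = 4129009760 from rfl, show lam 1 = 1688952939 from rfl, smul_eq_mul]
      omega
    exacts [u _ h, u _ h, u _ h, Or.inl ⟨_, (by decide +kernel : ∀ c ∈ cert, Function.Injective (lab c)) c hc,
      fun t ht => H _ (h t ht)⟩]
  · exfalso
    have g : m < 8 := by exact_mod_cast ble_f g
    simp only [Bool.or_eq_true, Bool.and_eq_true, mem_iff, Nat.ble_eq] at h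
    rcases h with h | h
    · have k : ∀ {a b c : Fin 8}, f a b c → m ≤ a.1 → m ≤ b.1 := fun {a b c} F x => by
        by_contra y
        have := (I.vt a).2 ⟨_, _, I.rc _ _ _ (I.rc _ _ _ (fu ((I.vt b).1 (by omega)) (A.rot F)))⟩
        omega
      obtain ⟨b, c, F⟩ := A.vert ⟨m, g⟩
      obtain ⟨d, G⟩ := A.nxt F
      have b1 := k F le_rfl
      have c1 := k (A.rot F) b1
      have d1 := k (A.rot G) le_rfl
      have n1 := Fin.val_ne_of_ne (A.ne F)
      have n2 := Fin.val_ne_of_ne (A.ne (A.rot F))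
      have n3 := Fin.val_ne_of_ne (A.ne (A.rot (A.rot F)))
      have n4 := Fin.val_ne_of_ne (A.ne (A.rot G))
      have n5 := Fin.val_ne_of_ne (A.ne (A.rot (A.rot G)))
      have n6 : d.1 ≠ c.1 := fun x => A.anti F (A.rot (Fin.ext x ▸ G))
      simp only at n1 n3 n4
      omega
    · exact A.tet (H _ h.1.1.1) (H _ h.1.1.2) (H _ h.1.2) (H _ h.2)

theorem Inv.ad (I : Inv L s m) {a b d : Fin 8} {k : ℕ} (o : ∀ c, (b, a, c) ∉ L) (n1 : a ≠ b) (n2 : a ≠ d) (n3 : d ≠ b)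
    (ha : a.1 < m) (hb : b.1 < m) (hk : ∀ v : Fin 8, v.1 < k ↔ v.1 < m ∨ v = d) :
    Inv ((b, a, d) :: (a, d, b) :: (d, b, a) :: L) (sb1 (sb1 (sb1 s b a) a d) d b) k := by
  refine ⟨?_, fun x y z h => ?_, fun x y => ?_, fun v => ?_⟩
  · have o1 : (d, b, a) ∉ L := fun h => o _ (I.rc _ _ _ h)
    have o2 : (a, d, b) ∉ L := fun h => o1 (I.rc _ _ _ h)
    simp [I.nd, o d, o1, o2, n1, n2, n3, n1.symm, n3.symm]
  · simp only [List.mem_cons, Prod.mk.injEq] at h ⊢
    rcases h with h | h | h | h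
    exacts [by tauto, by tauto, by tauto, Or.inr (Or.inr (Or.inr (I.rc _ _ _ h)))]
  · simp only [tb_sb, I.bt, List.mem_cons, Prod.mk.injEq, exists_or, exists_and_left, exists_eq, and_true]
    tauto
  · simp only [hk, List.mem_cons, Prod.mk.injEq, exists_or, exists_and_left, exists_eq, and_true, ← I.vt]
    constructor
    · tauto
    · rintro (rfl | rfl | rfl | h)
      exacts [Or.inl hb, Or.inl ha, Or.inr rfl, Or.inl h]

theorem go_succ (n : ℕ) (L : List T3) (s m : ℕ) : go (n + 1) L s m =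
    Option.rec (leaf L s m) (fun t => frc t.1 fun a => frc t.2.1 fun b => frc t.2.2 fun c => f8.all fun d =>
      Nat.blt m d.1 || eqf d a || eqf d b || eqf d c || tb s a d || tb s d b ||
        fS (sb1 (sb1 (sb1 s b a) a d) d b) fun r => bif Nat.beq d.1 m then
          go n ((b, a, d) :: (a, d, b) :: (d, b, a) :: L) r (Nat.succ m)
        else go n ((b, a, d) :: (a, d, b) :: (d, b, a) :: L) r m) (L.find? fun t => !tb s t.2.1 t.1) := rfl

theorem go_s (n : ℕ) : ∀ (L : List T3) (s m : ℕ) (f : Fin 8 → Fin 8 → Fin 8 → Prop), Ax f → Hd f L → Inv L s m →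
    go n L s m = true → Con f := by
  induction n with
  | zero => intro L s m f _ _ _ h; exact absurd h (by simp [go])
  | succ n ih =>
    intro L s m f A H I h
    rw [go_succ] at h
    cases e : L.find? fun t => !tb s t.2.1 t.1 with
    | none =>
      rw [e] at h
      refine leaf_s A H I (fun a b c x => (I.bt b a).1 ?_) h
      simpa using List.find?_eq_none.1 e _ x
    | some t =>
      rw [e] at h
      obtain ⟨a, b, c⟩ := t
      have tm := List.mem_of_find?_eq_some e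
      have o : ∀ c, (b, a, c) ∉ L := fun c x => by
        have := List.find?_some e
        simp [(I.bt b a).2 ⟨c, x⟩] at this
      have ha := (I.vt a).2 ⟨_, _, tm⟩
      have hb := (I.vt b).2 ⟨_, _, I.rc _ _ _ tm⟩
      simp only [frc_eq, fS_eq, List.all_eq_true, Bool.or_eq_true, Nat.blt_eq, eqf_iff, I.bt] at h
      have key : ∀ (g : Fin 8 → Fin 8 → Fin 8 → Prop) (d : Fin 8), Ax g → Hd g L → g b a d → d.1 ≤ m → Con g := by
        intro g d A H F hd
        have n1 := A.ne (H _ tm)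
        have n2 := A.ne (A.rot F)
        have n3 := A.ne (A.rot (A.rot F))
        have H' : Hd g ((b, a, d) :: (a, d, b) :: (d, b, a) :: L) := by
          intro t ht
          simp only [List.mem_cons] at ht
          rcases ht with rfl | rfl | rfl | ht
          exacts [F, A.rot F, A.rot (A.rot F), H t ht]
        rcases h d (f8_mem d) with (((((x | x) | x) | x) | ⟨y, x⟩) | ⟨y, x⟩) | x
        · omega
        · exact absurd x.symm n2
        · exact absurd x n3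
        · exact (A.anti (H _ tm) (A.rot (x ▸ F))).elim
        · obtain rfl := A.uniq (H _ x) (A.rot F)
          exact absurd (I.rc _ _ _ (I.rc _ _ _ x)) (o _)
        · obtain rfl := A.uniq (H _ x) (A.rot (A.rot F))
          exact absurd (I.rc _ _ _ x) (o _)
        rcases cond_s x with ⟨y, x⟩ | ⟨y, x⟩
        · have y := Nat.eq_of_beq_eq_true y
          exact ih _ _ _ g A H' (I.ad o n1 n2 n3 ha hb fun v => by rw [Fin.ext_iff]; omega) x
        · have y := Nat.ne_of_beq_eq_false y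
          exact ih _ _ _ g A H' (I.ad o n1 n2 n3 ha hb fun v => by rw [Fin.ext_iff]; omega) x
      obtain ⟨d, F⟩ := A.nxt (H _ tm)
      by_cases hm : d.1 ≤ m
      · exact key f d A H F hm
      have m8 : m < 8 := by omega
      have fx : ∀ v : Fin 8, v.1 < m → Equiv.swap d ⟨m, m8⟩ v = v := fun v hv =>
        Equiv.swap_apply_of_ne_of_ne (by rintro rfl; omega) (by rintro rfl; simp at hv)
      refine Con.comp (Equiv.swap d ⟨m, m8⟩) (key _ ⟨m, m8⟩ (A.comp _) (fun t ht => ?_) ?_ le_rfl)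
      · obtain ⟨x, y, z⟩ := t
        simp only [fx _ ((I.vt x).2 ⟨_, _, ht⟩), fx _ ((I.vt y).2 ⟨_, _, I.rc _ _ _ ht⟩),
          fx _ ((I.vt z).2 ⟨_, _, I.rc _ _ _ (I.rc _ _ _ ht)⟩)]
        exact H _ ht
      · simp only [fx _ ha, fx _ hb, Equiv.swap_apply_right]; exact F

theorem Ax.con (A : Ax f) : Con f := by
  obtain ⟨b, c, h⟩ := A.vert 0
  obtain ⟨σ, h0, h1, h2, h3⟩ := (by decide +kernel : ∀ b c : Fin 8, 0 ≠ b → b ≠ c → c ≠ 0 →
    ∃ d : Fin 8, Equiv.swap 1 b d = c ∧ d ≠ 0 ∧ d ≠ 1 ∧ Equiv.swap 1 b 0 = 0) b c (A.ne h) (A.ne (A.rot h))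
      (A.ne (A.rot (A.rot h)))
  have A' := A.comp ((Equiv.swap 2 σ).trans (Equiv.swap 1 b))
  have F : f (((Equiv.swap 2 σ).trans (Equiv.swap 1 b)) 0) (((Equiv.swap 2 σ).trans (Equiv.swap 1 b)) 1)
      (((Equiv.swap 2 σ).trans (Equiv.swap 1 b)) 2) := by
    simp only [Equiv.trans_apply, Equiv.swap_apply_left, h0]
    rw [Equiv.swap_apply_of_ne_of_ne (by decide) h1.symm, Equiv.swap_apply_of_ne_of_ne (x := 1) (by decide) h2.symm,
      h3, Equiv.swap_apply_left]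
    exact h
  refine Con.comp _ (go_s 20 _ _ 3 _ A' ?_ ⟨by decide, by decide, by decide +kernel, by decide⟩ go_c)
  intro t ht
  simp only [List.mem_cons, List.not_mem_nil, or_false] at ht
  rcases ht with rfl | rfl | rfl
  exacts [F, A.rot F, A.rot (A.rot F)]

theorem Ax.only (A : Ax f) (H : Hd f ty0) {a b c : Fin 8} (h : f a b c) :
    (a, b, c) ∈ ty0 ∨ (b, c, a) ∈ ty0 ∨ (c, a, b) ∈ ty0 := by
  let L : List T3 := ty0.flatMap fun t => [t, (t.2.1, t.2.2, t.1), (t.2.2, t.1, t.2.1)]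
  have H' : Hd f L := by
    intro t ht
    obtain ⟨s, hs, ht⟩ := List.mem_flatMap.1 ht
    simp only [List.mem_cons, List.not_mem_nil, or_false] at ht
    rcases ht with rfl | rfl | rfl
    exacts [H _ hs, A.rot (H _ hs), A.rot (A.rot (H _ hs))]
  have c1 : ∀ t ∈ L, (t.2.1, t.2.2, t.1) ∈ L ∧ (∃ s ∈ L, s.1 = t.2.1 ∧ s.2.1 = t.1) ∧
    (t ∈ ty0 ∨ (t.2.1, t.2.2, t.1) ∈ ty0 ∨ (t.2.2, t.1, t.2.1) ∈ ty0) := by decide +kernel
  have c2 : ∀ v, ∃ s ∈ L, s.1 = v := by decide +kernel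
  refine (c1 _ (A.full H' (fun _ _ _ x => (c1 _ x).1) (fun _ _ _ x => ?_) ?_ h)).2.2
  · obtain ⟨⟨p, q, r⟩, y, rfl, rfl⟩ := (c1 _ x).2.1
    exact ⟨r, y⟩
  · obtain ⟨⟨p, q, r⟩, y, rfl⟩ := c2 a
    exact ⟨q, r, y⟩

end Pool.Agent.Work.MP_c2ab8b_gt.K8
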