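import Pool.Agent.Work.MP_c2ab8b_gt.K8.Tri

/- The oriented triangulated surfaces on eight vertices: the extremal type, or a good weighting. -/

noncomputable section
namespace Pool.Agent.Work.MP_c2ab8b_gt.K8

abbrev T3 := Fin 8 × Fin 8 × Fin 8

structure Ax (f : Fin 8 → Fin 8 → Fin 8 → Prop) : Prop where
  rot : ∀ {a b c}, f a b c → f b c a
  anti : ∀ {a b c}, f a b c → f a c b → False
  uniq : ∀ {a b c d}, f a b c → f a b d → c = d
  nxt : ∀ {a b c}, f a b c → ∃ d, f b a d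
  vert : ∀ a, ∃ b c, f a b c
  link : ∀ v (S : Fin 8 → Prop), (∃ b c, S b ∧ f v b c) → (∀ b c, S b → f v b c → S c) → ∀ {b c}, f v b c → S b
  tet : ∀ {a b c d}, f a b c → f a c d → f a d b → f b d c → False

def ty0 : List T3 :=
  [(0, 7, 4), (0, 4, 5), (0, 5, 1), (1, 5, 6), (1, 6, 7), (1, 7, 0), (2, 5, 4), (2, 6, 5), (2, 3, 6), (3, 7, 6),
    (3, 4, 7), (3, 2, 4)]

def cert : List (List (Fin 8)) :=
  [[0, 2, 6, 7, 3, 1, 5, 4], [0, 1, 7, 5, 4, 3, 6, 2], [0, 3, 5, 6, 2, 4, 7, 1], [0, 4, 6, 7, 1, 2, 5, 3],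
    [1, 2, 7, 4, 3, 6, 5, 0], [2, 6, 3, 4, 0, 1, 7, 5], [2, 5, 7, 3, 1, 6, 4, 0], [1, 3, 5, 6, 2, 0, 4, 7],
    [1, 7, 4, 5, 0, 3, 6, 2]]

def lam (z : ℕ) : ℕ := [1491126746, 1688952939, 1933894924].getD z 0
def f8 : List (Fin 8) :=
  [⟨0, by decide⟩, ⟨1, by decide⟩, ⟨2, by decide⟩, ⟨3, by decide⟩, ⟨4, by decide⟩, ⟨5, by decide⟩, ⟨6, by decide⟩,
    ⟨7, by decide⟩]
def eqf (a b : Fin 8) : Bool := Nat.beq a.1 b.1
def tb (s : ℕ) (a b : Fin 8) : Bool := s.testBit (Nat.add (Nat.mul 8 a.1) b.1)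
def sb1 (s : ℕ) (a b : Fin 8) : ℕ := Nat.lor s (Nat.pow 2 (Nat.add (Nat.mul 8 a.1) b.1))
def mem (L : List T3) (a b c : Fin 8) : Bool := L.any fun s => eqf s.1 a && eqf s.2.1 b && eqf s.2.2 c
def lab (p : List (Fin 8)) (a : Fin 8) : Fin 8 := p.getD a 0

def frc (a : Fin 8) (k : Fin 8 → Bool) : Bool :=
  bif Nat.ble a.1 3 then
    (bif Nat.ble a.1 1 then (bif Nat.beq a.1 0 then k ⟨0, by decide⟩ else k ⟨1, by decide⟩)
    else bif Nat.beq a.1 2 then k ⟨2, by decide⟩ else k ⟨3, by decide⟩)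
  else bif Nat.ble a.1 5 then (bif Nat.beq a.1 4 then k ⟨4, by decide⟩ else k ⟨5, by decide⟩)
  else bif Nat.beq a.1 6 then k ⟨6, by decide⟩ else k ⟨7, by decide⟩

def uchk (L : List T3) (z : List ℕ) : Bool :=
  (L.all fun t => Nat.blt 0 (cm3 (z.getD t.1 0) (z.getD t.2.1 0) (z.getD t.2.2 0))) && z.all (Nat.blt · 3) &&
    Nat.ble (18849558 * (f8.map fun v => lam (z.getD v 0)).sum)
      (1000000 * ((L.map fun t => cm3 (z.getD t.1 0) (z.getD t.2.1 0) (z.getD t.2.2 0)).sum + 104654136660))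

def leaf (L : List T3) (s m : ℕ) : Bool :=
  bif Nat.ble 8 m then Nat.ble 42 L.length ||
    (let d := f8.map fun v => (f8.filter (tb s v)).length
    let z := d.map fun x => bif Nat.beq x 6 then 2 else 1
    uchk L (d.map fun x => bif Nat.beq x 3 then 0 else 1) || uchk L z || (f8.any fun v => uchk L (z.set v 2)) ||
      cert.any fun c => ty0.all fun t => mem L (lab c t.1) (lab c t.2.1) (lab c t.2.2))
  else Nat.ble 5 m || (mem L 0 1 2 && mem L 0 2 3 && mem L 0 3 1 && mem L 1 3 2)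

def go (n : ℕ) : List T3 → ℕ → ℕ → Bool :=
  Nat.rec (fun _ _ _ => false) (fun _ ih L s m =>
    Option.rec (leaf L s m) (fun t => frc t.1 fun a => frc t.2.1 fun b => frc t.2.2 fun c => f8.all fun d =>
      Nat.blt m d.1 || eqf d a || eqf d b || eqf d c || tb s a d || tb s d b ||
        fS (sb1 (sb1 (sb1 s b a) a d) d b) fun r => bif Nat.beq d.1 m then
          ih ((b, a, d) :: (a, d, b) :: (d, b, a) :: L) r (Nat.succ m)
        else ih ((b, a, d) :: (a, d, b) :: (d, b, a) :: L) r m) (L.find? fun t => !tb s t.2.1 t.1)) n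

theorem go_c : go 20 [(0, 1, 2), (1, 2, 0), (2, 0, 1)] (sb1 (sb1 (sb1 0 0 1) 1 2) 2 0) 3 = true := by decide +kernel

end Pool.Agent.Work.MP_c2ab8b_gt.K8
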