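import Pool.Agent.Work.MP_c2ab8b_gt.K8.RA0
import Pool.Agent.Work.MP_c2ab8b_gt.K8.RA1
import Pool.Agent.Work.MP_c2ab8b_gt.K8.RA2
import Pool.Agent.Work.MP_c2ab8b_gt.K8.RA3
import Pool.Agent.Work.MP_c2ab8b_gt.K8.RA4
import Pool.Agent.Work.MP_c2ab8b_gt.K8.RA5
import Pool.Agent.Work.MP_c2ab8b_gt.K8.RA6
import Pool.Agent.Work.MP_c2ab8b_gt.K8.RA7
import Pool.Agent.Work.MP_c2ab8b_gt.K8.RA8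
import Pool.Agent.Work.MP_c2ab8b_gt.K8.RA9
import Pool.Agent.Work.MP_c2ab8b_gt.K8.RA10
import Pool.Agent.Work.MP_c2ab8b_gt.K8.RA11
import Pool.Agent.Work.MP_c2ab8b_gt.K8.RA12
import Pool.Agent.Work.MP_c2ab8b_gt.K8.RA13
import Pool.Agent.Work.MP_c2ab8b_gt.K8.RA14
import Pool.Agent.Work.MP_c2ab8b_gt.K8.RA15
import Pool.Agent.Work.MP_c2ab8b_gt.K8.RA16
import Pool.Agent.Work.MP_c2ab8b_gt.K8.RA17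
import Pool.Agent.Work.MP_c2ab8b_gt.K8.RA18
import Pool.Agent.Work.MP_c2ab8b_gt.K8.RA19
import Pool.Agent.Work.MP_c2ab8b_gt.Local

/- The certificates cover the whole parameter box. -/

noncomputable section
namespace Pool.Agent.Work.MP_c2ab8b_gt.K8

theorem u011a_cov : Root u011a.Good :=
  have w : u011a.wf = true := by decide +kernel
  (sp3 (sp2 (sp2 (cv8 w u011a_0) (sp3 (cv8 w u011a_1) (sp2 (cv8 w u011a_2) (sp3 (cv8 w u011a_3) (cv8 w u011a_4))))) (sp2 (sp3 (cv8 w u011a_5) (cv8 w u011a_6)) (cv8 w u011a_7))) (cv8 w u011a_8))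

theorem u011b_cov : Root u011b.Good :=
  have w : u011b.wf = true := by decide +kernel
  (sp3 (sp2 (sp2 (cv8 w u011b_0) (sp3 (cv8 w u011b_1) (sp2 (sp3 (cv8 w u011b_2) (sp1 (cv8 w u011b_3) (sp2 (cv8 w u011b_4) (sp3 (cv8 w u011b_5) (cv8 w u011b_6))))) (sp3 (cv8 w u011b_7) (sp1 (sp1 (cv8 w u011b_8) (cv8 w u011b_9)) (cv8 w u011b_10)))))) (sp2 (sp3 (cv8 w u011b_11) (sp2 (cv8 w u011b_12) (cv8 w u011b_13))) (cv8 w u011b_14))) (sp2 (sp2 (cv8 w u011b_15) (sp3 (sp2 (sp1 (sp3 (cv8 w u011b_16) (cv8 w u011b_17)) (sp3 (sp1 (sp2 (sp3 (sp2 (cv8 w u011b_18) (cv8 w u011b_19)) (cv8 w u011b_20)) (cv8 w u011b_21)) (cv8 w u011b_22)) (cv8 w u011b_23))) (cv8 w u011b_24)) (cv8 w u011b_25))) (cv8 w u011b_26)))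

theorem u111a_cov : Root u111a.Good :=
  have w : u111a.wf = true := by decide +kernel
  (sp3 (sp2 (sp2 (cv8 w u111a_0) (sp3 (cv8 w u111a_1) (sp2 (cv8 w u111a_2) (sp3 (sp3 (cv8 w u111a_3) (sp1 (sp2 (cv8 w u111a_4) (sp1 (cv8 w u111a_5) (cv8 w u111a_6))) (sp2 (sp2 (cv8 w u111a_7) (cv8 w u111a_8)) (cv8 w u111a_9)))) (sp1 (sp2 (cv8 w u111a_10) (cv8 w u111a_11)) (cv8 w u111a_12)))))) (sp2 (sp3 (cv8 w u111a_13) (sp2 (sp1 (sp3 (cv8 w u111a_14) (cv8 w u111a_15)) (cv8 w u111a_16)) (cv8 w u111a_17))) (cv8 w u111a_18))) (cv8 w u111a_19))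

theorem u112a_cov : Root u112a.Good :=
  have w : u112a.wf = true := by decide +kernel
  (sp3 (sp2 (sp2 (cv8 w u112a_0) (sp3 (cv8 w u112a_1) (sp2 (cv8 w u112a_2) (sp3 (sp3 (cv8 w u112a_3) (sp1 (cv8 w u112a_4) (sp2 (sp2 (cv8 w u112a_5) (cv8 w u112a_6)) (sp1 (sp1 (cv8 w u112a_7) (cv8 w u112a_8)) (cv8 w u112a_9))))) (sp3 (sp1 (cv8 w u112a_10) (sp1 (sp1 (cv8 w u112a_11) (sp2 (sp2 (cv8 w u112a_12) (cv8 w u112a_13)) (cv8 w u112a_14))) (cv8 w u112a_15))) (sp2 (cv8 w u112a_16) (sp1 (sp1 (sp2 (sp3 (sp1 (cv8 w u112a_17) (cv8 w u112a_18)) (cv8 w u112a_19)) (cv8 w u112a_20)) (cv8 w u112a_21)) (cv8 w u112a_22)))))))) (sp2 (sp3 (sp2 (cv8 w u112a_23) (cv8 w u112a_24)) (sp2 (sp1 (sp1 (cv8 w u112a_25) (sp3 (cv8 w u112a_26) (cv8 w u112a_27))) (sp1 (sp3 (sp1 (sp2 (sp3 (cv8 w u112a_28)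 (cv8 w u112a_29)) (cv8 w u112a_30)) (cv8 w u112a_31)) (cv8 w u112a_32)) (cv8 w u112a_33))) (cv8 w u112a_34))) (cv8 w u112a_35))) (cv8 w u112a_36))

theorem u112b_cov : Root u112b.Good :=
  have w : u112b.wf = true := by decide +kernel
  (sp3 (sp2 (sp3 (cv8 w u112b_0) (sp2 (cv8 w u112b_1) (sp2 (cv8 w u112b_2) (sp3 (sp3 (cv8 w u112b_3) (sp1 (cv8 w u112b_4) (sp2 (cv8 w u112b_5) (cv8 w u112b_6)))) (sp1 (sp1 (cv8 w u112b_7) (cv8 w u112b_8)) (cv8 w u112b_9)))))) (sp2 (sp3 (sp2 (cv8 w u112b_10) (cv8 w u112b_11)) (sp2 (sp1 (sp1 (cv8 w u112b_12) (cv8 w u112b_13)) (sp3 (sp1 (sp1 (cv8 w u112b_14) (cv8 w u112b_15)) (cv8 w u112b_16)) (cv8 w u112b_17))) (cv8 w u112b_18))) (cv8 w u112b_19))) (sp2 (sp2 (cv8 w u112b_20) (cv8 w u112b_21)) (cv8 w u112b_22)))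

theorem u122a_cov : Root u122a.Good :=
  have w : u122a.wf = true := by decide +kernel
  (sp3 (sp2 (sp2 (cv8 w u122a_0) (sp3 (cv8 w u122a_1) (sp2 (cv8 w u122a_2) (sp3 (cv8 w u122a_3) (cv8 w u122a_4))))) (sp2 (sp3 (cv8 w u122a_5) (cv8 w u122a_6)) (cv8 w u122a_7))) (cv8 w u122a_8))

theorem u122b_cov : Root u122b.Good :=
  have w : u122b.wf = true := by decide +kernel
  (sp3 (sp2 (sp2 (cv8 w u122b_0) (sp3 (cv8 w u122b_1) (sp2 (cv8 w u122b_2) (sp3 (cv8 w u122b_3) (sp1 (sp1 (sp1 (cv8 w u122b_4) (cv8 w u122b_5)) (cv8 w u122b_6)) (cv8 w u122b_7)))))) (sp2 (sp3 (cv8 w u122b_8) (sp2 (sp1 (cv8 w u122b_9) (cv8 w u122b_10)) (cv8 w u122b_11))) (cv8 w u122b_12))) (sp2 (sp2 (sp3 (sp2 (cv8 w u122b_13) (sp3 (cv8 w u122b_14) (cv8 w u122b_15))) (cv8 w u122b_16)) (sp3 (sp2 (sp1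 (cv8 w u122b_17) (cv8 w u122b_18)) (cv8 w u122b_19)) (cv8 w u122b_20))) (cv8 w u122b_21)))

theorem m0a_cov : Root m0a.Good :=
  have w : m0a.wf = true := by decide +kernel
  (sp3 (sp2 (sp2 (cv8 w m0a_0) (sp3 (cv8 w m0a_1) (sp2 (cv8 w m0a_2) (sp3 (sp1 (cv8 w m0a_3) (sp2 (sp3 (cv8 w m0a_4) (sp2 (sp3 (cv8 w m0a_5) (sp1 (sp1 (cv8 w m0a_6) (sp2 (cv8 w m0a_7) (cv8 w m0a_8))) (cv8 w m0a_9))) (cv8 w m0a_10))) (sp3 (cv8 w m0a_11) (sp1 (sp1 (cv8 w m0a_12) (cv8 w m0a_13)) (cv8 w m0a_14))))) (sp1 (cv8 w m0a_15) (sp2 (sp3 (sp1 (sp3 (sp1 (cv8 w m0a_16) (sp1 (cv8 w m0a_17) (cv8 w m0a_18))) (cv8 w m0a_19)) (cv8 w m0a_20)) (cv8 w m0a_21)) (cv8 w m0a_22))))))) (sp2 (sp3 (sp2 (cv8 w m0a_23) (cv8 w m0a_24)) (sp2 (sp1 (sp3 (cv8 w m0a_25) (cv8 w m0a_26)) (sp3 (sp1 (sp2 (cv8 w m0a_27)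 (cv8 w m0a_28)) (cv8 w m0a_29)) (cv8 w m0a_30))) (cv8 w m0a_31))) (cv8 w m0a_32))) (cv8 w m0a_33))

theorem m0b_cov : Root m0b.Good :=
  have w : m0b.wf = true := by decide +kernel
  (sp2 (sp3 (sp2 (cv8 w m0b_0) (sp3 (cv8 w m0b_1) (sp2 (sp3 (cv8 w m0b_2) (sp2 (cv8 w m0b_3) (sp1 (cv8 w m0b_4) (sp1 (sp3 (cv8 w m0b_5) (cv8 w m0b_6)) (cv8 w m0b_7))))) (sp3 (sp3 (cv8 w m0b_8) (sp1 (cv8 w m0b_9) (sp2 (sp2 (sp3 (cv8 w m0b_10) (sp1 (cv8 w m0b_11) (cv8 w m0b_12))) (cv8 w m0b_13)) (sp1 (sp1 (cv8 w m0b_14) (sp2 (cv8 w m0b_15) (cv8 w m0b_16))) (cv8 w m0b_17))))) (sp1 (cv8 w m0b_18) (sp1 (sp3 (sp1 (cv8 w m0b_19) (sp2 (sp2 (cv8 w m0b_20) (cv8 w m0b_21)) (cv8 w m0b_22))) (cv8 w m0b_23)) (cv8 w m0b_24))))))) (sp2 (cv8 w m0b_25) (sp3 (sp2 (cv8 w m0b_26) (cv8 w m0b_27)) (cv8 w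 m0b_28)))) (sp3 (sp2 (sp3 (sp2 (cv8 w m0b_29) (cv8 w m0b_30)) (sp2 (sp1 (sp1 (cv8 w m0b_31) (cv8 w m0b_32)) (sp3 (sp1 (sp2 (sp3 (cv8 w m0b_33) (cv8 w m0b_34)) (cv8 w m0b_35)) (cv8 w m0b_36)) (cv8 w m0b_37))) (cv8 w m0b_38))) (cv8 w m0b_39)) (cv8 w m0b_40)))

theorem m1a_cov : Root m1a.Good :=
  have w : m1a.wf = true := by decide +kernel
  (sp2 (sp3 (sp2 (cv8 w m1a_0) (sp3 (cv8 w m1a_1) (sp2 (sp3 (cv8 w m1a_2) (sp2 (cv8 w m1a_3) (sp1 (cv8 w m1a_4) (sp3 (sp3 (cv8 w m1a_5) (cv8 w m1a_6)) (cv8 w m1a_7))))) (sp3 (sp3 (cv8 w m1a_8) (sp1 (cv8 w m1a_9) (sp2 (sp2 (cv8 w m1a_10) (sp1 (sp3 (cv8 w m1a_11) (cv8 w m1a_12)) (cv8 w m1a_13))) (sp1 (sp1 (cv8 w m1a_14) (cv8 w m1a_15)) (cv8 w m1a_16))))) (sp1 (sp1 (cv8 w m1a_17) (cv8 w m1a_18)) (sp1 (sp1 (cv8 w m1a_19) (sp2 (cv8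 w m1a_20) (cv8 w m1a_21))) (cv8 w m1a_22))))))) (sp2 (cv8 w m1a_23) (sp3 (sp2 (cv8 w m1a_24) (cv8 w m1a_25)) (cv8 w m1a_26)))) (sp3 (sp3 (cv8 w m1a_27) (sp2 (sp2 (sp1 (sp1 (cv8 w m1a_28) (cv8 w m1a_29)) (cv8 w m1a_30)) (cv8 w m1a_31)) (cv8 w m1a_32))) (cv8 w m1a_33)))

theorem m1b_cov : Root m1b.Good :=
  have w : m1b.wf = true := by decide +kernel
  (sp2 (sp3 (sp2 (cv8 w m1b_0) (sp3 (cv8 w m1b_1) (sp2 (sp3 (cv8 w m1b_2) (sp1 (sp2 (cv8 w m1b_3) (sp3 (cv8 w m1b_4) (sp1 (cv8 w m1b_5) (sp1 (cv8 w m1b_6) (sp1 (cv8 w m1b_7) (sp2 (cv8 w m1b_8) (cv8 w m1b_9))))))) (sp2 (sp3 (cv8 w m1b_10) (sp2 (cv8 w m1b_11) (sp1 (sp3 (cv8 w m1b_12) (sp2 (cv8 w m1b_13) (sp1 (sp3 (cv8 w m1b_14) (sp1 (cv8 w m1b_15) (cv8 w m1b_16))) (cv8 w m1b_17)))) (cv8 w m1b_18)))) (sp1 (sp3 (sp2 (cv8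 w m1b_19) (sp1 (sp1 (cv8 w m1b_20) (cv8 w m1b_21)) (sp1 (sp3 (sp2 (cv8 w m1b_22) (sp3 (cv8 w m1b_23) (cv8 w m1b_24))) (cv8 w m1b_25)) (cv8 w m1b_26)))) (sp1 (sp1 (cv8 w m1b_27) (sp2 (sp3 (cv8 w m1b_28) (cv8 w m1b_29)) (cv8 w m1b_30))) (cv8 w m1b_31))) (cv8 w m1b_32))))) (sp3 (sp1 (cv8 w m1b_33) (sp2 (sp3 (cv8 w m1b_34) (sp2 (cv8 w m1b_35) (cv8 w m1b_36))) (sp3 (cv8 w m1b_37) (sp1 (sp1 (sp1 (cv8 w m1b_38) (cv8 w m1b_39)) (cv8 w m1b_40)) (cv8 w m1b_41))))) (sp1 (sp1 (sp1 (sp2 (cv8 w m1b_42) (sp3 (cv8 w m1b_43) (sp2 (sp3 (sp1 (cv8 w m1b_44) (sp1 (cv8 w m1b_45) (sp2 (cv8 w m1b_46) (sp3 (cv8 w m1b_47) (cv8 w m1b_48))))) (cv8 w m1b_49)) (cv8 w m1b_50)))) (sp2 (cv8 w m1b_51) (sp3 (cv8 w m1b_52) (sp1 (sp3 (sp2 (sp1 (sp2 (cv8 w m1b_53) (cv8 w m1b_54)) (cv8 w m1b_55)) (cv8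 w m1b_56)) (cv8 w m1b_57)) (cv8 w m1b_58))))) (sp1 (cv8 w m1b_59) (cv8 w m1b_60))) (sp1 (sp1 (sp2 (sp3 (cv8 w m1b_61) (cv8 w m1b_62)) (cv8 w m1b_63)) (sp2 (sp3 (sp1 (cv8 w m1b_64) (cv8 w m1b_65)) (cv8 w m1b_66)) (cv8 w m1b_67))) (cv8 w m1b_68))))))) (sp3 (sp2 (sp2 (cv8 w m1b_69) (sp3 (sp2 (cv8 w m1b_70) (sp3 (cv8 w m1b_71) (sp1 (sp3 (cv8 w m1b_72) (sp2 (cv8 w m1b_73) (sp1 (cv8 w m1b_74) (sp1 (cv8 w m1b_75) (sp1 (cv8 w m1b_76) (sp2 (cv8 w m1b_77) (cv8 w m1b_78))))))) (cv8 w m1b_79)))) (cv8 w m1b_80))) (sp2 (sp1 (sp3 (sp1 (cv8 w m1b_81) (sp1 (cv8 w m1b_82) (sp2 (sp3 (cv8 w m1b_83) (sp2 (cv8 w m1b_84) (cv8 w m1b_85))) (cv8 w m1b_86)))) (cv8 w m1b_87)) (sp3 (sp1 (sp1 (sp2 (sp3 (sp2 (cv8 w m1b_88) (cv8 w m1b_89)) (cv8 w m1b_90)) (cv8 w m1b_91)) (cv8 w m1b_92)) (cv8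 w m1b_93)) (cv8 w m1b_94))) (cv8 w m1b_95))) (cv8 w m1b_96))) (sp3 (sp2 (sp3 (cv8 w m1b_97) (sp2 (sp1 (sp1 (cv8 w m1b_98) (cv8 w m1b_99)) (sp1 (cv8 w m1b_100) (cv8 w m1b_101))) (cv8 w m1b_102))) (cv8 w m1b_103)) (cv8 w m1b_104)))

theorem m1c_cov : Root m1c.Good :=
  have w : m1c.wf = true := by decide +kernel
  (sp2 (sp3 (sp3 (cv8 w m1c_0) (sp2 (cv8 w m1c_1) (sp2 (sp3 (cv8 w m1c_2) (sp2 (cv8 w m1c_3) (sp1 (cv8 w m1c_4) (sp3 (sp2 (cv8 w m1c_5) (cv8 w m1c_6)) (cv8 w m1c_7))))) (sp3 (sp3 (cv8 w m1c_8) (sp1 (cv8 w m1c_9) (sp2 (sp1 (sp2 (cv8 w m1c_10) (cv8 w m1c_11)) (cv8 w m1c_12)) (sp1 (sp1 (sp1 (cv8 w m1c_13) (cv8 w m1c_14)) (cv8 w m1c_15)) (cv8 w m1c_16))))) (sp1 (sp1 (cv8 w m1c_17) (cv8 w m1c_18)) (sp1 (sp1 (cv8 w m1c_19) (cv8 w m1c_20)) (cv8 w m1c_21)))))))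 (sp2 (cv8 w m1c_22) (sp3 (sp3 (sp1 (cv8 w m1c_23) (cv8 w m1c_24)) (cv8 w m1c_25)) (cv8 w m1c_26)))) (sp3 (sp3 (sp2 (sp2 (sp3 (cv8 w m1c_27) (sp3 (cv8 w m1c_28) (sp2 (cv8 w m1c_29) (sp1 (sp2 (cv8 w m1c_30) (sp3 (cv8 w m1c_31) (sp1 (cv8 w m1c_32) (sp1 (cv8 w m1c_33) (sp1 (cv8 w m1c_34) (cv8 w m1c_35)))))) (cv8 w m1c_36))))) (cv8 w m1c_37)) (cv8 w m1c_38)) (sp2 (sp2 (sp1 (sp1 (cv8 w m1c_39) (sp3 (sp2 (cv8 w m1c_40) (cv8 w m1c_41)) (cv8 w m1c_42))) (sp3 (sp1 (sp2 (sp1 (sp3 (sp2 (cv8 w m1c_43) (cv8 w m1c_44)) (cv8 w m1c_45)) (cv8 w m1c_46)) (cv8 w m1c_47)) (cv8 w m1c_48)) (cv8 w m1c_49))) (cv8 w m1c_50)) (cv8 w m1c_51))) (cv8 w m1c_52)))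

end Pool.Agent.Work.MP_c2ab8b_gt.K8
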