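import Pool.Agent.Work.MP_c2ab8b_gt.K8.Chain

/- The sharp second order bound around the symmetric configurations. -/

noncomputable section
namespace Pool.Agent.Work.MP_c2ab8b_gt.K8
open Real
set_option exponentiation.threshold 2000

attribute [local irreducible] az rn rx za zs z4 nwt

def ad (a b : ℕ) : ℕ := (Nat.add (Nat.sub a b) (Nat.sub b a))

def nr (X : TM) (e0 e1 s c : ℕ) (D : ℕ × ℕ × ℕ) : Bool :=
  chk (Nat.ble (Nat.add (ad (Nat.add X.c s) c) X.r0) e0)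
    (Nat.ble (Nat.add (Nat.add (Nat.add (ad X.a1 D.1) (ad X.a2 D.2.1)) (ad X.a3 D.2.2)) X.r1) e1)

def enc (p : Par) (r e : ℕ) (D0 D1 D2 D3 : ℕ × ℕ × ℕ) : Bool :=
  geoT p.nal ⟨p.y1, p.y2, p.y3, (nat_lit 28948022309329048855892746252171976963317496167677791610092625403474985615360), (nat_lit 28948022309329048855892746252171976963317496167677791610092625403474985615360), (nat_lit 28948022309329048855892746252171976963317496167677791610092625403474985615360), r⟩ fun T E A2 A3 =>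
    chk (nr T p.er e (nat_lit 0) p.l0 D0) (chk (nr E p.er e p.a1 (nat_lit 57896044618658097711785492504343953926634992332820282019728792003956564819968) D1)
      (chk (nr A2 p.er e p.a2 (nat_lit 57896044618658097711785492504343953926634992332820282019728792003956564819968) D2) (nr A3.t p.er e p.a3 (nat_lit 57896044618658097711785492504343953926634992332820282019728792003956564819968) D3)))

def pm (G : TM) (a b c : ℤ) : Bool :=
  psd [[2 * (zq G.q1 - a), zq G.q4, zq G.q5], [2 * (zq G.q2 - b), zq G.q6], [2 * (zq G.q3 - c)]]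

def cen (p : Par) (r h : ℕ) : Bool :=
  geoT p.nal ⟨p.y1, p.y2, p.y3, h, h, h, r⟩ fun T E A2 A3 =>
    comb p ⟨(nat_lit 28948022309329048855892746252171976963317496166410141009864396001978282409984), (nat_lit 28948022309329048855892746252171976963317496166410141009864396001978282409984), (nat_lit 28948022309329048855892746252171976963317496166410141009864396001978282409984), h, h, h, (nat_lit 0)⟩ ⟨p.y1, p.y2, p.y3, h, h, h, r⟩ T E A2 A3 fun G =>
      chk (pm G G.r2 0 0) (chk (pm G 0 G.r2 0) (pm G 0 0 G.r2))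

def D00 : ℕ × ℕ × ℕ :=
  (28948022309329048855892746252171976963317496167214901060388277323399524587276, 28948022309329048855892746252171976963317496167106905778708543073274210059489, 28948022309329048855892746252171976963317496167106905778708543073274210059489)
def D01 : ℕ × ℕ × ℕ :=
  (28948022309329048855892746252171976963317496167302351566266820699172205986758, 28948022309329048855892746252171976963317496167217740363487805492994592650680, 28948022309329048855892746252171976963317496167217740363487805492994592650680)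
def D02 : ℕ × ℕ × ℕ :=
  (28948022309329048855892746252171976963317496167786788341707900424135248687879, 28948022309329048855892746252171976963317496164464445699800796648680660094891, 28948022309329048855892746252171976963317496167885801967362565027042793407927)
def D03 : ℕ × ℕ × ℕ :=
  (28948022309329048855892746252171976963317496167786788341707900424135248687879, 28948022309329048855892746252171976963317496167885801967362565027042793407927, 28948022309329048855892746252171976963317496164464445699800796648680660094891)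
def D10 : ℕ × ℕ × ℕ :=
  (28948022309329048855892746252171976963317496167289436512662023259172073239055, 28948022309329048855892746252171976963317496167518618559974468181301405085987, 28948022309329048855892746252171976963317496166728214905961442396163218220783)
def D11 : ℕ × ℕ × ℕ :=
  (28948022309329048855892746252171976963317496167509054133625670137575533118636, 28948022309329048855892746252171976963317496167667765349854072335991584020289, 28948022309329048855892746252171976963317496166939231748348299625514061963211)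
def D12 : ℕ × ℕ × ℕ :=
  (28948022309329048855892746252171976963317496167039019781060239809342421801487, 28948022309329048855892746252171976963317496164847263788592134951882611080218, 28948022309329048855892746252171976963317496167657795682928558492779971706304)
def D13 : ℕ × ℕ × ℕ :=
  (28948022309329048855892746252171976963317496168601763799930489578723115958552, 28948022309329048855892746252171976963317496168481393491129340514559081302469, 28948022309329048855892746252171976963317496164118730187086362241405089023140)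
def rh : ℕ := 28948022309329048855892746252171976963317496166929371022611420388627060883456

theorem en0 : enc fz0 (2 ^ 51) (2 ^ 52) D00 D01 D02 D03 = true := by decide +kernel
theorem ep0 : enc fz0 (2 ^ 8) (2 ^ 12) D00 D01 D02 D03 = true := by decide +kernel
theorem ce0 : cen fz0 (2 ^ 51) rh = true := by decide +kernel
theorem en1 : enc fz1 (2 ^ 51) (2 ^ 52) D10 D11 D12 D13 = true := by decide +kernel
theorem ep1 : enc fz1 (2 ^ 8) (2 ^ 12) D10 D11 D12 D13 = true := by decide +kernel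
theorem ce1 : cen fz1 (2 ^ 51) rh = true := by decide +kernel


variable {ε : Nz} {j x x0 l a b c : ℝ} {p : Par}

theorem nr_s {X : TM} {e0 e1 s k : ℕ} {D : ℕ × ℕ × ℕ} (h : In ε j X x x0 l) (hη : ε.η = 1)
    (e : nr X e0 e1 s k D = true) :
    |x0 * 2 ^ 112 + 2 ^ 254 + s - k| ≤ (e0 : ℝ) ∧ |l * 2 ^ 112 - ε.lin (vz D.1) (vz D.2.1) (vz D.2.2)| ≤ (e1 : ℝ) := by
  obtain ⟨a, b⟩ := chk_s e
  have a := ble_r a
  have b := ble_r b
  simp only [ca, show ∀ a b, ((ad a b : ℕ) : ℝ) = |(a : ℝ) - b| from fun a b => cast_ad a b] at a b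
  have h0 := abs_le.1 h.e0
  have h1 := abs_le.1 h.e1
  have g := abs_le.1 (ε.lin_le (le_refl |(X.a1 : ℝ) - D.1|) (le_refl |(X.a2 : ℝ) - D.2.1|) (le_refl |(X.a3 : ℝ) - D.2.2|))
  simp only [TM.L, Nz.lin, hη, vz] at h0 h1 g ⊢
  have := le_abs_self ((X.c : ℝ) + s - k)
  have := neg_abs_le ((X.c : ℝ) + s - k)
  exact ⟨abs_le.2 ⟨by linarith, by linarith⟩, abs_le.2 ⟨by linarith, by linarith⟩⟩

def Dn (t : ℝ) (D : ℕ × ℕ × ℕ) (f : ℝ → ℝ → ℝ → ℝ) : Prop :=
  |f 1 0 0 * 2 ^ 100 - vz D.1| ≤ t ∧ |f 0 1 0 * 2 ^ 100 - vz D.2.1| ≤ t ∧ |f 0 0 1 * 2 ^ 100 - vz D.2.2| ≤ t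

structure Ec (p : Par) (t : ℝ) (D0 D1 D2 D3 : ℕ × ℕ × ℕ) (a b c : ℝ) : Prop where
  t0 : Nr p.er p.l0 √(Uf a b c)
  e0 : Nr p.er p.a1 (-Ef a b c)
  a0 : Nr p.er p.a2 (-A2f a b c)
  c0 : Nr p.er p.a3 (-A3f a b c)
  t1 : Dn t D0 (dT a b c)
  e1 : Dn t D1 (dE a b c)
  a1 : Dn t D2 (dA2 a b c)
  c1 : Dn t D3 (dA3 a b c)

theorem ib {r h : ℕ} (W : p.wf = true) (h1 : Nr r p.y1 a) (h2 : Nr r p.y2 b) (h3 : Nr r p.y3 c) (g : |vz h| ≤ 2 ^ 121) :
    IB ⟨p.y1, p.y2, p.y3, h, h, h, r⟩ a b c := by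
  unfold Par.wf at W
  rw [Bool.and_eq_true] at W
  have k := ble_r W.1
  simp only [ca, cast_az] at k
  push_cast at k
  have := abs_nonneg (vz p.y1); have := abs_nonneg (vz p.y2); have := abs_nonneg (vz p.y3)
  exact ⟨h1, h2, h3, by dsimp only; linarith, by dsimp only; linarith, by dsimp only; linarith, g, g, g⟩

theorem nal_n (h : p.nal ≤ (nat_lit 28948022309329048855892746252171976963317485781816423940209138940985623969792)) (a b c : ℝ) : vz p.nal < A3f a b c * 2 ^ 112 := by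
  have := a3_lo a b c
  have : (p.nal : ℝ) ≤ ((nat_lit 28948022309329048855892746252171976963317485781816423940209138940985623969792) : ℕ) := Nat.cast_le.2 h
  unfold vz at *; linarith

theorem enc_s {r e : ℕ} {D0 D1 D2 D3 : ℕ × ℕ × ℕ} (W : p.wf = true) (N : p.nal ≤ (nat_lit 28948022309329048855892746252171976963317485781816423940209138940985623969792)) (h1 : Nr r p.y1 a)
    (h2 : Nr r p.y2 b) (h3 : Nr r p.y3 c) (S : a + b + c ≤ 3 / 2) (h : enc p r e D0 D1 D2 D3 = true) :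
    Ec p e D0 D1 D2 D3 a b c := by
  have k : w (nat_lit 28948022309329048855892746252171976963317496167677791610092625403474985615360) = 1 / 2 ^ 12 := by unfold w vz; norm_num
  have H : ∀ x y z (u : |x| ≤ 1) (v : |y| ≤ 1) (s : |z| ≤ 1), x + y + z = 1 →
      (|√(Uf a b c) * 2 ^ 112 + 2 ^ 254 + ((nat_lit 0) : ℕ) - p.l0| ≤ (p.er : ℝ) ∧
        |dT a b c x y z * 2 ^ 100 - (vz D0.1 * x + vz D0.2.1 * y + vz D0.2.2 * z)| ≤ (e : ℝ)) ∧
      (|Ef a b c * 2 ^ 112 + 2 ^ 254 + p.a1 - ((nat_lit 57896044618658097711785492504343953926634992332820282019728792003956564819968) : ℕ)| ≤ (p.er : ℝ) ∧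
        |dE a b c x y z * 2 ^ 100 - (vz D1.1 * x + vz D1.2.1 * y + vz D1.2.2 * z)| ≤ (e : ℝ)) ∧
      (|A2f a b c * 2 ^ 112 + 2 ^ 254 + p.a2 - ((nat_lit 57896044618658097711785492504343953926634992332820282019728792003956564819968) : ℕ)| ≤ (p.er : ℝ) ∧
        |dA2 a b c x y z * 2 ^ 100 - (vz D2.1 * x + vz D2.2.1 * y + vz D2.2.2 * z)| ≤ (e : ℝ)) ∧
      (|A3f a b c * 2 ^ 112 + 2 ^ 254 + p.a3 - ((nat_lit 57896044618658097711785492504343953926634992332820282019728792003956564819968) : ℕ)| ≤ (p.er : ℝ) ∧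
        |dA3 a b c x y z * 2 ^ 100 - (vz D3.1 * x + vz D3.2.1 * y + vz D3.2.2 * z)| ≤ (e : ℝ)) := by
    intro x y z u v s o
    rcases geoT_s ⟨x, y, z, 1, u, v, s, le_rfl⟩ (ib W h1 h2 h3 (by unfold vz; norm_num)) (m1 := 1 / 2 ^ 12 * x)
      (m2 := 1 / 2 ^ 12 * y) (m3 := 1 / 2 ^ 12 * z) (by rw [← k]) (by rw [← k]) (by rw [← k]) (by linarith) h with
      h | ⟨T, E, A2, A3, hT, hE, h2, h3, h⟩
    · exact absurd h (not_le.2 (nal_n N _ _ _))
    obtain ⟨g0, h⟩ := chk_s h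
    obtain ⟨g1, h⟩ := chk_s h
    obtain ⟨g2, g3⟩ := chk_s h
    have g0 := nr_s hT rfl g0
    have g1 := nr_s hE rfl g1
    have g2 := nr_s h2 rfl g2
    have g3 := nr_s h3.i rfl g3
    rw [show dT a b c _ _ _ * 2 ^ 112 = dT a b c x y z * 2 ^ 100 by unfold dT dU; ring] at g0
    rw [show dE a b c _ _ _ * 2 ^ 112 = dE a b c x y z * 2 ^ 100 by unfold dE dq dW dU; ring] at g1
    rw [show dA2 a b c _ _ _ * 2 ^ 112 = dA2 a b c x y z * 2 ^ 100 by unfold dA2 dq dW dU; ring] at g2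
    rw [show dA3 a b c _ _ _ * 2 ^ 112 = dA3 a b c x y z * 2 ^ 100 by unfold dA3 dq dW dU; ring] at g3
    exact ⟨g0, g1, g2, g3⟩
  have a1 := H 1 0 0 (by simp) (by simp) (by simp) (by simp)
  have a2 := H 0 1 0 (by simp) (by simp) (by simp) (by simp)
  have a3 := H 0 0 1 (by simp) (by simp) (by simp) (by simp)
  simp only [mul_one, mul_zero, add_zero, zero_add] at a1 a2 a3
  have f : ∀ {x : ℝ} {u : ℕ}, |x * 2 ^ 112 + 2 ^ 254 + u - ((nat_lit 57896044618658097711785492504343953926634992332820282019728792003956564819968) : ℕ)| ≤ (p.er : ℝ) → Nr p.er u (-x) := fun {x u} h => by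
    unfold Nr vz
    rw [← abs_neg]
    refine (le_of_eq (congrArg _ ?_)).trans h
    push_cast; ring
  refine ⟨?_, f a1.2.1.1, f a1.2.2.1.1, f a1.2.2.2.1, ⟨a1.1.2, a2.1.2, a3.1.2⟩, ⟨a1.2.1.2, a2.2.1.2, a3.2.1.2⟩,
    ⟨a1.2.2.1.2, a2.2.2.1.2, a3.2.2.1.2⟩, a1.2.2.2.2, a2.2.2.2.2, a3.2.2.2.2⟩
  unfold Nr vz
  refine (le_of_eq (congrArg _ ?_)).trans a1.1.1
  push_cast; ring

def gr (a b c k4 k5 k6 x y z : ℝ) : ℝ :=
  dT a b c x y z - k4 * dE a b c x y z - k5 * dA2 a b c x y z - k6 * dA3 a b c x y z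

def RP.at (a b c k4 k5 k6 : ℝ) : RP :=
  ⟨a, b, c, -Ef a b c, -A2f a b c, -A3f a b c, √(Uf a b c), gr a b c k4 k5 k6 1 0 0, gr a b c k4 k5 k6 0 1 0,
    gr a b c k4 k5 k6 0 0 1, k4, k5, k6⟩

theorem pm_s {G : TM} {a b c : ℤ} (h : pm G a b c = true) (ε : Nz) :
    a * (ε.e1 * ε.e1) + b * (ε.e2 * ε.e2) + c * (ε.e3 * ε.e3) ≤ G.Q ε := by
  have := psd_s (x := fun i => [ε.e1, ε.e2, ε.e3].getD i 0) h 0
  have z : ∀ u, (zq u : ℝ) = vz u := fun u => by rw [zq_s, w]; simp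
  simp only [qm, dot, List.headD_cons, List.tail_cons, List.getD_cons_succ, List.getD_cons_zero] at this
  push_cast [z] at this
  unfold TM.Q Nz.qd
  linarith

theorem hl_s {r h y u g : ℕ} {x z : ℝ} (k : y + r + 2 ^ 132 ≤ u * 2 ^ 80 + h ∧ g * 2 ^ 80 + r + 2 ^ 255 ≤ y + h + 2 ^ 132)
    (p : 0 < w h) (h1 : Nr r y x) (h2 : Hl u g z) : ∃ e, |e| ≤ 1 ∧ z = x + w h * e := by
  refine ⟨(z - x) / w h, ?_, by field_simp; ring⟩
  rw [abs_div, abs_of_pos p, div_le_one p]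
  have k1 : (y : ℝ) + r + 2 ^ 132 ≤ u * 2 ^ 80 + h := by exact_mod_cast k.1
  have k2 : (g : ℝ) * 2 ^ 80 + r + 2 ^ 255 ≤ y + h + 2 ^ 132 := by exact_mod_cast k.2
  have := abs_le.1 h1
  unfold Hl vl w vz at *
  rw [abs_le]; constructor <;> linarith [h2.1, h2.2, this.1, this.2]

theorem cen_s' {r h : ℕ} {k4 k5 k6 e1 e2 e3 : ℝ} (W : p.wf = true) (N : p.nal ≤ (nat_lit 28948022309329048855892746252171976963317485781816423940209138940985623969792)) (K : p.kk = [])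
    (h1 : Nr r p.y1 a) (h2 : Nr r p.y2 b) (h3 : Nr r p.y3 c) (g : |vz h| ≤ 2 ^ 121)
    (O : (RP.at a b c k4 k5 k6).ok p) (u1 : |e1| ≤ 1) (u2 : |e2| ≤ 1) (u3 : |e3| ≤ 1)
    (S : 0 < 2 - (a + w h * e1) - (b + w h * e2) - (c + w h * e3)) (e : cen p r h = true) :
    GA p (RP.at a b c k4 k5 k6) (a + w h * e1) (b + w h * e2) (c + w h * e3) := by
  let ε : Nz := ⟨e1, e2, e3, max |e1| (max |e2| |e3|), le_max_left _ _, le_max_of_le_right (le_max_left _ _),
    le_max_of_le_right (le_max_right _ _), max_le u1 (max_le u2 u3)⟩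
  have hb := ib W h1 h2 h3 g
  rcases geoT_s ε hb rfl rfl rfl S e with h | ⟨T, E, A2, A3, hT, hE, h2, h3, e⟩
  · exact absurd h (not_le.2 (nal_n N _ _ _))
  have z : |(0 : ℝ) * 2 ^ 112 - vz (nat_lit 28948022309329048855892746252171976963317496166410141009864396001978282409984)| ≤ (((nat_lit 0) : ℕ) : ℝ) := by rw [vz_B]; simp
  have z' : |vz (nat_lit 28948022309329048855892746252171976963317496166410141009864396001978282409984)| ≤ 2 ^ 121 := by rw [vz_B]; simp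
  obtain ⟨Z, g0, lg, hZ, e, q⟩ := comb_s O (by rw [K]; simp) (d := ⟨(nat_lit 28948022309329048855892746252171976963317496166410141009864396001978282409984), (nat_lit 28948022309329048855892746252171976963317496166410141009864396001978282409984), (nat_lit 28948022309329048855892746252171976963317496166410141009864396001978282409984), h, h, h, (nat_lit 0)⟩)
    ⟨z, z, z, z', z', z', g, g, g⟩ hb rfl rfl rfl hT hE h2 h3 e
  obtain ⟨q1, q2⟩ := q K rfl rfl rfl (add_neg_cancel _) (add_neg_cancel _) (add_neg_cancel _)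
  have q1 : g0 = 0 := q1.trans (sub_self _)
  have q2 : lg = 0 := q2.trans (by simp only [RP.at]; unfold gr dT dE dA2 dA3 dq dW dU; ring)
  have t := (abs_le.1 hZ.e2).1
  rw [q1, q2] at t
  obtain ⟨s1, e⟩ := chk_s e
  obtain ⟨s2, s3⟩ := chk_s e
  have s1 := pm_s s1 ε
  have s2 := pm_s s2 ε
  have s3 := pm_s s3 ε
  push_cast at s1 s2 s3
  have : Z.r2 * (ε.η * ε.η) ≤ Z.Q ε := by
    rcases max_choice |e1| (max |e2| |e3|) with m | m
    · rw [show ε.η = _ from m, abs_mul_abs_self]; linarith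
    rcases max_choice |e2| |e3| with m' | m'
    · rw [show ε.η = _ from m.trans m', abs_mul_abs_self]; linarith
    · rw [show ε.η = _ from m.trans m', abs_mul_abs_self]; linarith
  unfold GA
  simp only [RP.at, add_sub_cancel_left, zero_add] at t ⊢
  linarith

theorem cramer {m1 m2 m3 m4 b1 b2 s0 d0 ρ : ℝ} (h1 : |m1 - 1.5| ≤ 0.01) (h2 : |m2 - 0.72| ≤ 0.01)
    (h3 : |m3 - 0.99| ≤ 0.01) (h4 : |m4 - 1.63| ≤ 0.01) (r1 : |b1 - m1 * s0 - m2 * d0| ≤ ρ)
    (r2 : |b2 - m3 * s0 - m4 * d0| ≤ ρ) :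
    ∃ s d, |s| ≤ 2 * ρ ∧ |d| ≤ 2 * ρ ∧ m1 * (s0 + s) + m2 * (d0 + d) = b1 ∧ m3 * (s0 + s) + m4 * (d0 + d) = b2 := by
  have g1 := abs_le.1 h1; have g2 := abs_le.1 h2; have g3 := abs_le.1 h3; have g4 := abs_le.1 h4
  have k1 := abs_le.1 (prod_bd h1 h4); have k2 := abs_le.1 (prod_bd h2 h3)
  have p : 1.5 ≤ m1 * m4 - m2 * m3 := by linarith
  have q := mul_le_mul_of_nonneg_left p ((abs_nonneg _).trans r1)
  have f : ∀ {m k : ℝ}, |m - k| ≤ 0.01 → 0 ≤ k → |m| ≤ k + 0.01 := fun h _ =>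
    abs_le.2 ⟨by linarith [(abs_le.1 h).1], by linarith [(abs_le.1 h).2]⟩
  have a1 := abs_le.1 (prod_bd r1 (f h4 (by norm_num))); have a2 := abs_le.1 (prod_bd r2 (f h2 (by norm_num)))
  have a3 := abs_le.1 (prod_bd r2 (f h1 (by norm_num))); have a4 := abs_le.1 (prod_bd r1 (f h3 (by norm_num)))
  have p0 : 0 < m1 * m4 - m2 * m3 := by linarith
  have := (abs_nonneg _).trans r1
  refine ⟨((b1 - m1 * s0 - m2 * d0) * m4 - (b2 - m3 * s0 - m4 * d0) * m2) / (m1 * m4 - m2 * m3),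
    ((b2 - m3 * s0 - m4 * d0) * m1 - (b1 - m1 * s0 - m2 * d0) * m3) / (m1 * m4 - m2 * m3), ?_, ?_, ?_, ?_⟩
  · rw [abs_div, abs_of_pos p0, div_le_iff₀ p0, abs_le]; constructor <;> linarith
  · rw [abs_div, abs_of_pos p0, div_le_iff₀ p0, abs_le]; constructor <;> linarith
  · linear_combination (b1 - m1 * s0 - m2 * d0) * mul_inv_cancel₀ p0.ne'
  · linear_combination (b2 - m3 * s0 - m4 * d0) * mul_inv_cancel₀ p0.ne'

theorem Nr.up {r e u : ℕ} {x : ℝ} (h : Nr r u x) (g : r ≤ e) : Nr e u x := h.trans (Nat.cast_le.2 g)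

variable {u m v t : ℝ} {y : ℕ → ℝ}

theorem par (E0 : Ec fz0 t D00 D01 D02 D03 u l l) (E1 : Ec fz1 t D10 D11 D12 D13 l m v) (t1 : 1 ≤ t) (t2 : t ≤ 2 ^ 52)
    (n1 : Nr (2 ^ 51) fz0.y1 u) (n2 : Nr (2 ^ 51) fz0.y2 l) (n3 : Nr (2 ^ 51) fz1.y2 m) (n4 : Nr (2 ^ 51) fz1.y3 v) :
    ∃ σ δ, (RP.at u l l (σ - δ) δ δ).ok fz0 ∧ (RP.at l m v σ 0 δ).ok fz1 ∧
      gr u l l (σ - δ) δ δ 0 0 1 = gr u l l (σ - δ) δ δ 0 1 0 ∧
      gr u l l (σ - δ) δ δ 0 1 0 + gr l m v σ 0 δ 1 0 0 = 0 ∧ gr l m v σ 0 δ 0 1 0 = 0 ∧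
      |gr u l l (σ - δ) δ δ 1 0 0| * 2 ^ 100 ≤ 128 * t ∧ |gr l m v σ 0 δ 0 0 1| * 2 ^ 100 ≤ 128 * t := by
  obtain ⟨⟨a1, a2, -⟩, ⟨a3, a4, -⟩, ⟨a5, a6, -⟩, a7, a8, -⟩ := And.intro E0.t1 (And.intro E0.e1 (And.intro E0.a1 E0.c1))
  obtain ⟨⟨b1, b2, b3⟩, ⟨b4, b5, b6⟩, b7, b8, b9⟩ := And.intro E1.t1 (And.intro E1.e1 E1.c1)
  simp only [D00, D01, D02, D03, D10, D11, D13, vz, abs_le, Nat.cast_ofNat] at a1 a2 a3 a4 a5 a6 a7 a8 b1 b2 b3 b4 b5 b6 b7 b8 b9
  obtain ⟨s, d, hs, hd, c1, c2⟩ := cramer (m1 := dE u l l 0 1 0 + dE l m v 1 0 0)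
    (m2 := -dE u l l 0 1 0 + dA2 u l l 0 1 0 + dA3 u l l 0 1 0 + dA3 l m v 1 0 0) (m3 := dE l m v 0 1 0)
    (m4 := dA3 l m v 0 1 0) (b1 := dT u l l 0 1 0 + dT l m v 1 0 0) (b2 := dT l m v 0 1 0)
    (s0 := 4175633643412308727287339440119761 / 2 ^ 112) (d0 := 243411173151578246252630695761344 / 2 ^ 112) (ρ := 10 * t / 2 ^ 100)
    (abs_le.2 ⟨by linarith, by linarith⟩) (abs_le.2 ⟨by linarith, by linarith⟩) (abs_le.2 ⟨by linarith, by linarith⟩)
    (abs_le.2 ⟨by linarith, by linarith⟩) (abs_le.2 ⟨by linarith, by linarith⟩) (abs_le.2 ⟨by linarith, by linarith⟩)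
  have f : ∀ {k x b : ℝ}, |k| ≤ 2 * (10 * t / 2 ^ 100) → -b ≤ x → x ≤ b → -(2 * (10 * t / 2 ^ 100) * b) ≤ k * x ∧
    k * x ≤ 2 * (10 * t / 2 ^ 100) * b := fun h a b => abs_le.1 (prod_bd h (abs_le.2 ⟨a, b⟩))
  have p1 := f (x := dE u l l 1 0 0) (b := 1) hs (by linarith) (by linarith)
  have p2 := f (x := dE u l l 1 0 0 - dA2 u l l 1 0 0 - dA3 u l l 1 0 0) (b := 2) hd (by linarith) (by linarith)
  have p3 := f (x := dE u l l 0 1 0) (b := 1) hs (by linarith) (by linarith)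
  have p4 := f (x := dE u l l 0 1 0 - dA2 u l l 0 1 0 - dA3 u l l 0 1 0) (b := 2) hd (by linarith) (by linarith)
  have p5 := f (x := dE l m v 0 0 1) (b := 1) hs (by linarith) (by linarith)
  have p6 := f (x := dA3 l m v 0 0 1) (b := 2) hd (by linarith) (by linarith)
  generalize hσ : 4175633643412308727287339440119761 / 2 ^ 112 + s = σ at c1 c2
  generalize hδ : 243411173151578246252630695761344 / 2 ^ 112 + d = δ at c1 c2
  have e0 : gr u l l (σ - δ) δ δ 0 0 1 = gr u l l (σ - δ) δ δ 0 1 0 := by unfold gr dT dE dA2 dA3 dq dW dU; ring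
  have e1 : gr u l l (σ - δ) δ δ 0 1 0 + gr l m v σ 0 δ 1 0 0 = 0 := by unfold gr; linarith only [c1]
  have e2 : gr l m v σ 0 δ 0 1 0 = 0 := by unfold gr; linarith only [c2]
  have g1 : |gr u l l (σ - δ) δ δ 1 0 0| * 2 ^ 100 ≤ 100 * t := by
    rw [← le_div_iff₀ (by positivity), abs_le, ← hσ, ← hδ]; unfold gr
    constructor <;> linarith only [t1, p1.1, p1.2, p2.1, p2.2, a1.1, a1.2, a3.1, a3.2, a5.1, a5.2, a7.1, a7.2]
  have g2 : |gr u l l (σ - δ) δ δ 0 1 0 * 2 ^ 112 - 439049063046621620976354678744386| ≤ 2 ^ 72 := by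
    rw [abs_le, ← hσ, ← hδ]; unfold gr
    constructor <;> linarith only [t1, t2, p3.1, p3.2, p4.1, p4.2, a2.1, a2.2, a4.1, a4.2, a6.1, a6.2, a8.1, a8.2]
  have g3 : |gr l m v σ 0 δ 0 0 1| * 2 ^ 100 ≤ 100 * t := by
    rw [← le_div_iff₀ (by positivity), abs_le, ← hσ, ← hδ]; unfold gr
    constructor <;> linarith only [t1, p5.1, p5.2, p6.1, p6.2, b3.1, b3.2, b6.1, b6.2, b9.1, b9.2]
  have hs := abs_le.1 hs
  have hd := abs_le.1 hd
  have g2 := abs_le.1 g2
  have g4 := le_abs_self (gr u l l (σ - δ) δ δ 1 0 0)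
  have g5 := neg_abs_le (gr u l l (σ - δ) δ δ 1 0 0)
  have g6 := le_abs_self (gr l m v σ 0 δ 0 0 1)
  have g7 := neg_abs_le (gr l m v σ 0 δ 0 0 1)
  refine ⟨σ, δ, ⟨n1.up (by decide), n2.up (by decide), n2.up (by decide), E0.e0, E0.a0, E0.c0, E0.t0, ?_, ?_, ?_, ?_, ?_, ?_⟩,
    ⟨n2.up (by decide), n3.up (by decide), n4.up (by decide), E1.e0, E1.a0, E1.c0, E1.t0, ?_, ?_, ?_, ?_, ?_, ?_⟩,
    e0, e1, e2, by linarith, by linarith⟩ <;>
  simp only [Nr, RP.at, fz0, fz1, vz, abs_le, Nat.cast_ofNat] <;> constructor <;>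
  linarith only [t1, t2, hs.1, hs.2, hd.1, hd.2, hσ, hδ, g1, g2.1, g2.2, g3, g4, g5, g6, g7, e0, e1, e2]

def yz (u l m v : ℝ) (e : ℕ) : ℝ := [u, u, l, l, l, l, l, l, l, l, m, m, m, m, v, v, v, v].getD e 0

theorem gaF {k4 k5 k6 x1 x2 x3 : ℝ} (W : p.wf = true)
    (V : p.nal ≤ (nat_lit 28948022309329048855892746252171976963317485781816423940209138940985623969792) ∧ p.kk = [] ∧ p.ct = [] ∧
      (p.y1 + 2 ^ 51 + 2 ^ 132 ≤ p.h1 * 2 ^ 80 + rh ∧ p.g1 * 2 ^ 80 + 2 ^ 51 + 2 ^ 255 ≤ p.y1 + rh + 2 ^ 132) ∧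
      (p.y2 + 2 ^ 51 + 2 ^ 132 ≤ p.h2 * 2 ^ 80 + rh ∧ p.g2 * 2 ^ 80 + 2 ^ 51 + 2 ^ 255 ≤ p.y2 + rh + 2 ^ 132) ∧
      (p.y3 + 2 ^ 51 + 2 ^ 132 ≤ p.h3 * 2 ^ 80 + rh ∧ p.g3 * 2 ^ 80 + 2 ^ 51 + 2 ^ 255 ≤ p.y3 + rh + 2 ^ 132))
    (e : cen p (2 ^ 51) rh = true) (h1 : Nr (2 ^ 51) p.y1 a) (h2 : Nr (2 ^ 51) p.y2 b) (h3 : Nr (2 ^ 51) p.y3 c)
    (O : (RP.at a b c k4 k5 k6).ok p) (H : p.Good x1 x2 x3) (S : 0 < 2 - x1 - x2 - x3) :
    GA p (RP.at a b c k4 k5 k6) x1 x2 x3 := by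
  obtain ⟨N, K, T, v1, v2, v3⟩ := V
  rcases H with H | H
  · have z : 0 < w rh := by unfold w vz rh; norm_num
    obtain ⟨e1, u1, rfl⟩ := hl_s v1 z h1 H.1
    obtain ⟨e2, u2, rfl⟩ := hl_s v2 z h2 H.2.1
    obtain ⟨e3, u3, rfl⟩ := hl_s v3 z h3 H.2.2
    exact cen_s' W N K h1 h2 h3 (by unfold vz rh; norm_num) O u1 u2 u3 S e
  · exact H (by rw [T]; simp) (nal_n N _ _ _) S _ O

theorem fin (E0 : Ec fz0 t D00 D01 D02 D03 u l l) (E1 : Ec fz1 t D10 D11 D12 D13 l m v) (t1 : 1 ≤ t) (t2 : t ≤ 2 ^ 52)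
    (n1 : Nr (2 ^ 51) fz0.y1 u) (n2 : Nr (2 ^ 51) fz0.y2 l) (n3 : Nr (2 ^ 51) fz1.y2 m) (n4 : Nr (2 ^ 51) fz1.y3 v)
    (C0 : Cfg (yz u l m v)) : ∃ ν1 ν2, |ν1| * 2 ^ 100 ≤ 256 * t ∧ |ν2| * 2 ^ 100 ≤ 256 * t ∧
      ∀ y, Cfg y → 34884712220 < ary y * 2 ^ 32 → ary y ≤ 4 * √(Uf u l l) + 8 * √(Uf l m v) +
        ν1 * (y 0 + y 1 - 2 * u) + ν2 * (y 14 + y 15 + y 16 + y 17 - 4 * v) -
        (∑ e ∈ Finset.range 18, (y e - yz u l m v e) ^ 2) / 1024 := by
  obtain ⟨σ, δ, O0, O1, e0, e1, e2, g1, g2⟩ := par E0 E1 t1 t2 n1 n2 n3 n4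
  refine ⟨2 * gr u l l (σ - δ) δ δ 1 0 0, 2 * gr l m v σ 0 δ 0 0 1, by rw [abs_mul, abs_two]; linarith,
    by rw [abs_mul, abs_two]; linarith, fun y C h => ?_⟩
  have Z := C.z0 h
  have s0 := (show Tri u l l from C0.t0).sum (by
    simp only [Nr, fz0, vz, abs_le] at n1 n2; push_cast at n1 n2; linarith)
  have s1 := (show Tri l m v from C0.t4).sum (by
    simp only [Nr, fz0, fz1, vz, abs_le] at n2 n3 n4; push_cast at n2 n3 n4; linarith)
  have k0 : A1f u l l + A2f u l l + A1f u l l + A3f u l l + A1f l m v + A2f l m v + A1f l m v + A2f l m v = 2 * π := C0.k0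
  have k4 : A2f u l l + A3f u l l + A2f l m v + A3f l m v + A1f l m v + A3f l m v + A2f l m v + A3f l m v +
    A1f l m v + A3f l m v = 2 * π := C0.k4
  have w0 : fz0.wf = true := by decide +kernel
  have w1 : fz1.wf = true := by decide +kernel
  obtain ⟨x, -, x2, x3, -, x5⟩ := core C Z (r0 := RP.at u l l (σ - δ) δ δ) (r1 := RP.at l m v σ 0 δ)
    (r2 := RP.at l m v σ 0 δ) (p0 := fz0) (p1 := fz1) (p2 := fz1)
    ⟨rfl, rfl, rfl, by simp only [RP.at]; linarith only [s0, s1, k0], by simp only [RP.at]; linarith only [s1, k4]⟩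
    ⟨by decide +kernel, by decide +kernel, by decide +kernel, by decide +kernel, by decide +kernel, by decide +kernel,
      rfl, by decide +kernel, by decide +kernel⟩ (GG.of C Z (chain C h)
      (fun a b c u v w F _ => gaF w0 (by decide +kernel) ce0 n1 n2 n2 O0 (fz0_cov a b c u v w) F.2)
      (fun a b c u v w F _ => gaF w1 (by decide +kernel) ce1 n2 n3 n4 O1 (fz1_cov a b c u v w) F.2.2)
      (fun a b c u v w F _ => gaF w1 (by decide +kernel) ce1 n2 n3 n4 O1 (fz1_cov a b c u v w) F.2.2))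
  have q := lmi_s (x := x) fz_l (e := (0, 0)) (by simp)
  have k := EK_s x3
  have q1 : ∀ z : ℤ, ev x ((List.range 18).map fun e => ent (36 + e) (36 + e) z) =
      z * ∑ e ∈ Finset.range 18, (y e - yz u l m v e) ^ 2 := fun z => by
    rw [← Finset.sum_congr rfl fun e he => show x (36 + e) * x (36 + e) = (y e - yz u l m v e) ^ 2 by
      rw [x2 e (Finset.mem_range.1 he), pow_two]; rfl]
    generalize 18 = n
    induction n with
    | zero => simp [ev]
    | succ n ih => rw [List.range_succ, List.map_append, ev_app, ih, List.map_singleton, ev_ent, ev_nil,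
        Finset.sum_range_succ]; ring
  rw [EF, ev_app, ev_app, EQ_s, q1] at q
  have q2 : 0 ≤ ∑ e ∈ Finset.range 18, (y e - yz u l m v e) ^ 2 := Finset.sum_nonneg fun _ _ => sq_nonneg _
  simp only [KV, List.forall_mem_cons, li, List.map_cons, List.sum_cons, List.map_nil, List.sum_nil] at x3
  push_cast at x3 q
  obtain ⟨z0, z1, z2, z3, z4, z5, z6, z7, -⟩ := x3
  have y0 : x 36 = y 0 - u := x2 0 (by norm_num)
  have y1 : x 37 = y 1 - u := x2 1 (by norm_num)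
  have y2 : x 50 = y 14 - v := x2 14 (by norm_num)
  have y3 : x 51 = y 15 - v := x2 15 (by norm_num)
  have y4 : x 52 = y 16 - v := x2 16 (by norm_num)
  have y5 : x 53 = y 17 - v := x2 17 (by norm_num)
  have : totL (RP.at u l l (σ - δ) δ δ) (RP.at l m v σ 0 δ) (RP.at l m v σ 0 δ) x = 4 * √(Uf u l l) + 8 * √(Uf l m v) +
      2 * gr u l l (σ - δ) δ δ 1 0 0 * (y 0 + y 1 - 2 * u) +
      2 * gr l m v σ 0 δ 0 0 1 * (y 14 + y 15 + y 16 + y 17 - 4 * v) := by
    simp only [totL, RP.lin, RP.at, e0, e2, y0, y1, y2, y3, y4, y5]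
    linear_combination (σ - δ) / 2 * (z0 + z1 + z2 + z3) + (σ + δ) / 2 * (z4 + z5 + z6 + z7) +
      (x 38 + x 39 + x 40 + x 41 + x 42 + x 43 + x 44 + x 45) * e1
  linarith only [this, q, k, q2, x5]

end Pool.Agent.Work.MP_c2ab8b_gt.K8
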