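import Pool.Agent.Work.MP_c2ab8b_gt.Pert

/- Faces of the convex hull of eight points on the sphere. -/

noncomputable section
namespace Pool.Agent.Work.MP_c2ab8b_gt.K8
open Real

structure Gen (X : Fin 8 → V) : Prop where
  u : ∀ i, dt (X i) (X i) = 1
  g3 : ∀ i j k, i ≠ j → j ≠ k → k ≠ i → dv (X i) (X j) (X k) ≠ 0
  g4 : ∀ i j k l, i ≠ j → j ≠ k → k ≠ i → l ≠ i → l ≠ j → l ≠ k → d4 (X i) (X j) (X k) (X l) ≠ 0
  ins : ∀ d : V, (∃ x, dt d x ≠ 0) → ∃ l, 0 < dt d (X l)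

def Fc (X : Fin 8 → V) (i j k : Fin 8) : Prop :=
  0 < dv (X i) (X j) (X k) ∧ ∀ l, l ≠ i → l ≠ j → l ≠ k → d4 (X i) (X j) (X k) (X l) < 0

variable {X : Fin 8 → V} {i j k l m v : Fin 8}

theorem Fc.rot (h : Fc X i j k) : Fc X j k i :=
  ⟨dv_rot (X i) _ _ ▸ h.1, fun l a b c => by
    have := h.2 l c a b
    unfold d4 dv at *; linarith only [this]⟩

theorem Fc.ne (h : Fc X i j k) : i ≠ j := by
  rintro rfl; have := h.1; rw [dv_aab] at this; exact lt_irrefl _ this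

theorem Fc.anti (h : Fc X i j k) (h' : Fc X i k j) : False := by
  have a := h.1; have b := h'.1
  unfold dv at *; linarith

theorem Fc.le (h : Fc X i j k) (l : Fin 8) : d4 (X i) (X j) (X k) (X l) ≤ 0 := by
  by_cases a : l = i
  · subst a; unfold d4 dv; linarith only []
  by_cases b : l = j
  · subst b; unfold d4 dv; linarith
  by_cases c : l = k
  · subst c; unfold d4 dv; linarith
  exact (h.2 l a b c).le

theorem Fc.uniq (h : Fc X i j k) (h' : Fc X i j l) : k = l := by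
  by_contra hn
  have a := h.2 l h'.rot.rot.ne h'.rot.ne.symm (Ne.symm hn)
  have b := h'.le k
  unfold d4 dv at *; linarith only [a, b]

theorem Fc.ps (u : ∀ i, dt (X i) (X i) = 1) (h : Fc X i j k) : Ps (X i) (X j) (X k) := ⟨u i, u j, u k, h.1⟩

theorem Gen.tight (G : Gen X) {a : V} (ha : ∀ l, dt a (X l) ≤ 1) (hi : dt a (X i) = 1) (hj : dt a (X j) = 1)
    (hk : dt a (X k) = 1) (hd : 0 < dv (X i) (X j) (X k)) : Fc X i j k := by
  refine ⟨hd, fun l h1 h2 h3 => lt_of_le_of_ne ?_ (G.g4 i j k l ?_ ?_ ?_ h1 h2 h3)⟩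
  · rw [d4_eq hi hj hk]; exact mul_nonpos_of_nonneg_of_nonpos hd.le (sub_nonpos.2 (ha l))
  · rintro rfl; rw [dv_aab] at hd; exact lt_irrefl _ hd
  · rintro rfl; rw [dv_abb] at hd; exact lt_irrefl _ hd
  · rintro rfl; rw [dv_aba] at hd; exact lt_irrefl _ hd

theorem Gen.wrap (G : Gen X) {a d : V} (ha : ∀ l, dt a (X l) ≤ 1) (hd : ∃ x, dt d x ≠ 0) :
    ∃ (t : ℝ) (m : Fin 8), 0 < dt d (X m) ∧ (∀ l, dt (a + t • d) (X l) ≤ 1) ∧ dt (a + t • d) (X m) = 1 := by
  obtain ⟨l0, h0⟩ := G.ins d hd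
  obtain ⟨m, hm, hmin⟩ := Finset.exists_min_image (Finset.univ.filter fun l => 0 < dt d (X l))
    (fun l => (1 - dt a (X l)) / dt d (X l)) ⟨l0, by simpa using h0⟩
  have hm : 0 < dt d (X m) := by simpa using hm
  refine ⟨(1 - dt a (X m)) / dt d (X m), m, hm, fun l => ?_, by rw [dt_add_smul]; field_simp; ring⟩
  rw [dt_add_smul]
  by_cases h : 0 < dt d (X l)
  · have := hmin l (by simpa using h)
    rw [le_div_iff₀ h] at this; linarith only [this]
  · have := mul_nonpos_of_nonneg_of_nonpos (div_nonneg (sub_nonneg.2 (ha m)) hm.le) (not_lt.1 h)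
    linarith [ha l]

theorem Gen.turn (G : Gen X) {a : V} (ha : ∀ l, dt a (X l) ≤ 1) (hi : dt a (X i) = 1) (hj : dt a (X j) = 1)
    (hij : i ≠ j) : ∃ m, Fc X i j m := by
  obtain ⟨k, h1, h2⟩ := (by decide : ∀ i j : Fin 8, ∃ k, j ≠ k ∧ k ≠ i) i j
  obtain ⟨t, m, a1, a2, a3⟩ := G.wrap (d := cr (X i) (X j)) ha ⟨X k, by rw [dt_cr]; exact G.g3 i j k hij h1 h2⟩
  rw [dt_cr] at a1
  exact ⟨m, G.tight a2 (by rw [dt_add_smul, dt_cr, dv_aba, hi]; ring)
    (by rw [dt_add_smul, dt_cr, dv_abb, hj]; ring) a3 a1⟩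

theorem Fc.sup (h : Fc X i j k) : ∃ a : V, (∀ l, dt a (X l) ≤ 1) ∧ dt a (X i) = 1 ∧ dt a (X j) = 1 := by
  have p := h.1
  have e : ∀ x, dt ((dv (X i) (X j) (X k))⁻¹ • (cr (X i) (X j) + cr (X j) (X k) + cr (X k) (X i))) x =
      1 + d4 (X i) (X j) (X k) x / dv (X i) (X j) (X k) := by
    intro x
    have : ∀ (t : ℝ) (p q r : V), dt (t • (p + q + r)) x = t * (dt p x + dt q x + dt r x) := by
      intro t p q r; simp [dt]; ring
    rw [this, dt_cr, dt_cr, dt_cr]; field_simp; unfold d4 dv; ring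
  refine ⟨(dv (X i) (X j) (X k))⁻¹ • (cr (X i) (X j) + cr (X j) (X k) + cr (X k) (X i)), fun l => ?_, ?_, ?_⟩ <;>
    rw [e]
  · linarith [div_nonpos_of_nonpos_of_nonneg (h.le l) p.le]
  · rw [show d4 (X i) (X j) (X k) (X i) = 0 by unfold d4 dv; ring]; simp
  · rw [show d4 (X i) (X j) (X k) (X j) = 0 by unfold d4 dv; ring]; simp

theorem Fc.nxt (G : Gen X) (h : Fc X i j k) : ∃ l, Fc X j i l := by
  obtain ⟨a, h1, h2, h3⟩ := h.sup
  exact G.turn h1 h3 h2 h.ne.symm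

theorem Gen.ext2 (G : Gen X) {a : V} (ha : ∀ l, dt a (X l) ≤ 1) (hi : dt a (X i) = 1) (hj : dt a (X j) = 1)
    (hij : i ≠ j) : ∃ p q, Fc X i p q ∧ ∀ l, dt a (X l) = 1 → l = i ∨ l = p ∨ l = q := by
  by_cases h : ∃ k, j ≠ k ∧ k ≠ i ∧ dt a (X k) = 1
  · obtain ⟨k, h1, h2, hk⟩ := h
    have key : ∀ {p q}, dt a (X p) = 1 → dt a (X q) = 1 → 0 < dv (X i) (X p) (X q) →
        ∃ p q, Fc X i p q ∧ ∀ l, dt a (X l) = 1 → l = i ∨ l = p ∨ l = q := by
      intro p q hp hq hd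
      have F := G.tight ha hi hp hq hd
      refine ⟨p, q, F, fun l hl => ?_⟩
      by_contra hn
      push Not at hn
      have := F.2 l hn.1 hn.2.1 hn.2.2
      rw [d4_eq hi hp hq, hl, sub_self, mul_zero] at this
      exact lt_irrefl _ this
    rcases lt_or_gt_of_ne (G.g3 i j k hij h1 h2) with g | g
    · exact key hk hj (by unfold dv at *; linarith)
    · exact key hj hk g
  · obtain ⟨m, F⟩ := G.turn ha hi hj hij
    refine ⟨j, m, F, fun l hl => ?_⟩
    by_contra hn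
    push Not at hn
    exact h ⟨l, hn.2.1.symm, hn.1, hl⟩

theorem Gen.ext1 (G : Gen X) {a : V} (ha : ∀ l, dt a (X l) ≤ 1) (hi : dt a (X i) = 1) :
    ∃ p q, Fc X i p q ∧ ∀ l, dt a (X l) = 1 → l = i ∨ l = p ∨ l = q := by
  by_cases h : ∃ j, i ≠ j ∧ dt a (X j) = 1
  · obtain ⟨j, h1, hj⟩ := h
    exact G.ext2 ha hi hj h1
  · obtain ⟨j, k, h0, h1, h2⟩ := (by decide : ∀ i : Fin 8, ∃ j k, i ≠ j ∧ j ≠ k ∧ k ≠ i) i
    obtain ⟨t, m, a1, a2, a3⟩ := G.wrap (d := cr (X i) (X j)) ha ⟨X k, by rw [dt_cr]; exact G.g3 i j k h0 h1 h2⟩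
    rw [dt_cr] at a1
    obtain ⟨p, q, F, -⟩ := G.ext2 (i := i) a2 (by rw [dt_add_smul, dt_cr, dv_aba, hi]; ring) a3
      (by rintro rfl; rw [dv_aba] at a1; exact lt_irrefl _ a1)
    refine ⟨p, q, F, fun l hl => Or.inl ?_⟩
    by_contra hn
    exact h ⟨l, Ne.symm hn, hl⟩

theorem Gen.vert (G : Gen X) (i : Fin 8) : ∃ p q, Fc X i p q := by
  obtain ⟨p, q, F, -⟩ := G.ext1 (a := X i) (fun l => (dt_bd (G.u i) (G.u l)).2) (G.u i)
  exact ⟨p, q, F⟩

theorem Fc.del (u : ∀ i, dt (X i) (X i) = 1) (h : Fc X i j k) (h' : Fc X j i l) :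
    0 ≤ An (X i) (X j) (X k) + An (X j) (X i) (X l) := by
  have e : Tt (X i) (X j) (X k) * dv (X j) (X i) (X l) + Tt (X j) (X i) (X l) * dv (X i) (X j) (X k) =
      -((1 + dt (X i) (X j)) * d4 (X i) (X j) (X k) (X l)) := by
    have hi := u i; have hj := u j
    unfold Tt d4 dt dv at *
    linear_combination (X i 0 * (X k 1 * X l 2 - X k 2 * X l 1) + X i 1 * (X k 2 * X l 0 - X k 0 * X l 2) +
      X i 2 * (X k 0 * X l 1 - X k 1 * X l 0)) * hj - (X j 0 * (X k 1 * X l 2 - X k 2 * X l 1) +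
      X j 1 * (X k 2 * X l 0 - X k 0 * X l 2) + X j 2 * (X k 0 * X l 1 - X k 1 * X l 0)) * hi
  have p := mul_nonpos_of_nonneg_of_nonpos (by linarith [(dt_bd (u i) (u j)).1] : 0 ≤ 1 + dt (X i) (X j))
    (h.le l)
  have : -(Tt (X j) (X i) (X l) / dv (X j) (X i) (X l)) ≤ Tt (X i) (X j) (X k) / dv (X i) (X j) (X k) := by
    rw [← neg_div, div_le_div_iff₀ h'.1 h.1]; linarith
  have := arctan_le_arctan_iff.2 this
  rw [arctan_neg] at this
  unfold An; linarith

theorem Fc.sector (h : Fc X v i j) (h' : Fc X v l m) (a : 0 ≤ dv (X v) (X i) (X l))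
    (b : 0 ≤ dv (X v) (X l) (X j)) : l = i ∨ l = j := by
  by_contra hn
  push Not at hn
  have e : dv (X v) (X l) (X m) * -d4 (X v) (X i) (X j) (X l) =
      dv (X v) (X l) (X j) * d4 (X v) (X l) (X m) (X i) + dv (X v) (X i) (X l) * d4 (X v) (X l) (X m) (X j) := by
    unfold d4 dv; ring
  have := mul_pos h'.1 (neg_pos.2 (h.2 l h'.ne.symm hn.1 hn.2))
  linarith [mul_nonpos_of_nonneg_of_nonpos b (h'.le i), mul_nonpos_of_nonneg_of_nonpos a (h'.le j)]

theorem Fc.three (h1 : Fc X v i j) (h2 : Fc X v j k) (h3 : Fc X v k i) (h : Fc X v l m) :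
    l = i ∨ l = j ∨ l = k := by
  have e : dv (X v) (X i) (X j) * dv (X v) (X k) (X l) + dv (X v) (X j) (X k) * dv (X v) (X i) (X l) +
      dv (X v) (X k) (X i) * dv (X v) (X j) (X l) = 0 := by unfold dv; ring
  have s : ∀ x, dv (X v) (X l) x = -dv (X v) x (X l) := fun x => by unfold dv; ring
  have p1 := h1.1; have p2 := h2.1; have p3 := h3.1
  by_cases a : 0 ≤ dv (X v) (X i) (X l) ∧ dv (X v) (X j) (X l) ≤ 0
  · have := h1.sector h a.1 (by rw [s]; linarith [a.2]); tauto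
  by_cases b : 0 ≤ dv (X v) (X j) (X l) ∧ dv (X v) (X k) (X l) ≤ 0
  · have := h2.sector h b.1 (by rw [s]; linarith [b.2]); tauto
  by_cases c : 0 ≤ dv (X v) (X k) (X l) ∧ dv (X v) (X i) (X l) ≤ 0
  · have := h3.sector h c.1 (by rw [s]; linarith [c.2]); tauto
  exfalso
  push Not at a b c
  rcases le_or_gt 0 (dv (X v) (X i) (X l)) with g | g
  · have g2 := a g
    have g3 := b g2.le
    have g1 := c g3.le
    linarith only [e, p1, g3, p2, g1, p3, g2, mul_pos p1 g3, mul_pos p2 g1, mul_pos p3 g2]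
  · have g3 : dv (X v) (X k) (X l) < 0 := by by_contra x; linarith [c (not_lt.1 x)]
    have g2 : dv (X v) (X j) (X l) < 0 := by by_contra x; linarith [b (not_lt.1 x)]
    linarith only [e, p1, g3, p2, g, p3, g2, mul_pos p1 (neg_pos.2 g3), mul_pos p2 (neg_pos.2 g), mul_pos p3 (neg_pos.2 g2)]

theorem cyc (u : ∀ i, dt (X i) (X i) = 1) {ι : Type} [Fintype ι] [Nonempty ι] (nx : ι ≃ ι) {J : ι → Fin 8}
    (hJ : Function.Injective J) (F : ∀ t, Fc X v (J t) (J (nx t))) :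
    ∑ t, (An (X v) (X (J t)) (X (J (nx t))) + An (X (J (nx t))) (X v) (X (J t))) = 2 * π := by
  obtain ⟨t0⟩ := ‹Nonempty ι›
  set r := X (J t0)
  have w : ∀ t, 0 < 1 - dt (X v) (X (J t)) ^ 2 := fun t => by linarith [((F t).ps u).sq_lt]
  let z : ι → ℂ := fun t => ⟨dt r (X (J t)) - dt (X v) r * dt (X v) (X (J t)), dv (X v) r (X (J t))⟩
  have i1 : ∀ s t, (z s).re * (z t).re + (z s).im * (z t).im =
      (1 - dt (X v) r ^ 2) * (dt (X (J s)) (X (J t)) - dt (X v) (X (J s)) * dt (X v) (X (J t))) := by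
    intro s t
    have : ∀ v r a b : V, (dt v v * dt r a - dt v r * dt v a) * (dt v v * dt r b - dt v r * dt v b) +
        dt v v * (dv v r a * dv v r b) = (dt v v * dt r r - dt v r ^ 2) * (dt v v * dt a b - dt v a * dt v b) := by
      intro v r a b; unfold dt dv; ring
    simpa [u, r, z] using this (X v) r (X (J s)) (X (J t))
  have i2 : ∀ s t, (z s).re * (z t).im - (z s).im * (z t).re =
      (1 - dt (X v) r ^ 2) * dv (X v) (X (J s)) (X (J t)) := by
    intro s t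
    have : ∀ v r a b : V, (dt v v * dt r a - dt v r * dt v a) * dv v r b -
        dv v r a * (dt v v * dt r b - dt v r * dt v b) = (dt v v * dt r r - dt v r ^ 2) * dv v a b := by
      intro v r a b; unfold dt dv; ring
    simpa [u, r, z] using this (X v) r (X (J s)) (X (J t))
  have w0 := w t0
  have nz : ∀ t, 0 < ‖z t‖ := fun t => norm_pos_iff.2 fun h => by
    have := i1 t t
    rw [h, u] at this
    simp only [Complex.zero_re, Complex.zero_im] at this
    linarith only [this, w0, w, mul_pos w0 (w t)]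
  set φ : ι → ℝ := fun t => (z t).arg
  have f1 : ∀ t, -π < φ t := fun t => Complex.neg_pi_lt_arg _
  have f2 : ∀ t, φ t ≤ π := fun t => Complex.arg_le_pi _
  have j1 : ∀ s t, ‖z s‖ * ‖z t‖ * cos (φ t - φ s) =
      (1 - dt (X v) r ^ 2) * (dt (X (J s)) (X (J t)) - dt (X v) (X (J s)) * dt (X v) (X (J t))) := by
    intro s t
    rw [← i1, ← Complex.norm_mul_cos_arg, ← Complex.norm_mul_cos_arg (z t), ← Complex.norm_mul_sin_arg,
      ← Complex.norm_mul_sin_arg (z t), cos_sub]; ring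
  have j2 : ∀ s t, ‖z s‖ * ‖z t‖ * sin (φ t - φ s) = (1 - dt (X v) r ^ 2) * dv (X v) (X (J s)) (X (J t)) := by
    intro s t
    rw [← i2, ← Complex.norm_mul_cos_arg, ← Complex.norm_mul_cos_arg (z t), ← Complex.norm_mul_sin_arg,
      ← Complex.norm_mul_sin_arg (z s), sin_sub]; ring
  have j3 : ∀ s t, 0 ≤ sin (φ t - φ s) → 0 ≤ dv (X v) (X (J s)) (X (J t)) := fun s t h =>
    nonneg_of_mul_nonneg_right (by rw [← j2]; have := nz s; have := nz t; positivity) w0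
  set θ : ι → ℝ := fun t => An (X v) (X (J t)) (X (J (nx t))) + An (X (J (nx t))) (X v) (X (J t))
  have th : ∀ t, 0 < θ t ∧ θ t < π ∧ (θ t = φ (nx t) - φ t ∨ θ t = φ (nx t) - φ t + 2 * π) := by
    intro t
    obtain ⟨a, b, ρ, p, c, d⟩ := ((F t).ps u).ang
    refine ⟨a, b, ?_⟩
    obtain ⟨k, hk⟩ := pol (mul_pos w0 p) (mul_pos (nz t) (nz (nx t))) (A := θ t) (B := φ (nx t) - φ t)
      (by rw [j1, c]; ring) (by rw [j2, d]; ring)
    have pp := pi_pos
    have k1 : (-1 : ℝ) < k := by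
      by_contra x
      linarith only [a, hk, f1, f2, pp, x, f1 t, f2 (nx t), mul_nonneg pp.le (sub_nonneg.2 (not_lt.1 x))]
    have k2 : (k : ℝ) < 2 := by
      by_contra x
      linarith only [a, b, hk, f1, f2, pp, x, f1 (nx t), f2 t, mul_nonneg pp.le (sub_nonneg.2 (not_lt.1 x))]
    have k1 : -1 < k := by exact_mod_cast k1
    have k2 : k < 2 := by exact_mod_cast k2
    obtain rfl | rfl : k = 0 ∨ k = 1 := by omega
    · left; push_cast at hk; linarith only [hk]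
    · right; push_cast at hk; linarith
  have un : ∀ s t, θ s = φ (nx s) - φ s + 2 * π → φ s ≤ φ t → s = t := by
    intro s t hs hst
    obtain ⟨a, b, -⟩ := th s
    have := (F s).sector (F t) (j3 s t (sin_nonneg_of_nonneg_of_le_pi (by linarith)
      (by linarith [f1 (nx s), f2 t]))) (j3 t (nx s) (by
        rw [← sin_add_two_pi]
        exact sin_nonneg_of_nonneg_of_le_pi (by linarith [f1 (nx s), f2 t]) (by linarith)))
    rcases this with h | h
    · exact (hJ h).symm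
    · rw [← hJ h] at hs; linarith [pi_pos]
  obtain ⟨m, -, hm⟩ := Finset.exists_max_image Finset.univ φ ⟨t0, Finset.mem_univ _⟩
  have : ∑ t, θ t = ∑ t, (φ (nx t) - φ t) + ∑ t, (θ t - (φ (nx t) - φ t)) := by
    rw [← Finset.sum_add_distrib]; exact Finset.sum_congr rfl fun t _ => by ring
  rw [this, Finset.sum_sub_distrib, nx.sum_comp φ, sub_self, zero_add, Finset.sum_eq_single m]
  · rcases (th m).2.2 with h | h
    · linarith [(th m).1, hm (nx m) (Finset.mem_univ _)]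
    · linarith
  · intro t _ ht
    rcases (th t).2.2 with h | h
    · linarith
    · exact absurd (un t m h (hm t (Finset.mem_univ _))) ht
  · simp

theorem Fc.tet (u : ∀ i, dt (X i) (X i) = 1) {a b c d : Fin 8} (h1 : Fc X a b c) (h2 : Fc X a c d) (h3 : Fc X a d b)
    (h4 : Fc X b d c) : False := by
  obtain ⟨x, a1, a2, a3, a4⟩ := (by decide : ∀ a b c d : Fin 8, ∃ x, x ≠ a ∧ x ≠ b ∧ x ≠ c ∧ x ≠ d) a b c d
  have p1 := h1.2 x a1 a2 a3
  have p2 := h2.2 x a1 a3 a4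
  have p3 := h3.2 x a1 a4 a2
  have p4 := h4.2 x a2 a4 a3
  have e : d4 (X a) (X b) (X c) (X x) * (dt (X x) (X x) - dt (X d) (X x)) +
      d4 (X a) (X c) (X d) (X x) * (dt (X x) (X x) - dt (X b) (X x)) +
      d4 (X a) (X d) (X b) (X x) * (dt (X x) (X x) - dt (X c) (X x)) +
      d4 (X b) (X d) (X c) (X x) * (dt (X x) (X x) - dt (X a) (X x)) = 0 := by unfold d4 dv dt; ring
  rw [u x] at e
  have q := fun i => sub_nonneg.2 (dt_bd (u i) (u x)).2
  have z : ∀ {i : Fin 8} {t : ℝ}, t < 0 → 0 ≤ t * (1 - dt (X i) (X x)) → X i = X x := fun {i t} ht h => by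
    have : 1 ≤ dt (X i) (X x) := by nlinarith
    have e : ‖X i - X x‖ ^ 2 = dt (X i) (X i) + dt (X x) (X x) - 2 * dt (X i) (X x) := by
      rw [← dt_self]; simp [dt]; ring
    rw [u, u] at e
    exact sub_eq_zero.1 (norm_eq_zero.1 (pow_eq_zero_iff two_ne_zero |>.1 (le_antisymm (by linarith) (sq_nonneg _))))
  have m1 := mul_nonpos_of_nonpos_of_nonneg p1.le (q d)
  have m2 := mul_nonpos_of_nonpos_of_nonneg p2.le (q b)
  have m3 := mul_nonpos_of_nonpos_of_nonneg p3.le (q c)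
  have m4 := mul_nonpos_of_nonpos_of_nonneg p4.le (q a)
  have := h1.1
  rw [z (i := a) p4 (by linarith), z (i := b) p2 (by linarith), dv_aab] at this
  exact lt_irrefl _ this

open Classical in
/-- the angles at a vertex over a closed family of neighbours -/
theorem Gen.star (G : Gen X) (v : Fin 8) (S : Fin 8 → Prop) (h0 : ∃ b c, S b ∧ Fc X v b c)
    (h1 : ∀ b c, S b → Fc X v b c → S c) :
    ∑ p : Fin 8 × Fin 8, (if S p.1 ∧ Fc X v p.1 p.2 then
      An (X v) (X p.1) (X p.2) + An (X p.2) (X v) (X p.1) else 0) = 2 * π := by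
  let ι := {b // S b ∧ ∃ c, Fc X v b c}
  have : Nonempty ι := let ⟨b, c, x, y⟩ := h0; ⟨⟨b, x, c, y⟩⟩
  have ex : ∀ t : ι, ∃ s : ι, Fc X v t.1 s.1 := fun t =>
    let ⟨c, h⟩ := t.2.2; ⟨⟨c, h1 _ _ t.2.1 h, h.rot.rot.nxt G⟩, h⟩
  choose n hn using ex
  have inj : Function.Injective n := fun s t h => Subtype.ext ((hn s).rot.rot.uniq (h ▸ (hn t).rot.rot))
  rw [← cyc G.u (Equiv.ofBijective n (Finite.injective_iff_bijective.1 inj)) Subtype.val_injective hn,
    ← Finset.sum_filter]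
  refine (Finset.sum_bij (fun t _ => (t.1, (n t).1)) (fun t _ => by simpa using ⟨t.2.1, hn t⟩)
    (fun s _ t _ h => Subtype.ext (congrArg Prod.fst h)) (fun p hp => ?_) fun t _ => rfl).symm
  have hp : S p.1 ∧ Fc X v p.1 p.2 := by simpa using hp
  exact ⟨⟨p.1, hp.1, _, hp.2⟩, Finset.mem_univ _, Prod.ext rfl ((hn _).uniq hp.2)⟩

theorem Gen.link (G : Gen X) (v : Fin 8) (S : Fin 8 → Prop) (h0 : ∃ b c, S b ∧ Fc X v b c)
    (h1 : ∀ b c, S b → Fc X v b c → S c) {b c : Fin 8} (F : Fc X v b c) : S b := by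
  classical
  by_contra n
  have a := G.star v S h0 h1
  have e := G.star v (fun _ => True) ⟨b, c, trivial, F⟩ fun _ _ _ _ => trivial
  refine absurd (a.trans e.symm) (ne_of_lt (Finset.sum_lt_sum (fun p _ => ?_) ⟨(b, c), Finset.mem_univ _, ?_⟩))
  · by_cases g : Fc X v p.1 p.2
    · rw [if_pos (And.intro trivial g)]
      split_ifs
      exacts [le_rfl, (g.ps G.u).ang.1.le]
    · rw [if_neg fun x => g x.2, if_neg fun x => g x.2]
  · rw [if_neg fun x => n x.1, if_pos (And.intro trivial F)]; exact (F.ps G.u).ang.1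

end Pool.Agent.Work.MP_c2ab8b_gt.K8
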