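import Pool.Agent.Work.MP_c2ab8b_gt.Spec

/- The box test for eight vertices: one more convex term, and conditional bounds. -/

noncomputable section
namespace Pool.Agent.Work.MP_c2ab8b_gt.K8
open Real

deriving instance DecidableEq for P

structure P8 where
  p : P
  k4 : ℕ
  k4m : ℕ
  ny4 : ℕ
  deriving DecidableEq

abbrev Cd := ℕ × Bool × ℕ

structure Q8 where
  p1 : P8
  p2 : P8
  p3 : P8
  sym : Bool
  c : ℕ
  bm : ℕ
  ev : List (ℕ × List Cd)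

def P8.wf (q : P8) : Bool :=
  q.p.wf && Nat.ble (ab q.k4) q.k4m && Nat.ble q.k4m 34359738368 && Nat.ble (ab q.ny4) 34359738368 &&
    Nat.ble q.ny4 q.p.ny0

def P8.f (q : P8) (y A : ℝ) : ℝ := q.p.f y A + vl q.k4 / 2 ^ 32 * max (y + vl q.ny4 / 2 ^ 32) 0 ^ 2 * A

def Q8.wf (q : Q8) : Bool :=
  q.p1.wf && q.p2.wf && q.p3.wf && Nat.ble q.bm q.c && q.ev.all fun e => Nat.ble q.bm e.1

def st8 (q : P8) (Y A : E) (F : L) (k : L → Bool) : Bool :=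
  addEF Y q.p.ny0 fun u => Bool.rec
    (pos2F u fun u2 => smulF q.p.k2 q.p.k2m u2 fun K => addcF K q.p.nw (nat_lit 0) fun K =>
      addEF Y q.ny4 fun v => Bool.rec
        (pos2F v fun v2 => smulF q.k4 q.k4m v2 fun J => addF K J fun K => extF K fun K =>
          mulF K A fun T => addF F T k)
        (extF K fun K => mulF K A fun T => addF F T k) (hiLeF v (nat_lit 4503599627370496)))
    (smulF q.p.nw q.p.wm A.l fun T => addF F T k) (hiLeF u (nat_lit 4503599627370496))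

def slot8 (q : P8) (H S C Y : E) (F : L) (k : L → E → Bool) : Bool :=
  mulF H S fun X => argF X C fun A => extF A fun A =>
    st8 q Y A F fun F => st2F q.p Y A F fun F => st3F q.p Y F fun F => k F A

def df (X Y : E) (k : E → Bool) : Bool := subF X.l Y.l fun U => extF U k
def nf (X Y Z : E) (k : E → Bool) : Bool := addF X.l Y.l fun U => subF U Z.l fun U => extF U k

def feat (Y1 Y2 Y3 A1 A2 A3 : E) (i : ℕ) (k : E → Bool) : Bool :=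
  match i with
  | 0 => k Y1 | 1 => k Y2 | 2 => k Y3 | 3 => k A1 | 4 => k A2 | 5 => k A3
  | 6 => addF Y1.l Y2.l fun U => addF U Y3.l fun U => extF U k
  | 7 => nf Y2 Y3 Y1 k | 8 => nf Y1 Y3 Y2 k | 9 => nf Y1 Y2 Y3 k
  | 10 => df Y1 Y2 k | 11 => df Y1 Y3 k | 12 => df Y2 Y3 k | 13 => df Y2 Y1 k | 14 => df Y3 Y1 k
  | _ => df Y3 Y2 k

def ft (y1 y2 y3 a1 a2 a3 : ℝ) (i : ℕ) : ℝ :=
  match i with
  | 0 => y1 | 1 => y2 | 2 => y3 | 3 => a1 | 4 => a2 | 5 => a3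
  | 6 => y1 + y2 + y3
  | 7 => y2 + y3 - y1 | 8 => y1 + y3 - y2 | 9 => y1 + y2 - y3
  | 10 => y1 - y2 | 11 => y1 - y3 | 12 => y2 - y3 | 13 => y2 - y1 | 14 => y3 - y1
  | _ => y3 - y2

def anyC (g : ℕ → (E → Bool) → Bool) (l : List Cd) : Bool :=
  List.rec false (fun d _ ih => Prod.rec (fun i w => Prod.rec (fun up th =>
    g i (fun X => Bool.rec (hiLtF X th) (loGtF X th) up) || ih) w) d) l

def allE (F : E) (g : ℕ → (E → Bool) → Bool) (l : List (ℕ × List Cd)) : Bool :=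
  List.rec true (fun e _ ih => Prod.rec (fun b c => (hiLeF F b || anyC g c) && ih) e) l

def leaf8 (q : Q8) (a1 r1 a2 r2 a3 r3 : ℕ) : Bool :=
  Nat.ble (nat_lit 9007199254740993) (Nat.add a2 a3) ||
  (q.sym && Nat.ble (Nat.succ (Nat.add a2 (Nat.mul (nat_lit 2) r2))) a3) ||
  geoF a1 r1 a2 r2 a3 r3 fun H S1 C1 S2 C2 S3 C3 W =>
  subF C1.l C3.l fun U => extF U fun U => loGtF U (nat_lit 4503599627370496) ||
  subF C2.l C3.l fun U => extF U fun U => loGtF U (nat_lit 4503599627370496) ||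
  sqF H fun R => extF R fun R => rsubF (nat_lit 4503603922337792) R fun R =>
  ysqF R S1 fun Y1 => ysqF R S2 fun Y2 => ysqF R S3 fun Y3 =>
  mulF R S3 fun U => extF U fun U => extF W fun W => mulF W U fun F => addF F F fun F =>
  slot8 q.p1 H S1 C1 Y1 F fun F A1 => slot8 q.p2 H S2 C2 Y2 F fun F A2 => slot8 q.p3 H S3 C3 Y3 F fun F A3 =>
  extF F fun F => hiLeF F q.bm || (hiLeF F q.c && allE F (feat Y1 Y2 Y3 A1 A2 A3) q.ev)

def Ho (g : ℕ → ℝ) (d : Cd) : Prop :=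
  if d.2.1 = true then g d.1 * 2 ^ 32 ≤ vl d.2.2 else vl d.2.2 ≤ g d.1 * 2 ^ 32

def Q8.F (q : Q8) (T y1 y2 y3 a1 a2 a3 : ℝ) : ℝ := T + q.p1.f y1 a1 + q.p2.f y2 a2 + q.p3.f y3 a3

def Q8.Cl (q : Q8) (T y1 y2 y3 a1 a2 a3 : ℝ) : Prop :=
  q.F T y1 y2 y3 a1 a2 a3 * 2 ^ 32 ≤ vl q.c ∧
    ∀ e ∈ q.ev, (∀ d ∈ e.2, Ho (ft y1 y2 y3 a1 a2 a3) d) → q.F T y1 y2 y3 a1 a2 a3 * 2 ^ 32 ≤ vl e.1

def Q8.Ch (q : Q8) (h s1 c1 s2 c2 s3 c3 : ℝ) : Prop :=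
  q.Cl (2 * (s1 * s2 * ((1 - h ^ 2) * s3))) ((1 - h ^ 2) * s1 ^ 2) ((1 - h ^ 2) * s2 ^ 2) ((1 - h ^ 2) * s3 ^ 2)
    (arctan (c1 / (h * s1))) (arctan (c2 / (h * s2))) (arctan (c3 / (h * s3)))

def Q8.Good (q : Q8) (h t1 t2 : ℝ) : Prop :=
  0 < h → 0 < sn t1 → 0 < sn t2 → 0 < sn t1 * cn t2 + cn t1 * sn t2 → t1 + t2 ≤ 0 →
    (q.sym = true → t2 ≤ t1) → cn t1 ≤ sn t1 * sn t2 - cn t1 * cn t2 →
    cn t2 ≤ sn t1 * sn t2 - cn t1 * cn t2 →
    q.Ch h (sn t1) (cn t1) (sn t2) (cn t2) (sn t1 * cn t2 + cn t1 * sn t2) (sn t1 * sn t2 - cn t1 * cn t2)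

attribute [local irreducible] ad sb ng hf dot1 dot2 dotd ab vl

variable {ε : Ns} {i : ℝ}

theorem rec_s {b u v : Bool} (h : (Bool.rec u v b : Bool) = true) : (b = true ∧ v = true) ∨ (b = false ∧ u = true) := by
  cases b
  · exact Or.inr ⟨rfl, h⟩
  · exact Or.inl ⟨rfl, h⟩

theorem vl_le {a b : ℕ} (h : Nat.ble a b = true) : vl a ≤ vl b := by
  have := ble_r h; unfold vl; linarith

theorem st8_s {q : P8} {Y A : E} {F : L} {k : L → Bool} {y a f : ℝ} (hq : q.wf = true)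
    (hY : InE ε 1 Y y) (hA : InE ε 2 A a) (hF : InL ε i F f) (hi : i ≤ 200) (h : st8 q Y A F k = true) :
    ∃ Z, InL ε (i + 18) Z (f + (vl q.p.k2 / 2 ^ 32 * max (y + vl q.p.ny0 / 2 ^ 32) 0 ^ 2 + vl q.p.nw / 2 ^ 32) * a +
      vl q.k4 / 2 ^ 32 * max (y + vl q.ny4 / 2 ^ 32) 0 ^ 2 * a) ∧ k Z = true := by
  unfold P8.wf at hq
  simp only [Bool.and_eq_true] at hq
  obtain ⟨⟨⟨⟨hp, h1⟩, h2⟩, h3⟩, h4⟩ := hq
  obtain ⟨w, -, k2, -, y0, -⟩ := P.wf_s hp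
  have g1 := ble_r h1; have g2 := ble_r h2; have g3 := ble_r h3; have g4 := vl_le h4
  rw [cast_ab] at g1 g3
  push_cast at g2 g3
  unfold st8 at h
  simp only [addEF_eq, pos2F_eq, smulF_eq, addcF_eq, addF_eq, extF_eq, mulF_eq, hiLeF_eq] at h
  obtain ⟨u, hu, h⟩ := addE_s hY y0 (by norm_num) h
  rcases rec_s h with ⟨h0, h⟩ | ⟨-, h⟩
  · obtain ⟨T, hT, h⟩ := smul_s hA.1 w.1 w.2 (by norm_num) h
    obtain ⟨Z, hZ, h⟩ := add_s hF hT (by linarith) h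
    refine ⟨Z, (hZ.mono (by linarith)).congr ?_, h⟩
    have := nonpos_of (hiLe_s hu h0)
    rw [max_eq_right this, max_eq_right (by linarith)]; ring
  obtain ⟨u2, hu2, h⟩ := pos2_s hu h
  obtain ⟨K, hK, h⟩ := smul_s hu2 k2.1 k2.2 (by norm_num) h
  obtain ⟨K, hK, h⟩ := addc_s (j := 1) (y := vl q.p.nw / 2 ^ 32) hK (by linarith [w.1, w.2])
    (by rw [div_mul_cancel₀ _ (by positivity), sub_self, abs_zero]; positivity) (by norm_num) h
  obtain ⟨v, hv, h⟩ := addE_s hY (by linarith) (by norm_num) h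
  rcases rec_s h with ⟨h0, h⟩ | ⟨-, h⟩
  · obtain ⟨K, hK, h⟩ := ext_s hK h
    obtain ⟨T, hT, h⟩ := mul_s hK hA h
    obtain ⟨Z, hZ, h⟩ := add_s hF hT (by linarith) h
    refine ⟨Z, (hZ.mono (by linarith)).congr ?_, h⟩
    rw [max_eq_right (nonpos_of (hiLe_s hv h0))]; ring
  obtain ⟨v2, hv2, h⟩ := pos2_s hv h
  obtain ⟨J, hJ, h⟩ := smul_s hv2 g1 (by linarith) (by norm_num) h
  obtain ⟨K, hK, h⟩ := add_s hK hJ (by norm_num) h
  obtain ⟨K, hK, h⟩ := ext_s hK h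
  obtain ⟨T, hT, h⟩ := mul_s hK hA h
  obtain ⟨Z, hZ, h⟩ := add_s hF hT (by linarith) h
  exact ⟨Z, (hZ.mono (by linarith)).congr (by ring), h⟩

theorem slot8_s {q : P8} {H S C Y : E} {F : L} {k : L → E → Bool} {h s c y f j l : ℝ} (hq : q.wf = true)
    (hH : InE ε j H h) (hS : InE ε l S s) (hC : InE ε 2 C c) (hY : InE ε 1 Y y) (hF : InL ε i F f)
    (hi : i ≤ 160) (hp : 0 < h * s) (e : slot8 q H S C Y F k = true) :
    ∃ Z A, InL ε (i + 36) Z (f + q.f y (arctan (c / (h * s)))) ∧ InE ε 2 A (arctan (c / (h * s))) ∧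
      k Z A = true := by
  have hp' : q.p.wf = true := by
    unfold P8.wf at hq
    simp only [Bool.and_eq_true] at hq
    exact hq.1.1.1.1
  unfold slot8 at e
  simp only [mulF_eq, argF_eq, extF_eq, st2F_eq, st3F_eq] at e
  obtain ⟨X, hX, e⟩ := mul_s hH hS e
  obtain ⟨A, hA, e⟩ := arg_s hX hC hp e
  obtain ⟨A, hA, e⟩ := ext_s hA e
  obtain ⟨F, hF, e⟩ := st8_s hq hY hA hF (by linarith) e
  obtain ⟨F, hF, e⟩ := st2_s hp' hY hA hF (by linarith) e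
  obtain ⟨F, hF, e⟩ := st3_s hp' hY hF (by linarith) e
  refine ⟨F, A, (hF.mono (by linarith)).congr ?_, hA, e⟩
  unfold P8.f P.f pc; ring

theorem df_s {X Y : E} {x y : ℝ} {k : E → Bool} (hX : InE ε 1 X x) (hY : InE ε 1 Y y) (h : df X Y k = true) :
    ∃ j Z, InE ε j Z (x - y) ∧ k Z = true := by
  unfold df at h
  simp only [subF_eq, extF_eq] at h
  obtain ⟨U, hU, h⟩ := sub_s hX.1 hY.1 (by norm_num) h
  exact ⟨_, ext_s hU h⟩

theorem nf_s {X Y Z : E} {x y z : ℝ} {k : E → Bool} (hX : InE ε 1 X x) (hY : InE ε 1 Y y) (hZ : InE ε 1 Z z)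
    (h : nf X Y Z k = true) : ∃ j W, InE ε j W (x + y - z) ∧ k W = true := by
  unfold nf at h
  simp only [addF_eq, subF_eq, extF_eq] at h
  obtain ⟨U, hU, h⟩ := add_s hX.1 hY.1 (by norm_num) h
  obtain ⟨U, hU, h⟩ := sub_s hU hZ.1 (by norm_num) h
  exact ⟨_, ext_s hU h⟩

theorem feat_s {Y1 Y2 Y3 A1 A2 A3 : E} {y1 y2 y3 a1 a2 a3 : ℝ} (h1 : InE ε 1 Y1 y1) (h2 : InE ε 1 Y2 y2)
    (h3 : InE ε 1 Y3 y3) (g1 : InE ε 2 A1 a1) (g2 : InE ε 2 A2 a2) (g3 : InE ε 2 A3 a3) (n : ℕ) (k : E → Bool)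
    (h : feat Y1 Y2 Y3 A1 A2 A3 n k = true) : ∃ j Z, InE ε j Z (ft y1 y2 y3 a1 a2 a3 n) ∧ k Z = true := by
  match n with
  | 0 => exact ⟨_, _, h1, h⟩
  | 1 => exact ⟨_, _, h2, h⟩
  | 2 => exact ⟨_, _, h3, h⟩
  | 3 => exact ⟨_, _, g1, h⟩
  | 4 => exact ⟨_, _, g2, h⟩
  | 5 => exact ⟨_, _, g3, h⟩
  | 6 =>
    simp only [feat, addF_eq, extF_eq] at h
    obtain ⟨U, hU, h⟩ := add_s h1.1 h2.1 (by norm_num) h
    obtain ⟨U, hU, h⟩ := add_s hU h3.1 (by norm_num) h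
    exact ⟨_, ext_s hU h⟩
  | 7 => exact nf_s h2 h3 h1 h
  | 8 => exact nf_s h1 h3 h2 h
  | 9 => exact nf_s h1 h2 h3 h
  | 10 => exact df_s h1 h2 h
  | 11 => exact df_s h1 h3 h
  | 12 => exact df_s h2 h3 h
  | 13 => exact df_s h2 h1 h
  | 14 => exact df_s h3 h1 h
  | n + 15 => exact df_s h3 h2 h

theorem anyC_s {g : ℕ → (E → Bool) → Bool} {f : ℕ → ℝ}
    (hg : ∀ n k, g n k = true → ∃ j Z, InE ε j Z (f n) ∧ k Z = true) (l : List Cd) (h : anyC g l = true) :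
    ¬ ∀ d ∈ l, Ho f d := by
  induction l with
  | nil => exact absurd h (by simp [anyC])
  | cons d l ih =>
    obtain ⟨n, up, th⟩ := d
    have h : (g n (fun X => Bool.rec (hiLtF X th) (loGtF X th) up) || anyC g l) = true := h
    rw [Bool.or_eq_true] at h
    intro H
    rcases h with h | h
    · obtain ⟨j, Z, hZ, h⟩ := hg _ _ h
      have := H (n, up, th) (by simp)
      unfold Ho at this
      cases up
      · rw [if_neg (by simp)] at this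
        linarith [hiLt_s hZ (hiLtF_eq ▸ h)]
      · rw [if_pos rfl] at this
        linarith [loGt_s hZ (loGtF_eq ▸ h)]
    · exact ih h fun d hd => H d (by simp [hd])

theorem allE_s {g : ℕ → (E → Bool) → Bool} {f : ℕ → ℝ} {F : E} {x : ℝ} (hF : InE ε i F x)
    (hg : ∀ n k, g n k = true → ∃ j Z, InE ε j Z (f n) ∧ k Z = true) (l : List (ℕ × List Cd))
    (h : allE F g l = true) : ∀ e ∈ l, (∀ d ∈ e.2, Ho f d) → x * 2 ^ 32 ≤ vl e.1 := by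
  induction l with
  | nil => simp
  | cons e l ih =>
    obtain ⟨b, c⟩ := e
    have h : ((hiLeF F b || anyC g c) && allE F g l) = true := h
    rw [Bool.and_eq_true, Bool.or_eq_true] at h
    intro e he H
    rcases List.mem_cons.1 he with rfl | he
    · rcases h.1 with h | h
      · exact hiLe_s hF (hiLeF_eq ▸ h)
      · exact absurd H (anyC_s hg _ h)
    · exact ih h.2 e he H

theorem leaf8_s {q : Q8} (hq : q.wf = true) {a1 r1 a2 r2 a3 r3 : ℕ} {h t1 t2 : ℝ}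
    (b1 : Bx a1 r1 h) (b2 : Bx a2 r2 t1) (b3 : Bx a3 r3 t2) (e : leaf8 q a1 r1 a2 r2 a3 r3 = true) :
    q.Good h t1 t2 := by
  intro p0 p1 p2 p3 ht hs o1 o2
  unfold leaf8 at e
  simp only [geoF_eq, subF_eq, extF_eq, loGtF_eq, sqF_eq, rsubF_eq, ysqF_eq, mulF_eq, addF_eq, hiLeF_eq] at e
  rw [Bool.or_eq_true, Bool.or_eq_true] at e
  rcases e with (e | e) | e
  · have := ble_r e
    have u := b2.1; have v := b3.1
    rw [Nat.add_eq] at this; unfold vl at u v; push_cast at this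
    exfalso; linarith
  · rw [Bool.and_eq_true] at e
    have := ble_r e.2
    have u := b2.2; have v := b3.1; have w := hs e.1
    rw [Nat.add_eq, Nat.mul_eq] at this; unfold vl at u v; push_cast at this
    exfalso; linarith
  obtain ⟨ε, H, S1, C1, S2, C2, S3, C3, W, hH, hS1, hC1, hS2, hC2, hS3, hC3, hW, e⟩ := geo_s b1 b2 b3 e
  obtain ⟨U, hU, e⟩ := sub_s hC1.1 hC3.1 (by norm_num) e
  obtain ⟨U, hU, e⟩ := ext_s hU e
  rw [Bool.or_eq_true] at e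
  rcases e with e | e
  · have := loGt_s hU e
    rw [vl_B] at this; exfalso; nlinarith
  obtain ⟨U, hU, e⟩ := sub_s hC2.1 hC3.1 (by norm_num) e
  obtain ⟨U, hU, e⟩ := ext_s hU e
  rw [Bool.or_eq_true] at e
  rcases e with e | e
  · have := loGt_s hU e
    rw [vl_B] at this; exfalso; nlinarith
  obtain ⟨R, hR, e⟩ := sq_s hH e
  obtain ⟨R, hR, e⟩ := ext_s hR e
  obtain ⟨R, hR, e⟩ := rsub1_s hR (by norm_num) e
  obtain ⟨Y1, hY1, e⟩ := ysq_s hR hS1 e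
  obtain ⟨Y2, hY2, e⟩ := ysq_s hR hS2 e
  obtain ⟨Y3, hY3, e⟩ := ysq_s hR hS3 e
  unfold Q8.wf at hq
  simp only [Bool.and_eq_true, List.all_eq_true] at hq
  obtain ⟨U, hU, e⟩ := mul_s hR hS3 e
  obtain ⟨U, hU, e⟩ := ext_s hU e
  obtain ⟨W, hW, e⟩ := ext_s hW e
  obtain ⟨F, hF, e⟩ := mul_s hW hU e
  obtain ⟨F, hF, e⟩ := add_s hF hF (by norm_num) e
  obtain ⟨F, A1, hF, hA1, e⟩ := slot8_s hq.1.1.1.1 hH hS1 hC1 hY1 hF (by norm_num) (by positivity) e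
  obtain ⟨F, A2, hF, hA2, e⟩ := slot8_s hq.1.1.1.2 hH hS2 hC2 hY2 hF (by norm_num) (by positivity) e
  obtain ⟨F, A3, hF, hA3, e⟩ := slot8_s hq.1.1.2 hH hS3 hC3 hY3 hF (by norm_num) (by positivity) e
  obtain ⟨F, hF, e⟩ := ext_s hF e
  have hF := hF.congr (y := q.F (2 * (sn t1 * sn t2 * ((1 - h ^ 2) * (sn t1 * cn t2 + cn t1 * sn t2)))) _ _ _ _ _ _)
    (by unfold Q8.F; rw [two_mul])
  rw [Bool.or_eq_true, Bool.and_eq_true] at e
  rcases e with e | e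
  · have := hiLe_s hF e
    exact ⟨this.trans (vl_le hq.1.2), fun x hx _ => this.trans (vl_le (hq.2 x hx))⟩
  · exact ⟨hiLe_s hF e.1, allE_s hF (feat_s hY1 hY2 hY3 hA1 hA2 hA3) _ e.2⟩

theorem cv8 {q : Q8} (hq : q.wf = true) {code a1 r1 a2 r2 a3 r3 : ℕ}
    (h : bbF (leaf8 q) 80 code a1 r1 a2 r2 a3 r3 = true) : Cov q.Good a1 r1 a2 r2 a3 r3 :=
  bb_s (fun _ _ _ _ _ _ e _ _ _ b1 b2 b3 => leaf8_s hq b1 b2 b3 e) 80 _ _ _ _ _ _ _ (bbF_eq ▸ h)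

end Pool.Agent.Work.MP_c2ab8b_gt.K8
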