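import Pool.Agent.Work.MP_c2ab8b_gt.K8.TMd

/- Certified positivity of integer quadratic forms by rounded elimination. -/

noncomputable section
namespace Pool.Agent.Work.MP_c2ab8b_gt.K8

def dot (x : ℕ → ℝ) : List ℤ → ℕ → ℝ
  | [], _ => 0
  | b :: l, k => b * x k + dot x l (k + 1)

def qm (x : ℕ → ℝ) : List (List ℤ) → ℕ → ℝ
  | [], _ => 0
  | r :: R, k => x k * (r.headD 0 * x k + 2 * dot x r.tail (k + 1)) + qm x R (k + 1)

def sa (x : ℕ → ℝ) : List ℤ → ℕ → ℝ
  | [], _ => 0
  | _ :: l, k => |x k| + sa x l (k + 1)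

def sqs (x : ℕ → ℝ) : List ℤ → ℕ → ℝ
  | [], _ => 0
  | _ :: l, k => x k ^ 2 + sqs x l (k + 1)

def fA {α : Type} (n : ℕ) (f : ℕ → α) : α := Nat.rec (f 0) (fun m _ => f m) (Nat.succ n)
def fI {α : Type} (z : ℤ) (f : ℤ → α) : α :=
  Int.rec (fun n => fA n fun n => f (Int.ofNat n)) (fun n => fA n fun n => f (Int.negSucc n)) z

theorem fI_eq {α : Type} (z : ℤ) (f : ℤ → α) : fI z f = f z := by cases z <;> rfl

def zw (p c : ℤ) (b : List ℤ) : List ℤ → List ℤ :=
  List.rec (fun r => r) (fun a _ ih r => fI (Int.sub (r.headD 0) (Int.ediv (Int.mul c a) p)) fun v => v :: ih r.tail) b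

def upd (p n : ℤ) (b : List ℤ) : List (List ℤ) → List (List ℤ) :=
  List.rec (fun R => R) (fun a l ih R =>
    (fI (Int.sub (Int.sub ((R.headD []).headD 0) (Int.ediv (Int.mul a a) p)) n) fun v =>
      v :: zw p a l (R.headD []).tail) :: ih R.tail) b

def red (n : ℕ) (k : List (List ℤ) → Bool) : List (List ℤ) → Bool :=
  Nat.rec k (fun _ ih M => List.rec (k []) (fun r R _ => fI (r.headD 0) fun p =>
    chk (decide (0 < p)) (ih (upd p (Int.ofNat r.length) r.tail R))) M) n

def psd (M : List (List ℤ)) : Bool := red 60 List.isEmpty M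

variable {x : ℕ → ℝ}

theorem dot_ht (r : List ℤ) (k : ℕ) : dot x r k = r.headD 0 * x k + dot x r.tail (k + 1) := by
  cases r <;> simp [dot]

theorem qm_ht (R : List (List ℤ)) (k : ℕ) : qm x R k =
    x k * ((R.headD []).headD 0 * x k + 2 * dot x (R.headD []).tail (k + 1)) + qm x R.tail (k + 1) := by
  cases R <;> simp [qm, dot]

theorem sa_nn (l : List ℤ) : ∀ k, 0 ≤ sa x l k := by
  induction l with
  | nil => exact fun _ => le_rfl
  | cons a l ih => exact fun k => add_nonneg (abs_nonneg _) (ih _)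

theorem ed_bd {p : ℤ} (hp : 0 < p) (a : ℤ) : |(a : ℝ) / p - (Int.ediv a p : ℤ)| ≤ 1 := by
  have h1 : ((Int.ediv a p * p : ℤ) : ℝ) ≤ a := Int.cast_le.2 (Int.ediv_mul_le a hp.ne')
  have h2 : (a : ℝ) ≤ ((Int.ediv a p + 1) * p : ℤ) := Int.cast_le.2 (Int.lt_ediv_add_one_mul_self a hp).le
  have p0 : (0 : ℝ) < p := Int.cast_pos.2 hp
  push_cast at h1 h2
  rw [abs_le, le_sub_iff_add_le, sub_le_iff_le_add, le_div_iff₀ p0, div_le_iff₀ p0]
  constructor <;> linarith

theorem zw_s {p : ℤ} (hp : 0 < p) (c : ℤ) (b : List ℤ) : ∀ r k,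
    |dot x (zw p c b r) k - (dot x r k - c * dot x b k / p)| ≤ sa x b k := by
  induction b with
  | nil => intro r k; simp [zw, dot, sa]
  | cons a l ih =>
    intro r k
    have e : zw p c (a :: l) r = (r.headD 0 - Int.ediv (c * a) p) :: zw p c l r.tail :=
      fI_eq _ fun v => v :: zw p c l r.tail
    have h1 := abs_le.1 (ih r.tail (k + 1))
    have h2 := abs_le.1 (prod_bd (ed_bd hp (c * a)) (le_refl |x k|))
    rw [e, dot_ht r, dot, dot, sa, abs_le]
    push_cast at h2 ⊢
    constructor <;> linarith [h1.1, h1.2, h2.1, h2.2, show (c : ℝ) * (a * x k + dot x l (k + 1)) / p =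
      c * a / p * x k + c * dot x l (k + 1) / p by ring]

theorem upd_s {p : ℤ} (hp : 0 < p) (n : ℤ) (b : List ℤ) : ∀ R k,
    qm x (upd p n b R) k ≤ qm x R k - dot x b k ^ 2 / p + sa x b k ^ 2 - n * sqs x b k := by
  induction b with
  | nil => intro R k; simp [upd, dot, sa, sqs]
  | cons a l ih =>
    intro R k
    have e : upd p n (a :: l) R = (((R.headD []).headD 0 - Int.ediv (a * a) p - n) :: zw p a l (R.headD []).tail) ::
      upd p n l R.tail := congrArg (· :: upd p n l R.tail) (fI_eq _ fun v => v :: zw p a l (R.headD []).tail)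
    have h1 := ih R.tail (k + 1)
    have h2 := abs_le.1 (prod_bd (le_refl |x k|) (zw_s (x := x) hp a l (R.headD []).tail (k + 1)))
    have h3 := mul_le_mul_of_nonneg_right (abs_le.1 (ed_bd hp (a * a))).2 (sq_nonneg (x k))
    rw [e, qm_ht R, qm, dot, sa, sqs, List.headD_cons, List.tail_cons]
    push_cast at h3 ⊢
    linarith [h2.2, sq_abs (x k), show (a * x k + dot x l (k + 1)) ^ 2 / p = a * a / p * x k ^ 2 +
      2 * x k * (a * dot x l (k + 1) / p) + dot x l (k + 1) ^ 2 / p by ring]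

theorem sa_sq (l : List ℤ) : ∀ k, (∀ t : ℝ, 2 * t * sa x l k ≤ l.length * t ^ 2 + sqs x l k) ∧
    sa x l k ^ 2 ≤ l.length * sqs x l k ∧ 0 ≤ sqs x l k := by
  induction l with
  | nil => intro k; simp [sa, sqs]
  | cons a l ih =>
    intro k
    obtain ⟨h1, h2, h3⟩ := ih (k + 1)
    rw [sa, sqs, List.length_cons, Nat.cast_succ, ← sq_abs (x k)]
    exact ⟨fun t => by linarith [h1 t, sq_nonneg (t - |x k|)], by linarith [h1 |x k|], by positivity⟩

theorem red_s (n : ℕ) {f : List (List ℤ) → Bool} : ∀ M k, red n f M = true →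
    ∃ R, f R = true ∧ qm x R (k + n) ≤ qm x M k := by
  induction n with
  | zero => exact fun M k h => ⟨M, h, le_rfl⟩
  | succ n ih =>
    intro M k h
    cases M with
    | nil => exact ⟨[], h, le_rfl⟩
    | cons r R =>
      have h : chk (decide (0 < r.headD 0)) (red n f (upd (r.headD 0) (Int.ofNat r.length) r.tail R)) = true :=
        (fI_eq _ fun p => chk (decide (0 < p)) (red n f (upd p (Int.ofNat r.length) r.tail R))).symm.trans h
      obtain ⟨hp, h⟩ := chk_s h
      have hp := of_decide_eq_true hp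
      obtain ⟨Z, h1, h2⟩ := ih _ (k + 1) h
      refine ⟨Z, h1, ?_⟩
      have u := upd_s (x := x) hp (Int.ofNat r.length) r.tail R (k + 1)
      obtain ⟨-, s, s0⟩ := sa_sq (x := x) r.tail (k + 1)
      have p0 : (0 : ℝ) < r.headD 0 := Int.cast_pos.2 hp
      have l : ((r.tail.length : ℕ) : ℝ) ≤ (Int.ofNat r.length : ℤ) := by
        rw [List.length_tail, Int.ofNat_eq_natCast, Int.cast_natCast]; exact Nat.cast_le.2 (Nat.sub_le _ _)
      have := mul_le_mul_of_nonneg_right l s0
      have q : 0 ≤ (r.headD 0 * x k + dot x r.tail (k + 1)) ^ 2 / r.headD 0 := by positivity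
      rw [show (r.headD 0 * x k + dot x r.tail (k + 1)) ^ 2 / r.headD 0 = x k * (r.headD 0 * x k +
        2 * dot x r.tail (k + 1)) + dot x r.tail (k + 1) ^ 2 / r.headD 0 by field_simp; ring] at q
      rw [show k + (n + 1) = k + 1 + n by ring, qm]
      linarith

theorem psd_s {M : List (List ℤ)} (h : psd M = true) (k : ℕ) : 0 ≤ qm x M k := by
  obtain ⟨R, h1, h2⟩ := red_s (x := x) 60 M k h
  rw [List.isEmpty_iff.1 h1] at h2
  exact h2

def dg (g : ℤ) (e : ℕ) : List (List ℤ) → List (List ℤ) :=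
  Nat.rec (fun R => (((R.headD []).headD 0 - g) :: (R.headD []).tail) :: R.tail)
    (fun _ ih R => R.headD [] :: ih R.tail) e

theorem dg_s (g : ℤ) (e : ℕ) : ∀ R k, qm x (dg g e R) k = qm x R k - g * x (k + e) ^ 2 := by
  induction e with
  | zero =>
    intro R k
    have : dg g 0 R = (((R.headD []).headD 0 - g) :: (R.headD []).tail) :: R.tail := rfl
    rw [this, qm_ht R, qm, List.headD_cons, List.tail_cons]; push_cast; ring_nf
  | succ e ih =>
    intro R k
    have : dg g (e + 1) R = R.headD [] :: dg g e R.tail := rfl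
    rw [this, qm_ht R, qm, ih, show k + 1 + e = k + (e + 1) by ring]; ring

abbrev En := ℕ × ℕ × ℤ

def sm (L : List (ℕ × ℤ)) (j : ℕ) : ℤ :=
  List.rec 0 (fun e _ ih => Bool.rec ih (Int.add e.2 ih) (Nat.beq e.1 j)) L

def vec (L : List (ℕ × ℤ)) (n : ℕ) : ℕ → List ℤ :=
  Nat.rec (fun _ => []) (fun _ ih k => fI (sm L k) fun v => v :: ih (Nat.succ k)) n

def rw1 (E : List En) (i : ℕ) : List (ℕ × ℤ) :=
  List.rec [] (fun e _ ih => Bool.rec ih (e.2 :: ih) (Nat.beq e.1 i)) E

def asm (E : List En) (n : ℕ) : ℕ → List (List ℤ) :=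
  Nat.rec (fun _ => []) (fun n ih k => (2 * sm (rw1 E k) k :: vec (rw1 E k) n (Nat.succ k)) :: ih (Nat.succ k)) n

def ev (x : ℕ → ℝ) (E : List En) : ℝ := (E.map fun e => (e.2.2 : ℝ) * (x e.1 * x e.2.1)).sum

theorem beq_f {a b : ℕ} (h : a ≠ b) : Nat.beq a b = false :=
  Bool.eq_false_iff.2 fun g => h (Nat.eq_of_beq_eq_true g)

theorem sm_c (b : ℕ) (v : ℤ) (L : List (ℕ × ℤ)) (j : ℕ) :
    (sm ((b, v) :: L) j : ℝ) = (if b = j then (v : ℝ) else 0) + sm L j := by
  have : sm ((b, v) :: L) j = Bool.rec (sm L j) (v + sm L j) (Nat.beq b j) := rfl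
  rw [this]
  by_cases h : b = j
  · rw [if_pos h, h, Nat.beq_refl]; push_cast; rfl
  · rw [if_neg h, beq_f h, zero_add]

theorem vec_c (L : List (ℕ × ℤ)) (n k : ℕ) : vec L (n + 1) k = sm L k :: vec L n (k + 1) :=
  fI_eq _ fun v => v :: vec L n (k + 1)

theorem vec_s (b : ℕ) (v : ℤ) (L : List (ℕ × ℤ)) (n : ℕ) : ∀ k, b < k + n →
    dot x (vec ((b, v) :: L) n k) k = (if k ≤ b then v * x b else 0) + dot x (vec L n k) k := by
  induction n with
  | zero => intro k h; rw [if_neg (by omega)]; simp [vec, dot]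
  | succ n ih =>
    intro k h
    rw [vec_c, vec_c, dot, dot, ih _ (by omega), sm_c]
    rcases lt_trichotomy b k with g | rfl | g
    · rw [if_neg g.ne, if_neg (by omega), if_neg (by omega)]; ring
    · rw [if_pos rfl, if_neg (by omega), if_pos le_rfl]; ring
    · rw [if_neg g.ne', if_pos (by omega), if_pos g.le]; ring

theorem vec_n (n : ℕ) : ∀ k, dot x (vec [] n k) k = 0 := by
  induction n with
  | zero => exact fun _ => rfl
  | succ n ih => intro k; rw [vec_c, dot, ih]; simp [sm]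

theorem asm_c (E : List En) (n k : ℕ) :
    asm E (n + 1) k = (2 * sm (rw1 E k) k :: vec (rw1 E k) n (k + 1)) :: asm E n (k + 1) := rfl

theorem asm_e (a b : ℕ) (v : ℤ) (E : List En) (hab : a ≤ b) (n : ℕ) : ∀ k, b < k + n →
    qm x (asm ((a, b, v) :: E) n k) k = (if k ≤ a then 2 * (v * (x a * x b)) else 0) + qm x (asm E n k) k := by
  induction n with
  | zero => intro k h; rw [if_neg (by omega)]; simp [asm, qm]
  | succ n ih =>
    intro k h
    have e : rw1 ((a, b, v) :: E) k = Bool.rec (rw1 E k) ((b, v) :: rw1 E k) (Nat.beq a k) := rfl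
    rw [asm_c, asm_c, qm, qm, ih _ (by omega), e]
    simp only [List.headD_cons, List.tail_cons]
    by_cases g : a = k
    · subst g
      rw [Nat.beq_refl, if_neg (by omega), if_pos le_rfl]
      push_cast
      rw [sm_c, vec_s _ _ _ _ _ (by omega)]
      rcases hab.eq_or_lt with rfl | g
      · rw [if_pos rfl, if_neg (by omega)]; ring
      · rw [if_neg g.ne', if_pos (by omega)]; ring
    · rw [beq_f g]
      by_cases g' : k ≤ a
      · rw [if_pos g', if_pos (by omega)]; ring
      · rw [if_neg g', if_neg (by omega)]; ring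

theorem asm_s (n : ℕ) (E : List En) (h : (E.all fun e => Nat.ble e.1 e.2.1 && Nat.blt e.2.1 n) = true) :
    qm x (asm E n 0) 0 = 2 * ev x E := by
  induction E with
  | nil =>
    have : ∀ n k, qm x (asm [] n k) k = 0 := by
      intro n
      induction n with
      | zero => exact fun _ => rfl
      | succ n ih =>
        intro k
        rw [asm_c, qm, ih, List.tail_cons, show rw1 [] k = [] from rfl, vec_n]; simp [sm]
    rw [this]; simp [ev]
  | cons e E ih =>
    obtain ⟨a, b, v⟩ := e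
    simp only [List.all_cons, Bool.and_eq_true, Nat.ble_eq, Nat.blt_eq] at h
    rw [asm_e a b v E h.1.1 n 0 (by simpa using h.1.2), ih (by simpa using h.2), if_pos (Nat.zero_le _)]
    simp only [ev, List.map_cons, List.sum_cons]; ring

def ent (i j : ℕ) (v : ℤ) : En := Bool.rec (j, i, v) (i, j, v) (Nat.ble i j)

theorem ev_nil : ev x [] = 0 := rfl
theorem ev_ent (i j : ℕ) (v : ℤ) (E : List En) : ev x (ent i j v :: E) = v * (x i * x j) + ev x E := by
  unfold ent
  cases Nat.ble i j <;> simp only [ev, List.map_cons, List.sum_cons]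
  rw [mul_comm (x j)]
theorem ev_app (E F : List En) : ev x (E ++ F) = ev x E + ev x F := by simp [ev]

def li (x : ℕ → ℝ) (u : List (ℕ × ℤ)) : ℝ := (u.map fun a => (a.2 : ℝ) * x a.1).sum

def ou (s : ℤ) (u v : List (ℕ × ℤ)) : List En := u.flatMap fun a => v.map fun b => ent a.1 b.1 (s * a.2 * b.2)

theorem ev_ou (s : ℤ) (u v : List (ℕ × ℤ)) : ev x (ou s u v) = s * (li x u * li x v) := by
  induction u with
  | nil => simp [ou, ev, li]
  | cons a u ih =>
    have : ∀ v : List (ℕ × ℤ), ev x (v.map fun b => ent a.1 b.1 (s * a.2 * b.2)) = s * (a.2 * x a.1 * li x v) := by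
      intro v
      induction v with
      | nil => simp [ev, li]
      | cons b v ih => rw [List.map_cons, ev_ent, ih]; simp only [li, List.map_cons, List.sum_cons]; push_cast; ring
    unfold ou at *
    rw [List.flatMap_cons, ev_app, ih, this]
    simp only [li, List.map_cons, List.sum_cons]; ring

theorem ev_fm {α : Type} {l : List α} {f : α → List En} (h : ∀ a ∈ l, ev x (f a) ≤ 0) : ev x (l.flatMap f) ≤ 0 := by
  induction l with
  | nil => exact le_rfl
  | cons a l ih =>
    rw [List.flatMap_cons, ev_app]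
    linarith [h a (by simp), ih fun b hb => h b (by simp [hb])]

/-- the form is at least `g x_e^2` for every listed pair -/
def lmi (E : List En) (n : ℕ) (ex : List (ℕ × ℕ)) : Bool :=
  chk (E.all fun e => Nat.ble e.1 e.2.1 && Nat.blt e.2.1 n)
    (red 36 (fun R => ex.all fun e => psd (dg (2 * e.2 * 2 ^ 144) e.1 R)) (asm E n 0))

theorem lmi_s {E : List En} {n : ℕ} {ex : List (ℕ × ℕ)} (h : lmi E n ex = true) {e : ℕ × ℕ} (he : e ∈ ex) :
    (e.2 : ℝ) * 2 ^ 144 * x (36 + e.1) ^ 2 ≤ ev x E := by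
  obtain ⟨h1, h⟩ := chk_s h
  obtain ⟨R, h2, h3⟩ := red_s (x := x) 36 _ 0 h
  have := psd_s (x := x) (List.all_eq_true.1 h2 e he) 36
  rw [dg_s] at this
  rw [asm_s n E h1] at h3
  push_cast at this
  linarith

end Pool.Agent.Work.MP_c2ab8b_gt.K8
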