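import Pool.Agent.Work.MP_c2ab8b_gt.K8.Geo
import Pool.Agent.Work.MP_c2ab8b_gt.K8.Cls
import Pool.Agent.Work.MP_c2ab8b_gt.K8.Cfg

/- Surface area of the hull of eight points as a sum over faces, and the bounds for each type. -/

noncomputable section
namespace Pool.Agent.Work.MP_c2ab8b_gt.K8
open Real MeasureTheory Set

def Hu (X : Fin 8 → V) : Set V := convexHull ℝ (range X)

variable {X : Fin 8 → V}

theorem Hu.cv (X : Fin 8 → V) : Convex ℝ (Hu X) := convex_convexHull ℝ _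
theorem Hu.cp (X : Fin 8 → V) : IsCompact (Hu X) := (finite_range X).isCompact_convexHull ℝ
theorem Hu.mem (X : Fin 8 → V) (i : Fin 8) : X i ∈ Hu X := subset_convexHull ℝ _ ⟨i, rfl⟩

theorem Hu.rep {z : V} (h : z ∈ Hu X) :
    ∃ w : Fin 8 → ℝ, (∀ i, 0 ≤ w i) ∧ ∑ i, w i = 1 ∧ ∑ i, w i • X i = z := by
  refine convexHull_min (t := {z | ∃ w : Fin 8 → ℝ, (∀ i, 0 ≤ w i) ∧ ∑ i, w i = 1 ∧ ∑ i, w i • X i = z}) ?_ ?_ h
  · rintro _ ⟨i, rfl⟩
    exact ⟨Pi.single i 1, fun j => by rw [Pi.single_apply]; split_ifs <;> norm_num, by simp, by simp [Pi.single_apply]⟩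
  · rintro _ ⟨u, h1, h2, rfl⟩ _ ⟨v, h3, h4, rfl⟩ a b ha hb hab
    refine ⟨fun i => a * u i + b * v i, fun i => add_nonneg (mul_nonneg ha (h1 i)) (mul_nonneg hb (h3 i)), ?_, ?_⟩
    · rw [Finset.sum_add_distrib, ← Finset.mul_sum, ← Finset.mul_sum, h2, h4]; linarith
    · simp only [add_smul, mul_smul, Finset.sum_add_distrib, Finset.smul_sum]

theorem dt_sum (a : V) (w : Fin 8 → ℝ) : dt a (∑ i, w i • X i) = ∑ i, w i * dt a (X i) := by
  simp only [← inner_dt, inner_sum, inner_smul_right]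

theorem Hu.le {a : V} {c : ℝ} (ha : ∀ l, dt a (X l) ≤ c) {z : V} (h : z ∈ Hu X) : dt a z ≤ c := by
  obtain ⟨w, h1, h2, rfl⟩ := Hu.rep h
  rw [dt_sum]
  refine (Finset.sum_le_sum fun i _ => mul_le_mul_of_nonneg_left (ha i) (h1 i)).trans ?_
  rw [← Finset.sum_mul, h2, one_mul]

theorem Gen.front (G : Gen X) (h0 : 0 ∈ interior (Hu X)) {z : V} (hz : z ∈ frontier (Hu X)) :
    ∃ i j k, Fc X i j k ∧ z ∈ tri (X i) (X j) (X k) := by
  rw [(Hu.cp X).isClosed.frontier_eq] at hz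
  obtain ⟨a, h1, h2⟩ := support (Hu.cv X) h0 hz.2
  have ha := fun l => h2 _ (Hu.mem X l)
  obtain ⟨w, w0, w1, rfl⟩ := Hu.rep hz.1
  have t : ∀ l, w l ≠ 0 → dt a (X l) = 1 := by
    intro l hl
    have : ∑ i, w i * (1 - dt a (X i)) = 0 := by
      simp only [mul_sub, Finset.sum_sub_distrib, mul_one, w1, ← dt_sum, h1, sub_self]
    rw [Finset.sum_eq_zero_iff_of_nonneg fun i _ => mul_nonneg (w0 i) (sub_nonneg.2 (ha i))] at this
    linarith [(mul_eq_zero.1 (this l (Finset.mem_univ l))).resolve_left hl]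
  obtain ⟨i, -, hi⟩ := Finset.exists_ne_zero_of_sum_ne_zero (w1 ▸ one_ne_zero : ∑ i, w i ≠ 0)
  obtain ⟨j, k, F, hF⟩ := G.ext1 ha (t i hi)
  have s : ∀ {M : Type} [AddCommMonoid M] (g : Fin 8 → M), (∀ l, w l = 0 → g l = 0) → ∑ l, g l = g i + g j + g k := by
    intro M _ g hg
    rw [← Finset.sum_subset (Finset.subset_univ {i, j, k}) fun l _ hl => hg l (by
      by_contra x
      simp [hF l (t l x)] at hl), Finset.sum_insert (by simp [F.ne, F.rot.rot.ne.symm]),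
      Finset.sum_pair F.rot.ne, add_assoc]
  rw [s _ fun l hl => hl] at w1
  refine ⟨i, j, k, F, w j, w k, w0 j, w0 k, by linarith [w0 i], ?_⟩
  rw [s _ fun l hl => by rw [hl, zero_smul], show w i = 1 - w j - w k by linarith]
  module

def sar (X : Fin 8 → V) (T : List T3) : ℝ := (T.map fun t => ar (X t.1) (X t.2.1) (X t.2.2)).sum

def Un (X : Fin 8 → V) (T : List T3) : Set V := {z | ∃ t ∈ T, z ∈ tri (X t.1) (X t.2.1) (X t.2.2)}

theorem Un_cons (t : T3) (T : List T3) : Un X (t :: T) = tri (X t.1) (X t.2.1) (X t.2.2) ∪ Un X T := by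
  ext z; simp [Un]

theorem sar_cons (t : T3) (T : List T3) : ENNReal.ofReal (sar X (t :: T)) =
    ENNReal.ofReal (ar (X t.1) (X t.2.1) (X t.2.2)) + ENNReal.ofReal (sar X T) := by
  have : ∀ a b c, 0 ≤ ar a b c := fun a b c => by unfold ar; positivity
  unfold sar
  rw [← ENNReal.ofReal_add (this _ _ _) (List.sum_nonneg (by
    simp only [List.mem_map]; rintro _ ⟨_, -, rfl⟩; exact this _ _ _)), List.map_cons, List.sum_cons]

theorem Un_le (u : ∀ i, dt (X i) (X i) = 1) {T : List T3} (H : Hd (Fc X) T) :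
    μHE[2] (Un X T) ≤ ENNReal.ofReal (sar X T) := by
  induction T with
  | nil => simp [Un]
  | cons t T ih =>
    rw [Un_cons, sar_cons, ← Ps.meas ⟨u _, u _, u _, (H t (by simp)).1⟩]
    exact (measure_union_le _ _).trans (add_le_add le_rfl (ih fun s hs => H s (by simp [hs])))

theorem Fc.null {i j k p q r : Fin 8} (F : Fc X i j k) (h : r ≠ i ∧ r ≠ j ∧ r ≠ k) :
    μHE[2] (tri (X i) (X j) (X k) ∩ tri (X p) (X q) (X r)) = 0 := by
  refine measure_mono_null ?_ (tri_null (X p) (X q))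
  rintro z ⟨⟨s', t', -, -, -, e⟩, s, t, h1, h2, h3, rfl⟩
  have e1 := congrArg (d4 (X i) (X j) (X k)) e
  rw [d4_tri, d4_tri, show d4 (X i) (X j) (X k) (X i) = 0 by unfold d4 dv; ring,
    show d4 (X i) (X j) (X k) (X j) = 0 by unfold d4 dv; ring,
    show d4 (X i) (X j) (X k) (X k) = 0 by unfold d4 dv; ring] at e1
  have a := mul_nonpos_of_nonneg_of_nonpos (by linarith : 0 ≤ 1 - s - t) (F.le p)
  have b := mul_nonpos_of_nonneg_of_nonpos h1 (F.le q)
  have c := F.2 r h.1 h.2.1 h.2.2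
  obtain rfl : t = 0 := by
    by_contra x
    linarith [mul_neg_of_pos_of_neg (lt_of_le_of_ne h2 (Ne.symm x)) c]
  exact ⟨s, 0, h1, le_rfl, h3, by simp⟩

theorem Un_eq (u : ∀ i, dt (X i) (X i) = 1) {T : List T3} (H : Hd (Fc X) T)
    (P : T.Pairwise fun t s => ∃ r, (r = s.1 ∨ r = s.2.1 ∨ r = s.2.2) ∧ r ≠ t.1 ∧ r ≠ t.2.1 ∧ r ≠ t.2.2) :
    μHE[2] (Un X T) = ENNReal.ofReal (sar X T) := by
  induction T with
  | nil => simp [Un, sar]
  | cons t T ih =>
    rw [List.pairwise_cons] at P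
    have F := H t (by simp)
    rw [Un_cons, sar_cons, ← Ps.meas ⟨u _, u _, u _, F.1⟩, ← ih (fun s hs => H s (by simp [hs])) P.2]
    refine measure_union₀' (tri_compact _ _ _).measurableSet.nullMeasurableSet ?_
    have : tri (X t.1) (X t.2.1) (X t.2.2) ∩ Un X T =
        ⋃ s ∈ {s | s ∈ T}, tri (X t.1) (X t.2.1) (X t.2.2) ∩ tri (X s.1) (X s.2.1) (X s.2.2) := by
      ext z; simp [Un]
    unfold AEDisjoint
    rw [this, measure_biUnion_null_iff (to_countable _)]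
    intro s hs
    obtain ⟨r, rfl | rfl | rfl, h⟩ := P.1 s hs
    · exact measure_mono_null (inter_subset_inter_right _ fun _ => tri_rot) (F.null h)
    · exact measure_mono_null (inter_subset_inter_right _ fun _ x => tri_rot (tri_rot x)) (F.null h)
    · exact F.null h

theorem Un_sub {T : List T3} (H : Hd (Fc X) T) : Un X T ⊆ frontier (Hu X) := by
  rintro _ ⟨⟨i, j, k⟩, ht, s, t, h1, h2, h3, rfl⟩
  have F : Fc X i j k := H _ ht
  rw [(Hu.cp X).isClosed.frontier_eq]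
  refine ⟨?_, ?_⟩
  · have := (Hu.cv X).sum_mem (t := Finset.univ) (w := ![1 - s - t, s, t]) (z := ![X i, X j, X k])
      (by intro l _; fin_cases l <;> simp <;> linarith) (by simp [Fin.sum_univ_three]; ring)
      (by intro l _; fin_cases l <;> exact Hu.mem X _)
    convert this using 1
    simp only [Fin.sum_univ_three]
    show _ = (1 - s - t) • X i + s • X j + t • X k
    module
  · set n := cr (X i) (X j) + cr (X j) (X k) + cr (X k) (X i)
    have e : ∀ x, dt n x = d4 (X i) (X j) (X k) x + dv (X i) (X j) (X k) := fun x => by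
      simp [n, dt, cr, d4, dv]; ring
    have z : ∀ x, x = X i ∨ x = X j ∨ x = X k → dt n x = dv (X i) (X j) (X k) := by
      rintro x (rfl | rfl | rfl) <;> rw [e] <;> unfold d4 dv <;> ring
    refine not_int (a := n) (c := dv (X i) (X j) (X k)) ?_
      (fun y => Hu.le fun l => by rw [e]; linarith [F.le l]) ?_
    · rw [dt_self]
      refine pow_pos (norm_pos_iff.2 fun x => ?_) 2
      have := z _ (Or.inl rfl)
      rw [x] at this
      simp only [dt, PiLp.zero_apply, zero_mul, add_zero] at this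
      linarith [F.1]
    · rw [dt_tri, z _ (Or.inl rfl), z _ (Or.inr (Or.inl rfl)), z _ (Or.inr (Or.inr rfl))]; linarith

theorem Gen.ax (G : Gen X) : Ax (Fc X) :=
  ⟨Fc.rot, Fc.anti, Fc.uniq, Fc.nxt G, G.vert, G.link, Fc.tet G.u⟩

theorem cyc4 (u : ∀ i, dt (X i) (X i) = 1) {v a b c d : Fin 8} (h : Function.Injective ![a, b, c, d])
    (h0 : Fc X v a b) (h1 : Fc X v b c) (h2 : Fc X v c d) (h3 : Fc X v d a) :
    (An (X v) (X a) (X b) + An (X b) (X v) (X a)) +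
    (An (X v) (X b) (X c) + An (X c) (X v) (X b)) +
    (An (X v) (X c) (X d) + An (X d) (X v) (X c)) +
    (An (X v) (X d) (X a) + An (X a) (X v) (X d)) = 2 * π := by
  have := cyc u (v := v) (finRotate 4) h (by intro t; fin_cases t <;> assumption)
  simp only [Fin.sum_univ_succ, Fin.sum_univ_zero] at this
  rw [← this]; simp only [add_assoc, add_zero]; rfl

theorem cyc5 (u : ∀ i, dt (X i) (X i) = 1) {v a b c d e : Fin 8} (h : Function.Injective ![a, b, c, d, e])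
    (h0 : Fc X v a b) (h1 : Fc X v b c) (h2 : Fc X v c d) (h3 : Fc X v d e) (h4 : Fc X v e a) :
    (An (X v) (X a) (X b) + An (X b) (X v) (X a)) +
    (An (X v) (X b) (X c) + An (X c) (X v) (X b)) +
    (An (X v) (X c) (X d) + An (X d) (X v) (X c)) +
    (An (X v) (X d) (X e) + An (X e) (X v) (X d)) +
    (An (X v) (X e) (X a) + An (X a) (X v) (X e)) = 2 * π := by
  have := cyc u (v := v) (finRotate 5) h (by intro t; fin_cases t <;> assumption)
  simp only [Fin.sum_univ_succ, Fin.sum_univ_zero] at this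
  rw [← this]; simp only [add_assoc, add_zero]; rfl

open Classical in
def Sd (X : Fin 8 → V) (g : Fin 8 → Fin 8 → Fin 8 → ℝ) : ℝ :=
  ∑ t : T3, if Fc X t.1 t.2.1 t.2.2 then g t.1 t.2.1 t.2.2 else 0

variable {g g' : Fin 8 → Fin 8 → Fin 8 → ℝ}

open Classical in
theorem Sd_rot (g : Fin 8 → Fin 8 → Fin 8 → ℝ) : Sd X (fun a b c => g b c a) = Sd X g :=
  Fintype.sum_equiv ⟨fun t => (t.2.1, t.2.2, t.1), fun t => (t.2.2, t.1, t.2.1), fun _ => rfl, fun _ => rfl⟩ _ _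
    fun _ => if_congr ⟨Fc.rot, fun h => h.rot.rot⟩ rfl rfl

theorem Sd_add (g g' : Fin 8 → Fin 8 → Fin 8 → ℝ) : Sd X (fun a b c => g a b c + g' a b c) = Sd X g + Sd X g' := by
  unfold Sd
  rw [← Finset.sum_add_distrib]
  exact Finset.sum_congr rfl fun t _ => by split_ifs <;> simp

theorem Sd_le (h : ∀ a b c, Fc X a b c → g a b c ≤ g' a b c) : Sd X g ≤ Sd X g' :=
  Finset.sum_le_sum fun t _ => by
    split_ifs with F
    exacts [h _ _ _ F, le_rfl]

theorem Sd_mul (k : ℝ) (g : Fin 8 → Fin 8 → Fin 8 → ℝ) : Sd X (fun a b c => k * g a b c) = k * Sd X g := by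
  unfold Sd
  rw [Finset.mul_sum]
  exact Finset.sum_congr rfl fun t _ => by split_ifs <;> simp

theorem Gen.edge (G : Gen X) (h : ∀ a b c d, Fc X a b c → Fc X b a d → 0 ≤ g a b c + g b a d) : 0 ≤ Sd X g := by
  classical
  obtain ⟨w, hw⟩ : ∃ w : Fin 8 → Fin 8 → ℝ, ∀ a b, w a b = ∑ c, if Fc X a b c then g a b c else 0 := ⟨_, fun _ _ => rfl⟩
  have e : Sd X g = ∑ a, ∑ b, w a b := by
    simp only [Sd, Fintype.sum_prod_type, hw]
  have s : ∀ {a b c}, Fc X a b c → w a b = g a b c := fun {a b c} F => by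
    rw [hw, Finset.sum_eq_single c (fun d _ n => if_neg fun x => n (x.uniq F)) (by simp), if_pos F]
  have : 0 ≤ ∑ a, ∑ b, (w a b + w b a) := Finset.sum_nonneg fun a _ => Finset.sum_nonneg fun b _ => by
    by_cases x : ∃ c, Fc X a b c
    · obtain ⟨c, F⟩ := x
      obtain ⟨d, F'⟩ := F.nxt G
      rw [s F, s F']; exact h _ _ _ _ F F'
    · rw [hw, hw, Finset.sum_eq_zero fun c _ => if_neg fun F => x ⟨c, F⟩,
        Finset.sum_eq_zero fun c _ => if_neg fun F => x (F.nxt G), add_zero]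
  simp only [Finset.sum_add_distrib] at this
  rw [Finset.sum_comm (f := fun a b => w b a), ← e] at this
  linarith

theorem Gen.ang (G : Gen X) (l : Fin 8 → ℝ) :
    Sd X (fun v a b => l v * (An (X v) (X a) (X b) + An (X b) (X v) (X a))) = 2 * π * ∑ v, l v := by
  unfold Sd
  rw [Fintype.sum_prod_type, Finset.mul_sum]
  refine Finset.sum_congr rfl fun v _ => ?_
  obtain ⟨p, q, F⟩ := G.vert v
  rw [← G.star v (fun _ => True) ⟨p, q, trivial, F⟩ fun _ _ _ _ => trivial, Finset.sum_mul]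
  refine Finset.sum_congr rfl fun t _ => ?_
  by_cases x : Fc X v t.1 t.2
  · rw [if_pos x, if_pos (And.intro trivial x)]; ring
  · rw [if_neg x, if_neg fun y => x y.2, zero_mul]

theorem qU_s {i j k : ℕ} (hi : i < 3) (hj : j < 3) (hk : k < 3) (h : 0 < cm3 i j k) : All (qU i j k) := by
  interval_cases i <;> interval_cases j <;> interval_cases k <;>
    first | exact absurd h (by decide) | exact u011 | exact u101 | exact u110 | exact u111 | exact u112 | exact u121 |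
      exact u122 | exact u211 | exact u212 | exact u221

theorem PU_s {i j k : ℕ} (hi : i < 3) (hj : j < 3) (hk : k < 3) (h : 0 < cm3 i j k) (y A : ℝ) :
    (PU i j).f y A * 2 ^ 32 = (PU i j).ψ y A * 2 ^ 32 - (lam i + lam j) * A := by
  obtain ⟨a, b⟩ := (by decide +kernel : ∀ i < 3, ∀ j < 3, ∀ k < 3, 0 < cm3 i j k →
    (PU i j).p.nw + lam i + lam j = 4503599627370496 ∧ (PU i j).p.p = 4503599627370496) i hi j hj k hk h
  have a := congrArg (Nat.cast : ℕ → ℝ) a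
  rw [P8.f_eq, b, vl_B]
  unfold vl
  push_cast at a
  linear_combination A * a

theorem Gen.usum (G : Gen X) {z : Fin 8 → ℕ} (h1 : ∀ v, z v < 3) (h2 : ∀ a b c, Fc X a b c → 0 < cm3 (z a) (z b) (z c))
    (h3 : 18849558 * ∑ v, lam (z v) ≤ 1000000 * (Wt (Fc X) z + 104654136660)) :
    ∃ L, Hd (Fc X) L ∧ (∀ a b c, Fc X a b c → (a, b, c) ∈ L ∨ (b, c, a) ∈ L ∨ (c, a, b) ∈ L) ∧
      sar X L * 2 ^ 32 ≤ 34884712220 := by
  classical
  have o : ∀ {a b c}, Fc X a b c → (a < b ∧ a < c) ∧ ¬(b < c ∧ b < a) ∧ ¬(c < a ∧ c < b) ∨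
      ¬(a < b ∧ a < c) ∧ (b < c ∧ b < a) ∧ ¬(c < a ∧ c < b) ∨
      ¬(a < b ∧ a < c) ∧ ¬(b < c ∧ b < a) ∧ (c < a ∧ c < b) := fun F => by
    have := F.ne; have := F.rot.ne; have := F.rot.rot.ne; omega
  refine ⟨(Finset.univ.filter fun t : T3 => Fc X t.1 t.2.1 t.2.2 ∧ t.1 < t.2.1 ∧ t.1 < t.2.2).toList,
    fun t ht => (by simpa using ht : _ ∧ _).1, fun a b c F => ?_, ?_⟩
  · simp only [Finset.mem_toList, Finset.mem_filter, Finset.mem_univ, true_and]
    rcases o F with h | h | h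
    exacts [Or.inl ⟨F, h.1⟩, Or.inr (Or.inl ⟨F.rot, h.2.1⟩), Or.inr (Or.inr ⟨F.rot.rot, h.2.2⟩)]
  obtain ⟨m, hm⟩ : ∃ m : Fin 8 → Fin 8 → Fin 8 → ℝ, ∀ a b c, m a b c = if a < b ∧ a < c then ar (X a) (X b) (X c) else 0 :=
    ⟨_, fun _ _ _ => rfl⟩
  have e1 : sar X (Finset.univ.filter fun t : T3 => Fc X t.1 t.2.1 t.2.2 ∧ t.1 < t.2.1 ∧ t.1 < t.2.2).toList =
      Sd X m := by
    rw [sar, Finset.sum_map_toList, Finset.sum_filter]
    refine Finset.sum_congr rfl fun t _ => ?_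
    rw [hm, ite_and]
  obtain ⟨p, hp⟩ : ∃ p : Fin 8 → Fin 8 → Fin 8 → ℝ, ∀ a b c,
    p a b c = (PU (z a) (z b)).ψ (yy (X a) (X b)) (An (X a) (X b) (X c)) := ⟨_, fun _ _ _ => rfl⟩
  have e2 : 0 ≤ Sd X p := G.edge fun a b c d F F' => by
    rw [hp, hp, yy_comm (X b), show PU (z b) (z a) = PU (z a) (z b) by unfold PU; rw [add_comm]]
    exact P8.add ((by decide +kernel : ∀ i < 3, ∀ j < 3, 4503599627370496 ≤ (PU i j).p.k2 ∧
      4503599627370496 ≤ (PU i j).p.k3 ∧ 4503599627370496 ≤ (PU i j).k4) _ (h1 a) _ (h1 b))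
      (yy_bd (G.u a) (G.u b)).2 (F.del G.u F')
  obtain ⟨q, hq⟩ : ∃ q : Fin 8 → Fin 8 → Fin 8 → ℝ, ∀ v a b,
    q v a b = lam (z v) * (An (X v) (X a) (X b) + An (X b) (X v) (X a)) := ⟨_, fun _ _ _ => rfl⟩
  have e3 : Sd X q = 2 * π * ∑ v, (lam (z v) : ℝ) := by rw [← G.ang]; congr 1; ext; exact hq _ _ _
  have e4 : Sd X (fun a b c => cm3 (z a) (z b) (z c)) = Wt (Fc X) z := by
    unfold Sd Wt; push_cast; rfl
  obtain ⟨r, hr⟩ : ∃ r : Fin 8 → Fin 8 → Fin 8 → ℝ, ∀ a b c, r a b c = 2 ^ 32 * m a b c + (2 ^ 32 * p a b c +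
    -1 * q a b c) := ⟨_, fun _ _ _ => rfl⟩
  have e5 : Sd X r = 2 ^ 32 * Sd X m + (2 ^ 32 * Sd X p + -1 * Sd X q) := by
    rw [← Sd_mul, ← Sd_mul, ← Sd_mul, ← Sd_add, ← Sd_add]; congr 1; ext; exact hr _ _ _
  have e6 : Sd X (fun a b c => r a b c + (r b c a + r c a b)) ≤ Sd X fun a b c => -1 * cm3 (z a) (z b) (z c) := by
    refine Sd_le fun a b c F => ?_
    obtain ⟨T, a1, a2, a3, a4⟩ := ps_tri (F.ps G.u) rfl rfl rfl
    have := (T.cl (qU_s (h1 a) (h1 b) (h1 c) (h2 _ _ _ F))).1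
    rw [← a1, ← a2, ← a3, ← a4] at this
    have b1 := PU_s (h1 a) (h1 b) (h1 c) (h2 _ _ _ F) (yy (X a) (X b)) (An (X a) (X b) (X c))
    have b2 := PU_s (h1 b) (h1 c) (h1 a) (h2 _ _ _ F.rot) (yy (X b) (X c)) (An (X b) (X c) (X a))
    have b3 := PU_s (h1 c) (h1 a) (h1 b) (h2 _ _ _ F.rot.rot) (yy (X c) (X a)) (An (X c) (X a) (X b))
    have b4 : m a b c + m b c a + m c a b = ar (X a) (X b) (X c) := by
      rw [hm, hm, hm, ← ar_rot (X a), ar_rot (X c)]
      rcases o F with h | h | h <;> simp [h.1, h.2.1, h.2.2]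
    have b5 : cm3 (z a) (z b) (z c) ≤ 4503599627370496 :=
      (by decide +kernel : ∀ i < 3, ∀ j < 3, ∀ k < 3, cm3 i j k ≤ 4503599627370496) _ (h1 a) _ (h1 b) _ (h1 c)
    simp only [Q8.F, qU, vl, Nat.cast_sub b5] at this
    simp only [hr, hp, hq]
    push_cast at this
    linarith
  rw [Sd_add, Sd_add, Sd_rot r, Sd_rot (fun a b c => r b c a), Sd_rot r, Sd_mul, e4, e5, e3] at e6
  have h3 := Nat.cast_le (α := ℝ).2 h3
  push_cast at h3
  have := mul_le_mul_of_nonneg_right pi_lt_d6.le (Finset.sum_nonneg fun v (_ : v ∈ Finset.univ) =>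
    (Nat.cast_nonneg (lam (z v)) : (0 : ℝ) ≤ _))
  rw [e1]
  linarith

def ED (e : ℕ) : Fin 8 × Fin 8 := [(0, 1), (2, 3), (0, 5), (1, 7), (2, 4), (3, 6), (0, 7), (1, 5), (2, 6), (3, 4), (0, 4), (1, 6), (2, 5), (3, 7), (4, 5), (6, 7), (5, 6), (4, 7)].getD e (0, 0)

theorem cfg_of (u : ∀ i, dt (X i) (X i) = 1) (H : Hd (Fc X) ty0) {y : ℕ → ℝ}
    (hy : ∀ e < 18, yy (X (ED e).1) (X (ED e).2) = y e) : Cfg y ∧ sar X ty0 = ary y := by
  have y0 : yy (X 0) (X 1) = y 0 := hy 0 (by norm_num)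
  have y1 : yy (X 2) (X 3) = y 1 := hy 1 (by norm_num)
  have y2 : yy (X 0) (X 5) = y 2 := hy 2 (by norm_num)
  have y3 : yy (X 1) (X 7) = y 3 := hy 3 (by norm_num)
  have y4 : yy (X 2) (X 4) = y 4 := hy 4 (by norm_num)
  have y5 : yy (X 3) (X 6) = y 5 := hy 5 (by norm_num)
  have y6 : yy (X 0) (X 7) = y 6 := hy 6 (by norm_num)
  have y7 : yy (X 1) (X 5) = y 7 := hy 7 (by norm_num)
  have y8 : yy (X 2) (X 6) = y 8 := hy 8 (by norm_num)
  have y9 : yy (X 3) (X 4) = y 9 := hy 9 (by norm_num)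
  have y10 : yy (X 0) (X 4) = y 10 := hy 10 (by norm_num)
  have y11 : yy (X 1) (X 6) = y 11 := hy 11 (by norm_num)
  have y12 : yy (X 2) (X 5) = y 12 := hy 12 (by norm_num)
  have y13 : yy (X 3) (X 7) = y 13 := hy 13 (by norm_num)
  have y14 : yy (X 4) (X 5) = y 14 := hy 14 (by norm_num)
  have y15 : yy (X 6) (X 7) = y 15 := hy 15 (by norm_num)
  have y16 : yy (X 5) (X 6) = y 16 := hy 16 (by norm_num)
  have y17 : yy (X 4) (X 7) = y 17 := hy 17 (by norm_num)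
  have F074 : Fc X 0 7 4 := H (0, 7, 4) (by decide)
  have F045 : Fc X 0 4 5 := H (0, 4, 5) (by decide)
  have F051 : Fc X 0 5 1 := H (0, 5, 1) (by decide)
  have F156 : Fc X 1 5 6 := H (1, 5, 6) (by decide)
  have F167 : Fc X 1 6 7 := H (1, 6, 7) (by decide)
  have F170 : Fc X 1 7 0 := H (1, 7, 0) (by decide)
  have F254 : Fc X 2 5 4 := H (2, 5, 4) (by decide)
  have F265 : Fc X 2 6 5 := H (2, 6, 5) (by decide)
  have F236 : Fc X 2 3 6 := H (2, 3, 6) (by decide)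
  have F376 : Fc X 3 7 6 := H (3, 7, 6) (by decide)
  have F347 : Fc X 3 4 7 := H (3, 4, 7) (by decide)
  have F324 : Fc X 3 2 4 := H (3, 2, 4) (by decide)
  obtain ⟨t0, a0, b0, c0, r0⟩ := ps_tri' (F051.rot.rot.ps u) ((yy_comm _ _).trans y0) y2 ((yy_comm _ _).trans y7)
  obtain ⟨t1, a1, b1, c1, r1⟩ := ps_tri' (F170.rot.rot.ps u) y0 y3 ((yy_comm _ _).trans y6)
  obtain ⟨t2, a2, b2, c2, r2⟩ := ps_tri' (F236.ps u) y1 y5 ((yy_comm _ _).trans y8)
  obtain ⟨t3, a3, b3, c3, r3⟩ := ps_tri' (F324.ps u) ((yy_comm _ _).trans y1) y4 ((yy_comm _ _).trans y9)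
  obtain ⟨t4, a4, b4, c4, r4⟩ := ps_tri' (F045.rot.rot.ps u) ((yy_comm _ _).trans y2) y10 y14
  obtain ⟨t5, a5, b5, c5, r5⟩ := ps_tri' (F167.rot.rot.ps u) ((yy_comm _ _).trans y3) y11 y15
  obtain ⟨t6, a6, b6, c6, r6⟩ := ps_tri' (F254.rot.rot.ps u) ((yy_comm _ _).trans y4) y12 ((yy_comm _ _).trans y14)
  obtain ⟨t7, a7, b7, c7, r7⟩ := ps_tri' (F376.rot.rot.ps u) ((yy_comm _ _).trans y5) y13 ((yy_comm _ _).trans y15)
  obtain ⟨t8, a8, b8, c8, r8⟩ := ps_tri (F074.ps u) y6 ((yy_comm _ _).trans y10) ((yy_comm _ _).trans y17)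
  obtain ⟨t9, a9, b9, c9, r9⟩ := ps_tri (F156.ps u) y7 ((yy_comm _ _).trans y11) y16
  obtain ⟨t10, a10, b10, c10, r10⟩ := ps_tri (F265.ps u) y8 ((yy_comm _ _).trans y12) ((yy_comm _ _).trans y16)
  obtain ⟨t11, a11, b11, c11, r11⟩ := ps_tri (F347.ps u) y9 ((yy_comm _ _).trans y13) y17
  refine ⟨⟨t0, t1, t2, t3, t4, t5, t6, t7, t8, t9, t10, t11,
    by linarith only [cyc4 u (by decide) F074 F045 F051 F170.rot.rot, a8, b4, b0, a1, b8, a4, a0, c1],
    by linarith only [cyc4 u (by decide) F051.rot.rot F156 F167 F170, a0, a9, b5, b1, c0, b9, a5, a1],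
    by linarith only [cyc4 u (by decide) F254 F324.rot F236 F265, b6, b3, a2, a10, a6, a3, c2, b10],
    by linarith only [cyc4 u (by decide) F236.rot F324 F347 F376, b2, a3, a11, b7, a2, c3, b11, a7],
    by linarith only [cyc5 u (by decide) F074.rot.rot F347.rot F324.rot.rot F254.rot.rot F045.rot, b8, c11, c3, a6, c4, c8, a11, b3, c6, b4],
    by linarith only [cyc5 u (by decide) F045.rot.rot F254.rot F265.rot.rot F156.rot F051.rot, a4, c6, b10, c9, c0, c4, b6, c10, a9, b0],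
    by linarith only [cyc5 u (by decide) F156.rot.rot F265.rot F236.rot.rot F376.rot.rot F167.rot, b9, c10, c2, a7, c5, c9, a10, b2, c7, b5],
    by linarith only [cyc5 u (by decide) F074.rot F170.rot F167.rot.rot F376.rot F347.rot.rot, c8, c1, a5, c7, b11, a8, b1, c5, b7, c11],
    by linarith only [F170.rot.rot.del u F051.rot.rot, a1, a0],
    by linarith only [F236.del u F324, a2, a3],
    by linarith only [F051.del u F045.rot.rot, b0, a4],
    by linarith only [F170.del u F167.rot.rot, b1, a5],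
    by linarith only [F324.rot.del u F254.rot.rot, b3, a6],
    by linarith only [F236.rot.del u F376.rot.rot, b2, a7],
    by linarith only [F074.del u F170.rot, a8, c1],
    by linarith only [F156.del u F051.rot, a9, c0],
    by linarith only [F265.del u F236.rot.rot, a10, c2],
    by linarith only [F347.del u F324.rot.rot, a11, c3],
    by linarith only [F045.del u F074.rot.rot, b4, b8],
    by linarith only [F167.del u F156.rot.rot, b5, b9],
    by linarith only [F254.del u F265.rot.rot, b6, b10],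
    by linarith only [F376.del u F347.rot.rot, b7, b11],
    by linarith only [F045.rot.del u F254.rot, c4, c6],
    by linarith only [F167.rot.del u F376.rot, c5, c7],
    by linarith only [F156.rot.del u F265.rot, c9, c10],
    by linarith only [F347.rot.del u F074.rot, c11, c8]⟩, ?_⟩
  simp only [sar, ty0, List.map_cons, List.map_nil, List.sum_cons, List.sum_nil, ary]
  linarith only [r0, r1, r2, r3, r4, r5, r6, r7, r8, r9, r10, r11,
    ar_rot (X 0) (X 5) (X 1),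
    ar_rot (X 5) (X 1) (X 0),
    ar_rot (X 1) (X 7) (X 0),
    ar_rot (X 7) (X 0) (X 1),
    ar_rot (X 0) (X 4) (X 5),
    ar_rot (X 4) (X 5) (X 0),
    ar_rot (X 1) (X 6) (X 7),
    ar_rot (X 6) (X 7) (X 1),
    ar_rot (X 2) (X 5) (X 4),
    ar_rot (X 5) (X 4) (X 2),
    ar_rot (X 3) (X 7) (X 6),
    ar_rot (X 7) (X 6) (X 3)]

end Pool.Agent.Work.MP_c2ab8b_gt.K8
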