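import Pool.Agent.Work.MP_c2ab8b_gt.K8.Meas
import Pool.Agent.Work.MP_c2ab8b_gt.K8.Fin

/- The two parameter family of symmetric polytopes. -/

noncomputable section
namespace Pool.Agent.Work.MP_c2ab8b_gt.K8
open Real MeasureTheory Set

def XP (s c S C : ℝ) : Fin 8 → V :=
  ![!₂[s, 0, c], !₂[-s, 0, c], !₂[0, s, -c], !₂[0, -s, -c], !₂[S, 0, -C], !₂[0, S, C], !₂[-S, 0, -C], !₂[0, -S, C]]

structure M4 (s c S C : ℝ) : Prop where
  u : s ^ 2 + c ^ 2 = 1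
  v : S ^ 2 + C ^ 2 = 1
  s : 0.5995 ≤ s ∧ s ≤ 0.5996
  c : 0.8002 ≤ c ∧ c ≤ 0.8004
  S : 0.9595 ≤ S ∧ S ≤ 0.9596
  C : 0.2816 ≤ C ∧ C ≤ 0.2817

variable {s c S C : ℝ} {X Y : Fin 8 → V}

theorem XP_c (s c S C : ℝ) : (XP s c S C 0 0 = s ∧ XP s c S C 0 1 = 0 ∧ XP s c S C 0 2 = c) ∧
    (XP s c S C 1 0 = -s ∧ XP s c S C 1 1 = 0 ∧ XP s c S C 1 2 = c) ∧
    (XP s c S C 2 0 = 0 ∧ XP s c S C 2 1 = s ∧ XP s c S C 2 2 = -c) ∧
    (XP s c S C 3 0 = 0 ∧ XP s c S C 3 1 = -s ∧ XP s c S C 3 2 = -c) ∧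
    (XP s c S C 4 0 = S ∧ XP s c S C 4 1 = 0 ∧ XP s c S C 4 2 = -C) ∧
    (XP s c S C 5 0 = 0 ∧ XP s c S C 5 1 = S ∧ XP s c S C 5 2 = C) ∧
    (XP s c S C 6 0 = -S ∧ XP s c S C 6 1 = 0 ∧ XP s c S C 6 2 = -C) ∧
    (XP s c S C 7 0 = 0 ∧ XP s c S C 7 1 = -S ∧ XP s c S C 7 2 = C) :=
  ⟨⟨rfl, rfl, rfl⟩, ⟨rfl, rfl, rfl⟩, ⟨rfl, rfl, rfl⟩, ⟨rfl, rfl, rfl⟩, ⟨rfl, rfl, rfl⟩, ⟨rfl, rfl, rfl⟩,
    ⟨rfl, rfl, rfl⟩, rfl, rfl, rfl⟩

theorem al8 : ∀ l : Fin 8, l = 0 ∨ l = 1 ∨ l = 2 ∨ l = 3 ∨ l = 4 ∨ l = 5 ∨ l = 6 ∨ l = 7 := by decide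

theorem M4.un (M : M4 s c S C) (i : Fin 8) : dt (XP s c S C i) (XP s c S C i) = 1 := by
  obtain ⟨e0, e1, e2, e3, e4, e5, e6, e7⟩ := XP_c s c S C
  rcases al8 i with rfl | rfl | rfl | rfl | rfl | rfl | rfl | rfl <;>
    simp only [dt, e0, e1, e2, e3, e4, e5, e6, e7] <;> linarith only [M.u, M.v]

theorem m3 {x y z a b c A B C : ℝ} (h1 : a ≤ x ∧ x ≤ A) (h2 : b ≤ y ∧ y ≤ B) (h3 : c ≤ z ∧ z ≤ C)
    (p : 0 ≤ a ∧ 0 ≤ b ∧ 0 ≤ c) : a * b * c ≤ x * y * z ∧ x * y * z ≤ A * B * C := by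
  obtain ⟨p, q, r⟩ := p
  have := p.trans h1.1; have := q.trans h2.1; have := r.trans h3.1
  have := h1.1.trans h1.2; have := h2.1.trans h2.2
  exact ⟨mul_le_mul (mul_le_mul h1.1 h2.1 q ‹_›) h3.1 r (by positivity),
    mul_le_mul (mul_le_mul h1.2 h2.2 ‹_› (by linarith)) h3.2 ‹_› (mul_nonneg (by linarith) (by linarith))⟩

theorem M4.fc (M : M4 s c S C) : Hd (Fc (XP s c S C)) ty0 := by
  obtain ⟨e0, e1, e2, e3, e4, e5, e6, e7⟩ := XP_c s c S C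
  have p1 := m3 M.s M.s M.c (by norm_num)
  have p2 := m3 M.s M.s M.C (by norm_num)
  have p3 := m3 M.s M.S M.c (by norm_num)
  have p4 := m3 M.s M.S M.C (by norm_num)
  have p5 := m3 M.S M.S M.c (by norm_num)
  have p6 := m3 M.S M.S M.C (by norm_num)
  intro t ht
  simp only [ty0, List.mem_cons, List.not_mem_nil, or_false] at ht
  rcases ht with rfl | rfl | rfl | rfl | rfl | rfl | rfl | rfl | rfl | rfl | rfl | rfl <;>
    refine ⟨by
      simp only [dv, e0, e1, e2, e3, e4, e5, e6, e7]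
      linarith only [p1.1, p2.1, p3.1, p4.1, p5.1, p6.1, p1.2, p2.2, p3.2, p4.2, p5.2, p6.2],
      fun l a b c => ?_⟩ <;>
    rcases al8 l with rfl | rfl | rfl | rfl | rfl | rfl | rfl | rfl <;>
    first
      | exact absurd rfl a
      | exact absurd rfl b
      | exact absurd rfl c
      | (simp only [d4, dv, e0, e1, e2, e3, e4, e5, e6, e7]
         linarith only [p1.1, p2.1, p3.1, p4.1, p5.1, p6.1, p1.2, p2.2, p3.2, p4.2, p5.2, p6.2])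

theorem M4.ed (M : M4 s c S C) : ∀ e < 18, yy (XP s c S C (ED e).1) (XP s c S C (ED e).2) =
    yz (s ^ 2) ((1 - c * C) / 2) ((1 - s * S + c * C) / 2) ((1 + C ^ 2) / 2) e := by
  obtain ⟨e0, e1, e2, e3, e4, e5, e6, e7⟩ := XP_c s c S C
  intro e he
  interval_cases e <;>
    simp only [ED, yz, List.getD_cons_succ, List.getD_cons_zero, yy, dt, e0, e1, e2, e3, e4, e5, e6, e7] <;>
    linarith only [M.u]

theorem M4.int (M : M4 s c S C) : 0 ∈ interior (Hu (XP s c S C)) := by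
  refine mem_interior_iff_mem_nhds.2 (Filter.mem_of_superset (Metric.ball_mem_nhds 0 (by norm_num : (0 : ℝ) < 1 / 10))
    fun x hx => ?_)
  have b : ∀ i, -(1 / 10) ≤ x i ∧ x i ≤ 1 / 10 := fun i =>
    abs_le.1 ((PiLp.norm_apply_le x i).trans (mem_ball_zero_iff.1 hx).le)
  have f : ∀ i {a : ℝ}, 1 / 2 ≤ a → -(1 / 5) ≤ x i / a ∧ x i / a ≤ 1 / 5 := fun i a h => by
    rw [le_div_iff₀ (by linarith), div_le_iff₀ (by linarith)]
    constructor <;> linarith only [h, b i]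
  have p : 1 / 2 ≤ s := by linarith [M.s.1]
  have q : 1 / 2 ≤ c := by linarith [M.c.1]
  have := (Hu.cv (XP s c S C)).sum_mem (t := Finset.univ) (z := fun i : Fin 4 => XP s c S C (i.castAdd 4))
    (w := ![(1 + x 2 / c) / 4 + x 0 / s / 2, (1 + x 2 / c) / 4 - x 0 / s / 2, (1 - x 2 / c) / 4 + x 1 / s / 2,
      (1 - x 2 / c) / 4 - x 1 / s / 2])
    (by intro l _; fin_cases l <;> simp <;> linarith only [f 0 p, f 1 p, f 2 q]) (by simp [Fin.sum_univ_four]; ring)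
    (fun l _ => Hu.mem _ _)
  have p : s ≠ 0 := by linarith
  have q : c ≠ 0 := by linarith
  convert this using 1
  ext i
  fin_cases i <;> simp [Fin.sum_univ_four, XP] <;> field_simp <;> ring

theorem tri_det {a b x y : V} (h1 : yy a x = yy a y) (h2 : yy b x = yy b y) (ux : dt x x = 1) (uy : dt y y = 1)
    (o : 0 ≤ dv a b x) (p : 0 < dv a b y) : x = y := by
  have h1 : dt a x = dt a y := by unfold yy at h1; linarith
  have h2 : dt b x = dt b y := by unfold yy at h2; linarith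
  have g : ∀ z, dv a b z ^ 2 = dt z z * (dt a a * dt b b - dt a b ^ 2) - dt a a * dt b z ^ 2 - dt b b * dt a z ^ 2 +
    2 * dt a b * dt a z * dt b z := fun z => by unfold dv dt; ring
  have h3 : dv a b x = dv a b y := (pow_left_inj₀ o p.le two_ne_zero).1 (by rw [g, g, h1, h2, ux, uy])
  have n : dt (cr a b) (cr a b) ≠ 0 := fun h => by
    rw [dt_self, pow_eq_zero_iff two_ne_zero, norm_eq_zero] at h
    rw [← dt_cr, h] at p
    simp [dt] at p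
  have k : ∀ i, dt (cr a b) (cr a b) * (x i - y i) = (dv a b x - dv a b y) * cr a b i +
      (dt a x - dt a y) * cr b (cr a b) i + (dt b x - dt b y) * cr (cr a b) a i := fun i => by
    fin_cases i <;> simp [dt, dv, cr] <;> ring
  ext i
  have := k i
  rw [h1, h2, h3, sub_self, sub_self, sub_self, zero_mul, zero_mul, zero_mul, add_zero, add_zero] at this
  linarith [(mul_eq_zero.1 this).resolve_left n]

def Ori (X : Fin 8 → V) : Prop := ∀ t ∈ ty0, 0 ≤ dv (X t.1) (X t.2.1) (X t.2.2)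

theorem rigid0 (u : ∀ i, dt (X i) (X i) = 1) (v : ∀ i, dt (Y i) (Y i) = 1) (o : Ori X)
    (p : ∀ t ∈ ty0, 0 < dv (Y t.1) (Y t.2.1) (Y t.2.2))
    (H : ∀ e < 18, yy (X (ED e).1) (X (ED e).2) = yy (Y (ED e).1) (Y (ED e).2)) (h0 : X 0 = Y 0) (h1 : X 1 = Y 1) :
    X = Y := by
  have f : ∀ a b c, X a = Y a → X b = Y b → yy (X a) (X c) = yy (Y a) (Y c) → yy (X b) (X c) = yy (Y b) (Y c) →
      ((a, b, c) ∈ ty0 ∨ (b, c, a) ∈ ty0 ∨ (c, a, b) ∈ ty0) → X c = Y c := fun a b c e1 e2 e3 e4 h => by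
    rw [← e1] at e3
    rw [← e2] at e4
    refine tri_det e3 e4 (u c) (v c) ?_ ?_
    · rcases h with h | h | h
      exacts [o _ h, dv_rot (X a) _ _ ▸ o _ h, dv_rot (X c) _ _ ▸ o _ h]
    · rw [e1, e2]
      rcases h with h | h | h
      exacts [p _ h, dv_rot (Y a) _ _ ▸ p _ h, dv_rot (Y c) _ _ ▸ p _ h]
  have g : ∀ {a b}, yy (X a) (X b) = yy (Y a) (Y b) → yy (X b) (X a) = yy (Y b) (Y a) := fun h => by
    rw [yy_comm, h, yy_comm]
  have h5 := f 1 0 5 h1 h0 (H 7 (by norm_num)) (H 2 (by norm_num)) (by decide)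
  have h7 := f 0 1 7 h0 h1 (H 6 (by norm_num)) (H 3 (by norm_num)) (by decide)
  have h4 := f 0 7 4 h0 h7 (H 10 (by norm_num)) (g (H 17 (by norm_num))) (by decide)
  have h6 := f 1 5 6 h1 h5 (H 11 (by norm_num)) (H 16 (by norm_num)) (by decide)
  have h3 := f 4 7 3 h4 h7 (g (H 9 (by norm_num))) (g (H 13 (by norm_num))) (by decide)
  have h2 := f 3 6 2 h3 h6 (g (H 1 (by norm_num))) (g (H 8 (by norm_num))) (by decide)
  funext i
  rcases al8 i with rfl | rfl | rfl | rfl | rfl | rfl | rfl | rfl <;> assumption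

theorem frame {a b : V} (u0 : dt a a = 1) (u5 : dt b b = 1) (o : dt b a = 0) :
    ∃ T : V ≃ₗᵢ[ℝ] V, (∀ x y, dt (T x) (T y) = dt x y) ∧ (∀ x y z, dv (T x) (T y) (T z) = dv x y z) ∧
      ∀ x z : ℝ, T !₂[x, 0, z] = x • a + z • b := by
  set w := cr b a with hw
  have w0 : dt w a = 0 := by rw [hw, dt_cr, dv_abb]
  have w5 : dt w b = 0 := by rw [hw, dt_cr, dv_aba]
  have ww : dt w w = 1 := by
    have : dt w w = dt b b * dt a a - dt b a ^ 2 := by simp [hw, dt, cr]; ring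
    rw [this, u0, u5, o]; ring
  let A : V →ₗ[ℝ] V :=
    { toFun := fun x => x 0 • a + x 1 • w + x 2 • b
      map_add' := fun x y => by simp only [PiLp.add_apply, add_smul]; abel
      map_smul' := fun t x => by simp only [PiLp.smul_apply, smul_eq_mul, mul_smul, smul_add, RingHom.id_apply] }
  have hA : ∀ x y, dt (A x) (A y) = dt x y := fun x y => by
    have : dt (A x) (A y) = x 0 * y 0 * dt a a + x 1 * y 1 * dt w w + x 2 * y 2 * dt b b +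
        (x 0 * y 1 + x 1 * y 0) * dt w a + (x 0 * y 2 + x 2 * y 0) * dt b a +
        (x 1 * y 2 + x 2 * y 1) * dt w b := by simp [A, dt]; ring
    rw [this, u0, u5, ww, w0, w5, o]; unfold dt; ring
  have hD : ∀ x y z, dv (A x) (A y) (A z) = dv x y z := fun x y z => by
    have : dv (A x) (A y) (A z) = dv x y z * dv b a w := by simp [A, dv]; ring
    rw [this, ← dt_cr b, ← hw, ww, mul_one]
  exact ⟨(A.isometryOfInner fun x y => by rw [inner_dt, inner_dt, hA]).toLinearIsometryEquiv rfl, hA, hD,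
    fun x z => show A _ = _ by simp [A]⟩

theorem M4.rigid (M : M4 s c S C) (u : ∀ i, dt (X i) (X i) = 1) (o : Ori X)
    (H : ∀ e < 18, yy (X (ED e).1) (X (ED e).2) = yy (XP s c S C (ED e).1) (XP s c S C (ED e).2)) :
    ∃ T : V ≃ₗᵢ[ℝ] V, X = T ∘ XP s c S C := by
  have p : s ≠ 0 := by linarith [M.s.1]
  have q : c ≠ 0 := by linarith [M.c.1]
  have h : dt (X 0) (X 1) = 1 - 2 * s ^ 2 := by
    have : (1 - dt (X 0) (X 1)) / 2 = s ^ 2 := (H 0 (by norm_num)).trans (M.ed 0 (by norm_num))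
    linarith
  have u0 := u 0
  have u1 := u 1
  have := M.u
  unfold dt at h u0 u1
  obtain ⟨T, t1, t2, t3⟩ := frame (a := (2 * s)⁻¹ • (X 0 - X 1)) (b := (2 * c)⁻¹ • (X 0 + X 1))
    (by simp only [dt, PiLp.smul_apply, PiLp.sub_apply, smul_eq_mul]; field_simp; linarith)
    (by simp only [dt, PiLp.smul_apply, PiLp.add_apply, smul_eq_mul]; field_simp; linarith)
    (by simp only [dt, PiLp.smul_apply, PiLp.add_apply, PiLp.sub_apply, smul_eq_mul]; field_simp; linarith)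
  refine ⟨T, rigid0 u (fun i => (t1 _ _).trans (M.un i)) o (fun t ht => (t2 _ _ _).symm ▸ (M.fc t ht).1)
    (fun e he => (H e he).trans (by simp only [yy, Function.comp, t1])) ?_ ?_⟩ <;>
  · refine Eq.trans ?_ (t3 _ _).symm
    ext i
    simp only [PiLp.smul_apply, PiLp.add_apply, PiLp.sub_apply, smul_eq_mul]
    field_simp
    ring

theorem sq_ap {x k r : ℝ} (hk : 0 < k) (hx : 0 ≤ x) (h : |x - k ^ 2| ≤ r * k) : |√x - k| ≤ r := by
  have e : x - k ^ 2 = (√x - k) * (√x + k) := by linarith [sq_sqrt hx]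
  rw [e, abs_mul, abs_of_pos (by positivity : 0 < √x + k)] at h
  have := mul_nonneg (abs_nonneg (√x - k)) (sqrt_nonneg x)
  exact le_of_mul_le_mul_right (by linarith) hk

def U0 : ℝ := 455642882560652457075042204491 / 2 ^ 100
def V0 : ℝ := 684101098492954209291174150905 / 2 ^ 100
def lf (u v : ℝ) : ℝ := (1 - √(1 - u) * √(2 * v - 1)) / 2
def mf (u v : ℝ) : ℝ := (1 - √u * √(2 - 2 * v) + √(1 - u) * √(2 * v - 1)) / 2
def XQ (u v : ℝ) : Fin 8 → V := XP √u √(1 - u) √(2 - 2 * v) √(2 * v - 1)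
def yv (u v : ℝ) : ℕ → ℝ := yz u (lf u v) (mf u v) v
def Fv (u v : ℝ) : ℝ := 4 * √(Uf u (lf u v) (lf u v)) + 8 * √(Uf (lf u v) (mf u v) v)

variable {u v ρ : ℝ}

theorem near (h1 : 1 / 2 ^ 107 ≤ ρ) (h2 : ρ ≤ 1 / 2 ^ 64) (hu : |u - U0| ≤ ρ) (hv : |v - V0| ≤ ρ) :
    (M4 √u √(1 - u) √(2 - 2 * v) √(2 * v - 1) ∧ √u ^ 2 = u ∧ (1 + √(2 * v - 1) ^ 2) / 2 = v) ∧
    |u * 2 ^ 112 - vz fz0.y1| ≤ ρ * 2 ^ 115 ∧ |lf u v * 2 ^ 112 - vz fz0.y2| ≤ ρ * 2 ^ 115 ∧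
    |mf u v * 2 ^ 112 - vz fz1.y2| ≤ ρ * 2 ^ 115 ∧ |v * 2 ^ 112 - vz fz1.y3| ≤ ρ * 2 ^ 115 ∧
    u + lf u v + lf u v ≤ 3 / 2 ∧ lf u v + mf u v + v ≤ 3 / 2 := by
  simp only [U0, V0, abs_le] at hu hv
  have u0 : 0 ≤ u := by linarith
  have u1 : 0 ≤ 1 - u := by linarith
  have v0 : 0 ≤ 2 - 2 * v := by linarith
  have v1 : 0 ≤ 2 * v - 1 := by linarith
  have a := sq_ap (k := 3112949149805715312901462912099790 / 2 ^ 112) (r := 2 * ρ) (by norm_num) u0 (abs_le.2 ⟨by linarith, by linarith⟩)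
  have b := sq_ap (k := 4155658101657848608262987338576289 / 2 ^ 112) (r := 2 * ρ) (by norm_num) u1 (abs_le.2 ⟨by linarith, by linarith⟩)
  have c := sq_ap (k := 4982113076622379934224087253940032 / 2 ^ 112) (r := 3 * ρ) (by norm_num) v0 (abs_le.2 ⟨by linarith, by linarith⟩)
  have d := sq_ap (k := 1462359722810678207583581512307538 / 2 ^ 112) (r := 8 * ρ) (by norm_num) v1 (abs_le.2 ⟨by linarith, by linarith⟩)
  have a' := abs_le.1 a; have b' := abs_le.1 b; have c' := abs_le.1 c; have d' := abs_le.1 d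
  have e := abs_le.1 (prod_bd (a := √u) (A := 1) (abs_le.2 ⟨by linarith, by linarith⟩) c)
  have f := abs_le.1 (prod_bd (a := √(1 - u)) (A := 1) (abs_le.2 ⟨by linarith, by linarith⟩) d)
  refine ⟨⟨⟨by rw [sq_sqrt u0, sq_sqrt u1]; ring, by rw [sq_sqrt v0, sq_sqrt v1]; ring, ⟨by linarith, by linarith⟩,
    ⟨by linarith, by linarith⟩, ⟨by linarith, by linarith⟩, ⟨by linarith, by linarith⟩⟩, sq_sqrt u0,
    by rw [sq_sqrt v1]; ring⟩, ?_⟩
  simp only [fz0, fz1, vz, abs_le, Nat.cast_ofNat, lf, mf]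
  refine ⟨⟨?_, ?_⟩, ⟨?_, ?_⟩, ⟨?_, ?_⟩, ⟨?_, ?_⟩, ?_, ?_⟩ <;>
    linarith only [h1, h2, hu.1, hu.2, hv.1, hv.2, a'.1, a'.2, b'.1, b'.2, e.1, e.2, f.1, f.2]

theorem Fv_eq (u v : ℝ) : ary (yv u v) = Fv u v := by
  simp only [ary, yv, yz, Fv, List.getD_cons_succ, List.getD_cons_zero]; ring

def P0 (u v : ℝ) : Prop := |u - U0| ≤ 1 / 2 ^ 64 ∧ |v - V0| ≤ 1 / 2 ^ 64

theorem P0.m (h : P0 u v) : M4 √u √(1 - u) √(2 - 2 * v) √(2 * v - 1) := (near (by norm_num) le_rfl h.1 h.2).1.1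

theorem P0.ed (h : P0 u v) : ∀ e < 18, yy (XQ u v (ED e).1) (XQ u v (ED e).2) = yv u v e := by
  have := h.m.ed
  rwa [(near (by norm_num) le_rfl h.1 h.2).1.2.1, (near (by norm_num) le_rfl h.1 h.2).1.2.2] at this

theorem P0.cfg (h : P0 u v) : Cfg (yv u v) ∧ sar (XQ u v) ty0 = Fv u v :=
  Fv_eq u v ▸ cfg_of h.m.un h.m.fc h.ed

def Ph (y : ℕ → ℝ) (u v : ℝ) : ℝ := ∑ e ∈ Finset.range 18, (y e - yv u v e) ^ 2

theorem finP {r e : ℕ} (h1 : 1 / 2 ^ 107 ≤ ρ) (h2 : ρ ≤ 1 / 2 ^ 64) (hu : |u - U0| ≤ ρ) (hv : |v - V0| ≤ ρ)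
    (hr : ρ * 2 ^ 115 = r) (k : r ≤ 2 ^ 51 ∧ 1 ≤ e ∧ e ≤ 2 ^ 52) (e0 : enc fz0 r e D00 D01 D02 D03 = true)
    (e1 : enc fz1 r e D10 D11 D12 D13 = true) : (8.1222355021 < Fv u v ∧ Fv u v < 8.1222355022) ∧
    ∃ ν1 ν2, |ν1| * 2 ^ 100 ≤ 256 * (e : ℝ) ∧ |ν2| * 2 ^ 100 ≤ 256 * (e : ℝ) ∧
      ∀ y, Cfg y → 34884712220 < ary y * 2 ^ 32 → ary y ≤ Fv u v +
        ν1 * (y 0 + y 1 - 2 * u) + ν2 * (y 14 + y 15 + y 16 + y 17 - 4 * v) - Ph y u v / 1024 := by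
  obtain ⟨-, n1, n2, n3, n4, s0, s1⟩ := near h1 h2 hu hv
  rw [hr] at n1 n2 n3 n4
  have E0 := enc_s (by decide +kernel) (by decide +kernel) n1 n2 n2 s0 e0
  have E1 := enc_s (p := fz1) (by decide +kernel) (by decide +kernel) n2 n3 n4 s1 e1
  refine ⟨?_, fin E0 E1 (by exact_mod_cast k.2.1) (by exact_mod_cast k.2.2) (Nr.up n1 k.1) (Nr.up n2 k.1)
    (Nr.up n3 k.1) (Nr.up n4 k.1) (P0.cfg ⟨hu.trans h2, hv.trans h2⟩).1⟩
  have a := E0.t0
  have b := E1.t0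
  simp only [Nr, fz0, fz1, vz, abs_le, Nat.cast_ofNat] at a b
  unfold Fv
  constructor <;> linarith only [a.1, a.2, b.1, b.2]

theorem P0.fin (h : P0 u v) : (8.1222355021 < Fv u v ∧ Fv u v < 8.1222355022) ∧ ∃ ν1 ν2,
    ∀ y, Cfg y → 34884712220 < ary y * 2 ^ 32 → ary y ≤ Fv u v +
      ν1 * (y 0 + y 1 - 2 * u) + ν2 * (y 14 + y 15 + y 16 + y 17 - 4 * v) - Ph y u v / 1024 := by
  obtain ⟨a, ν1, ν2, -, -, b⟩ := finP (by norm_num) le_rfl h.1 h.2 (by norm_num) (by norm_num) en0 en1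
  exact ⟨a, ν1, ν2, b⟩

theorem P0_0 : P0 U0 V0 := by simp [P0]

def pu (y : ℕ → ℝ) : ℝ := (y 0 + y 1) / 2
def pv (y : ℕ → ℝ) : ℝ := (y 14 + y 15 + y 16 + y 17) / 4

theorem loc {y : ℕ → ℝ} (C : Cfg y) : ary y ≤ Fv U0 V0 - 1 / 2 ^ 141 ∨
    P0 (pu y) (pv y) ∧ ary y ≤ Fv (pu y) (pv y) - Ph y (pu y) (pv y) / 1024 := by
  refine (le_or_gt _ _).imp_right fun h => ?_
  obtain ⟨⟨a, -⟩, ν1, ν2, b1, b2, b⟩ := finP (u := U0) (v := V0) le_rfl (by norm_num) (by simp) (by simp) (by norm_num)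
    (by norm_num) ep0 ep1
  have g : 34884712220 < ary y * 2 ^ 32 := by linarith
  have b := b y C g
  have f : ∀ {ν : ℝ} (d : ℝ), |ν| * 2 ^ 100 ≤ 256 * ((2 ^ 12 : ℕ) : ℝ) → ν * d ≤ d ^ 2 / 4096 + 1 / 2 ^ 150 := fun {ν} d h => by
    have : |ν| ≤ 1 / 2 ^ 80 := by push_cast at h; linarith
    linarith [sq_nonneg (d / 64 - 32 * ν), (abs_le.1 (prod_bd this this)).2]
  have p : P0 (pu y) (pv y) := by
    simp only [Ph, Finset.sum_range_succ, Finset.range_zero, Finset.sum_empty, yv, yz, List.getD_cons_succ,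
      List.getD_cons_zero] at b
    have q : ∀ d : ℝ, d ^ 2 ≤ (1 / 2 ^ 64) ^ 2 → -(1 / 2 ^ 64) ≤ d ∧ d ≤ 1 / 2 ^ 64 := fun d h =>
      abs_le_of_sq_le_sq' h (by norm_num)
    have : (y 0 - U0) ^ 2 + (y 1 - U0) ^ 2 + (y 14 - V0) ^ 2 + (y 15 - V0) ^ 2 + (y 16 - V0) ^ 2 + (y 17 - V0) ^ 2 ≤
        (1 / 2 ^ 64) ^ 2 := by
      linarith [f (y 0 - U0) b1, f (y 1 - U0) b1, f (y 14 - V0) b2, f (y 15 - V0) b2, f (y 16 - V0) b2,
        f (y 17 - V0) b2, sq_nonneg (y 2 - lf U0 V0), sq_nonneg (y 3 - lf U0 V0),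
        sq_nonneg (y 4 - lf U0 V0), sq_nonneg (y 5 - lf U0 V0), sq_nonneg (y 6 - lf U0 V0),
        sq_nonneg (y 7 - lf U0 V0), sq_nonneg (y 8 - lf U0 V0), sq_nonneg (y 9 - lf U0 V0),
        sq_nonneg (y 10 - mf U0 V0), sq_nonneg (y 11 - mf U0 V0), sq_nonneg (y 12 - mf U0 V0),
        sq_nonneg (y 13 - mf U0 V0), sq_nonneg (y 0 - U0), sq_nonneg (y 1 - U0),
        sq_nonneg (y 14 - V0), sq_nonneg (y 15 - V0), sq_nonneg (y 16 - V0), sq_nonneg (y 17 - V0)]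
    have := sq_nonneg (y 0 - U0); have := sq_nonneg (y 1 - U0); have := sq_nonneg (y 14 - V0)
    have := sq_nonneg (y 15 - V0); have := sq_nonneg (y 16 - V0); have := sq_nonneg (y 17 - V0)
    have := q (y 0 - U0) (by linarith); have := q (y 1 - U0) (by linarith); have := q (y 14 - V0) (by linarith)
    have := q (y 15 - V0) (by linarith); have := q (y 16 - V0) (by linarith); have := q (y 17 - V0) (by linarith)
    unfold P0 pu pv
    exact ⟨abs_le.2 ⟨by linarith, by linarith⟩, abs_le.2 ⟨by linarith, by linarith⟩⟩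
  obtain ⟨-, ν1, ν2, b⟩ := p.fin
  have := b y C g
  rw [show y 0 + y 1 - 2 * pu y = 0 by unfold pu; ring, show y 14 + y 15 + y 16 + y 17 - 4 * pv y = 0 by unfold pv; ring]
    at this
  exact ⟨p, by linarith⟩

end Pool.Agent.Work.MP_c2ab8b_gt.K8
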