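import Pool.Agent.Work.MP_c2ab8b_gt.K8.SpS

/- Kernel evaluation of matrix certificates. -/

noncomputable section
namespace Pool.Agent.Work.MP_c2ab8b_gt.K8

theorem c1b_l : lmi c1b.E 55 c1b.ex = true := by decide +kernel

theorem c2b_l : lmi c2b.E 55 c2b.ex = true := by decide +kernel

theorem fz_l : lmi EF 54 [(0, 0)] = true := by decide +kernel

end Pool.Agent.Work.MP_c2ab8b_gt.K8
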