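import Pool.Agent.Work.MP_c2ab8b_gt.K8.Cfg
import Pool.Agent.Work.MP_c2ab8b_gt.K8.Lmi

/- Summation of the second order face inequalities. -/

noncomputable section
namespace Pool.Agent.Work.MP_c2ab8b_gt.K8
open Real
set_option exponentiation.threshold 2000

def KV : List (List (ℕ × ℤ)) :=
  [[(0, 1), (2, -1), (3, 1), (4, -1), (12, 1), (14, -1), (24, 1), (26, -1)],
   [(0, 1), (1, -1), (3, 1), (5, -1), (15, 1), (17, -1), (27, 1), (29, -1)],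
   [(6, 1), (7, -1), (9, 1), (11, -1), (18, 1), (20, -1), (30, 1), (32, -1)],
   [(6, 1), (8, -1), (9, 1), (10, -1), (21, 1), (23, -1), (33, 1), (35, -1)],
   [(10, 1), (11, 1), (13, 1), (14, 1), (18, 1), (19, -1), (25, 1), (26, 1), (33, 1), (34, -1)],
   [(1, 1), (2, 1), (12, 1), (13, -1), (19, 1), (20, 1), (27, 1), (28, -1), (31, 1), (32, 1)],
   [(7, 1), (8, 1), (16, 1), (17, 1), (21, 1), (22, -1), (28, 1), (29, 1), (30, 1), (31, -1)],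
   [(4, 1), (5, 1), (15, 1), (16, -1), (22, 1), (23, 1), (24, 1), (25, -1), (34, 1), (35, 1)]]

structure Rk (r0 r1 r2 : RP) : Prop where
  y1 : r1.y1 = r0.y2
  y2 : r2.y1 = r0.y3
  y3 : r2.y2 = r1.y2
  k4 : 2 * r0.a1 - r0.a2 - r0.a3 + r1.a1 - r1.a3 + r2.a1 - r2.a3 = 0
  k5 : π + r0.a2 + r0.a3 + r1.a1 + r1.a3 + r2.a1 + r2.a3 = 0

def Op (u v u' v' : ℕ) : Prop := u + u' = (nat_lit 57896044618658097711785492504343953926634992332820282019728792003956564819968) ∧ v + v' = (nat_lit 57896044618658097711785492504343953926634992332820282019728792003956564819968)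
instance (u v u' v' : ℕ) : Decidable (Op u v u' v') := inferInstanceAs (Decidable (_ ∧ _))

structure Pk (p0 p1 p2 : Par) : Prop where
  o0 : Op p0.u1 p0.v1 p0.u1 p0.v1
  o1 : Op p0.u2 p0.v2 p1.u1 p1.v1
  o2 : Op p0.u3 p0.v3 p2.u1 p2.v1
  o3 : Op p1.u2 p1.v2 p2.u2 p2.v2
  o4 : Op p1.u3 p1.v3 p1.u3 p1.v3
  o5 : Op p2.u3 p2.v3 p2.u3 p2.v3
  k0 : p0.kk = []
  k1 : ∀ e ∈ p1.kk, e.1 ≤ (nat_lit 28948022309329048855892746252171976963317496166410141009864396001978282409984)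
  k2 : ∀ e ∈ p2.kk, e.1 ≤ (nat_lit 28948022309329048855892746252171976963317496166410141009864396001978282409984)

theorem pt_add {u v u' v' : ℕ} (h : Op u v u' v') (d : ℝ) : pt u v d + pt u' v' d = 0 := by
  have a : (u : ℝ) + u' = 2 ^ 255 := by exact_mod_cast h.1
  have b : (v : ℝ) + v' = 2 ^ 255 := by exact_mod_cast h.2
  unfold pt w vz
  linear_combination d ^ 3 / 2 ^ 112 * a + d ^ 4 / 2 ^ 112 * b

theorem kap_np {l : List (ℕ × ℕ)} (h : ∀ e ∈ l, e.1 ≤ (nat_lit 28948022309329048855892746252171976963317496166410141009864396001978282409984)) (y : ℝ) : kap l y ≤ 0 := by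
  induction l with
  | nil => exact le_rfl
  | cons e l ih =>
    have a : (e.1 : ℝ) ≤ 2 ^ 254 := by rw [← cB]; exact Nat.cast_le.2 (h e (by simp))
    have b : w e.1 ≤ 0 := by unfold w vz; linarith
    have := mul_nonpos_of_nonpos_of_nonneg b (pow_nonneg (le_max_right (w e.2 + y) 0) 3)
    have := ih fun e he => h e (by simp [he])
    simp only [kap, List.map_cons, List.sum_cons] at *
    linarith

def GA (p : Par) (r : RP) (a b c : ℝ) : Prop :=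
  0 ≤ p.G r (a - r.y1) (b - r.y2) (c - r.y3) c (√(Uf a b c)) (Ef a b c) (A2f a b c) (A3f a b c)

structure GG (p0 p1 p2 : Par) (r0 r1 r2 : RP) (y : ℕ → ℝ) : Prop where
  g0 : GA p0 r0 (y 0) (y 2) (y 7)
  g1 : GA p0 r0 (y 0) (y 3) (y 6)
  g2 : GA p0 r0 (y 1) (y 5) (y 8)
  g3 : GA p0 r0 (y 1) (y 4) (y 9)
  g4 : GA p1 r1 (y 2) (y 10) (y 14)
  g5 : GA p1 r1 (y 3) (y 11) (y 15)
  g6 : GA p1 r1 (y 4) (y 12) (y 14)
  g7 : GA p1 r1 (y 5) (y 13) (y 15)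
  g8 : GA p2 r2 (y 6) (y 10) (y 17)
  g9 : GA p2 r2 (y 7) (y 11) (y 16)
  g10 : GA p2 r2 (y 8) (y 12) (y 16)
  g11 : GA p2 r2 (y 9) (y 13) (y 17)

def totL (r0 r1 r2 : RP) (x : ℕ → ℝ) : ℝ :=
  r0.lin (x 36) (x 38) (x 43) (x 0) (x 1) (x 2) +
  r0.lin (x 36) (x 39) (x 42) (x 3) (x 4) (x 5) +
  r0.lin (x 37) (x 41) (x 44) (x 6) (x 7) (x 8) +
  r0.lin (x 37) (x 40) (x 45) (x 9) (x 10) (x 11) +
  r1.lin (x 38) (x 46) (x 50) (x 12) (x 13) (x 14) +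
  r1.lin (x 39) (x 47) (x 51) (x 15) (x 16) (x 17) +
  r1.lin (x 40) (x 48) (x 50) (x 18) (x 19) (x 20) +
  r1.lin (x 41) (x 49) (x 51) (x 21) (x 22) (x 23) +
  r2.lin (x 42) (x 46) (x 53) (x 24) (x 25) (x 26) +
  r2.lin (x 43) (x 47) (x 52) (x 27) (x 28) (x 29) +
  r2.lin (x 44) (x 48) (x 52) (x 30) (x 31) (x 32) +
  r2.lin (x 45) (x 49) (x 53) (x 33) (x 34) (x 35)

def totQ (p0 p1 p2 : Par) (x : ℕ → ℝ) : ℝ :=
  p0.qf (x 36) (x 38) (x 43) (x 0) (x 1) (x 2) +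
  p0.qf (x 36) (x 39) (x 42) (x 3) (x 4) (x 5) +
  p0.qf (x 37) (x 41) (x 44) (x 6) (x 7) (x 8) +
  p0.qf (x 37) (x 40) (x 45) (x 9) (x 10) (x 11) +
  p1.qf (x 38) (x 46) (x 50) (x 12) (x 13) (x 14) +
  p1.qf (x 39) (x 47) (x 51) (x 15) (x 16) (x 17) +
  p1.qf (x 40) (x 48) (x 50) (x 18) (x 19) (x 20) +
  p1.qf (x 41) (x 49) (x 51) (x 21) (x 22) (x 23) +
  p2.qf (x 42) (x 46) (x 53) (x 24) (x 25) (x 26) +
  p2.qf (x 43) (x 47) (x 52) (x 27) (x 28) (x 29) +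
  p2.qf (x 44) (x 48) (x 52) (x 30) (x 31) (x 32) +
  p2.qf (x 45) (x 49) (x 53) (x 33) (x 34) (x 35)

def yh (r0 r1 r2 : RP) (e : ℕ) : ℝ := [r0.y1, r0.y1, r0.y2, r0.y2, r0.y2, r0.y2, r0.y3, r0.y3, r0.y3, r0.y3, r1.y2, r1.y2, r1.y2, r1.y2, r1.y3, r1.y3, r2.y3, r2.y3].getD e 0

def xv (y : ℕ → ℝ) (r0 r1 r2 : RP) (i : ℕ) : ℝ :=
  [Ef (y 0) (y 2) (y 7) + r0.a1,
   A2f (y 0) (y 2) (y 7) + r0.a2,
   A3f (y 0) (y 2) (y 7) + r0.a3,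
   Ef (y 0) (y 3) (y 6) + r0.a1,
   A2f (y 0) (y 3) (y 6) + r0.a2,
   A3f (y 0) (y 3) (y 6) + r0.a3,
   Ef (y 1) (y 5) (y 8) + r0.a1,
   A2f (y 1) (y 5) (y 8) + r0.a2,
   A3f (y 1) (y 5) (y 8) + r0.a3,
   Ef (y 1) (y 4) (y 9) + r0.a1,
   A2f (y 1) (y 4) (y 9) + r0.a2,
   A3f (y 1) (y 4) (y 9) + r0.a3,
   Ef (y 2) (y 10) (y 14) + r1.a1,
   A2f (y 2) (y 10) (y 14) + r1.a2,
   A3f (y 2) (y 10) (y 14) + r1.a3,
   Ef (y 3) (y 11) (y 15) + r1.a1,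
   A2f (y 3) (y 11) (y 15) + r1.a2,
   A3f (y 3) (y 11) (y 15) + r1.a3,
   Ef (y 4) (y 12) (y 14) + r1.a1,
   A2f (y 4) (y 12) (y 14) + r1.a2,
   A3f (y 4) (y 12) (y 14) + r1.a3,
   Ef (y 5) (y 13) (y 15) + r1.a1,
   A2f (y 5) (y 13) (y 15) + r1.a2,
   A3f (y 5) (y 13) (y 15) + r1.a3,
   Ef (y 6) (y 10) (y 17) + r2.a1,
   A2f (y 6) (y 10) (y 17) + r2.a2,
   A3f (y 6) (y 10) (y 17) + r2.a3,
   Ef (y 7) (y 11) (y 16) + r2.a1,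
   A2f (y 7) (y 11) (y 16) + r2.a2,
   A3f (y 7) (y 11) (y 16) + r2.a3,
   Ef (y 8) (y 12) (y 16) + r2.a1,
   A2f (y 8) (y 12) (y 16) + r2.a2,
   A3f (y 8) (y 12) (y 16) + r2.a3,
   Ef (y 9) (y 13) (y 17) + r2.a1,
   A2f (y 9) (y 13) (y 17) + r2.a2,
   A3f (y 9) (y 13) (y 17) + r2.a3,
   y 0 - r0.y1,
   y 1 - r0.y1,
   y 2 - r0.y2,
   y 3 - r0.y2,
   y 4 - r0.y2,
   y 5 - r0.y2,
   y 6 - r0.y3,
   y 7 - r0.y3,
   y 8 - r0.y3,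
   y 9 - r0.y3,
   y 10 - r1.y2,
   y 11 - r1.y2,
   y 12 - r1.y2,
   y 13 - r1.y2,
   y 14 - r1.y3,
   y 15 - r1.y3,
   y 16 - r2.y3,
   y 17 - r2.y3,
   1].getD i 0

variable {y x : ℕ → ℝ} {p0 p1 p2 : Par} {r0 r1 r2 : RP}

theorem core (C : Cfg y) (Z : Z0 y) (R : Rk r0 r1 r2) (P : Pk p0 p1 p2) (G : GG p0 p1 p2 r0 r1 r2 y) :
    ∃ x : ℕ → ℝ, x 54 = 1 ∧ (∀ e < 18, x (36 + e) = y e - yh r0 r1 r2 e) ∧ (∀ k ∈ KV, li x k = 0) ∧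
      (2 * r1.a3 ≤ x 14 + x 20 ∧ 2 * r1.a3 ≤ x 17 + x 23 ∧ 2 * r2.a3 ≤ x 29 + x 32 ∧ 2 * r2.a3 ≤ x 26 + x 35) ∧
      ary y ≤ totL r0 r1 r2 x + totQ p0 p1 p2 x := by
  obtain ⟨x, ⟨x0, x1, x2, x3, x4, x5, x6, x7, x8, x9, x10, x11, x12, x13, x14, x15, x16, x17, x18, x19, x20, x21, x22, x23, x24, x25, x26, x27, x28, x29, x30, x31, x32, x33, x34, x35, x36, x37, x38, x39, x40, x41, x42, x43, x44, x45, x46, x47, x48, x49, x50, x51, x52, x53, x54⟩⟩ : ∃ x : ℕ → ℝ,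
      x 0 = Ef (y 0) (y 2) (y 7) + r0.a1 ∧
      x 1 = A2f (y 0) (y 2) (y 7) + r0.a2 ∧
      x 2 = A3f (y 0) (y 2) (y 7) + r0.a3 ∧
      x 3 = Ef (y 0) (y 3) (y 6) + r0.a1 ∧
      x 4 = A2f (y 0) (y 3) (y 6) + r0.a2 ∧
      x 5 = A3f (y 0) (y 3) (y 6) + r0.a3 ∧
      x 6 = Ef (y 1) (y 5) (y 8) + r0.a1 ∧
      x 7 = A2f (y 1) (y 5) (y 8) + r0.a2 ∧
      x 8 = A3f (y 1) (y 5) (y 8) + r0.a3 ∧
      x 9 = Ef (y 1) (y 4) (y 9) + r0.a1 ∧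
      x 10 = A2f (y 1) (y 4) (y 9) + r0.a2 ∧
      x 11 = A3f (y 1) (y 4) (y 9) + r0.a3 ∧
      x 12 = Ef (y 2) (y 10) (y 14) + r1.a1 ∧
      x 13 = A2f (y 2) (y 10) (y 14) + r1.a2 ∧
      x 14 = A3f (y 2) (y 10) (y 14) + r1.a3 ∧
      x 15 = Ef (y 3) (y 11) (y 15) + r1.a1 ∧
      x 16 = A2f (y 3) (y 11) (y 15) + r1.a2 ∧
      x 17 = A3f (y 3) (y 11) (y 15) + r1.a3 ∧
      x 18 = Ef (y 4) (y 12) (y 14) + r1.a1 ∧
      x 19 = A2f (y 4) (y 12) (y 14) + r1.a2 ∧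
      x 20 = A3f (y 4) (y 12) (y 14) + r1.a3 ∧
      x 21 = Ef (y 5) (y 13) (y 15) + r1.a1 ∧
      x 22 = A2f (y 5) (y 13) (y 15) + r1.a2 ∧
      x 23 = A3f (y 5) (y 13) (y 15) + r1.a3 ∧
      x 24 = Ef (y 6) (y 10) (y 17) + r2.a1 ∧
      x 25 = A2f (y 6) (y 10) (y 17) + r2.a2 ∧
      x 26 = A3f (y 6) (y 10) (y 17) + r2.a3 ∧
      x 27 = Ef (y 7) (y 11) (y 16) + r2.a1 ∧
      x 28 = A2f (y 7) (y 11) (y 16) + r2.a2 ∧
      x 29 = A3f (y 7) (y 11) (y 16) + r2.a3 ∧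
      x 30 = Ef (y 8) (y 12) (y 16) + r2.a1 ∧
      x 31 = A2f (y 8) (y 12) (y 16) + r2.a2 ∧
      x 32 = A3f (y 8) (y 12) (y 16) + r2.a3 ∧
      x 33 = Ef (y 9) (y 13) (y 17) + r2.a1 ∧
      x 34 = A2f (y 9) (y 13) (y 17) + r2.a2 ∧
      x 35 = A3f (y 9) (y 13) (y 17) + r2.a3 ∧
      x 36 = y 0 - r0.y1 ∧
      x 37 = y 1 - r0.y1 ∧
      x 38 = y 2 - r0.y2 ∧
      x 39 = y 3 - r0.y2 ∧
      x 40 = y 4 - r0.y2 ∧
      x 41 = y 5 - r0.y2 ∧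
      x 42 = y 6 - r0.y3 ∧
      x 43 = y 7 - r0.y3 ∧
      x 44 = y 8 - r0.y3 ∧
      x 45 = y 9 - r0.y3 ∧
      x 46 = y 10 - r1.y2 ∧
      x 47 = y 11 - r1.y2 ∧
      x 48 = y 12 - r1.y2 ∧
      x 49 = y 13 - r1.y2 ∧
      x 50 = y 14 - r1.y3 ∧
      x 51 = y 15 - r1.y3 ∧
      x 52 = y 16 - r2.y3 ∧
      x 53 = y 17 - r2.y3 ∧
      x 54 = 1 := ⟨xv y r0 r1 r2, ⟨rfl, rfl, rfl, rfl, rfl, rfl, rfl, rfl, rfl, rfl, rfl, rfl, rfl, rfl, rfl, rfl, rfl, rfl, rfl, rfl, rfl, rfl, rfl, rfl, rfl, rfl, rfl, rfl, rfl, rfl, rfl, rfl, rfl, rfl, rfl, rfl, rfl, rfl, rfl, rfl, rfl, rfl, rfl, rfl, rfl, rfl, rfl, rfl, rfl, rfl, rfl, rfl, rfl, rfl, rfl⟩⟩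
  have a0 := C.t0.sum Z.f0.2
  have a1 := C.t1.sum Z.f1.2
  have a2 := C.t2.sum Z.f2.2
  have a3 := C.t3.sum Z.f3.2
  have a4 := C.t4.sum Z.f4.2.2
  have a5 := C.t5.sum Z.f5.2.2
  have a6 := C.t6.sum Z.f6.2.2
  have a7 := C.t7.sum Z.f7.2.2
  have a8 := C.t8.sum Z.f8.2.2
  have a9 := C.t9.sum Z.f9.2.2
  have a10 := C.t10.sum Z.f10.2.2
  have a11 := C.t11.sum Z.f11.2.2
  refine ⟨x, x54, fun e he => ?_, ?_, ⟨by linarith only [C.d14, x14, x20], by linarith only [C.d15, x17, x23],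
    by linarith only [C.d16, x29, x32], by linarith only [C.d17, x26, x35]⟩, ?_⟩
  · interval_cases e
    exacts [x36, x37, x38, x39, x40, x41, x42, x43, x44, x45, x46, x47, x48, x49, x50, x51, x52, x53]
  · simp only [KV, List.forall_mem_cons, li, List.map_cons, List.sum_cons, List.map_nil, List.sum_nil,
      List.not_mem_nil, IsEmpty.forall_iff, implies_true, and_true]
    push_cast
    refine ⟨?_, ?_, ?_, ?_, ?_, ?_, ?_, ?_⟩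
    · linarith only [C.k0, R.k4, a0, a1, a4, a8, x0, x2, x3, x4, x12, x14, x24, x26]
    · linarith only [C.k1, R.k4, a0, a1, a5, a9, x0, x1, x3, x5, x15, x17, x27, x29]
    · linarith only [C.k2, R.k4, a2, a3, a6, a10, x6, x7, x9, x11, x18, x20, x30, x32]
    · linarith only [C.k3, R.k4, a2, a3, a7, a11, x6, x8, x9, x10, x21, x23, x33, x35]
    · linarith only [C.k4, R.k5, a6, a11, x10, x11, x13, x14, x18, x19, x25, x26, x33, x34]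
    · linarith only [C.k5, R.k5, a4, a9, x1, x2, x12, x13, x19, x20, x27, x28, x31, x32]
    · linarith only [C.k6, R.k5, a7, a10, x7, x8, x16, x17, x21, x22, x28, x29, x30, x31]
    · linarith only [C.k7, R.k5, a5, a8, x4, x5, x15, x16, x22, x23, x24, x25, x34, x35]
  have g0 := G.g0
  have g1 := G.g1
  have g2 := G.g2
  have g3 := G.g3
  have g4 := G.g4
  have g5 := G.g5
  have g6 := G.g6
  have g7 := G.g7
  have g8 := G.g8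
  have g9 := G.g9
  have g10 := G.g10
  have g11 := G.g11
  unfold GA Par.G at g0 g1 g2 g3 g4 g5 g6 g7 g8 g9 g10 g11
  rw [P.k0, show ∀ y, kap [] y = 0 from fun _ => rfl] at g0 g1 g2 g3
  rw [R.y1] at g4 g5 g6 g7
  rw [R.y2, R.y3] at g8 g9 g10 g11
  unfold totL totQ ary
  rw [x0, x1, x2, x3, x4, x5, x6, x7, x8, x9, x10, x11, x12, x13, x14, x15, x16, x17, x18, x19, x20, x21, x22, x23, x24, x25, x26, x27, x28, x29, x30, x31, x32, x33, x34, x35, x36, x37, x38, x39, x40, x41, x42, x43, x44, x45, x46, x47, x48, x49, x50, x51, x52, x53]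
  linarith only [g0, g1, g2, g3, g4, g5, g6, g7, g8, g9, g10, g11,
      pt_add P.o0 (y 0 - r0.y1),
      pt_add P.o0 (y 1 - r0.y1),
      pt_add P.o1 (y 2 - r0.y2),
      pt_add P.o1 (y 3 - r0.y2),
      pt_add P.o1 (y 4 - r0.y2),
      pt_add P.o1 (y 5 - r0.y2),
      pt_add P.o2 (y 6 - r0.y3),
      pt_add P.o2 (y 7 - r0.y3),
      pt_add P.o2 (y 8 - r0.y3),
      pt_add P.o2 (y 9 - r0.y3),
      pt_add P.o3 (y 10 - r1.y2),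
      pt_add P.o3 (y 11 - r1.y2),
      pt_add P.o3 (y 12 - r1.y2),
      pt_add P.o3 (y 13 - r1.y2),
      pt_add P.o4 (y 14 - r1.y3),
      pt_add P.o4 (y 15 - r1.y3),
      pt_add P.o5 (y 16 - r2.y3),
      pt_add P.o5 (y 17 - r2.y3),
      mul_nonpos_of_nonneg_of_nonpos C.d14 (kap_np P.k1 (y 14)), mul_nonpos_of_nonneg_of_nonpos C.d15 (kap_np P.k1 (y 15)),
      mul_nonpos_of_nonneg_of_nonpos C.d16 (kap_np P.k2 (y 16)), mul_nonpos_of_nonneg_of_nonpos C.d17 (kap_np P.k2 (y 17))]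

theorem GG.of {bx : List (ℕ × ℕ)} (C : Cfg y) (Z : Z0 y) (B : InB bx y)
    (g0 : ∀ a b c, Bx (bx.getD 0 (0, 0)).1 (bx.getD 0 (0, 0)).2 a → Bx (bx.getD 1 (0, 0)).1 (bx.getD 1 (0, 0)).2 b →
      Bx (bx.getD 2 (0, 0)).1 (bx.getD 2 (0, 0)).2 c → F0 a b c → Tri a b c → GA p0 r0 a b c)
    (g1 : ∀ a b c, Bx (bx.getD 1 (0, 0)).1 (bx.getD 1 (0, 0)).2 a → Bx (bx.getD 3 (0, 0)).1 (bx.getD 3 (0, 0)).2 b →
      Bx (bx.getD 4 (0, 0)).1 (bx.getD 4 (0, 0)).2 c → F1 a b c → Tri a b c → GA p1 r1 a b c)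
    (g2 : ∀ a b c, Bx (bx.getD 2 (0, 0)).1 (bx.getD 2 (0, 0)).2 a → Bx (bx.getD 3 (0, 0)).1 (bx.getD 3 (0, 0)).2 b →
      Bx (bx.getD 5 (0, 0)).1 (bx.getD 5 (0, 0)).2 c → F1 a b c → Tri a b c → GA p2 r2 a b c) :
    GG p0 p1 p2 r0 r1 r2 y :=
  ⟨g0 _ _ _ (B 0 (by norm_num)) (B 2 (by norm_num)) (B 7 (by norm_num)) Z.f0 C.t0,
    g0 _ _ _ (B 0 (by norm_num)) (B 3 (by norm_num)) (B 6 (by norm_num)) Z.f1 C.t1,
    g0 _ _ _ (B 1 (by norm_num)) (B 5 (by norm_num)) (B 8 (by norm_num)) Z.f2 C.t2,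
    g0 _ _ _ (B 1 (by norm_num)) (B 4 (by norm_num)) (B 9 (by norm_num)) Z.f3 C.t3,
    g1 _ _ _ (B 2 (by norm_num)) (B 10 (by norm_num)) (B 14 (by norm_num)) Z.f4 C.t4,
    g1 _ _ _ (B 3 (by norm_num)) (B 11 (by norm_num)) (B 15 (by norm_num)) Z.f5 C.t5,
    g1 _ _ _ (B 4 (by norm_num)) (B 12 (by norm_num)) (B 14 (by norm_num)) Z.f6 C.t6,
    g1 _ _ _ (B 5 (by norm_num)) (B 13 (by norm_num)) (B 15 (by norm_num)) Z.f7 C.t7,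
    g2 _ _ _ (B 6 (by norm_num)) (B 10 (by norm_num)) (B 17 (by norm_num)) Z.f8 C.t8,
    g2 _ _ _ (B 7 (by norm_num)) (B 11 (by norm_num)) (B 16 (by norm_num)) Z.f9 C.t9,
    g2 _ _ _ (B 8 (by norm_num)) (B 12 (by norm_num)) (B 16 (by norm_num)) Z.f10 C.t10,
    g2 _ _ _ (B 9 (by norm_num)) (B 13 (by norm_num)) (B 17 (by norm_num)) Z.f11 C.t11⟩

def zq (u : ℕ) : ℤ := Int.subNatNat u (nat_lit 28948022309329048855892746252171976963317496166410141009864396001978282409984)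
def zn (u : ℕ) : ℤ := Int.mul (Int.subNatNat (nat_lit 28948022309329048855892746252171976963317496166410141009864396001978282409984) u) (Int.ofNat (nat_lit 22300745198530623141535718272648361505980416))

theorem zq_s (u : ℕ) : (zq u : ℝ) = w u * 2 ^ 112 := by
  unfold zq w vz; rw [Int.subNatNat_eq_coe]; push_cast; ring
theorem zn_s (u : ℕ) : (zn u : ℝ) = -2 ^ 256 * w u := by
  unfold zn w vz; rw [Int.subNatNat_eq_coe, Int.mul_def, Int.ofNat_eq_natCast]; push_cast; ring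

def fq (p : Par) (i j k a b c : ℕ) : List En :=
  [ent i i (zn p.q11), ent i j (zn p.q12), ent i k (zn p.q13), ent i a (zn p.q14), ent i b (zn p.q15),
    ent i c (zn p.q16), ent j j (zn p.q22), ent j k (zn p.q23), ent j a (zn p.q24), ent j b (zn p.q25),
    ent j c (zn p.q26), ent k k (zn p.q33), ent k a (zn p.q34), ent k b (zn p.q35), ent k c (zn p.q36),
    ent a a (zn p.q44), ent a b (zn p.q45), ent a c (zn p.q46), ent b b (zn p.q55), ent b c (zn p.q56),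
    ent c c (zn p.q66)]

def fl (p : Par) (i j k a b c : ℕ) : List En :=
  [ent 54 54 (zn p.l0), ent 54 i (zn p.l1), ent 54 j (zn p.l2), ent 54 k (zn p.l3), ent 54 a (zn p.l4),
    ent 54 b (zn p.l5), ent 54 c (zn p.l6)]

def Par.rp (p : Par) (s t : ℝ) : RP :=
  ⟨w p.y1, w p.y2, w p.y3, w p.a1 + s, w p.a2, w p.a3 + t, w p.l0, w p.l1, w p.l2, w p.l3, w p.l4, w p.l5, w p.l6⟩

theorem fq_s (p : Par) (i j k a b c : ℕ) :
    ev x (fq p i j k a b c) = -2 ^ 256 * p.qf (x i) (x j) (x k) (x a) (x b) (x c) := by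
  simp only [fq, ev_ent, ev_nil, zn_s, Par.qf]; ring

theorem fl_s (h : x 54 = 1) (p : Par) (s t : ℝ) (i j k a b c : ℕ) :
    ev x (fl p i j k a b c) = -2 ^ 256 * (p.rp s t).lin (x i) (x j) (x k) (x a) (x b) (x c) := by
  simp only [fl, ev_ent, ev_nil, zn_s, RP.lin, Par.rp, h]; ring

def EQ (p0 p1 p2 : Par) : List En :=
  fq p0 36 38 43 0 1 2 ++ (fq p0 36 39 42 3 4 5 ++ (fq p0 37 41 44 6 7 8 ++ (fq p0 37 40 45 9 10 11 ++ (fq p1 38 46 50 12 13 14 ++ (fq p1 39 47 51 15 16 17 ++ (fq p1 40 48 50 18 19 20 ++ (fq p1 41 49 51 21 22 23 ++ (fq p2 42 46 53 24 25 26 ++ (fq p2 43 47 52 27 28 29 ++ (fq p2 44 48 52 30 31 32 ++ (fq p2 45 49 53 33 34 35)))))))))))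

def EL (p0 p1 p2 : Par) : List En :=
  fl p0 36 38 43 0 1 2 ++ (fl p0 36 39 42 3 4 5 ++ (fl p0 37 41 44 6 7 8 ++ (fl p0 37 40 45 9 10 11 ++ (fl p1 38 46 50 12 13 14 ++ (fl p1 39 47 51 15 16 17 ++ (fl p1 40 48 50 18 19 20 ++ (fl p1 41 49 51 21 22 23 ++ (fl p2 42 46 53 24 25 26 ++ (fl p2 43 47 52 27 28 29 ++ (fl p2 44 48 52 30 31 32 ++ (fl p2 45 49 53 33 34 35)))))))))))

def EK : List En := KV.flatMap fun k => ou (2 ^ 280) k k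

theorem EQ_s : ev x (EQ p0 p1 p2) = -2 ^ 256 * totQ p0 p1 p2 x := by
  simp only [EQ, ev_app, fq_s, totQ]; ring

theorem EL_s (h : x 54 = 1) (s : ℝ) :
    ev x (EL p0 p1 p2) = -2 ^ 256 * totL (p0.rp s 0) (p1.rp 0 s) (p2.rp 0 s) x := by
  simp only [EL, ev_app, totL, fl_s h p0 s 0, fl_s h p1 0 s, fl_s h p2 0 s]; ring

theorem EK_s (h : ∀ k ∈ KV, li x k = 0) : ev x EK ≤ 0 := ev_fm fun k hk => by rw [ev_ou, h k hk]; simp

structure St where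
  p0 : Par
  p1 : Par
  p2 : Par
  bx : List (ℕ × ℕ)
  t0 : ℤ
  t1 : ℤ
  gam : ℤ
  S : List (ℕ × ℕ × ℕ)
  ex : List (ℕ × ℕ)

def St.yz (S : St) (o : ℕ) : ℤ := zq ([S.p0.y1, S.p0.y2, S.p0.y3, S.p1.y2, S.p1.y3, S.p2.y3].getD o 0)
def lo (bx : List (ℕ × ℕ)) (o : ℕ) : ℤ := (((bx.getD o (0, 0)).1 : ℤ) - 2 ^ 52) * 2 ^ 80
def hi (bx : List (ℕ × ℕ)) (o : ℕ) : ℤ := (((bx.getD o (0, 0)).1 : ℤ) + 2 * (bx.getD o (0, 0)).2 - 2 ^ 52) * 2 ^ 80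
def St.tc (S : St) : ℤ := (S.yz 4 - S.yz 5) / 2

def St.fm (S : St) (a : ℕ) : List (ℕ × ℤ) :=
  if a = 0 then [(54, 2 ^ 112)] else
  if a = 1 then [(54, S.tc - S.t0), (50, 2 ^ 110), (51, 2 ^ 110), (52, -2 ^ 110), (53, -2 ^ 110)] else
  if a = 2 then [(54, S.t1 - S.tc), (50, -2 ^ 110), (51, -2 ^ 110), (52, 2 ^ 110), (53, 2 ^ 110)] else
  if a = 3 then [(54, 2 ^ 48 - 2 * zq S.p1.a3), (14, 2 ^ 112), (20, 2 ^ 112)] else
  if a = 4 then [(54, 2 ^ 48 - 2 * zq S.p1.a3), (17, 2 ^ 112), (23, 2 ^ 112)] else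
  if a = 5 then [(54, 2 ^ 48 - 2 * zq S.p2.a3), (29, 2 ^ 112), (32, 2 ^ 112)] else
  if a = 6 then [(54, 2 ^ 48 - 2 * zq S.p2.a3), (26, 2 ^ 112), (35, 2 ^ 112)] else
  if a < 25 then [(54, S.yz (EO (a - 7)) - lo S.bx (EO (a - 7))), (36 + (a - 7), 2 ^ 112)] else
  if a < 43 then [(54, hi S.bx (EO (a - 25)) - S.yz (EO (a - 25))), (36 + (a - 25), -2 ^ 112)] else []

def St.E (S : St) : List En :=
  ent 54 54 (S.gam * 2 ^ 144) :: (EL S.p0 S.p1 S.p2 ++ (EQ S.p0 S.p1 S.p2 ++ (EK ++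
    S.S.flatMap fun s => ou (-(s.1 : ℤ)) (S.fm s.2.1) (S.fm s.2.2))))

def CP : ℤ := 8156040833015188200833743081374136

def Pw (p : Par) (L : List (ℕ × ℕ × ℕ × ℕ)) (n : ℕ) : Prop :=
  (∀ e ∈ p.ct, e ∈ L) ∧ p.nal ≤ n ∧ p.g1 < p.h1 ∧ 2 ^ 47 ≤ p.er
instance (p : Par) (L : List (ℕ × ℕ × ℕ × ℕ)) (n : ℕ) : Decidable (Pw p L n) := inferInstanceAs (Decidable (_ ∧ _))

def St.Wf (S : St) : Prop :=
  (S.p1.y1 = S.p0.y2 ∧ S.p2.y1 = S.p0.y3 ∧ S.p2.y2 = S.p1.y2 ∧ 2 * S.tc = S.yz 4 - S.yz 5 ∧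
    2 * zq S.p0.a1 - zq S.p0.a2 - zq S.p0.a3 + zq S.p1.a1 - zq S.p1.a3 + zq S.p2.a1 - zq S.p2.a3 = 0 ∧
    2 * CP + zq S.p0.a2 + zq S.p0.a3 + zq S.p1.a1 + zq S.p1.a3 + zq S.p2.a1 + zq S.p2.a3 = 0) ∧
  (Op S.p0.u1 S.p0.v1 S.p0.u1 S.p0.v1 ∧ Op S.p0.u2 S.p0.v2 S.p1.u1 S.p1.v1 ∧ Op S.p0.u3 S.p0.v3 S.p2.u1 S.p2.v1 ∧
    Op S.p1.u2 S.p1.v2 S.p2.u2 S.p2.v2 ∧ Op S.p1.u3 S.p1.v3 S.p1.u3 S.p1.v3 ∧ Op S.p2.u3 S.p2.v3 S.p2.u3 S.p2.v3 ∧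
    S.p0.kk = [] ∧ (∀ e ∈ S.p1.kk, e.1 ≤ (nat_lit 28948022309329048855892746252171976963317496166410141009864396001978282409984)) ∧ ∀ e ∈ S.p2.kk, e.1 ≤ (nat_lit 28948022309329048855892746252171976963317496166410141009864396001978282409984)) ∧
  Pw S.p0 CT0 (nat_lit 28948022309329048855892746252171976963317485781816423940209138940985623969792) ∧ Pw S.p1 CT1 (nat_lit 28948022309329048855892746252171976963317493448242736118152306210534357729280) ∧ Pw S.p2 CT1 (nat_lit 28948022309329048855892746252171976963317493448242736118152306210534357729280)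
instance (S : St) : Decidable S.Wf := inferInstanceAs (Decidable (_ ∧ _))

theorem kpi : |((CP : ℝ) / 2 ^ 112 - π / 2) * 2 ^ 112| ≤ 2 ^ 47 := by
  unfold CP; push_cast
  rw [abs_le]; constructor <;> linarith [pi_gt_d20, pi_lt_d20]

theorem rp_ok {p : Par} (h : 2 ^ 47 ≤ p.er) {s t : ℝ} (hs : |s * 2 ^ 112| ≤ 2 ^ 47) (ht : |t * 2 ^ 112| ≤ 2 ^ 47) :
    (p.rp s t).ok p := by
  have h : (2 : ℝ) ^ 47 ≤ p.er := by exact_mod_cast h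
  have f : ∀ u s, |s * 2 ^ 112| ≤ 2 ^ 47 → Nr p.er u (w u + s) := fun u s hs => by
    unfold Nr; rw [show (w u + s) * 2 ^ 112 - vz u = s * 2 ^ 112 by unfold w; ring]; exact hs.trans h
  have g : ∀ u, Nr p.er u (w u) := fun u => by simpa using f u 0 (by simp)
  exact ⟨g _, g _, g _, f _ _ hs, g _, f _ _ ht, g _, g _, g _, g _, g _, g _, g _⟩

theorem ga {p : Par} {r : RP} {L : List (ℕ × ℕ × ℕ × ℕ)} {n : ℕ} {a b c : ℝ} (W : Pw p L n) (hr : r.ok p)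
    (H : p.Good a b c) (h1 : ∀ e ∈ L, Ct e a b c) (h2 : vz n < A3f a b c * 2 ^ 112) (h3 : 0 < 2 - a - b - c) :
    GA p r a b c := by
  rcases H with H | H
  · have : (p.g1 : ℝ) < p.h1 := by exact_mod_cast W.2.2.1
    have := H.1.1.trans H.1.2
    unfold vl at this; exfalso; linarith
  · have : (p.nal : ℝ) ≤ n := by exact_mod_cast W.2.1
    exact H (fun e he => h1 e (W.1 e he)) (by unfold vz at *; linarith) h3 r hr

theorem a3_lo (a b c : ℝ) : vz (nat_lit 28948022309329048855892746252171976963317485781816423940209138940985623969792) < A3f a b c * 2 ^ 112 := by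
  have := neg_pi_div_two_lt_arctan ((a + b - c) / √(Pf a b c))
  unfold vz A3f; push_cast; linarith [pi_lt_four]

def tt (y : ℕ → ℝ) : ℝ := (y 14 + y 15 - y 16 - y 17) / 4

theorem St.run (S : St) (W : S.Wf) (L : lmi S.E 55 S.ex = true)
    (H0 : Cov S.p0.Good (S.bx.getD 0 (0, 0)).1 (S.bx.getD 0 (0, 0)).2 (S.bx.getD 1 (0, 0)).1 (S.bx.getD 1 (0, 0)).2
      (S.bx.getD 2 (0, 0)).1 (S.bx.getD 2 (0, 0)).2)
    (H1 : Cov S.p1.Good (S.bx.getD 1 (0, 0)).1 (S.bx.getD 1 (0, 0)).2 (S.bx.getD 3 (0, 0)).1 (S.bx.getD 3 (0, 0)).2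
      (S.bx.getD 4 (0, 0)).1 (S.bx.getD 4 (0, 0)).2)
    (H2 : Cov S.p2.Good (S.bx.getD 2 (0, 0)).1 (S.bx.getD 2 (0, 0)).2 (S.bx.getD 3 (0, 0)).1 (S.bx.getD 3 (0, 0)).2
      (S.bx.getD 5 (0, 0)).1 (S.bx.getD 5 (0, 0)).2)
    (C : Cfg y) (Z : Z0 y) (B : InB S.bx y) (t0 : (S.t0 : ℝ) ≤ tt y * 2 ^ 112) (t1 : tt y * 2 ^ 112 ≤ S.t1)
    {e : ℕ × ℕ} (he : e ∈ S.ex) (h18 : e.1 < 18) :
    ary y * 2 ^ 112 ≤ S.gam - e.2 * (y e.1 - S.yz (EO e.1) / 2 ^ 112) ^ 2 := by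
  obtain ⟨⟨w1, w2, w3, w4, w5, w6⟩, ⟨o0, o1, o2, o3, o4, o5, o6, o7, o8⟩, W0, W1, W2⟩ := W
  have κ := kpi
  have z : |(0 : ℝ) * 2 ^ 112| ≤ 2 ^ 47 := by simp
  have w5 := congrArg (Int.cast : ℤ → ℝ) w5
  have w6 := congrArg (Int.cast : ℤ → ℝ) w6
  have w4 := congrArg (Int.cast : ℤ → ℝ) w4
  push_cast [zq_s] at w4 w5 w6
  generalize hs : (CP : ℝ) / 2 ^ 112 - π / 2 = s at κ
  have a : ∀ {a b c}, F1 a b c → vz (nat_lit 28948022309329048855892746252171976963317493448242736118152306210534357729280) < A3f a b c * 2 ^ 112 := fun F => by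
    have := F.2.1; unfold vz; push_cast; linarith
  obtain ⟨x, x1, x2, x3, x4, x5⟩ := core C Z (r0 := S.p0.rp s 0) (r1 := S.p1.rp 0 s) (r2 := S.p2.rp 0 s)
    ⟨congrArg w w1, congrArg w w2, congrArg w w3, by simp only [Par.rp]; linarith, by simp only [Par.rp]; linarith⟩
    ⟨o0, o1, o2, o3, o4, o5, o6, o7, o8⟩ (GG.of C Z B
      (fun a b c u v w F _ => ga W0 (rp_ok W0.2.2.2 κ z) (H0 a b c u v w) F.1 (a3_lo a b c) F.2)
      (fun _ _ _ u v w F _ => ga W1 (rp_ok W1.2.2.2 z κ) (H1 _ _ _ u v w) F.1 (a F) F.2.2)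
      (fun _ _ _ u v w F _ => ga W2 (rp_ok W2.2.2.2 z κ) (H2 _ _ _ u v w) F.1 (a F) F.2.2))
  have x6 : ∀ e < 18, x (36 + e) = y e - S.yz (EO e) / 2 ^ 112 := fun e he => by
    rw [x2 e he, St.yz, zq_s, mul_div_cancel_right₀ _ (by positivity)]
    interval_cases e <;> rfl
  have F : ∀ a, 0 ≤ li x (S.fm a) := by
    intro a
    have y14 : x 50 = y 14 - S.yz 4 / 2 ^ 112 := x6 14 (by norm_num)
    have y15 : x 51 = y 15 - S.yz 4 / 2 ^ 112 := x6 15 (by norm_num)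
    have y16 : x 52 = y 16 - S.yz 5 / 2 ^ 112 := x6 16 (by norm_num)
    have y17 : x 53 = y 17 - S.yz 5 / 2 ^ 112 := x6 17 (by norm_num)
    have κ := abs_le.1 κ
    unfold tt at t0 t1
    simp only [Par.rp] at x4
    unfold St.fm
    split_ifs with h0 h1 h2 h3 h4 h5 h6 h7 h8 <;>
      simp only [li, List.map_cons, List.sum_cons, List.map_nil, List.sum_nil, x1, le_refl] <;> push_cast [zq_s]
    · norm_num
    · linarith only [t0, w4, y14, y15, y16, y17]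
    · linarith only [t1, w4, y14, y15, y16, y17]
    · linarith only [x4.1, κ.1]
    · linarith only [x4.2.1, κ.1]
    · linarith only [x4.2.2.1, κ.1]
    · linarith only [x4.2.2.2, κ.1]
    · have := (B (a - 7) (by omega)).1
      rw [x6 _ (by omega), lo]; unfold vl at this; push_cast; linarith only [this]
    · have := (B (a - 25) (by omega)).2
      rw [x6 _ (by omega), hi]; unfold vl at this; push_cast; linarith only [this]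
  have := lmi_s (x := x) L he
  rw [St.E, ev_ent, ev_app, ev_app, ev_app, EL_s x1 s, EQ_s, x1, x6 _ h18] at this
  have k := EK_s x3
  have m : ev x (S.S.flatMap fun s => ou (-(s.1 : ℤ)) (S.fm s.2.1) (S.fm s.2.2)) ≤ 0 := ev_fm fun s _ => by
    rw [ev_ou]; push_cast
    exact mul_nonpos_of_nonpos_of_nonneg (neg_nonpos.2 (Nat.cast_nonneg _)) (mul_nonneg (F _) (F _))
  push_cast at this
  linarith only [this, k, m, x5]

def St.nx (S : St) (bx : List (ℕ × ℕ)) : Prop :=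
  ∀ e < 18, ∃ g ∈ S.ex, g.1 = e ∧ lo bx (EO e) ≤ S.yz (EO e) ∧ S.yz (EO e) ≤ hi bx (EO e) ∧
    (S.gam - 34884712220 * 2 ^ 80) * 2 ^ 224 ≤ g.2 * (S.yz (EO e) - lo bx (EO e)) ^ 2 ∧
    (S.gam - 34884712220 * 2 ^ 80) * 2 ^ 224 ≤ g.2 * (hi bx (EO e) - S.yz (EO e)) ^ 2
instance (S : St) (bx : List (ℕ × ℕ)) : Decidable (S.nx bx) := inferInstanceAs (Decidable (∀ e < 18, _))

theorem St.next (S : St) {bx : List (ℕ × ℕ)} (N : S.nx bx) (h : 34884712220 < ary y * 2 ^ 32)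
    (H : ∀ {e : ℕ × ℕ}, e ∈ S.ex → e.1 < 18 →
      ary y * 2 ^ 112 ≤ S.gam - e.2 * (y e.1 - S.yz (EO e.1) / 2 ^ 112) ^ 2) : InB bx y := by
  intro e he
  obtain ⟨g, h1, rfl, h2, h3, h4, h5⟩ := N e he
  have := H h1 he
  have h2 := Int.cast_le (R := ℝ).2 h2
  have h3 := Int.cast_le (R := ℝ).2 h3
  have h4 := Int.cast_le (R := ℝ).2 h4
  have h5 := Int.cast_le (R := ℝ).2 h5
  push_cast at h4 h5
  have p : (0 : ℝ) ≤ g.2 := Nat.cast_nonneg _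
  have f : ∀ ρ : ℝ, 0 ≤ ρ → (S.gam - 42173029312583970061641052816670720) * 2 ^ 224 ≤ g.2 * ρ ^ 2 →
      |y g.1 * 2 ^ 112 - S.yz (EO g.1)| ≤ ρ := fun ρ u v =>
    abs_le_of_sq_le_sq' (le_of_lt (lt_of_mul_lt_mul_left (by linarith) p)) u |> abs_le.2
  have a := abs_le.1 (f _ (sub_nonneg.2 h2) (by linarith))
  have b := abs_le.1 (f _ (sub_nonneg.2 h3) (by linarith))
  unfold lo hi at *
  unfold Bx vl
  push_cast at a b
  constructor <;> linarith [a.1, b.2]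

end Pool.Agent.Work.MP_c2ab8b_gt.K8
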