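import Pool.Agent.Work.MP_c2ab8b_gt.K8.Lf

/- Second order Taylor models in three variables with fixed point natural numbers.
A signed number v is stored as v + 2^254, the unit is 2^112. -/

noncomputable section
namespace Pool.Agent.Work.MP_c2ab8b_gt.K8

structure TM where
  c : ℕ
  a1 : ℕ
  a2 : ℕ
  a3 : ℕ
  q1 : ℕ
  q2 : ℕ
  q3 : ℕ
  q4 : ℕ
  q5 : ℕ
  q6 : ℕ
  r0 : ℕ
  r1 : ℕ
  r2 : ℕ

structure TE where
  t : TM
  m : ℕ
  n : ℕ
  k : ℕ

structure Bs where
  c1 : ℕ
  c2 : ℕ
  c3 : ℕ
  p1 : ℕ
  p2 : ℕ
  p3 : ℕ
  r : ℕ

def chk (b v : Bool) : Bool := Bool.rec false v b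
def brb (b u v : Bool) : Bool := Bool.rec u v b
def brn (b : Bool) (u v : ℕ) : ℕ := Bool.rec u v b

def az (u : ℕ) : ℕ := (Nat.add (Nat.sub u (nat_lit 28948022309329048855892746252171976963317496166410141009864396001978282409984)) (Nat.sub (nat_lit 28948022309329048855892746252171976963317496166410141009864396001978282409984) u))
def rn (x : ℕ) : ℕ := (Nat.add (Nat.shiftRight (Nat.mod (Nat.add x (nat_lit 14474011154664524427946373126085988481658748083205070504932198000989141204992)) (nat_lit 28948022309329048855892746252171976963317496166410141009864396001978282409984)) (nat_lit 112)) (nat_lit 28948022309329048855892746252171974175724346350082248317899611920933094162432))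
def rx (x : ℕ) : ℕ := (Nat.add (Nat.mod (Nat.add x (nat_lit 14474011154664524427946373126085988481658748083205070504932198000989141204992)) (nat_lit 28948022309329048855892746252171976963317496166410141009864396001978282409984)) (nat_lit 14474011154664524427946373126085988481658748083205070504932198000989141204992))
def za (a b : ℕ) : ℕ := (Nat.sub (Nat.add a b) (nat_lit 28948022309329048855892746252171976963317496166410141009864396001978282409984))
def zs (a b : ℕ) : ℕ := (Nat.sub (Nat.add a (nat_lit 28948022309329048855892746252171976963317496166410141009864396001978282409984)) b)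
def z4 (a : ℕ) : ℕ := (Nat.sub (Nat.mul (nat_lit 4) a) (nat_lit 86844066927987146567678238756515930889952488499230423029593188005934847229952))

def tx (X : TM) (k : TE → Bool) : Bool :=
  TM.rec (fun c a1 a2 a3 q1 q2 q3 q4 q5 q6 r0 r1 r2 =>
    k ⟨⟨c, a1, a2, a3, q1, q2, q3, q4, q5, q6, r0, r1, r2⟩, (Nat.add (az c) r0), (Nat.add (Nat.add (Nat.add (az a1) (az a2)) (az a3)) r1),
      (Nat.add (Nat.add (Nat.add (Nat.add (Nat.add (Nat.add (az q1) (az q2)) (az q3)) (az q4)) (az q5)) (az q6)) r2)⟩) X

def tmul (X Y : TE) (k : TM → Bool) : Bool :=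
  TE.rec (fun X M N K => TE.rec (fun Y P Q R =>
  TM.rec (fun c a1 a2 a3 q1 q2 q3 q4 q5 q6 r0 r1 r2 => TM.rec (fun d b1 b2 b3 p1 p2 p3 p4 p5 p6 s0 s1 s2 =>
    chk (Nat.ble (Nat.mul (Nat.add (Nat.add M N) K) (Nat.add (Nat.add P Q) R)) (nat_lit 1809251394333065553493296640760748560207343510400633813116524750123642650624)) (k ⟨(rn (Nat.mul c d)), (rn (Nat.add (Nat.mul c b1) (Nat.mul d a1))), (rn (Nat.add (Nat.mul c b2) (Nat.mul d a2))),
      (rn (Nat.add (Nat.mul c b3) (Nat.mul d a3))), (rn (Nat.add (Nat.add (Nat.mul c p1) (Nat.mul d q1)) (Nat.mul a1 b1))), (rn (Nat.add (Nat.add (Nat.mul c p2) (Nat.mul d q2)) (Nat.mul a2 b2))),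
      (rn (Nat.add (Nat.add (Nat.mul c p3) (Nat.mul d q3)) (Nat.mul a3 b3))), (rn (Nat.add (Nat.add (Nat.add (Nat.mul c p4) (Nat.mul d q4)) (Nat.mul a1 b2)) (Nat.mul a2 b1))),
      (rn (Nat.add (Nat.add (Nat.add (Nat.mul c p5) (Nat.mul d q5)) (Nat.mul a1 b3)) (Nat.mul a3 b1))), (rn (Nat.add (Nat.add (Nat.add (Nat.mul c p6) (Nat.mul d q6)) (Nat.mul a2 b3)) (Nat.mul a3 b2))),
      (Nat.add (Nat.shiftRight (Nat.add (Nat.mul M s0) (Nat.mul P r0)) (nat_lit 112)) (nat_lit 2)),
      (Nat.add (Nat.shiftRight (Nat.add (Nat.add (Nat.add (Nat.mul M s1) (Nat.mul P r1)) (Nat.mul r0 Q)) (Nat.mul s0 N)) (nat_lit 112)) (nat_lit 4)),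
      (Nat.add (Nat.shiftRight (Nat.add (Nat.add (Nat.add (Nat.add (Nat.add (Nat.mul M s2) (Nat.mul P r2)) (Nat.mul (Nat.add (Nat.add r0 N) K) R)) (Nat.mul (Nat.add s0 Q) K)) (Nat.mul N s1)) (Nat.mul Q r1)) (nat_lit 112)) (nat_lit 7))⟩)) Y) X) Y) X

def tsm (t e : ℕ) (X : TE) (k : TM → Bool) : Bool :=
  TE.rec (fun X M N K => TM.rec (fun c a1 a2 a3 q1 q2 q3 q4 q5 q6 r0 r1 r2 =>
    let b := (Nat.add (az t) e)
    chk (Nat.ble (Nat.mul (Nat.add (Nat.add M N) K) b) (nat_lit 1809251394333065553493296640760748560207343510400633813116524750123642650624)) (k ⟨(rn (Nat.mul c t)), (rn (Nat.mul t a1)), (rn (Nat.mul t a2)), (rn (Nat.mul t a3)), (rn (Nat.mul t q1)),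
      (rn (Nat.mul t q2)), (rn (Nat.mul t q3)), (rn (Nat.mul t q4)), (rn (Nat.mul t q5)), (rn (Nat.mul t q6)),
      (Nat.add (Nat.shiftRight (Nat.add (Nat.mul M e) (Nat.mul b r0)) (nat_lit 112)) (nat_lit 2)), (Nat.add (Nat.shiftRight (Nat.add (Nat.mul b r1) (Nat.mul e N)) (nat_lit 112)) (nat_lit 4)),
      (Nat.add (Nat.shiftRight (Nat.add (Nat.mul b r2) (Nat.mul e K)) (nat_lit 112)) (nat_lit 7))⟩)) X) X

def tadd (X Y : TM) (k : TM → Bool) : Bool :=
  TM.rec (fun c a1 a2 a3 q1 q2 q3 q4 q5 q6 r0 r1 r2 => TM.rec (fun d b1 b2 b3 p1 p2 p3 p4 p5 p6 s0 s1 s2 =>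
    k ⟨za c d, za a1 b1, za a2 b2, za a3 b3, za q1 p1, za q2 p2, za q3 p3, za q4 p4, za q5 p5, za q6 p6,
      Nat.add r0 s0, Nat.add r1 s1, Nat.add r2 s2⟩) Y) X

def tsub (X Y : TM) (k : TM → Bool) : Bool :=
  TM.rec (fun c a1 a2 a3 q1 q2 q3 q4 q5 q6 r0 r1 r2 => TM.rec (fun d b1 b2 b3 p1 p2 p3 p4 p5 p6 s0 s1 s2 =>
    k ⟨zs c d, zs a1 b1, zs a2 b2, zs a3 b3, zs q1 p1, zs q2 p2, zs q3 p3, zs q4 p4, zs q5 p5, zs q6 p6,
      Nat.add r0 s0, Nat.add r1 s1, Nat.add r2 s2⟩) Y) X

/-- four times the first minus the second, or the first minus four times the second -/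
def t4s (X Y : TM) (k : TM → Bool) : Bool :=
  TM.rec (fun c a1 a2 a3 q1 q2 q3 q4 q5 q6 r0 r1 r2 =>
    tsub ⟨z4 c, z4 a1, z4 a2, z4 a3, z4 q1, z4 q2, z4 q3, z4 q4, z4 q5, z4 q6, (Nat.mul (nat_lit 4) r0), (Nat.mul (nat_lit 4) r1),
      (Nat.mul (nat_lit 4) r2)⟩ Y k) X

def ts4 (X Y : TM) (k : TM → Bool) : Bool :=
  TM.rec (fun c a1 a2 a3 q1 q2 q3 q4 q5 q6 r0 r1 r2 =>
    tsub X ⟨z4 c, z4 a1, z4 a2, z4 a3, z4 q1, z4 q2, z4 q3, z4 q4, z4 q5, z4 q6, (Nat.mul (nat_lit 4) r0), (Nat.mul (nat_lit 4) r1),
      (Nat.mul (nat_lit 4) r2)⟩ k) Y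

/-- add a constant known up to `e`, and a second order error -/
def tac (X : TM) (t e R : ℕ) (k : TM → Bool) : Bool :=
  TM.rec (fun c a1 a2 a3 q1 q2 q3 q4 q5 q6 r0 r1 r2 =>
    chk (Nat.ble (az t) (nat_lit 2787593149816327892691964784081045188247552))
      (k ⟨za c t, a1, a2, a3, q1, q2, q3, q4, q5, q6, Nat.add r0 e, r1, Nat.add r2 R⟩)) X

def dl (X : TE) (k : TE → Bool) : Bool :=
  TE.rec (fun X _ N K => TM.rec (fun _ a1 a2 a3 q1 q2 q3 q4 q5 q6 _ r1 r2 =>
    k ⟨⟨(nat_lit 28948022309329048855892746252171976963317496166410141009864396001978282409984), a1, a2, a3, q1, q2, q3, q4, q5, q6, (nat_lit 0), r1, r2⟩, (nat_lit 0), N, K⟩) X) X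

def un (X : TE) (f0 e0 f1 e1 f2 e2 R : ℕ) (k : TM → Bool) : Bool :=
  dl X fun d => tsm f2 e2 d fun w => tac w f1 e1 (nat_lit 0) fun w => tx w fun w => tmul d w fun z => tac z f0 e0 R k

def nwt (y g : ℕ) : ℕ := (Nat.shiftRight (Nat.add g (Nat.div y g)) (nat_lit 1))

def tsq (X : TE) (k : TM → Bool) : Bool :=
  let x := (Nat.sub X.t.c (nat_lit 28948022309329048855892746252171976963317496166410141009864396001978282409984))
  let s := (Nat.add X.n X.k)
  let lo := (Nat.shiftLeft (Nat.sub x (Nat.add X.t.r0 s)) (nat_lit 112))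
  let y := (Nat.shiftLeft x (nat_lit 112))
  let g := (nwt y (nwt y (nwt y (nwt y (nwt y (nwt y (nwt y (nat_lit 2596148429267413814265248164610048))))))))
  let g1 := (Nat.add (Nat.add g (Nat.div (Nat.shiftLeft X.t.r0 (nat_lit 112)) g)) (nat_lit 2))
  let g0 := (Nat.div (Nat.shiftLeft (Nat.sub x X.t.r0) (nat_lit 112)) g1)
  let m := (Nat.div lo (Nat.add (nwt lo g) (nat_lit 1)))
  let h0 := (Nat.div (nat_lit 26959946667150639794667015087019630673637144422540572481103610249216) g1)
  let h1 := (Nat.add (Nat.div (nat_lit 26959946667150639794667015087019630673637144422540572481103610249216) g0) (nat_lit 1))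
  let hm := (Nat.add (Nat.div (nat_lit 26959946667150639794667015087019630673637144422540572481103610249216) m) (nat_lit 1))
  let a := (Nat.shiftRight (Nat.mul (Nat.mul h0 h0) h0) (nat_lit 227))
  chk (Nat.ble (nat_lit 162259276829213363391578010288128) m) (chk (Nat.ble (Nat.shiftLeft (Nat.add x X.t.r0) (nat_lit 112)) (Nat.mul g1 g1)) (chk (Nat.ble (Nat.mul m m) lo) (chk (Nat.ble (nat_lit 324518553658426726783156020576256) g0)
    (un X (Nat.add g0 (nat_lit 28948022309329048855892746252171976963317496166410141009864396001978282409984)) (Nat.sub g1 g0) (Nat.add (Nat.shiftRight h0 (nat_lit 1)) (nat_lit 28948022309329048855892746252171976963317496166410141009864396001978282409984)) (Nat.add (Nat.shiftRight (Nat.sub h1 h0) (nat_lit 1)) (nat_lit 2)) (Nat.sub (nat_lit 28948022309329048855892746252171976963317496166410141009864396001978282409984) a)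
      (Nat.sub (Nat.add (Nat.shiftRight (Nat.mul (Nat.mul h1 h1) h1) (nat_lit 227)) (nat_lit 1)) a) (Nat.add (Nat.shiftRight (Nat.mul (Nat.mul (Nat.mul (Nat.mul (Nat.mul hm hm) hm) hm) hm) (Nat.mul (Nat.mul s s) s)) (nat_lit 788)) (nat_lit 1)) k))))

def ser (t : ℕ) : ℕ :=
  let s := (Nat.mul t t)
  let u := (Nat.mul s s)
  (Nat.div (Nat.mul t (Nat.sub (Nat.add (nat_lit 248452556191429017871235562103725511923167454998738885936257499952558678884023801617695489787558857838972840530019927003635867006491195547335621257560340795633154706915701069631238694737175450012337207534617385586571345920) (Nat.mul u (Nat.add (nat_lit 28123832689796774012516809443206635248489120667268725098090145049264973995027268471663837682498999168178880822472752265665090812894708162324368195584) (Nat.mul u (Nat.add (nat_lit 8843069559215813569564403991218307171716556903862472885398639037469561978880) (Nat.mul u (nat_lit 3465))))))) (Nat.mul s (Nat.add (nat_lit 62304976266748109272063804073322784682451880177120190053434794805305151963364815818191601339940763471237291267468681349573663193397307806247921425634221164761223644778073665498135920640)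 (Nat.mul u (Nat.add (nat_lit 15112871520149616821468807640339383771162517202225038368001417401809765076612505333688903054605986604010501570560) (Nat.mul u (nat_lit 5443188642739230499541089911848011038720)))))))) (nat_lit 55167549682139997518078980332784213996425982662050488055939800869378037725182251453425294981949024783801158851042051756960097776192596518670812346121299539899042120730965581472391144832107079401492468203520))

def tab (k : ℕ) : ℕ := (Nat.mod (Nat.shiftRight (nat_lit 745593948465667213752142361340521290477494682076133854391565824014294112767607319862696017317155110879945984376326811596789834491273631323677360163174797216811198522615839395416315158783923447013174518795445559435010569722191980188482402249018725604227528409833685961426482046658478634811764766123270040367968670597738191354564184179241815249509356274471638085720001242030308080051289880232137660428389935528950532204691463399584669044566963321083744212123905097242240122557207007104010071982410565665608144486766805183089154200133385925160854274655864188945712044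3431810642128784193488551118354518508355999557589014491249564999625770636001714531957316955022479948656458823200576863159070213492119287082913152514352492972071440509227549069162516058976893317701431481108253210195902193670718570344479716072968122045050191845939357380441776678509725157590698543451286104496111411863930593407948923506227778443950291247568667365283286252457868534101473460421070885552638380381693897636596343265549075898338692534383114422662109599356916877647132876972829277264500241220831923834431184663021287540988205282121432939585604599396799412476640765448277517523280941867218760908337424285790877803497038298279173775935947740516772161296497358893752176640750898429054123732000652668599717123222943788532201438005742215557662591629680291328437302801196233893696746312788301123025409874806049226940378132352412946586211152829408474574459979680353702757452789362683646638870354157859843434924159018173694387885737652532874522483445552968787573320705002014673440961071062767336667049042779734135247209932458581529687909142274936775644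30853740191869002519193936689312494326110337946700185350855899436637945716815962019668978740432502126005231861307979157509123383530587018209723869785349350158645420010384570525433228720254735239727726754429823886524273991277326064691230050257772303289253652847960669420204928410759456264052738910725558698552146809941566018406746852476507041155322273333291751208049206533314186118329032641844902328147898092400723736675015541785001351749593045873694001100969986791870062487996589103882516774995912570721761516986063039606747758989748122827532659241525221312969026258279239516160) (Nat.mul (nat_lit 114) k)) (nat_lit 20769187434139310514121985316880384))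

def atv (m w : ℕ) : ℕ :=
  let j := (Nat.div (Nat.mul (nat_lit 8) m) w)
  (Nat.add (tab j) (ser (Nat.div (Nat.shiftLeft (Nat.sub (Nat.mul (nat_lit 8) m) (Nat.mul j w)) (nat_lit 60)) (Nat.add (Nat.mul (nat_lit 8) w) (Nat.mul j m)))))

def tang (X Y : TE) (k : TM → Bool) : Bool :=
  let m := az X.t.c
  let l := (Nat.sub m X.t.r0)
  let w := (Nat.sub Y.t.c (nat_lit 28948022309329048855892746252171976963317496166410141009864396001978282409984))
  let g0 := (Nat.sub w Y.t.r0)
  let g1 := (Nat.add w Y.t.r0)
  let i0 := (Nat.div (nat_lit 139984046386112763159840142535527767382602843577165595931249318810236991948760059086304843329475444736) (Nat.add (Nat.mul X.m X.m) (Nat.mul g1 g1)))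
  let i1 := (Nat.add (Nat.div (nat_lit 139984046386112763159840142535527767382602843577165595931249318810236991948760059086304843329475444736) (Nat.add (Nat.mul l l) (Nat.mul g0 g0))) (nat_lit 1))
  let al := (Nat.shiftRight (Nat.mul g0 i0) (nat_lit 112))
  let ea := (Nat.sub (Nat.add (Nat.shiftRight (Nat.mul g1 i1) (nat_lit 112)) (nat_lit 1)) al)
  let be := (rn (Nat.mul X.t.c (Nat.add i0 (nat_lit 28948022309329048855892746252171976963317496166410141009864396001978282409984))))
  let eb := (Nat.add (Nat.shiftRight (Nat.add (Nat.mul X.t.r0 i1) (Nat.mul m (Nat.sub i1 i0))) (nat_lit 112)) (nat_lit 2))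
  chk (Nat.ble (nat_lit 20282409603651670423947251286016) g0) (chk (Nat.ble (Nat.add m (nat_lit 1)) (Nat.mul (nat_lit 8) w)) (chk (Nat.ble (Nat.mul m i1) (nat_lit 1809251394333065553493296640760748560207343510400633813116524750123642650624))
    (dl X fun dn => dl Y fun dw =>
      tsm (Nat.add al (nat_lit 28948022309329048855892746252171976963317496166410141009864396001978282409984)) ea dn fun u => tsm be eb dw fun v => tsub u v fun a => tx a fun a =>
      tsm be eb dn fun u => tsm (Nat.add al (nat_lit 28948022309329048855892746252171976963317496166410141009864396001978282409984)) ea dw fun v => tadd u v fun d => tx d fun d =>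
      let s := (Nat.add a.n a.k)
      let t := (Nat.add d.n d.k)
      let h := (Nat.add (Nat.div (nat_lit 26959946667150639794667015087019630673637144422540572481103610249216) (Nat.sub (nat_lit 5192296858534827628530496329220096) t)) (nat_lit 1))
      chk (Nat.ble t (nat_lit 2596148429267413814265248164610048)) (tmul a d fun z => tsub a.t z fun z =>
        tac z (brn (Nat.ble (nat_lit 28948022309329048855892746252171976963317496166410141009864396001978282409984) X.t.c) (Nat.sub (nat_lit 28948022309329048855892746252171976963317496166410141009864396001978282409984) (atv m w)) (Nat.add (atv m w) (nat_lit 28948022309329048855892746252171976963317496166410141009864396001978282409984)))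
          (Nat.add (Nat.div (Nat.shiftLeft (Nat.add (Nat.mul X.t.r0 w) (Nat.mul m Y.t.r0)) (nat_lit 112)) (Nat.mul g0 w)) (nat_lit 1180591620717411303424))
          (Nat.add (Nat.add (Nat.shiftRight (Nat.mul (Nat.mul s (Nat.mul t t)) h) (nat_lit 336)) (Nat.div (Nat.shiftRight (Nat.mul (Nat.mul (Nat.mul s s) s) (Nat.mul (Nat.mul h h) h)) (nat_lit 560)) (nat_lit 3))) (nat_lit 3)) k))))

def tcb (X : TE) (k : TM → Bool) : Bool :=
  let x := (Nat.sub X.t.c (nat_lit 28948022309329048855892746252171976963317496166410141009864396001978282409984))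
  let p0 := (Nat.sub x X.t.r0)
  let p1 := (Nat.add x X.t.r0)
  let s := (Nat.add X.n X.k)
  let f0 := (Nat.shiftRight (Nat.mul (Nat.mul p0 p0) p0) (nat_lit 224))
  let f1 := (Nat.shiftRight (Nat.mul (nat_lit 3) (Nat.mul p0 p0)) (nat_lit 112))
  un X (Nat.add f0 (nat_lit 28948022309329048855892746252171976963317496166410141009864396001978282409984)) (Nat.sub (Nat.add (Nat.shiftRight (Nat.mul (Nat.mul p1 p1) p1) (nat_lit 224)) (nat_lit 1)) f0) (Nat.add f1 (nat_lit 28948022309329048855892746252171976963317496166410141009864396001978282409984)) (Nat.sub (Nat.add (Nat.shiftRight (Nat.mul (nat_lit 3) (Nat.mul p1 p1)) (nat_lit 112)) (nat_lit 1)) f1)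
    (Nat.add (Nat.mul (nat_lit 3) p0) (nat_lit 28948022309329048855892746252171976963317496166410141009864396001978282409984)) (Nat.mul (nat_lit 3) (Nat.sub p1 p0)) (Nat.add (Nat.shiftRight (Nat.mul (Nat.mul s s) s) (nat_lit 224)) (nat_lit 1)) k

def thi (X : TE) (t : ℕ) : Bool := (Nat.ble (Nat.add (Nat.add (Nat.add X.t.c X.t.r0) X.n) X.k) t)

def aff (b : Bs) (k0 e0 k1 k2 k3 : ℕ) (k : TM → Bool) : Bool :=
  let s := (Nat.add (Nat.add (az k1) (az k2)) (az k3))
  chk (Nat.ble (Nat.add s (az k0)) (nat_lit 340282366920938463463374607431768211456)) (k ⟨(za k0 (rn (Nat.add (Nat.add (Nat.mul k1 b.c1) (Nat.mul k2 b.c2)) (Nat.mul k3 b.c3)))), (rn (Nat.mul k1 b.p1)), (rn (Nat.mul k2 b.p2)),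
    (rn (Nat.mul k3 b.p3)), (nat_lit 28948022309329048855892746252171976963317496166410141009864396001978282409984), (nat_lit 28948022309329048855892746252171976963317496166410141009864396001978282409984), (nat_lit 28948022309329048855892746252171976963317496166410141009864396001978282409984), (nat_lit 28948022309329048855892746252171976963317496166410141009864396001978282409984), (nat_lit 28948022309329048855892746252171976963317496166410141009864396001978282409984), (nat_lit 28948022309329048855892746252171976963317496166410141009864396001978282409984),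
    (Nat.add (Nat.add (Nat.shiftRight (Nat.mul s b.r) (nat_lit 112)) e0) (nat_lit 2)), (nat_lit 3), (nat_lit 0)⟩)

def afe (b : Bs) (k0 e0 k1 k2 k3 : ℕ) (k : TE → Bool) : Bool := aff b k0 e0 k1 k2 k3 fun X => tx X k

structure Par where
  er : ℕ
  y1 : ℕ
  y2 : ℕ
  y3 : ℕ
  a1 : ℕ
  a2 : ℕ
  a3 : ℕ
  l0 : ℕ
  l1 : ℕ
  l2 : ℕ
  l3 : ℕ
  l4 : ℕ
  l5 : ℕ
  l6 : ℕ
  q11 : ℕ
  q12 : ℕ
  q13 : ℕ
  q14 : ℕ
  q15 : ℕ
  q16 : ℕ
  q22 : ℕ
  q23 : ℕ
  q24 : ℕ
  q25 : ℕ
  q26 : ℕ
  q33 : ℕ
  q34 : ℕ
  q35 : ℕ
  q36 : ℕ
  q44 : ℕ
  q45 : ℕ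
  q46 : ℕ
  q55 : ℕ
  q56 : ℕ
  q66 : ℕ
  u1 : ℕ
  v1 : ℕ
  u2 : ℕ
  v2 : ℕ
  u3 : ℕ
  v3 : ℕ
  nal : ℕ
  kk : List (ℕ × ℕ)
  ct : List (ℕ × ℕ × ℕ × ℕ)
  h1 : ℕ
  g1 : ℕ
  h2 : ℕ
  g2 : ℕ
  h3 : ℕ
  g3 : ℕ

def geoT (nal : ℕ) (b : Bs) (k : TM → TM → TM → TE → Bool) : Bool :=
  afe b (nat_lit 28948022309329048855892746252171976963317496166410141009864396001978282409984) (nat_lit 0) (nat_lit 28948022309329048855892746252171976963317501358706999544692024532474611630080) (nat_lit 28948022309329048855892746252171976963317496166410141009864396001978282409984) (nat_lit 28948022309329048855892746252171976963317496166410141009864396001978282409984) fun Y1 => afe b (nat_lit 28948022309329048855892746252171976963317496166410141009864396001978282409984) (nat_lit 0) (nat_lit 28948022309329048855892746252171976963317496166410141009864396001978282409984) (nat_lit 28948022309329048855892746252171976963317501358706999544692024532474611630080) (nat_lit 28948022309329048855892746252171976963317496166410141009864396001978282409984) fun Y2 =>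
  afe b (nat_lit 28948022309329048855892746252171976963317496166410141009864396001978282409984) (nat_lit 0) (nat_lit 28948022309329048855892746252171976963317496166410141009864396001978282409984) (nat_lit 28948022309329048855892746252171976963317496166410141009864396001978282409984) (nat_lit 28948022309329048855892746252171976963317501358706999544692024532474611630080) fun Y3 =>
  afe b (nat_lit 28948022309329048855892746252171976963317496166410141009864396001978282409984) (nat_lit 0) (nat_lit 28948022309329048855892746252171976963317501358706999544692024532474611630080) (nat_lit 28948022309329048855892746252171976963317501358706999544692024532474611630080) (nat_lit 28948022309329048855892746252171976963317490974113282475036767471481953189888) fun N3 =>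
  tmul Y1 Y2 fun X => tx X fun X => tmul N3 N3 fun Z => t4s X.t Z fun V => tmul X Y3 fun Z => ts4 V Z fun P =>
  tx P fun P => tsq P fun W => tx W fun W => tang N3 W fun A3 => tx A3 fun A3 => thi A3 nal ||
  afe b (nat_lit 28948022309329048855892746252171976963317506551003858079519653062970940850176) (nat_lit 0) (nat_lit 28948022309329048855892746252171976963317490974113282475036767471481953189888) (nat_lit 28948022309329048855892746252171976963317490974113282475036767471481953189888) (nat_lit 28948022309329048855892746252171976963317490974113282475036767471481953189888) fun S => tang W S fun E =>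
  afe b (nat_lit 28948022309329048855892746252171976963317496166410141009864396001978282409984) (nat_lit 0) (nat_lit 28948022309329048855892746252171976963317501358706999544692024532474611630080) (nat_lit 28948022309329048855892746252171976963317490974113282475036767471481953189888) (nat_lit 28948022309329048855892746252171976963317501358706999544692024532474611630080) fun N2 => tang N2 W fun A2 =>
  tx V fun V => tsq V fun T => k T E A2 A3

def pot (d : TE) (L : TM) (u v : ℕ) (k : TM → Bool) : Bool :=
  brb (chk (Nat.beq u (nat_lit 28948022309329048855892746252171976963317496166410141009864396001978282409984)) (Nat.beq v (nat_lit 28948022309329048855892746252171976963317496166410141009864396001978282409984))) (tsm v (nat_lit 0) d fun w => tac w u (nat_lit 0) (nat_lit 0) fun w => tx w fun w => tmul d d fun s => tx s fun s =>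
    tmul s w fun z => tadd L z k) (k L)

def acc (G : TM) (d : TE) (L : TM) (k : TM → Bool) : Bool := tx L fun L => tmul d L fun z => tadd G z k

def kl (b : Bs) (A : TE) (l : List (ℕ × ℕ)) : TM → (TM → Bool) → Bool :=
  List.rec (fun G k => k G) (fun e _ ih G k => afe b e.2 (nat_lit 0) (nat_lit 28948022309329048855892746252171976963317496166410141009864396001978282409984) (nat_lit 28948022309329048855892746252171976963317496166410141009864396001978282409984) (nat_lit 28948022309329048855892746252171976963317501358706999544692024532474611630080) fun u =>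
    brb (thi u (nat_lit 28948022309329048855892746252171976963317496166410141009864396001978282409984)) (tcb u fun c => tx c fun c => tsm e.1 (nat_lit 0) c fun c => acc G A c fun G => ih G k) (ih G k)) l

def comb (p : Par) (d b : Bs) (T E A2 : TM) (A3 : TE) (k : TM → Bool) : Bool :=
  tac E p.a1 p.er (nat_lit 0) fun x => tx x fun x => tac A2 p.a2 p.er (nat_lit 0) fun y => tx y fun y =>
  tac A3.t p.a3 p.er (nat_lit 0) fun z => tx z fun z =>
  aff d p.l4 p.er p.q14 p.q24 p.q34 fun L => tsm p.q44 (nat_lit 0) x fun u => tadd L u fun L =>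
  tsm p.q45 (nat_lit 0) y fun u => tadd L u fun L => tsm p.q46 (nat_lit 0) z fun u => tadd L u fun L =>
  tx L fun L => tmul x L fun G => tsub G T fun G => tac G p.l0 p.er (nat_lit 0) fun G =>
  aff d p.l5 p.er p.q15 p.q25 p.q35 fun L => tsm p.q55 (nat_lit 0) y fun u => tadd L u fun L =>
  tsm p.q56 (nat_lit 0) z fun u => tadd L u fun L => acc G y L fun G =>
  aff d p.l6 p.er p.q16 p.q26 p.q36 fun L => tsm p.q66 (nat_lit 0) z fun u => tadd L u fun L => acc G z L fun G =>
  afe d (nat_lit 28948022309329048855892746252171976963317496166410141009864396001978282409984) (nat_lit 0) (nat_lit 28948022309329048855892746252171976963317501358706999544692024532474611630080) (nat_lit 28948022309329048855892746252171976963317496166410141009864396001978282409984) (nat_lit 28948022309329048855892746252171976963317496166410141009864396001978282409984) fun e => aff d p.l1 p.er p.q11 p.q12 p.q13 fun L =>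
  pot e L p.u1 p.v1 fun L => acc G e L fun G =>
  afe d (nat_lit 28948022309329048855892746252171976963317496166410141009864396001978282409984) (nat_lit 0) (nat_lit 28948022309329048855892746252171976963317496166410141009864396001978282409984) (nat_lit 28948022309329048855892746252171976963317501358706999544692024532474611630080) (nat_lit 28948022309329048855892746252171976963317496166410141009864396001978282409984) fun e => aff d p.l2 p.er (nat_lit 28948022309329048855892746252171976963317496166410141009864396001978282409984) p.q22 p.q23 fun L =>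
  pot e L p.u2 p.v2 fun L => acc G e L fun G =>
  afe d (nat_lit 28948022309329048855892746252171976963317496166410141009864396001978282409984) (nat_lit 0) (nat_lit 28948022309329048855892746252171976963317496166410141009864396001978282409984) (nat_lit 28948022309329048855892746252171976963317496166410141009864396001978282409984) (nat_lit 28948022309329048855892746252171976963317501358706999544692024532474611630080) fun e => aff d p.l3 p.er (nat_lit 28948022309329048855892746252171976963317496166410141009864396001978282409984) (nat_lit 28948022309329048855892746252171976963317496166410141009864396001978282409984) p.q33 fun L =>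
  pot e L p.u3 p.v3 fun L => acc G e L fun G => kl b A3 p.kk G k

def res (t0 t1 t2 t3 t4 t5 t6 t7 t8 : ℕ) (G : TM) : Bool :=
  TM.rec (fun c a1 a2 a3 q1 q2 q3 q4 q5 q6 r0 r1 r2 =>
    (Nat.ble (Nat.add (Nat.add (Nat.add (Nat.add (Nat.add (Nat.add (Nat.add (Nat.add (Nat.add (Nat.add (Nat.add (Nat.add (nat_lit 28948022309329048855892746252171976963317496166410141009864396001978282409984) r0) r1) r2) (az (zs a1 (rx (Nat.mul (nat_lit 2) (Nat.mul t0 t1)))))) (az (zs a2 (rx (Nat.mul (nat_lit 2) (Nat.add (Nat.mul t0 t2) (Nat.mul t4 t5))))))) (az (zs a3 (rx (Nat.mul (nat_lit 2) (Nat.add (Nat.add (Nat.mul t0 t3) (Nat.mul t4 t6)) (Nat.mul t7 t8))))))) (az (zs q4 (rx (Nat.mul (nat_lit 2) (Nat.mul t1 t2)))))) (az (zs q5 (rx (Nat.mul (nat_lit 2) (Nat.mul t1 t3)))))) (az (zs q6 (rx (Nat.mul (nat_lit 2) (Nat.add (Nat.mul t2 t3) (Nat.mul t5 t6))))))) (Nat.sub (rx (Nat.mul t1 t1)) q1)) (Nat.sub (rx (Nat.add (Nat.mul t2 t2) (Nat.mul t5 t5))) q2)) (Nat.sub (rx (Nat.add (Nat.add (Nat.mul t3 t3) (Nat.mul t6 t6)) (Nat.mul t8 t8))) q3)) (zs c (rx (Nat.add (Nat.add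 (Nat.mul t0 t0) (Nat.mul t4 t4)) (Nat.mul t7 t7)))))) G

def tau (pay sc i : ℕ) : ℕ := (Nat.sub (Nat.add (Nat.mul (Nat.land (Nat.shiftRight pay i) (nat_lit 2047)) sc) (nat_lit 28948022309329048855892746252171976963317496166410141009864396001978282409984)) (Nat.mul (nat_lit 1024) sc))

def sl (c i a : ℕ) : ℕ := brn (Nat.beq c i) (nat_lit 0) a

def cutT (e : ℕ × ℕ × ℕ × ℕ) (a1 b1 a2 b2 a3 b3 : ℕ) : Bool :=
  Nat.ble (Nat.succ (Nat.add e.2.2.2 (Nat.add (Nat.add (sl e.1 2 b1) (sl e.2.1 2 b2)) (sl e.2.2.1 2 b3))))
    (Nat.add (nat_lit 18014398509481984) (Nat.add (Nat.add (sl e.1 1 a1) (sl e.2.1 1 a2)) (sl e.2.2.1 1 a3)))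

def tleaf (p : Par) (pay a1 r1 a2 r2 a3 r3 : ℕ) : Bool :=
  brb (Nat.beq (Nat.land pay (nat_lit 1)) (nat_lit 1))
    (let c1 := (Nat.add (Nat.shiftLeft (Nat.add a1 r1) (nat_lit 80)) (nat_lit 28948022309329048855892746252171976957872978295675125594450402283069991026688))
    let c2 := (Nat.add (Nat.shiftLeft (Nat.add a2 r2) (nat_lit 80)) (nat_lit 28948022309329048855892746252171976957872978295675125594450402283069991026688))
    let c3 := (Nat.add (Nat.shiftLeft (Nat.add a3 r3) (nat_lit 80)) (nat_lit 28948022309329048855892746252171976957872978295675125594450402283069991026688))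
    let p1 := (Nat.add (Nat.shiftLeft r1 (nat_lit 80)) (nat_lit 28948022309329048855892746252171976963317496166410141009864396001978282409984))
    let p2 := (Nat.add (Nat.shiftLeft r2 (nat_lit 80)) (nat_lit 28948022309329048855892746252171976963317496166410141009864396001978282409984))
    let p3 := (Nat.add (Nat.shiftLeft r3 (nat_lit 80)) (nat_lit 28948022309329048855892746252171976963317496166410141009864396001978282409984))
    let sc : ℕ := brn (Nat.beq pay (nat_lit 0)) (Nat.shiftLeft (nat_lit 1) (Nat.add (Nat.land (Nat.shiftRight pay (nat_lit 1)) (nat_lit 31)) (nat_lit 24))) (nat_lit 0)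
    chk (Nat.ble (Nat.add (Nat.add (Nat.add (Nat.add (Nat.add (Nat.add (az c1) (az c2)) (az c3)) (az p1)) (az p2)) (az p3)) sc) (nat_lit 332306998946228968225951765070086144)) (geoT p.nal ⟨c1, c2, c3, p1, p2, p3, (nat_lit 0)⟩ fun T E A2 A3 =>
      comb p ⟨zs c1 p.y1, zs c2 p.y2, zs c3 p.y3, p1, p2, p3, p.er⟩ ⟨c1, c2, c3, p1, p2, p3, (nat_lit 0)⟩ T E A2 A3
        (res (tau pay sc (nat_lit 6)) (tau pay sc (nat_lit 17)) (tau pay sc (nat_lit 28)) (tau pay sc (nat_lit 39))
          (tau pay sc (nat_lit 50)) (tau pay sc (nat_lit 61)) (tau pay sc (nat_lit 72)) (tau pay sc (nat_lit 83))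
          (tau pay sc (nat_lit 94)))))
    (brb (Nat.beq pay (nat_lit 31)) (cutT (p.ct.getD (Nat.shiftRight pay (nat_lit 1)) (0, 0, 0, (nat_lit 18014398509481984))) a1 (Nat.add a1 (Nat.mul (nat_lit 2) r1)) a2 (Nat.add a2 (Nat.mul (nat_lit 2) r2)) a3 (Nat.add a3 (Nat.mul (nat_lit 2) r3)))
      ((Nat.ble p.h1 a1) && (Nat.ble (Nat.add a1 (Nat.mul (nat_lit 2) r1)) p.g1) && (Nat.ble p.h2 a2) && (Nat.ble (Nat.add a2 (Nat.mul (nat_lit 2) r2)) p.g2) &&
        (Nat.ble p.h3 a3) && (Nat.ble (Nat.add a3 (Nat.mul (nat_lit 2) r3)) p.g3)))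

def bb2 (lf : ℕ → ℕ → ℕ → ℕ → ℕ → ℕ → ℕ → Bool) (fuel : ℕ) : ℕ → ℕ → ℕ → ℕ → ℕ → ℕ → ℕ → Bool :=
  Nat.rec (fun _ _ _ _ _ _ _ => false) (fun _ ih code a1 r1 a2 r2 a3 r3 =>
    fN (Nat.land code 3) fun d => bif Nat.beq d 0 then fS (Nat.shiftRight code 2) fun y => lf y a1 r1 a2 r2 a3 r3 else
    fN (Nat.land (Nat.shiftRight code 2) 31) fun w =>
    fN (Nat.land (Nat.shiftRight code 7) (Nat.pred (Nat.shiftLeft 1 w))) fun n =>
    fN (Nat.shiftRight code (Nat.add 7 w)) fun e =>
    fS (Nat.land e (Nat.pred (Nat.shiftLeft 1 n))) fun x => fS (Nat.shiftRight e n) fun z =>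
    bif Nat.beq d 1 then fS (Nat.sub r1 (Nat.shiftRight r1 1)) fun s => fS (Nat.add a1 r1) fun b =>
      ih x a1 s a2 r2 a3 r3 && ih z b s a2 r2 a3 r3
    else bif Nat.beq d 2 then fS (Nat.sub r2 (Nat.shiftRight r2 1)) fun s => fS (Nat.add a2 r2) fun b =>
      ih x a1 r1 a2 s a3 r3 && ih z a1 r1 b s a3 r3
    else fS (Nat.sub r3 (Nat.shiftRight r3 1)) fun s => fS (Nat.add a3 r3) fun b =>
      ih x a1 r1 a2 r2 a3 s && ih z a1 r1 a2 r2 b s) fuel

end Pool.Agent.Work.MP_c2ab8b_gt.K8
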