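import Pool.Agent.Work.MP_c2ab8b_gt.K8.TM

/- Soundness of the basic Taylor model operations. -/

noncomputable section
namespace Pool.Agent.Work.MP_c2ab8b_gt.K8

theorem chk_s {b v : Bool} (h : chk b v = true) : b = true ∧ v = true := by
  cases b
  · exact absurd h (by simp [chk])
  · exact ⟨rfl, h⟩

theorem brb_s {b u v : Bool} (h : brb b u v = true) : (b = true ∧ v = true) ∨ (b = false ∧ u = true) := rec_s h

def vz (u : ℕ) : ℝ := (u : ℝ) - 2 ^ 254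

theorem cB : (((nat_lit 28948022309329048855892746252171976963317496166410141009864396001978282409984) : ℕ) : ℝ) = 2 ^ 254 := by norm_num
theorem vz_B : vz (nat_lit 28948022309329048855892746252171976963317496166410141009864396001978282409984) = 0 := by unfold vz; rw [cB, sub_self]
theorem vz_add (a : ℕ) : vz (Nat.add a (nat_lit 28948022309329048855892746252171976963317496166410141009864396001978282409984)) = a := by unfold vz; rw [Nat.add_eq, Nat.cast_add, cB]; ring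
theorem vz_sub {a : ℕ} (h : (a : ℝ) ≤ 2 ^ 254) : vz (Nat.sub (nat_lit 28948022309329048855892746252171976963317496166410141009864396001978282409984) a) = -a := by
  unfold vz; rw [cast_sub' (by rw [cB]; exact h), cB]; ring

theorem cast_ad (u b : ℕ) : ((Nat.add (Nat.sub u b) (Nat.sub b u) : ℕ) : ℝ) = |(u : ℝ) - b| := by
  simp only [Nat.add_eq, Nat.sub_eq]
  rcases le_total u b with h | h
  · rw [Nat.sub_eq_zero_of_le h, Nat.cast_add, Nat.cast_sub h, abs_of_nonpos]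
    · push_cast; ring
    · have : (u : ℝ) ≤ b := by exact_mod_cast h
      linarith
  · rw [Nat.sub_eq_zero_of_le h, Nat.cast_add, Nat.cast_sub h, abs_of_nonneg]
    · push_cast; ring
    · have : (b : ℝ) ≤ u := by exact_mod_cast h
      linarith

theorem cast_az (u : ℕ) : (az u : ℝ) = |vz u| := by unfold az vz; rw [cast_ad, cB]

/-- `x` represents the real `z` modulo `2^254` -/
def Md (x : ℕ) (z : ℝ) : Prop := ∃ y k : ℤ, (y : ℝ) = z ∧ (x : ℤ) = y + k * 2 ^ 254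

theorem Md.mul (a b : ℕ) : Md (Nat.mul a b) (vz a * vz b) :=
  ⟨((a : ℤ) - 2 ^ 254) * (b - 2 ^ 254), a + b - 2 ^ 254, by unfold vz; push_cast; ring,
    by rw [Nat.mul_eq]; push_cast; ring⟩

theorem Md.add {a b : ℕ} {x y : ℝ} (h : Md a x) (g : Md b y) : Md (Nat.add a b) (x + y) := by
  obtain ⟨p, k, rfl, h⟩ := h
  obtain ⟨q, l, rfl, g⟩ := g
  exact ⟨p + q, k + l, by push_cast; ring, by rw [Nat.add_eq]; push_cast; rw [h, g]; ring⟩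

theorem Md.two {a : ℕ} {x : ℝ} (h : Md a x) : Md (Nat.mul (nat_lit 2) a) (2 * x) := by
  obtain ⟨p, k, rfl, h⟩ := h
  exact ⟨2 * p, 2 * k, by push_cast; ring, by rw [Nat.mul_eq]; push_cast; rw [h]; ring⟩

theorem md_aux (x H B : ℕ) (y k : ℤ) (hB : B = 2 * H) (h : (x : ℤ) = y + k * B) (h1 : -(H : ℤ) ≤ y) (h2 : y < H) :
    ((Nat.mod (Nat.add x H) B : ℕ) : ℤ) = y + H := by
  show (((x + H) % B : ℕ) : ℤ) = _
  push_cast
  rw [h, show y + k * B + H = y + H + k * B by ring, Int.add_mul_emod_self_right,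
    Int.emod_eq_of_lt (by omega) (by omega)]

theorem Md.md {x : ℕ} {z : ℝ} (h : Md x z) (hz : |z| ≤ 2 ^ 252) :
    (((Nat.mod (Nat.add x (nat_lit 14474011154664524427946373126085988481658748083205070504932198000989141204992)) (nat_lit 28948022309329048855892746252171976963317496166410141009864396001978282409984)) : ℕ) : ℝ) = z + 2 ^ 253 := by
  obtain ⟨y, k, rfl, h⟩ := h
  have hz : |y| ≤ 2 ^ 252 := by exact_mod_cast hz
  have hz := abs_le.1 hz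
  have e : (((nat_lit 14474011154664524427946373126085988481658748083205070504932198000989141204992) : ℕ) : ℤ) = 2 ^ 253 := by norm_num
  have := md_aux x (nat_lit 14474011154664524427946373126085988481658748083205070504932198000989141204992) (nat_lit 28948022309329048855892746252171976963317496166410141009864396001978282409984) y k (by norm_num) (by rw [h]; norm_num) (by rw [e]; linarith [hz.1])
    (by rw [e]; linarith [hz.2])
  rw [e] at this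
  exact_mod_cast this

theorem rn_s {x : ℕ} {z : ℝ} (h : Md x z) (hz : |z| ≤ 2 ^ 252) :
    |vz (rn x) * 2 ^ 112 - z| ≤ 2 ^ 112 ∧ |vz (rn x)| ≤ 1 * 2 ^ 141 := by
  have a := shr_bd (Nat.mod (Nat.add x (nat_lit 14474011154664524427946373126085988481658748083205070504932198000989141204992)) (nat_lit 28948022309329048855892746252171976963317496166410141009864396001978282409984)) 112
  rw [h.md hz] at a
  have := abs_le.1 hz
  unfold rn vz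
  rw [Nat.add_eq, Nat.cast_add]
  generalize ((Nat.shiftRight _ _ : ℕ) : ℝ) = s at *
  push_cast
  refine ⟨abs_le.2 ⟨?_, ?_⟩, abs_le.2 ⟨?_, ?_⟩⟩ <;> linarith [a.1, a.2, this.1, this.2]

theorem rx_s {x : ℕ} {z : ℝ} (h : Md x z) (hz : |z| ≤ 2 ^ 252) : vz (rx x) = z := by
  unfold rx vz
  rw [Nat.add_eq, Nat.cast_add, h.md hz]; push_cast; ring

variable {i j : ℝ}

theorem za_s {a b : ℕ} (ha : |vz a| ≤ i * 2 ^ 141) (hb : |vz b| ≤ j * 2 ^ 141) (h : i + j ≤ 10000) :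
    vz (za a b) = vz a + vz b ∧ |vz (za a b)| ≤ (i + j) * 2 ^ 141 := by
  have e : vz (za a b) = vz a + vz b := by
    have := abs_le.1 ha; have := abs_le.1 hb
    unfold za vz at *
    rw [cast_sub'] <;> rw [Nat.add_eq, Nat.cast_add, cB] <;> linarith
  exact ⟨e, by rw [e]; linarith [abs_add_le (vz a) (vz b)]⟩

theorem zs_s {a b : ℕ} (ha : |vz a| ≤ i * 2 ^ 141) (hb : |vz b| ≤ j * 2 ^ 141) (h : i + j ≤ 10000) :
    vz (zs a b) = vz a - vz b ∧ |vz (zs a b)| ≤ (i + j) * 2 ^ 141 := by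
  have e : vz (zs a b) = vz a - vz b := by
    have := abs_le.1 ha; have := abs_le.1 hb
    unfold zs vz at *
    rw [cast_sub'] <;> rw [Nat.add_eq, Nat.cast_add, cB] <;> linarith
  exact ⟨e, by rw [e]; linarith [abs_sub (vz a) (vz b)]⟩

theorem z4_s {a : ℕ} (ha : |vz a| ≤ i * 2 ^ 141) (h : i ≤ 1000) :
    vz (z4 a) = 4 * vz a ∧ |vz (z4 a)| ≤ (4 * i) * 2 ^ 141 := by
  have e : vz (z4 a) = 4 * vz a := by
    have := abs_le.1 ha
    unfold z4 vz at *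
    rw [cast_sub'] <;> rw [Nat.mul_eq] <;> push_cast <;> linarith
  exact ⟨e, by rw [e, abs_mul, abs_of_pos (by norm_num : (0 : ℝ) < 4)]; linarith⟩

attribute [local irreducible] az rn rx za zs z4

structure Nz where
  e1 : ℝ
  e2 : ℝ
  e3 : ℝ
  η : ℝ
  h1 : |e1| ≤ η
  h2 : |e2| ≤ η
  h3 : |e3| ≤ η
  h : η ≤ 1

variable {ε : Nz} {x x0 l y y0 m : ℝ}

def Nz.lin (ε : Nz) (a b c : ℝ) : ℝ := a * ε.e1 + b * ε.e2 + c * ε.e3
def Nz.qd (ε : Nz) (a b c d e f : ℝ) : ℝ :=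
  a * (ε.e1 * ε.e1) + b * (ε.e2 * ε.e2) + c * (ε.e3 * ε.e3) + d * (ε.e1 * ε.e2) + e * (ε.e1 * ε.e3) +
    f * (ε.e2 * ε.e3)

theorem Nz.p (ε : Nz) : 0 ≤ ε.η := (abs_nonneg _).trans ε.h1

theorem Nz.lin_le (ε : Nz) {a b c A B C : ℝ} (ha : |a| ≤ A) (hb : |b| ≤ B) (hc : |c| ≤ C) :
    |ε.lin a b c| ≤ (A + B + C) * ε.η := by
  unfold Nz.lin
  linarith [abs_add_three (a * ε.e1) (b * ε.e2) (c * ε.e3), prod_bd ha ε.h1, prod_bd hb ε.h2, prod_bd hc ε.h3]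

theorem Nz.qd_le (ε : Nz) {a b c d e f A B C D E F : ℝ} (ha : |a| ≤ A) (hb : |b| ≤ B) (hc : |c| ≤ C)
    (hd : |d| ≤ D) (he : |e| ≤ E) (hf : |f| ≤ F) :
    |ε.qd a b c d e f| ≤ (A + B + C + D + E + F) * (ε.η * ε.η) := by
  unfold Nz.qd
  have h1 := abs_le.1 (prod_bd ha (prod_bd ε.h1 ε.h1))
  have h2 := abs_le.1 (prod_bd hb (prod_bd ε.h2 ε.h2))
  have h3 := abs_le.1 (prod_bd hc (prod_bd ε.h3 ε.h3))
  have h4 := abs_le.1 (prod_bd hd (prod_bd ε.h1 ε.h2))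
  have h5 := abs_le.1 (prod_bd he (prod_bd ε.h1 ε.h3))
  have h6 := abs_le.1 (prod_bd hf (prod_bd ε.h2 ε.h3))
  rw [abs_le]; constructor <;> linarith [h1.1, h2.1, h3.1, h4.1, h5.1, h6.1, h1.2, h2.2, h3.2, h4.2, h5.2, h6.2]

def TM.L (X : TM) (ε : Nz) : ℝ := ε.lin (vz X.a1) (vz X.a2) (vz X.a3)
def TM.Q (X : TM) (ε : Nz) : ℝ := ε.qd (vz X.q1) (vz X.q2) (vz X.q3) (vz X.q4) (vz X.q5) (vz X.q6)

structure Sz (b : ℝ) (X : TM) : Prop where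
  c : |vz X.c| ≤ b
  a1 : |vz X.a1| ≤ b
  a2 : |vz X.a2| ≤ b
  a3 : |vz X.a3| ≤ b
  q1 : |vz X.q1| ≤ b
  q2 : |vz X.q2| ≤ b
  q3 : |vz X.q3| ≤ b
  q4 : |vz X.q4| ≤ b
  q5 : |vz X.q5| ≤ b
  q6 : |vz X.q6| ≤ b

/-- `x` is the value, `x0` the value at the centre and `l` the first order part -/
structure In (ε : Nz) (j : ℝ) (X : TM) (x x0 l : ℝ) : Prop where
  s : Sz (j * 2 ^ 141) X
  e0 : |x0 * 2 ^ 112 - vz X.c| ≤ (X.r0 : ℝ)
  e1 : |l * 2 ^ 112 - X.L ε| ≤ X.r1 * ε.η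
  e2 : |(x - x0 - l) * 2 ^ 112 - X.Q ε| ≤ X.r2 * (ε.η * ε.η)

structure IE (ε : Nz) (j : ℝ) (X : TE) (x x0 l : ℝ) : Prop where
  i : In ε j X.t x x0 l
  m : |vz X.t.c| + X.t.r0 = X.m
  n : |vz X.t.a1| + |vz X.t.a2| + |vz X.t.a3| + X.t.r1 = X.n
  k : |vz X.t.q1| + |vz X.t.q2| + |vz X.t.q3| + |vz X.t.q4| + |vz X.t.q5| + |vz X.t.q6| + X.t.r2 = X.k

theorem Sz.mono {a b : ℝ} {X : TM} (h : Sz a X) (g : a ≤ b) : Sz b X :=
  ⟨h.c.trans g, h.a1.trans g, h.a2.trans g, h.a3.trans g, h.q1.trans g, h.q2.trans g, h.q3.trans g, h.q4.trans g,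
    h.q5.trans g, h.q6.trans g⟩

theorem In.mono {X : TM} (h : In ε i X x x0 l) (g : i ≤ j) : In ε j X x x0 l :=
  ⟨h.s.mono (by linarith), h.e0, h.e1, h.e2⟩

theorem In.congr {X : TM} (h : In ε i X x x0 l) (a : x = y) (b : x0 = y0) (c : l = m) : In ε i X y y0 m := by
  subst a b c; exact h

theorem IE.congr {X : TE} (h : IE ε i X x x0 l) (a : x = y) (b : x0 = y0) (c : l = m) : IE ε i X y y0 m := by
  subst a b c; exact h

theorem tx_s {X : TM} {k : TE → Bool} (h : In ε i X x x0 l) (e : tx X k = true) :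
    ∃ Z, IE ε i Z x x0 l ∧ k Z = true := by
  obtain ⟨c, a1, a2, a3, q1, q2, q3, q4, q5, q6, r0, r1, r2⟩ := X
  exact ⟨_, ⟨h, by simp only [Nat.add_eq, Nat.cast_add, cast_az], by simp only [Nat.add_eq, Nat.cast_add, cast_az],
    by simp only [Nat.add_eq, Nat.cast_add, cast_az]⟩, e⟩

theorem IE.bd {X : TE} (h : IE ε i X x x0 l) :
    |x0 * 2 ^ 112| ≤ (X.m : ℝ) ∧ |vz X.t.c| ≤ X.m ∧ |l * 2 ^ 112| ≤ X.n * ε.η ∧ |X.t.L ε| ≤ X.n * ε.η ∧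
      |(x - x0 - l) * 2 ^ 112| ≤ X.k * (ε.η * ε.η) ∧ |X.t.Q ε| ≤ X.k * (ε.η * ε.η) ∧
      Sz ((X.m : ℝ) + X.n + X.k) X.t := by
  have a := ε.lin_le (le_refl |vz X.t.a1|) (le_refl |vz X.t.a2|) (le_refl |vz X.t.a3|)
  have b := ε.qd_le (le_refl |vz X.t.q1|) (le_refl |vz X.t.q2|) (le_refl |vz X.t.q3|) (le_refl |vz X.t.q4|)
    (le_refl |vz X.t.q5|) (le_refl |vz X.t.q6|)
  have p0 : (0 : ℝ) ≤ X.t.r0 := Nat.cast_nonneg _
  have p1 : (0 : ℝ) ≤ X.t.r1 := Nat.cast_nonneg _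
  have p2 : (0 : ℝ) ≤ X.t.r2 := Nat.cast_nonneg _
  have t := fun u v : ℝ => abs_sub_abs_le_abs_sub u v
  have g1 := mul_nonneg p1 ε.p
  have g2 := mul_nonneg p2 (mul_nonneg ε.p ε.p)
  rw [← h.m, ← h.n, ← h.k]
  have := abs_nonneg (vz X.t.c); have := abs_nonneg (vz X.t.a1); have := abs_nonneg (vz X.t.a2)
  have := abs_nonneg (vz X.t.a3); have := abs_nonneg (vz X.t.q1); have := abs_nonneg (vz X.t.q2)
  have := abs_nonneg (vz X.t.q3); have := abs_nonneg (vz X.t.q4); have := abs_nonneg (vz X.t.q5)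
  have := abs_nonneg (vz X.t.q6)
  refine ⟨by linarith [t (x0 * 2 ^ 112) (vz X.t.c), h.i.e0], by linarith, ?_, ?_, ?_, ?_,
    by constructor <;> linarith⟩
  · have := t (l * 2 ^ 112) (X.t.L ε); have := h.i.e1; unfold TM.L at *; linarith
  · unfold TM.L; linarith
  · have := t ((x - x0 - l) * 2 ^ 112) (X.t.Q ε); have := h.i.e2; unfold TM.Q at *; linarith
  · unfold TM.Q; linarith

theorem mul_err {η x l s c a q y m t d b p M N K P Q R r0 r1 r2 s0 s1 s2 : ℝ} (h0 : 0 ≤ η) (h1 : η ≤ 1)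
    (e0 : |x - c| ≤ r0) (e1 : |l - a| ≤ r1 * η) (e2 : |s - q| ≤ r2 * (η * η))
    (f0 : |y - d| ≤ s0) (f1 : |m - b| ≤ s1 * η) (f2 : |t - p| ≤ s2 * (η * η))
    (bx : |x| ≤ M) (bl : |l| ≤ N * η) (ba : |a| ≤ N * η) (bs : |s| ≤ K * (η * η)) (bq : |q| ≤ K * (η * η))
    (by' : |y| ≤ P) (bd : |d| ≤ P) (bm : |m| ≤ Q * η) (bb : |b| ≤ Q * η) (bt : |t| ≤ R * (η * η))
    (bp : |p| ≤ R * (η * η)) (n : 0 ≤ N) (k : 0 ≤ K) (n' : 0 ≤ Q) :
    |x * y - c * d| ≤ M * s0 + P * r0 ∧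
    |x * m + y * l - (c * b + d * a)| ≤ (M * s1 + P * r1 + r0 * Q + s0 * N) * η ∧
    |(x + l + s) * (y + m + t) - x * y - (x * m + y * l) - (c * p + d * q + a * b)| ≤
      (M * s2 + P * r2 + (r0 + N + K) * R + (s0 + Q) * K + N * s1 + Q * r1) * (η * η) := by
  have l1 : |l| ≤ N := bl.trans (mul_le_of_le_one_right n h1)
  have m1 : |m| ≤ Q := bm.trans (mul_le_of_le_one_right n' h1)
  have s1' : |s| ≤ K := bs.trans (mul_le_of_le_one_right k (mul_le_one₀ h1 h0 h1))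
  refine ⟨?_, ?_, ?_⟩
  · rw [show x * y - c * d = x * (y - d) + d * (x - c) by ring]
    exact (abs_add_le _ _).trans (add_le_add (prod_bd bx f0) (prod_bd bd e0))
  · have a1 := abs_le.1 (prod_bd bx f1); have a2 := abs_le.1 (prod_bd by' e1)
    have a3 := abs_le.1 (prod_bd e0 bb); have a4 := abs_le.1 (prod_bd f0 ba)
    rw [abs_le]; constructor <;> linarith [a1.1, a1.2, a2.1, a2.2, a3.1, a3.2, a4.1, a4.2]
  · have a1 := abs_le.1 (prod_bd bx f2); have a2 := abs_le.1 (prod_bd by' e2)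
    have a3 := abs_le.1 (prod_bd e0 bp); have a4 := abs_le.1 (prod_bd f0 bq)
    have a5 := abs_le.1 (prod_bd bl f1); have a6 := abs_le.1 (prod_bd e1 bb)
    have a7 := abs_le.1 (prod_bd l1 bt); have a8 := abs_le.1 (prod_bd s1' bt)
    have a9 := abs_le.1 (prod_bd m1 bs)
    rw [abs_le]
    constructor <;> linarith [a1.1, a1.2, a2.1, a2.2, a3.1, a3.2, a4.1, a4.2, a5.1, a5.2, a6.1, a6.2, a7.1, a7.2,
      a8.1, a8.2, a9.1, a9.2]

theorem fin_err {v V C z w E : ℝ} {n k : ℕ} (hw : 0 ≤ w) (h1 : |V - z| ≤ E) (h0 : V = v * 2 ^ 112 * 2 ^ 112)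
    (h2 : |C * 2 ^ 112 - z| ≤ ((k : ℝ) - 1) * 2 ^ 112 * w) (h3 : E = n * w) :
    |v * 2 ^ 112 - C| ≤ (Nat.add (Nat.shiftRight n (nat_lit 112)) k : ℕ) * w := by
  have a := mul_le_mul_of_nonneg_right (shr_bd n 112).2 hw
  have b := abs_le.1 h1; have c := abs_le.1 h2
  rw [Nat.add_eq, Nat.cast_add, abs_le]
  subst h3 h0
  constructor <;> linarith [b.1, b.2, c.1, c.2]

theorem b4 {a b c d S : ℝ} (ha : |a| ≤ S) (hb : |b| ≤ S) (hc : |c| ≤ S) (hd : |d| ≤ S) (h : S ≤ 2 ^ 250) :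
    |a| ≤ 2 ^ 252 ∧ |a + b| ≤ 2 ^ 252 ∧ |a + b + c| ≤ 2 ^ 252 ∧ |a + b + c + d| ≤ 2 ^ 252 := by
  have := abs_add_le a b; have := abs_add_le (a + b) c; have := abs_add_le (a + b + c) d
  refine ⟨?_, ?_, ?_, ?_⟩ <;> linarith

theorem tmul_s {X Y : TE} {k : TM → Bool} (hx : IE ε i X x x0 l) (hy : IE ε j Y y y0 m)
    (e : tmul X Y k = true) : ∃ Z, In ε 1 Z (x * y) (x0 * y0) (x0 * m + y0 * l) ∧ k Z = true := by
  obtain ⟨b1, -, b3, b4', b5, b6, S⟩ := hx.bd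
  obtain ⟨c1, c2, c3, c4, c5, c6, T⟩ := hy.bd
  obtain ⟨g0, g1, g2⟩ := mul_err ε.p ε.h hx.i.e0 hx.i.e1 hx.i.e2 hy.i.e0 hy.i.e1 hy.i.e2 b1 b3 b4' b5 b6 c1 c2 c3
    c4 c5 c6 (Nat.cast_nonneg _) (Nat.cast_nonneg _) (Nat.cast_nonneg _)
  obtain ⟨⟨c, a1, a2, a3, q1, q2, q3, q4, q5, q6, r0, r1, r2⟩, M, N, K⟩ := X
  obtain ⟨⟨d, u1, u2, u3, p1, p2, p3, p4, p5, p6, s0, s1, s2⟩, P, Q, R⟩ := Y
  clear hx hy b1 b3 b4' b5 b6 c1 c2 c3 c4 c5 c6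
  dsimp only at g0 g1 g2 S T
  obtain ⟨h, e⟩ := chk_s e
  have h := ble_r h
  simp only [Nat.add_eq, Nat.mul_eq, Nat.cast_add, Nat.cast_mul] at h
  have h : ((M : ℝ) + N + K) * (P + Q + R) ≤ 2 ^ 250 := h.trans (by norm_num)
  have f : ∀ {a b : ℕ}, |vz a| ≤ (M : ℝ) + N + K → |vz b| ≤ (P : ℝ) + Q + R → |vz a * vz b| ≤ _ := prod_bd
  have f' : ∀ {a b : ℕ}, |vz b| ≤ (M : ℝ) + N + K → |vz a| ≤ (P : ℝ) + Q + R →
      |vz a * vz b| ≤ ((M : ℝ) + N + K) * (P + Q + R) := fun u v => by rw [mul_comm (vz _)]; exact prod_bd u v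
  have z0 := rn_s (Md.mul c d) (b4 (f S.c T.c) (f S.c T.c) (f S.c T.c) (f S.c T.c) h).1
  have w : ∀ {a b : ℕ}, |vz a| ≤ (M : ℝ) + N + K → |vz b| ≤ (P : ℝ) + Q + R → _ := fun {a b} u v =>
    rn_s ((Md.mul c b).add (Md.mul d a)) (b4 (f S.c v) (f' u T.c) (f S.c v) (f S.c v) h).2.1
  have w3 : ∀ {q p a b : ℕ}, |vz q| ≤ (M : ℝ) + N + K → |vz p| ≤ (P : ℝ) + Q + R → |vz a| ≤ (M : ℝ) + N + K →
      |vz b| ≤ (P : ℝ) + Q + R → _ := fun {q p a b} s t u v =>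
    rn_s (((Md.mul c p).add (Md.mul d q)).add (Md.mul a b)) (b4 (f S.c t) (f' s T.c) (f u v) (f u v) h).2.2.1
  have w4 : ∀ {q p a b a' b' : ℕ}, |vz q| ≤ (M : ℝ) + N + K → |vz p| ≤ (P : ℝ) + Q + R →
      |vz a| ≤ (M : ℝ) + N + K → |vz b| ≤ (P : ℝ) + Q + R → |vz a'| ≤ (M : ℝ) + N + K →
      |vz b'| ≤ (P : ℝ) + Q + R → _ := fun {q p a b a' b'} s t u v u' v' =>
    rn_s ((((Md.mul c p).add (Md.mul d q)).add (Md.mul a b)).add (Md.mul a' b'))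
      (b4 (f S.c t) (f' s T.c) (f u v) (f u' v') h).2.2.2
  have z1 := w S.a1 T.a1; have z2 := w S.a2 T.a2; have z3 := w S.a3 T.a3
  have y1 := w3 S.q1 T.q1 S.a1 T.a1; have y2 := w3 S.q2 T.q2 S.a2 T.a2; have y3 := w3 S.q3 T.q3 S.a3 T.a3
  have y4 := w4 S.q4 T.q4 S.a1 T.a2 S.a2 T.a1; have y5 := w4 S.q5 T.q5 S.a1 T.a3 S.a3 T.a1
  have y6 := w4 S.q6 T.q6 S.a2 T.a3 S.a3 T.a2
  refine ⟨_, ⟨⟨z0.2, z1.2, z2.2, z3.2, y1.2, y2.2, y3.2, y4.2, y5.2, y6.2⟩, ?_, ?_, ?_⟩, e⟩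
  · have := fin_err (v := x0 * y0) (z := vz c * vz d) (C := vz (rn (Nat.mul c d))) (w := 1) (k := (nat_lit 2))
      (n := (Nat.add (Nat.mul M s0) (Nat.mul P r0))) zero_le_one g0 (by ring) (z0.1.trans (by norm_num))
      (by simp only [Nat.add_eq, Nat.mul_eq, Nat.cast_add, Nat.cast_mul, mul_one])
    rwa [mul_one] at this
  · refine fin_err ε.p g1 (by ring) ?_
      (by simp only [Nat.add_eq, Nat.mul_eq, Nat.cast_add, Nat.cast_mul])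
    refine le_trans (le_of_eq ?_) ((ε.lin_le z1.1 z2.1 z3.1).trans (le_of_eq (by push_cast; ring)))
    simp only [TM.L, Nz.lin]; congr 1; ring
  · refine fin_err (mul_nonneg ε.p ε.p) g2 (by ring) ?_
      (by simp only [Nat.add_eq, Nat.mul_eq, Nat.cast_add, Nat.cast_mul])
    refine le_trans (le_of_eq ?_) ((ε.qd_le y1.1 y2.1 y3.1 y4.1 y5.1 y6.1).trans (le_of_eq (by push_cast; ring)))
    simp only [TM.L, TM.Q, Nz.lin, Nz.qd]; congr 1; ring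

theorem tsm_s {X : TE} {t r : ℕ} {k : TM → Bool} (hx : IE ε i X x x0 l) (hy : |y * 2 ^ 112 - vz t| ≤ (r : ℝ))
    (e : tsm t r X k = true) : ∃ Z, In ε 1 Z (y * x) (y * x0) (y * l) ∧ k Z = true := by
  obtain ⟨b1, -, b3, b4', b5, b6, S⟩ := hx.bd
  have p : (0 : ℝ) ≤ r := Nat.cast_nonneg _
  have T : |vz t| ≤ |vz t| + r := by linarith
  have z : |(0 : ℝ) - 0| ≤ 0 * ε.η ∧ |(0 : ℝ) - 0| ≤ 0 * (ε.η * ε.η) ∧ |(0 : ℝ)| ≤ 0 * ε.η ∧
    |(0 : ℝ)| ≤ 0 * (ε.η * ε.η) := by simp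
  obtain ⟨g0, g1, g2⟩ := mul_err ε.p ε.h hx.i.e0 hx.i.e1 hx.i.e2 hy z.1 z.2.1 b1 b3 b4' b5 b6
    (P := |vz t| + r) (by linarith [abs_sub_abs_le_abs_sub (y * 2 ^ 112) (vz t)]) T z.2.2.1 z.2.2.1 z.2.2.2 z.2.2.2
    (Nat.cast_nonneg _) (Nat.cast_nonneg _) le_rfl
  obtain ⟨⟨c, a1, a2, a3, q1, q2, q3, q4, q5, q6, r0, r1, r2⟩, M, N, K⟩ := X
  clear hx b1 b3 b4' b5 b6
  dsimp only at g0 g1 g2 S
  obtain ⟨h, e⟩ := chk_s e
  have h := ble_r h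
  simp only [Nat.add_eq, Nat.mul_eq, Nat.cast_add, Nat.cast_mul, cast_az] at h
  have h : ((M : ℝ) + N + K) * (|vz t| + r) ≤ 2 ^ 252 := h.trans (by norm_num)
  have z0 := rn_s (Md.mul c t) ((prod_bd S.c T).trans h)
  have w : ∀ {a : ℕ}, |vz a| ≤ (M : ℝ) + N + K → _ := fun {a} u =>
    rn_s (Md.mul t a) (by rw [mul_comm]; exact (prod_bd u T).trans h)
  have z1 := w S.a1; have z2 := w S.a2; have z3 := w S.a3
  have y1 := w S.q1; have y2 := w S.q2; have y3 := w S.q3; have y4 := w S.q4; have y5 := w S.q5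
  have y6 := w S.q6
  refine ⟨_, ⟨⟨z0.2, z1.2, z2.2, z3.2, y1.2, y2.2, y3.2, y4.2, y5.2, y6.2⟩, ?_, ?_, ?_⟩, e⟩
  · have := fin_err (v := y * x0) (z := vz c * vz t) (C := vz (rn (Nat.mul c t))) (w := 1) (k := (nat_lit 2))
      (n := (Nat.add (Nat.mul M r) (Nat.mul (Nat.add (az t) r) r0))) zero_le_one g0 (by ring) (z0.1.trans (by norm_num))
      (by simp only [Nat.add_eq, Nat.mul_eq, Nat.cast_add, Nat.cast_mul, cast_az, mul_one])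
    rwa [mul_one] at this
  · refine fin_err ε.p g1 (by ring) ?_
      (by simp only [Nat.add_eq, Nat.mul_eq, Nat.cast_add, Nat.cast_mul, cast_az]; ring)
    refine le_trans (le_of_eq ?_) ((ε.lin_le z1.1 z2.1 z3.1).trans (le_of_eq (by push_cast; ring)))
    simp only [TM.L, Nz.lin]; congr 1; ring
  · refine fin_err (mul_nonneg ε.p ε.p) g2 (by ring) ?_
      (by simp only [Nat.add_eq, Nat.mul_eq, Nat.cast_add, Nat.cast_mul, cast_az]; ring)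
    refine le_trans (le_of_eq ?_) ((ε.qd_le y1.1 y2.1 y3.1 y4.1 y5.1 y6.1).trans (le_of_eq (by push_cast; ring)))
    simp only [TM.L, TM.Q, Nz.lin, Nz.qd]; congr 1; ring

theorem tadd_s {X Y : TM} {k : TM → Bool} (hx : In ε i X x x0 l) (hy : In ε j Y y y0 m) (h : i + j ≤ 10000)
    (e : tadd X Y k = true) : ∃ Z, In ε (i + j) Z (x + y) (x0 + y0) (l + m) ∧ k Z = true := by
  obtain ⟨S, e0, e1, e2⟩ := hx
  obtain ⟨T, f0, f1, f2⟩ := hy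
  have z0 := za_s S.c T.c h; have z1 := za_s S.a1 T.a1 h; have z2 := za_s S.a2 T.a2 h; have z3 := za_s S.a3 T.a3 h
  have y1 := za_s S.q1 T.q1 h; have y2 := za_s S.q2 T.q2 h; have y3 := za_s S.q3 T.q3 h
  have y4 := za_s S.q4 T.q4 h; have y5 := za_s S.q5 T.q5 h; have y6 := za_s S.q6 T.q6 h
  obtain ⟨c, a1, a2, a3, q1, q2, q3, q4, q5, q6, r0, r1, r2⟩ := X
  obtain ⟨d, u1, u2, u3, p1, p2, p3, p4, p5, p6, s0, s1, s2⟩ := Y
  refine ⟨_, ⟨⟨z0.2, z1.2, z2.2, z3.2, y1.2, y2.2, y3.2, y4.2, y5.2, y6.2⟩, ?_, ?_, ?_⟩, e⟩ <;>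
    simp only [TM.L, TM.Q, Nz.lin, Nz.qd, Nat.add_eq, Nat.cast_add, abs_le] at * <;>
    simp only [z0.1, z1.1, z2.1, z3.1, y1.1, y2.1, y3.1, y4.1, y5.1, y6.1] <;> constructor <;>
    linarith only [e0.1, e0.2, e1.1, e1.2, e2.1, e2.2, f0.1, f0.2, f1.1, f1.2, f2.1, f2.2]

theorem tsub_s {X Y : TM} {k : TM → Bool} (hx : In ε i X x x0 l) (hy : In ε j Y y y0 m) (h : i + j ≤ 10000)
    (e : tsub X Y k = true) : ∃ Z, In ε (i + j) Z (x - y) (x0 - y0) (l - m) ∧ k Z = true := by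
  obtain ⟨S, e0, e1, e2⟩ := hx
  obtain ⟨T, f0, f1, f2⟩ := hy
  have z0 := zs_s S.c T.c h; have z1 := zs_s S.a1 T.a1 h; have z2 := zs_s S.a2 T.a2 h; have z3 := zs_s S.a3 T.a3 h
  have y1 := zs_s S.q1 T.q1 h; have y2 := zs_s S.q2 T.q2 h; have y3 := zs_s S.q3 T.q3 h
  have y4 := zs_s S.q4 T.q4 h; have y5 := zs_s S.q5 T.q5 h; have y6 := zs_s S.q6 T.q6 h
  obtain ⟨c, a1, a2, a3, q1, q2, q3, q4, q5, q6, r0, r1, r2⟩ := X
  obtain ⟨d, u1, u2, u3, p1, p2, p3, p4, p5, p6, s0, s1, s2⟩ := Y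
  refine ⟨_, ⟨⟨z0.2, z1.2, z2.2, z3.2, y1.2, y2.2, y3.2, y4.2, y5.2, y6.2⟩, ?_, ?_, ?_⟩, e⟩ <;>
    simp only [TM.L, TM.Q, Nz.lin, Nz.qd, Nat.add_eq, Nat.cast_add, abs_le] at * <;>
    simp only [z0.1, z1.1, z2.1, z3.1, y1.1, y2.1, y3.1, y4.1, y5.1, y6.1] <;> constructor <;>
    linarith only [e0.1, e0.2, e1.1, e1.2, e2.1, e2.2, f0.1, f0.2, f1.1, f1.2, f2.1, f2.2]

theorem In.four {c a1 a2 a3 q1 q2 q3 q4 q5 q6 r0 r1 r2 : ℕ}
    (hx : In ε i ⟨c, a1, a2, a3, q1, q2, q3, q4, q5, q6, r0, r1, r2⟩ x x0 l) (h : i ≤ 1000) :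
    In ε (4 * i) ⟨z4 c, z4 a1, z4 a2, z4 a3, z4 q1, z4 q2, z4 q3, z4 q4, z4 q5, z4 q6, (Nat.mul (nat_lit 4) r0), (Nat.mul (nat_lit 4) r1),
      (Nat.mul (nat_lit 4) r2)⟩ (4 * x) (4 * x0) (4 * l) := by
  obtain ⟨S, e0, e1, e2⟩ := hx
  have z0 := z4_s S.c h; have z1 := z4_s S.a1 h; have z2 := z4_s S.a2 h; have z3 := z4_s S.a3 h
  have y1 := z4_s S.q1 h; have y2 := z4_s S.q2 h; have y3 := z4_s S.q3 h
  have y4 := z4_s S.q4 h; have y5 := z4_s S.q5 h; have y6 := z4_s S.q6 h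
  refine ⟨⟨z0.2, z1.2, z2.2, z3.2, y1.2, y2.2, y3.2, y4.2, y5.2, y6.2⟩, ?_, ?_, ?_⟩ <;>
    simp only [TM.L, TM.Q, Nz.lin, Nz.qd, Nat.mul_eq, Nat.cast_mul, abs_le] at * <;>
    simp only [z0.1, z1.1, z2.1, z3.1, y1.1, y2.1, y3.1, y4.1, y5.1, y6.1] <;> push_cast <;> constructor <;>
    linarith only [e0.1, e0.2, e1.1, e1.2, e2.1, e2.2]

theorem t4s_s {X Y : TM} {k : TM → Bool} (hx : In ε 1 X x x0 l) (hy : In ε 1 Y y y0 m)
    (e : t4s X Y k = true) : ∃ Z, In ε (4 * 1 + 1) Z (4 * x - y) (4 * x0 - y0) (4 * l - m) ∧ k Z = true := by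
  cases X
  exact tsub_s (hx.four (by norm_num)) hy (by norm_num) e

theorem ts4_s {X Y : TM} {k : TM → Bool} (hx : In ε (4 * 1 + 1) X x x0 l) (hy : In ε 1 Y y y0 m)
    (e : ts4 X Y k = true) : ∃ Z, In ε (4 * 1 + 1 + 4 * 1) Z (x - 4 * y) (x0 - 4 * y0) (l - 4 * m) ∧ k Z = true := by
  cases Y
  exact tsub_s hx (hy.four (by norm_num)) (by norm_num) e

theorem tac_s {X : TM} {t r R : ℕ} {k : TM → Bool} (hx : In ε i X x x0 l) (hy : |y0 * 2 ^ 112 - vz t| ≤ (r : ℝ))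
    (hR : |(y - (x + y0)) * 2 ^ 112| ≤ R * (ε.η * ε.η)) (h : i ≤ 9000) (e : tac X t r R k = true) :
    ∃ Z, In ε (i + 1) Z y (x0 + y0) l ∧ k Z = true := by
  obtain ⟨S, e0, e1, e2⟩ := hx
  obtain ⟨c, a1, a2, a3, q1, q2, q3, q4, q5, q6, r0, r1, r2⟩ := X
  obtain ⟨g, e⟩ := chk_s e
  have g := ble_r g
  rw [cast_az] at g
  have z := za_s (j := 1) S.c (g.trans (by norm_num)) (by linarith)
  have T := S.mono (b := (i + 1) * 2 ^ 141) (by linarith)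
  refine ⟨⟨za c t, a1, a2, a3, q1, q2, q3, q4, q5, q6, Nat.add r0 r, r1, Nat.add r2 R⟩,
    ⟨⟨z.2, T.a1, T.a2, T.a3, T.q1, T.q2, T.q3, T.q4, T.q5, T.q6⟩, ?_, ?_, ?_⟩, e⟩ <;>
    simp only [TM.L, TM.Q, Nat.add_eq, Nat.cast_add, abs_le] at e0 e1 e2 hy hR ⊢
  · rw [z.1]; constructor <;> linarith only [e0.1, e0.2, hy.1, hy.2]
  · exact e1
  · constructor <;> linarith only [e2.1, e2.2, hR.1, hR.2]

theorem tac0_s {X : TM} {t r : ℕ} {k : TM → Bool} (hx : In ε i X x x0 l) (hy : |y * 2 ^ 112 - vz t| ≤ (r : ℝ))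
    (h : i ≤ 9000) (e : tac X t r (nat_lit 0) k = true) : ∃ Z, In ε (i + 1) Z (x + y) (x0 + y) l ∧ k Z = true :=
  tac_s hx hy (by simp) h e

theorem dl_s {X : TE} {k : TE → Bool} (hx : IE ε i X x x0 l) (e : dl X k = true) :
    ∃ Z, IE ε i Z (x - x0) 0 l ∧ k Z = true := by
  obtain ⟨⟨c, a1, a2, a3, q1, q2, q3, q4, q5, q6, r0, r1, r2⟩, M, N, K⟩ := X
  obtain ⟨⟨S, e0, e1, e2⟩, -, n, k⟩ := hx
  refine ⟨⟨⟨(nat_lit 28948022309329048855892746252171976963317496166410141009864396001978282409984), a1, a2, a3, q1, q2, q3, q4, q5, q6, (nat_lit 0), r1, r2⟩, (nat_lit 0), N, K⟩, ⟨⟨⟨?_, S.a1, S.a2, S.a3, S.q1, S.q2, S.q3, S.q4, S.q5, S.q6⟩, ?_, e1, by rw [sub_zero]; exact e2⟩,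
    ?_, n, k⟩, e⟩
  · rw [vz_B, abs_zero]; exact (abs_nonneg _).trans S.c
  · rw [vz_B]; simp
  · rw [vz_B]; simp

theorem un_s {X : TE} {f0 e0 f1 e1 f2 e2 R : ℕ} {k : TM → Bool} {a b c : ℝ} (hx : IE ε i X x x0 l)
    (h0 : |a * 2 ^ 112 - vz f0| ≤ (e0 : ℝ)) (h1 : |b * 2 ^ 112 - vz f1| ≤ (e1 : ℝ)) (h2 : |c * 2 ^ 112 - vz f2| ≤ (e2 : ℝ))
    (hR : |(y - ((x - x0) * (c * (x - x0) + b) + a)) * 2 ^ 112| ≤ R * (ε.η * ε.η))
    (e : un X f0 e0 f1 e1 f2 e2 R k = true) : ∃ Z, In ε 2 Z y a (b * l) ∧ k Z = true := by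
  obtain ⟨d, hd, e⟩ := dl_s hx e
  obtain ⟨w, hw, e⟩ := tsm_s hd h2 e
  obtain ⟨w, hw, e⟩ := tac0_s hw h1 (by norm_num) e
  obtain ⟨w, hw, e⟩ := tx_s hw e
  obtain ⟨z, hz, e⟩ := tmul_s hd hw e
  obtain ⟨z, hz, e⟩ := tac_s hz h0 hR (by norm_num) e
  exact ⟨z, (hz.mono (by norm_num)).congr rfl (by ring) (by ring), e⟩

theorem IE.dev {X : TE} (h : IE ε i X x x0 l) : |x - x0| * 2 ^ 112 ≤ (Nat.add X.n X.k : ℕ) * ε.η := by
  obtain ⟨-, -, a, -, b, -⟩ := h.bd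
  have := abs_add_le (l * 2 ^ 112) ((x - x0 - l) * 2 ^ 112)
  rw [show l * 2 ^ 112 + (x - x0 - l) * 2 ^ 112 = (x - x0) * 2 ^ 112 by ring, abs_mul,
    abs_of_pos (by positivity : (0 : ℝ) < 2 ^ 112)] at this
  have k := mul_le_mul_of_nonneg_left (mul_le_of_le_one_right ε.p ε.h) (Nat.cast_nonneg X.k : (0 : ℝ) ≤ _)
  rw [Nat.add_eq, Nat.cast_add]; linarith

theorem thi_s {X : TE} {t : ℕ} (h : IE ε i X x x0 l) (e : thi X t = true) : x * 2 ^ 112 ≤ vz t := by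
  have a := h.dev
  have b := (abs_le.1 h.i.e0).2
  have c := ble_r e
  have d := mul_le_of_le_one_right (Nat.cast_nonneg (Nat.add X.n X.k) : (0 : ℝ) ≤ _) ε.h
  simp only [Nat.add_eq, Nat.cast_add] at a c d
  unfold vz at *
  linarith [le_abs_self (x - x0)]

/-- the three base variables: centres `x1 x2 x3` -/
structure IB (b : Bs) (x1 x2 x3 : ℝ) : Prop where
  e1 : |x1 * 2 ^ 112 - vz b.c1| ≤ (b.r : ℝ)
  e2 : |x2 * 2 ^ 112 - vz b.c2| ≤ (b.r : ℝ)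
  e3 : |x3 * 2 ^ 112 - vz b.c3| ≤ (b.r : ℝ)
  c1 : |vz b.c1| ≤ 2 ^ 121
  c2 : |vz b.c2| ≤ 2 ^ 121
  c3 : |vz b.c3| ≤ 2 ^ 121
  p1 : |vz b.p1| ≤ 2 ^ 121
  p2 : |vz b.p2| ≤ 2 ^ 121
  p3 : |vz b.p3| ≤ 2 ^ 121

def w (u : ℕ) : ℝ := vz u / 2 ^ 112

theorem w_ex (u : ℕ) : |w u * 2 ^ 112 - vz u| ≤ (((nat_lit 0) : ℕ) : ℝ) := by unfold w; simp
theorem w_B : w (nat_lit 28948022309329048855892746252171976963317496166410141009864396001978282409984) = 0 := by unfold w; rw [vz_B, zero_div]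
theorem w_1 : w (nat_lit 28948022309329048855892746252171976963317501358706999544692024532474611630080) = 1 := by unfold w vz; norm_num
theorem w_m : w (nat_lit 28948022309329048855892746252171976963317490974113282475036767471481953189888) = -1 := by unfold w vz; norm_num
theorem w_2 : w (nat_lit 28948022309329048855892746252171976963317506551003858079519653062970940850176) = 2 := by unfold w vz; norm_num

theorem ca (a b : ℕ) : ((Nat.add a b : ℕ) : ℝ) = a + b := Nat.cast_add a b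

theorem aff_s {b : Bs} {k0 e0 k1 k2 k3 : ℕ} {k : TM → Bool} {x1 x2 x3 a : ℝ} (ε : Nz) (hb : IB b x1 x2 x3)
    (h0 : |a * 2 ^ 112 - vz k0| ≤ (e0 : ℝ)) (e : aff b k0 e0 k1 k2 k3 k = true) :
    ∃ Z, In ε 2 Z (a + w k1 * (x1 + w b.p1 * ε.e1) + w k2 * (x2 + w b.p2 * ε.e2) + w k3 * (x3 + w b.p3 * ε.e3))
      (a + w k1 * x1 + w k2 * x2 + w k3 * x3)
      (w k1 * (w b.p1 * ε.e1) + w k2 * (w b.p2 * ε.e2) + w k3 * (w b.p3 * ε.e3)) ∧ k Z = true := by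
  obtain ⟨g, e⟩ := chk_s e
  have g := ble_r g
  simp only [Nat.add_eq, Nat.cast_add, cast_az] at g
  have := abs_nonneg (vz k0); have := abs_nonneg (vz k1); have := abs_nonneg (vz k2); have := abs_nonneg (vz k3)
  have g : |vz k1| + |vz k2| + |vz k3| + |vz k0| ≤ 2 ^ 128 := g.trans (by norm_num)
  have f : ∀ {a b : ℕ}, |vz a| ≤ 2 ^ 128 → |vz b| ≤ 2 ^ 121 → |vz a * vz b| ≤ 2 ^ 250 := fun u v =>
    (prod_bd u v).trans (by norm_num)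
  have f1 : |vz k1| ≤ 2 ^ 128 := by linarith
  have f2 : |vz k2| ≤ 2 ^ 128 := by linarith
  have f3 : |vz k3| ≤ 2 ^ 128 := by linarith
  have z := rn_s (((Md.mul k1 b.c1).add (Md.mul k2 b.c2)).add (Md.mul k3 b.c3))
    (b4 (f f1 hb.c1) (f f2 hb.c2) (f f3 hb.c3) (f f3 hb.c3) le_rfl).2.2.1
  have z0 := za_s (a := k0) (i := 1) (by linarith) z.2 (by norm_num)
  have z1 := rn_s (Md.mul k1 b.p1) ((f f1 hb.p1).trans (by norm_num))
  have z2 := rn_s (Md.mul k2 b.p2) ((f f2 hb.p2).trans (by norm_num))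
  have z3 := rn_s (Md.mul k3 b.p3) ((f f3 hb.p3).trans (by norm_num))
  have o : |vz (nat_lit 28948022309329048855892746252171976963317496166410141009864396001978282409984)| ≤ 2 * 2 ^ 141 := by rw [vz_B]; norm_num
  refine ⟨_, ⟨⟨z0.2.trans (by norm_num), z1.2.trans (by norm_num), z2.2.trans (by norm_num),
    z3.2.trans (by norm_num), o, o, o, o, o, o⟩, ?_, ?_, ?_⟩, e⟩
  · have s := (shr_bd (Nat.mul (Nat.add (Nat.add (az k1) (az k2)) (az k3)) b.r) 112).2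
    have a1 := abs_le.1 (prod_bd (le_refl |vz k1|) hb.e1)
    have a2 := abs_le.1 (prod_bd (le_refl |vz k2|) hb.e2)
    have a3 := abs_le.1 (prod_bd (le_refl |vz k3|) hb.e3)
    have a4 := abs_le.1 z.1
    have a5 := abs_le.1 h0
    simp only [z0.1, w]
    rw [ca, ca]
    generalize ((Nat.shiftRight _ _ : ℕ) : ℝ) = u at *
    simp only [Nat.add_eq, Nat.mul_eq, Nat.cast_add, Nat.cast_mul, cast_az] at s
    rw [abs_le]; push_cast
    constructor <;> linarith [a1.1, a1.2, a2.1, a2.2, a3.1, a3.2, a4.1, a4.2, a5.1, a5.2]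
  · have := abs_le.1 (ε.lin_le z1.1 z2.1 z3.1)
    simp only [TM.L, Nz.lin, w] at *
    rw [abs_le]; push_cast
    constructor <;> linarith [this.1, this.2]
  · simp only [TM.Q, Nz.qd, vz_B]
    rw [abs_le]; push_cast; constructor <;> linarith

end Pool.Agent.Work.MP_c2ab8b_gt.K8
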