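import Pool.Agent.Work.MP_c2ab8b_gt.K8.TMa

/- Soundness of the square root, the cube and the arctangent on Taylor models. -/

noncomputable section
namespace Pool.Agent.Work.MP_c2ab8b_gt.K8
open Real
set_option exponentiation.threshold 2000

attribute [local irreducible] az rn rx za zs z4 nwt

variable {ε : Nz} {i j x x0 l y y0 m : ℝ}

theorem cm (a b : ℕ) : ((Nat.mul a b : ℕ) : ℝ) = a * b := Nat.cast_mul a b
theorem cshl (a s : ℕ) : ((Nat.shiftLeft a s : ℕ) : ℝ) = a * 2 ^ s := by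
  rw [show Nat.shiftLeft a s = a * 2 ^ s from Nat.shiftLeft_eq a s]; push_cast; rfl

theorem sub_ps {a b : ℕ} (h : (0 : ℝ) < (Nat.sub a b : ℕ)) : ((Nat.sub a b : ℕ) : ℝ) = a - b := by
  have : 0 < a - b := by exact_mod_cast h
  rw [Nat.sub_eq, Nat.cast_sub (by omega)]

theorem sub_mx (a b : ℕ) : ((Nat.sub a b : ℕ) : ℝ) = max ((a : ℝ) - b) 0 := by
  rcases le_total a b with h | h
  · rw [Nat.sub_eq, Nat.sub_eq_zero_of_le h, max_eq_right (sub_nonpos.2 (Nat.cast_le.2 h)), Nat.cast_zero]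
  · rw [Nat.sub_eq, Nat.cast_sub h, max_eq_left (sub_nonneg.2 (Nat.cast_le.2 h))]

theorem iv {v : ℝ} {a b : ℕ} (h1 : (a : ℝ) ≤ v) (h2 : v ≤ b) :
    |v - vz (Nat.add a (nat_lit 28948022309329048855892746252171976963317496166410141009864396001978282409984))| ≤ (Nat.sub b a : ℕ) := by
  rw [vz_add, abs_of_nonneg (by linarith)]; linarith [le_sub' b a]

theorem eta3 (ε : Nz) {d s : ℝ} (h : |d| * 2 ^ 112 ≤ s * ε.η) (hs : 0 ≤ s) :
    |d| ^ 3 * 2 ^ 336 ≤ s ^ 3 * (ε.η * ε.η) := by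
  have a := pow_le_pow_left₀ (by positivity) h 3
  have b := mul_le_mul_of_nonneg_left (mul_le_of_le_one_right (mul_nonneg ε.p ε.p) ε.h) (pow_nonneg hs 3)
  rw [mul_pow, mul_pow, ← pow_mul] at a
  calc _ ≤ _ := a
    _ = s ^ 3 * (ε.η * ε.η * ε.η) := by ring
    _ ≤ _ := b

theorem shr_le {v w : ℝ} {n s : ℕ} (hw : 0 ≤ w) (h : v * 2 ^ s ≤ n * w) :
    v ≤ (Nat.add (Nat.shiftRight n s) (nat_lit 1) : ℕ) * w := by
  have a := mul_le_mul_of_nonneg_right (shr_bd n s).2 hw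
  rw [ca]
  refine le_of_mul_le_mul_right ?_ (by positivity : (0 : ℝ) < 2 ^ s)
  push_cast; linarith

theorem sq_rem {a b μ : ℝ} (hμ : 0 < μ) (ha : μ ≤ a) (hb : μ ≤ b) :
    |b - ((b ^ 2 - a ^ 2) * (-1 / (8 * a ^ 3) * (b ^ 2 - a ^ 2) + 1 / (2 * a)) + a)| * (16 * μ ^ 5) ≤
      |b ^ 2 - a ^ 2| ^ 3 := by
  have p : 0 < a := by linarith
  have q : 0 < b := by linarith
  rw [show b - ((b ^ 2 - a ^ 2) * (-1 / (8 * a ^ 3) * (b ^ 2 - a ^ 2) + 1 / (2 * a)) + a) =
    (b - a) ^ 3 * ((3 * a + b) / (8 * a ^ 3)) by field_simp; ring, show b ^ 2 - a ^ 2 = (b - a) * (a + b) by ring,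
    abs_mul, abs_mul, abs_pow, mul_pow, mul_assoc, abs_of_pos (by positivity : 0 < a + b),
    abs_of_pos (by positivity : 0 < (3 * a + b) / (8 * a ^ 3))]
  refine mul_le_mul_of_nonneg_left ?_ (by positivity)
  rw [div_mul_eq_mul_div, div_le_iff₀ (by positivity)]
  have h1 : μ * (3 * a + b) ≤ 2 * (a * (a + b)) := by nlinarith [mul_le_mul ha ha hμ.le p.le, mul_le_mul ha hb hμ.le p.le]
  have h2 : μ * (2 * μ) ≤ a * (a + b) := mul_le_mul ha (by linarith) (by positivity) p.le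
  have h3 := mul_le_mul h1 (mul_le_mul h2 h2 (by positivity) (by positivity)) (by positivity) (by positivity)
  nlinarith

theorem tsq_s {X : TE} {k : TM → Bool} (hx : IE ε i X x x0 l) (e : tsq X k = true) :
    0 < x ∧ 0 < x0 ∧ ∃ Z, In ε 2 Z (√x) (√x0) (1 / (2 * √x0) * l) ∧ k Z = true := by
  have dv := hx.dev
  have c0 := abs_le.1 hx.i.e0
  unfold tsq at e
  extract_lets u s lo y g g1 g0 m h0 h1 hm a at e
  obtain ⟨k1, e⟩ := chk_s e
  obtain ⟨k2, e⟩ := chk_s e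
  obtain ⟨k3, e⟩ := chk_s e
  obtain ⟨k4, e⟩ := chk_s e
  have k1 : (2 : ℝ) ^ 107 ≤ m := le_trans (by norm_num) (ble_r k1)
  have k4 : (2 : ℝ) ^ 108 ≤ g0 := le_trans (by norm_num) (ble_r k4)
  have k2 := ble_r k2
  have k3 := ble_r k3
  rw [cshl, cm, ca] at k2
  rw [cm, cshl] at k3
  have pm : (0 : ℝ) < m := lt_of_lt_of_le (by positivity) k1
  have pg : (0 : ℝ) < g0 := lt_of_lt_of_le (by positivity) k4
  have r0 : (0 : ℝ) ≤ X.t.r0 := Nat.cast_nonneg _
  have s0 : (0 : ℝ) ≤ s := Nat.cast_nonneg _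
  have mm := mul_pos pm pm
  rw [sub_ps ((mul_pos_iff_of_pos_right (by positivity)).1 (lt_of_lt_of_le mm k3)), ca] at k3
  have hu : (u : ℝ) = vz X.t.c := by
    rw [sub_ps (by linarith : (0 : ℝ) < u), cB]; rfl
  have ds : |x - x0| * 2 ^ 112 ≤ s := dv.trans (mul_le_of_le_one_right s0 ε.h)
  have := neg_abs_le (x - x0)
  have px0 : 0 < x0 := by linarith
  have px : 0 < x := by linarith
  have q0 := sqrt_pos.2 px0
  have q1 := sq_sqrt px0.le
  have q2 := sq_sqrt px.le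
  have t1 : √x0 * 2 ^ 112 ≤ g1 := abs_le_of_sq_le_sq' (by nlinarith) (Nat.cast_nonneg _) |>.2
  have pg1 : (0 : ℝ) < g1 := lt_of_lt_of_le (by positivity) t1
  have d0 : (g0 : ℝ) * g1 ≤ _ := (div_bd _ g1 (by exact_mod_cast pg1)).1
  rw [cshl, cast_sub' (by linarith)] at d0
  have t0 : (g0 : ℝ) ≤ √x0 * 2 ^ 112 := by
    by_contra h
    have := mul_lt_mul'' (not_le.1 h) (lt_of_le_of_lt t1 (lt_add_one _)) (by positivity) (by positivity)
    have := mul_le_mul (not_le.1 h).le t1 (by positivity) pg.le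
    have := mul_lt_mul_of_pos_right (not_le.1 h) pg1
    have := mul_le_mul_of_nonneg_left t1 (by positivity : 0 ≤ √x0 * 2 ^ 112)
    nlinarith
  have d1 : (h0 : ℝ) * g1 ≤ _ := (div_bd _ g1 (by exact_mod_cast pg1)).1
  have d2 := (div_bd (nat_lit 26959946667150639794667015087019630673637144422540572481103610249216) g0 (by exact_mod_cast pg))
  have d3 := (div_bd (nat_lit 26959946667150639794667015087019630673637144422540572481103610249216) m (by exact_mod_cast pm)).2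
  have e1 : (h1 : ℝ) = (Nat.div (nat_lit 26959946667150639794667015087019630673637144422540572481103610249216) g0 : ℕ) + 1 := by rw [ca]; norm_num
  have e2 : (hm : ℝ) = (Nat.div (nat_lit 26959946667150639794667015087019630673637144422540572481103610249216) m : ℕ) + 1 := by rw [ca]; norm_num
  have U : (((nat_lit 26959946667150639794667015087019630673637144422540572481103610249216) : ℕ) : ℝ) = 2 ^ 224 := by norm_num
  rw [U] at d1 d2 d3
  obtain ⟨H, hH⟩ : ∃ H, H = 2 ^ 112 / √x0 := ⟨_, rfl⟩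
  have hH' : H * √x0 = 2 ^ 112 := by rw [hH]; field_simp
  have pH : 0 < H := by rw [hH]; positivity
  have n0 : (0 : ℝ) ≤ h0 := Nat.cast_nonneg _
  have b0 : (h0 : ℝ) ≤ H := le_of_mul_le_mul_right (by nlinarith [mul_le_mul_of_nonneg_left t1 pH.le]) pg1
  have b1 : H ≤ h1 := le_of_mul_le_mul_right (by nlinarith [mul_le_mul_of_nonneg_left t0 pH.le]) pg
  have b2 : H ≤ 2 ^ 116 := le_of_mul_le_mul_right (by nlinarith [mul_le_mul_of_nonneg_left t0 pH.le]) pg
  have a0 : (a : ℝ) * 2 ^ 227 ≤ _ := (shr_bd _ 227).1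
  rw [cm, cm] at a0
  replace dv : |x - x0| * 2 ^ 112 ≤ s * ε.η := dv
  clear_value a hm h1 h0 m g0 g1 g y lo s u
  have a1 : (h0 : ℝ) * h0 * h0 ≤ H * H * H := by gcongr
  have a2 : H * H * H ≤ (h1 : ℝ) * h1 * h1 := by gcongr
  have a3 : H * H * H ≤ 2 ^ 116 * 2 ^ 116 * 2 ^ 116 := by gcongr
  have μ0 : (m : ℝ) / 2 ^ 112 ≤ √x0 := le_sqrt_of_sq_le (by rw [div_pow, div_le_iff₀ (by positivity)]; nlinarith)
  have μ1 : (m : ℝ) / 2 ^ 112 ≤ √x := le_sqrt_of_sq_le (by rw [div_pow, div_le_iff₀ (by positivity)]; nlinarith)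
  have R := sq_rem (by positivity) μ0 μ1
  rw [q1, q2] at R
  refine ⟨px, px0, un_s (c := -1 / (8 * √x0 ^ 3)) hx (iv t0 t1) ?_ ?_ ?_ e⟩
  · have z1 := shr_bd h0 1
    have z2 := shr_bd (Nat.sub h1 h0) 1
    have z3 := le_sub' h1 h0
    rw [vz_add, ca, show 1 / (2 * √x0) * 2 ^ 112 = H / 2 by rw [hH]; field_simp, abs_le]
    push_cast; constructor <;> linarith [z1.1, z1.2, z2.1, z2.2]
  · have z := shr_le (v := H * H * H / 2 ^ 227) (n := (Nat.mul (Nat.mul h1 h1) h1)) (s := 227) zero_le_one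
      (by rw [cm, cm]; linarith)
    rw [vz_sub (by linarith), show -1 / (8 * √x0 ^ 3) * 2 ^ 112 = -(H * H * H / 2 ^ 227) by
      rw [hH]; field_simp; norm_num, abs_le]
    have := le_sub' (Nat.add (Nat.shiftRight (Nat.mul (Nat.mul h1 h1) h1) 227) (nat_lit 1)) a
    have : (0 : ℝ) ≤ (Nat.sub (Nat.add (Nat.shiftRight (Nat.mul (Nat.mul h1 h1) h1) 227) (nat_lit 1)) a : ℕ) := Nat.cast_nonneg _
    constructor <;> linarith
  · rw [abs_mul, abs_of_pos (by positivity : (0 : ℝ) < 2 ^ 112)]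
    refine shr_le (mul_nonneg ε.p ε.p) ?_
    have z := eta3 ε dv s0
    have z1 : (2 : ℝ) ^ 224 ≤ hm * m := by rw [e2]; linarith
    have z2 := pow_le_pow_left₀ (by positivity) z1 5
    simp only [cm]
    have h := abs_nonneg (√x - ((x - x0) * (-1 / (8 * √x0 ^ 3) * (x - x0) + 1 / (2 * √x0)) + √x0))
    generalize |√x - _| = ρ at R h ⊢
    have pρ := mul_le_mul_of_nonneg_left z (pow_nonneg (Nat.cast_nonneg hm : (0 : ℝ) ≤ _) 5)
    have pr := mul_le_mul_of_nonneg_left R (pow_nonneg (Nat.cast_nonneg hm : (0 : ℝ) ≤ _) 5)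
    have := mul_le_mul_of_nonneg_left z2 h
    rw [div_pow] at pr
    rw [mul_pow] at this
    linarith

theorem cb_rem (x x0 : ℝ) : |max x 0 ^ 3 - ((x - x0) * (3 * max x0 0 * (x - x0) + 3 * max x0 0 ^ 2) + max x0 0 ^ 3)| ≤
    |x - x0| ^ 3 := by
  rcases le_total x0 0 with h | h <;> rcases le_total x 0 with g | g
  · rw [max_eq_right h, max_eq_right g]; simp
  · rw [max_eq_right h, max_eq_left g, abs_of_nonneg (by linarith : 0 ≤ x - x0)]
    simp only [mul_zero, zero_mul, add_zero, sub_zero, ne_eq, OfNat.ofNat_ne_zero, not_false_eq_true,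
      zero_pow]
    rw [abs_of_nonneg (by positivity)]
    exact pow_le_pow_left₀ g (by linarith) 3
  · rw [max_eq_left h, max_eq_right g, abs_of_nonpos (by linarith : x - x0 ≤ 0), abs_le]
    have a := pow_le_pow_left₀ (by linarith : 0 ≤ -x) (by linarith : -x ≤ -(x - x0)) 3
    have b := pow_nonneg (by linarith : 0 ≤ -x) 3
    constructor <;> nlinarith
  · rw [max_eq_left h, max_eq_left g, ← abs_pow]; exact le_of_eq (by congr 1; ring)

theorem tcb_s {X : TE} {k : TM → Bool} (hx : IE ε i X x x0 l) (e : tcb X k = true) :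
    ∃ Z, In ε 2 Z (max x 0 ^ 3) (max x0 0 ^ 3) (3 * max x0 0 ^ 2 * l) ∧ k Z = true := by
  have dv := hx.dev
  have c0 := abs_le.1 hx.i.e0
  unfold tcb at e
  extract_lets u p0 p1 s f0 f1 at e
  have hu : (u : ℝ) = max (vz X.t.c) 0 := by rw [sub_mx, cB]; rfl
  have r0 : (0 : ℝ) ≤ X.t.r0 := Nat.cast_nonneg _
  have z0 := le_max_right x0 0
  have z1 := le_max_left x0 0
  have b0 : (p0 : ℝ) ≤ max x0 0 * 2 ^ 112 := by
    rw [sub_mx, hu]
    refine max_le ?_ (by positivity)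
    rcases max_cases (vz X.t.c) 0 with h | h <;> rw [h.1] <;> linarith
  have b1 : max x0 0 * 2 ^ 112 ≤ p1 := by
    rw [ca, hu]
    have := le_max_left (vz X.t.c) 0; have := le_max_right (vz X.t.c) 0
    rcases max_cases x0 0 with h | h <;> rw [h.1] <;> linarith
  have n0 : (0 : ℝ) ≤ p0 := Nat.cast_nonneg _
  have R := cb_rem x x0
  replace dv : |x - x0| * 2 ^ 112 ≤ s * ε.η := dv
  have a0 : (f0 : ℝ) * 2 ^ 224 ≤ _ := (shr_bd _ 224).1
  have a1 : (f1 : ℝ) * 2 ^ 112 ≤ _ := (shr_bd _ 112).1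
  clear_value f0 f1 s p0 p1 u
  generalize max x0 0 = z at *
  have m2 := mul_le_mul b0 b0 n0 (by positivity)
  have m3 := mul_le_mul m2 b0 n0 (by positivity)
  have n2 := mul_le_mul b1 b1 (by positivity) (Nat.cast_nonneg _)
  have n3 := mul_le_mul n2 b1 (by positivity) (by positivity)
  refine un_s (c := 3 * z) hx (iv ?_ ?_) (iv ?_ ?_) ?_ ?_ e
  · rw [cm, cm] at a0; linarith
  · rw [← mul_one (Nat.cast _)]; exact shr_le zero_le_one (by rw [cm, cm]; linarith)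
  · rw [cm, cm] at a1; push_cast at a1; linarith
  · rw [← mul_one (Nat.cast _)]; exact shr_le zero_le_one (by rw [cm, cm]; push_cast; linarith)
  · have := le_sub' p1 p0
    rw [vz_add, cm, cm, abs_le]; push_cast; constructor <;> linarith
  · rw [abs_mul, abs_of_pos (by positivity : (0 : ℝ) < 2 ^ 112)]
    refine shr_le (mul_nonneg ε.p ε.p) ?_
    have := eta3 ε dv (Nat.cast_nonneg _)
    rw [cm, cm]; linarith

end Pool.Agent.Work.MP_c2ab8b_gt.K8
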