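import Pool.Agent.Work.MP_c2ab8b_gt.K8.TMb

/- Soundness of the arctangent on Taylor models. -/

noncomputable section
namespace Pool.Agent.Work.MP_c2ab8b_gt.K8
open Real
set_option exponentiation.threshold 2000

attribute [local irreducible] az rn rx za zs z4 nwt

variable {ε : Nz} {i j x x0 l y y0 m : ℝ}

theorem at_lip (a b : ℝ) : |arctan a - arctan b| ≤ |a - b| := by
  have := abs_le_of_deriv (f := fun t => arctan (b + t) - arctan b) (f' := fun t => 1 / (1 + (b + t) ^ 2)) 0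
    (fun t => by
      refine (((hasDerivAt_arctan (b + t)).comp t ((hasDerivAt_id t).const_add b)).sub_const _).congr_deriv ?_
      ring)
    (by simp) (fun t => by
      rw [abs_of_pos (by positivity), mul_zero, pow_zero]
      exact (div_le_one (by positivity)).2 (by nlinarith [sq_nonneg (b + t)])) (a - b)
  simpa using this

theorem at_sub {n w n0 w0 : ℝ} (hw : 0 < w) (h0 : 0 < w0) (h : 0 < w * w0 + n * n0) :
    arctan (n / w) = arctan (n0 / w0) + arctan ((n * w0 - w * n0) / (w * w0 + n * n0)) := by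
  have := arctan_add (x := n / w) (y := -(n0 / w0)) (by
    rw [show n / w * -(n0 / w0) = 1 - (w * w0 + n * n0) / (w * w0) by field_simp; ring]
    have : 0 < (w * w0 + n * n0) / (w * w0) := by positivity
    linarith)
  rw [arctan_neg] at this
  rw [show (n * w0 - w * n0) / (w * w0 + n * n0) = (n / w + -(n0 / w0)) / (1 - n / w * -(n0 / w0)) by
    rw [show 1 - n / w * -(n0 / w0) = (w * w0 + n * n0) / (w * w0) by field_simp; ring]; field_simp; ring, ← this]
  ring

theorem ser_s {t : ℕ} (ht : (t : ℝ) ≤ 2 ^ 57) : |arctan (t / 2 ^ 60) * 2 ^ 112 - ser t| ≤ 9 * 2 ^ 60 := by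
  have t0 : (0 : ℝ) ≤ t := Nat.cast_nonneg _
  have h7 := abs_le.1 (atan7 (t / 2 ^ 60))
  rw [abs_of_nonneg (by positivity : (0 : ℝ) ≤ t / 2 ^ 60)] at h7
  have h8 : ((t : ℝ) / 2 ^ 60) ^ 15 ≤ (1 / 8) ^ 15 := pow_le_pow_left₀ (by positivity) (by linarith) 15
  unfold ser
  extract_lets s u
  have hs : (s : ℝ) = t ^ 2 := by rw [cm]; ring
  have hu : (u : ℝ) = t ^ 4 := by rw [cm, hs]; ring
  clear_value u s
  have t2 : (t : ℝ) ^ 2 ≤ (2 ^ 57) ^ 2 := pow_le_pow_left₀ t0 ht 2
  have t4 : (t : ℝ) ^ 4 ≤ (2 ^ 57) ^ 4 := pow_le_pow_left₀ t0 ht 4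
  generalize hp : Nat.add (nat_lit 248452556191429017871235562103725511923167454998738885936257499952558678884023801617695489787558857838972840530019927003635867006491195547335621257560340795633154706915701069631238694737175450012337207534617385586571345920) _ = p
  generalize hq : Nat.mul s (Nat.add (nat_lit 62304976266748109272063804073322784682451880177120190053434794805305151963364815818191601339940763471237291267468681349573663193397307806247921425634221164761223644778073665498135920640) _) = q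
  have hp' : (p : ℝ) = 45045 * 2 ^ 720 + t ^ 4 * (9009 * 2 ^ 480 + t ^ 4 * (5005 * 2 ^ 240 + t ^ 4 * 3465)) := by
    rw [← hp]; simp only [ca, cm, hu]; norm_num
  have hq' : (q : ℝ) = t ^ 2 * (15015 * 2 ^ 600 + t ^ 4 * (6435 * 2 ^ 360 + t ^ 4 * (4095 * 2 ^ 120))) := by
    rw [← hq]; simp only [ca, cm, hu, hs]; norm_num
  have hq1 : (q : ℝ) ≤ (2 ^ 57) ^ 2 * (15015 * 2 ^ 600 + (2 ^ 57) ^ 4 * (6435 * 2 ^ 360 + (2 ^ 57) ^ 4 *
      (4095 * 2 ^ 120))) := by rw [hq']; gcongr
  have hp0 : (45045 * 2 ^ 720 : ℝ) ≤ p := by rw [hp']; exact le_add_of_nonneg_right (by positivity)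
  have ha := div_bd (Nat.mul t (Nat.sub p q)) (nat_lit 55167549682139997518078980332784213996425982662050488055939800869378037725182251453425294981949024783801158851042051756960097776192596518670812346121299539899042120730965581472391144832107079401492468203520) (by norm_num)
  rw [cm, cast_sub' (by linarith), hp', hq'] at ha
  generalize ((Nat.div _ _ : ℕ) : ℝ) = a at ha ⊢
  push_cast at ha
  rw [abs_le]; constructor <;> linarith [h7.1, h7.2, ha.1, ha.2]

theorem step_s {m w j : ℕ} (hw : 0 < w) (h1 : (j : ℝ) * w ≤ 8 * m) (h2 : 8 * (m : ℝ) ≤ j * w + w) :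
    |(arctan (m / w) - arctan (j / 8)) * 2 ^ 112 - ser (Nat.div (Nat.shiftLeft (Nat.sub (Nat.mul (nat_lit 8) m) (Nat.mul j w)) (nat_lit 60)) (Nat.add (Nat.mul (nat_lit 8) w) (Nat.mul j m)))| ≤
      10 * 2 ^ 60 := by
  have w0 : (0 : ℝ) < w := by exact_mod_cast hw
  have jm : (0 : ℝ) ≤ j * m := by positivity
  have d := div_bd (Nat.shiftLeft (Nat.sub (Nat.mul (nat_lit 8) m) (Nat.mul j w)) (nat_lit 60)) (Nat.add (Nat.mul (nat_lit 8) w) (Nat.mul j m)) (by simp only [Nat.add_eq, Nat.mul_eq]; omega)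
  rw [cshl, cast_sub' (by rw [cm, cm]; exact h1), ca, cm, cm, cm, cm] at d
  generalize Nat.div _ _ = t at d ⊢
  push_cast at d
  have p : (0 : ℝ) < w * 8 + m * j := by linarith
  have s := abs_le.1 (ser_s (t := t) (le_of_mul_le_mul_right (by nlinarith [d.1]) p))
  have L := at_lip ((m * 8 - w * j) / (w * 8 + m * j)) (t / 2 ^ 60)
  have : |((m : ℝ) * 8 - w * j) / (w * 8 + m * j) - t / 2 ^ 60| ≤ 1 / 2 ^ 60 := by
    rw [abs_le, le_sub_iff_add_le, sub_le_iff_le_add, le_div_iff₀ p, div_le_iff₀ p]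
    constructor <;> linarith [d.1, d.2]
  have L := abs_le.1 (L.trans this)
  rw [at_sub w0 (by norm_num : (0 : ℝ) < 8) p, abs_le]
  constructor <;> linarith [s.1, s.2, L.1, L.2]

theorem tab_c : (List.range 63).all (fun k => Nat.beq (tab (k + 1))
    (Nat.add (tab k) (ser (Nat.div (Nat.shiftLeft (Nat.sub (Nat.mul (nat_lit 8) (Nat.add k (nat_lit 1))) (Nat.mul k (nat_lit 8))) (nat_lit 60)) (Nat.add (Nat.mul (nat_lit 8) (nat_lit 8)) (Nat.mul k (Nat.add k (nat_lit 1)))))))) = true := by decide +kernel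

attribute [local irreducible] ser tab

theorem tab_s (k : ℕ) (h : k ≤ 63) : |arctan (k / 8) * 2 ^ 112 - tab k| ≤ (k : ℝ) * (10 * 2 ^ 60) := by
  induction k with
  | zero =>
    have : tab 0 = 0 := by decide +kernel
    rw [this]; simp
  | succ k ih =>
    have e := Nat.eq_of_beq_eq_true (List.all_eq_true.1 tab_c k (List.mem_range.2 (by omega)))
    have s := abs_le.1 (step_s (m := k + 1) (w := 8) (j := k) (by norm_num) (by push_cast; linarith)
      (by push_cast; linarith))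
    have := abs_le.1 (ih (by omega))
    rw [e, ca, abs_le]
    generalize ((ser _ : ℕ) : ℝ) = z at s ⊢
    push_cast at s ⊢
    constructor <;> linarith [s.1, s.2, this.1, this.2]

theorem atv_s {m w : ℕ} (h : (m : ℝ) + 1 ≤ 8 * w) : |arctan (m / w) * 2 ^ 112 - atv m w| ≤ 640 * 2 ^ 60 := by
  have m0 : (0 : ℝ) ≤ m := Nat.cast_nonneg _
  have w0 : (0 : ℝ) < w := by linarith
  have d := div_bd (Nat.mul (nat_lit 8) m) w (by exact_mod_cast w0)
  unfold atv
  extract_lets j
  change (j : ℝ) * w ≤ _ ∧ _ ≤ (j : ℝ) * w + w at d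
  clear_value j
  rw [cm] at d
  push_cast at d
  have j0 : (j : ℝ) < 64 := lt_of_mul_lt_mul_right (by linarith [d.1]) w0.le
  have j1 : j ≤ 63 := by have : j < 64 := by exact_mod_cast j0
                         omega
  have j2 : (j : ℝ) ≤ 63 := by exact_mod_cast j1
  have a := abs_le.1 (tab_s j j1)
  have b := abs_le.1 (step_s (by exact_mod_cast w0) d.1 d.2)
  rw [ca, abs_le]
  constructor <;> linarith [a.1, a.2, b.1, b.2]

theorem at_rem {a d t : ℝ} (h : |d| ≤ t) (ht : t < 1) :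
    |arctan (a / (1 + d)) - (a - a * d)| ≤ |a| * |d| ^ 2 * (1 - t)⁻¹ + |a| ^ 3 * (1 - t)⁻¹ ^ 3 / 3 := by
  have := neg_abs_le d
  have p : 0 < 1 + d := by linarith
  have q : (1 + d)⁻¹ ≤ (1 - t)⁻¹ := inv_anti₀ (by linarith) (by linarith)
  have a1 := atan1 (a / (1 + d))
  have a2 : |a / (1 + d) - (a - a * d)| ≤ |a| * |d| ^ 2 * (1 - t)⁻¹ := by
    rw [show a / (1 + d) - (a - a * d) = a * d ^ 2 * (1 + d)⁻¹ by field_simp; ring, abs_mul, abs_mul, abs_pow,
      abs_of_pos (inv_pos.2 p)]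
    gcongr
  have a3 : |a / (1 + d)| ^ 3 ≤ |a| ^ 3 * (1 - t)⁻¹ ^ 3 := by
    rw [div_eq_mul_inv, abs_mul, mul_pow, abs_of_pos (inv_pos.2 p)]
    gcongr
  linarith [abs_sub_le (arctan (a / (1 + d))) (a / (1 + d)) (a - a * d)]

theorem brn_s (b : Bool) (u v : ℕ) : (b = false ∧ brn b u v = u) ∨ (b = true ∧ brn b u v = v) := by
  cases b
  · exact Or.inl ⟨rfl, rfl⟩
  · exact Or.inr ⟨rfl, rfl⟩

theorem ble_f {a b : ℕ} (h : Nat.ble a b = false) : (b : ℝ) < a :=
  Nat.cast_lt.2 (not_le.1 fun g => by rw [Nat.ble_eq_true_of_le g] at h; exact absurd h (by simp))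

theorem sg_s (c : ℕ) {a : ℕ} (h : (a : ℝ) ≤ 2 ^ 254) :
    (vz c ≤ 0 ∧ vz (brn (Nat.ble (nat_lit 28948022309329048855892746252171976963317496166410141009864396001978282409984) c) (Nat.sub (nat_lit 28948022309329048855892746252171976963317496166410141009864396001978282409984) a) (Nat.add a (nat_lit 28948022309329048855892746252171976963317496166410141009864396001978282409984))) = -a) ∨
      (0 ≤ vz c ∧ vz (brn (Nat.ble (nat_lit 28948022309329048855892746252171976963317496166410141009864396001978282409984) c) (Nat.sub (nat_lit 28948022309329048855892746252171976963317496166410141009864396001978282409984) a) (Nat.add a (nat_lit 28948022309329048855892746252171976963317496166410141009864396001978282409984))) = a) := by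
  rcases brn_s (Nat.ble (nat_lit 28948022309329048855892746252171976963317496166410141009864396001978282409984) c) (Nat.sub (nat_lit 28948022309329048855892746252171976963317496166410141009864396001978282409984) a) (Nat.add a (nat_lit 28948022309329048855892746252171976963317496166410141009864396001978282409984)) with ⟨g, e⟩ | ⟨g, e⟩ <;> rw [e]
  · have := ble_f g
    rw [cB] at this
    exact Or.inl ⟨by unfold vz; linarith, vz_sub h⟩
  · have := ble_r g
    rw [cB] at this
    exact Or.inr ⟨by unfold vz; linarith, vz_add a⟩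

attribute [local irreducible] atv brn

theorem tang_s {X Y : TE} {k : TM → Bool} (hx : IE ε i X x x0 l) (hy : IE ε j Y y y0 m) (py : 0 < y)
    (e : tang X Y k = true) : ∃ Z, In ε 4 Z (arctan (x / y)) (arctan (x0 / y0))
      ((y0 * l - x0 * m) / (x0 ^ 2 + y0 ^ 2)) ∧ k Z = true := by
  have c0 := abs_le.1 hx.i.e0
  have c1 := abs_le.1 hy.i.e0
  have bm := hx.bd.1
  unfold tang at e
  extract_lets n lo u g0 g1 i0 i1 al ea be eb at e
  obtain ⟨k1, e⟩ := chk_s e
  obtain ⟨k2, e⟩ := chk_s e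
  obtain ⟨k3, e⟩ := chk_s e
  have k1 : (2 : ℝ) ^ 104 ≤ g0 := le_trans (by norm_num) (ble_r k1)
  have k2 := ble_r k2
  have k3 := ble_r k3
  rw [ca, cm] at k2
  rw [cm] at k3
  replace k3 : (n : ℝ) * i1 ≤ 2 ^ 250 := k3.trans (by norm_num)
  have pg : (0 : ℝ) < g0 := lt_of_lt_of_le (by positivity) k1
  have hn : (n : ℝ) = |vz X.t.c| := cast_az _
  have hg : (g0 : ℝ) = u - Y.t.r0 := sub_ps pg
  have r0 : (0 : ℝ) ≤ X.t.r0 := Nat.cast_nonneg _
  have r1 : (0 : ℝ) ≤ Y.t.r0 := Nat.cast_nonneg _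
  have pu : (0 : ℝ) < u := by linarith
  have hu : (u : ℝ) = vz Y.t.c := by rw [sub_ps pu, cB]; rfl
  have hg1 : (g1 : ℝ) = u + Y.t.r0 := ca _ _
  have b0 : (g0 : ℝ) ≤ y0 * 2 ^ 112 := by linarith
  have b1 : y0 * 2 ^ 112 ≤ g1 := by linarith
  have p0 : 0 < y0 := by linarith
  have b2 : (lo : ℝ) ≤ |x0 * 2 ^ 112| := by
    rw [sub_mx, hn]
    refine max_le ?_ (abs_nonneg _)
    have := abs_sub_abs_le_abs_sub (vz X.t.c) (x0 * 2 ^ 112)
    rw [abs_sub_comm] at this; linarith [hx.i.e0]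
  have d0 : (i0 : ℝ) * _ ≤ _ := (div_bd (nat_lit 139984046386112763159840142535527767382602843577165595931249318810236991948760059086304843329475444736) (Nat.add (Nat.mul X.m X.m) (Nat.mul g1 g1)) (by
    have : (0 : ℝ) < (Nat.add (Nat.mul X.m X.m) (Nat.mul g1 g1)) := by
      rw [ca, cm, cm]; nlinarith [mul_self_nonneg (X.m : ℝ)]
    exact_mod_cast this)).1
  have d1 := (div_bd (nat_lit 139984046386112763159840142535527767382602843577165595931249318810236991948760059086304843329475444736) (Nat.add (Nat.mul lo lo) (Nat.mul g0 g0)) (by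
    have : (0 : ℝ) < (Nat.add (Nat.mul lo lo) (Nat.mul g0 g0)) := by
      rw [ca, cm, cm]; nlinarith [mul_self_nonneg (lo : ℝ)]
    exact_mod_cast this)).2
  have e1 : (i1 : ℝ) = ((Nat.div (nat_lit 139984046386112763159840142535527767382602843577165595931249318810236991948760059086304843329475444736) (Nat.add (Nat.mul lo lo) (Nat.mul g0 g0))) : ℕ) + 1 := by rw [ca]; norm_num
  rw [← add_one_mul] at d1
  replace d1 := d1.trans_eq (congrArg (· * _) e1.symm)
  have a0 : (al : ℝ) * 2 ^ 112 ≤ _ := (shr_bd _ 112).1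
  rw [cm] at a0
  have hea : ea = (Nat.sub (Nat.add (Nat.shiftRight (Nat.mul g1 i1) (nat_lit 112)) (nat_lit 1)) al) := rfl
  have hbe : be = (rn (Nat.mul X.t.c (Nat.add i0 (nat_lit 28948022309329048855892746252171976963317496166410141009864396001978282409984)))) := rfl
  have heb : eb = (Nat.add (Nat.shiftRight (Nat.add (Nat.mul X.t.r0 i1) (Nat.mul n (Nat.sub i1 i0))) (nat_lit 112)) (nat_lit 2)) := rfl
  clear_value eb be ea al i1 i0 g1 g0 u lo n
  rw [ca, cm, cm, show (((nat_lit 139984046386112763159840142535527767382602843577165595931249318810236991948760059086304843329475444736) : ℕ) : ℝ) = 2 ^ 336 by norm_num] at d0 d1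
  obtain ⟨ρ, hρ⟩ : ∃ ρ, ρ = x0 ^ 2 + y0 ^ 2 := ⟨_, rfl⟩
  have pρ : 0 < ρ := by rw [hρ]; positivity
  obtain ⟨I, hI⟩ : ∃ I, I = 2 ^ 112 / ρ := ⟨_, rfl⟩
  have hI' : I * ρ = 2 ^ 112 := by rw [hI]; field_simp
  have pI : 0 < I := by rw [hI]; positivity
  have s0 := mul_self_le_mul_self (abs_nonneg _) bm
  have s1 := mul_self_le_mul_self (Nat.cast_nonneg _) b2
  have s2 := mul_self_le_mul_self pg.le b0
  have s3 := mul_self_le_mul_self (by positivity) b1
  rw [abs_mul_abs_self] at s0 s1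
  have n0 : (0 : ℝ) ≤ i0 := Nat.cast_nonneg _
  have I0 : (i0 : ℝ) ≤ I := le_of_mul_le_mul_right (a := ρ * 2 ^ 224) (by
    have := mul_le_mul_of_nonneg_left (add_le_add s0 s3) n0
    rw [← mul_assoc I, hI', hρ]; linarith) (by positivity)
  have I1 : I ≤ i1 := le_of_mul_le_mul_right (a := ρ * 2 ^ 224) (by
    have := mul_le_mul_of_nonneg_left (add_le_add s1 s2) (Nat.cast_nonneg i1 : (0 : ℝ) ≤ _)
    rw [← mul_assoc I, hI', hρ]; linarith) (by positivity)
  have hα : |y0 / ρ * 2 ^ 112 - vz (Nat.add al (nat_lit 28948022309329048855892746252171976963317496166410141009864396001978282409984))| ≤ (ea : ℝ) := by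
    rw [hea, show y0 / ρ * 2 ^ 112 = y0 * I by rw [hI]; field_simp]
    refine iv (by nlinarith [mul_le_mul b0 I0 n0 (by positivity)]) ?_
    rw [← mul_one (Nat.cast _)]
    exact shr_le zero_le_one (by rw [cm]; nlinarith [mul_le_mul b1 I1 pI.le (Nat.cast_nonneg _)])
  have hβ : |x0 / ρ * 2 ^ 112 - vz be| ≤ (eb : ℝ) := by
    have z := rn_s (Md.mul X.t.c (Nat.add i0 (nat_lit 28948022309329048855892746252171976963317496166410141009864396001978282409984))) (by
      rw [vz_add, abs_mul, ← hn, abs_of_nonneg n0]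
      nlinarith [mul_le_mul_of_nonneg_left (I0.trans I1) (Nat.cast_nonneg n : (0 : ℝ) ≤ _)])
    rw [← hbe, vz_add] at z
    have z1 := prod_bd hx.i.e0 (show |I| ≤ i1 by rwa [abs_of_pos pI])
    have z2 := prod_bd hn.ge (show |I - i0| ≤ (Nat.sub i1 i0 : ℕ) by
      rw [abs_of_nonneg (by linarith)]; linarith [le_sub' i1 i0])
    rw [heb, ← mul_one (Nat.cast _)]
    refine fin_err (z := vz X.t.c * i0) (V := x0 * 2 ^ 112 * I) zero_le_one ?_ (by rw [hI]; field_simp)
      (z.1.trans (by norm_num)) rfl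
    rw [ca, cm, cm, mul_one, show x0 * 2 ^ 112 * I - vz X.t.c * i0 =
      (x0 * 2 ^ 112 - vz X.t.c) * I + vz X.t.c * (I - i0) by ring]
    exact (abs_add_le _ _).trans (add_le_add z1 z2)
  obtain ⟨dn, hdn, e⟩ := dl_s hx e
  obtain ⟨dw, hdw, e⟩ := dl_s hy e
  obtain ⟨U, hU, e⟩ := tsm_s hdn hα e
  obtain ⟨V, hV, e⟩ := tsm_s hdw hβ e
  obtain ⟨A, hA, e⟩ := tsub_s hU hV (by norm_num) e
  obtain ⟨A, hA, e⟩ := tx_s hA e
  obtain ⟨U, hU, e⟩ := tsm_s hdn hβ e
  obtain ⟨V, hV, e⟩ := tsm_s hdw hα e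
  obtain ⟨D, hD, e⟩ := tadd_s hU hV (by norm_num) e
  obtain ⟨D, hD, e⟩ := tx_s hD e
  have da := hA.dev
  have dd := hD.dev
  simp only [mul_zero, sub_zero, add_zero] at da dd
  obtain ⟨k4, e⟩ := chk_s e
  obtain ⟨Z, hZ, e⟩ := tmul_s hA hD e
  obtain ⟨Z, hZ, e⟩ := tsub_s hA.i hZ (by norm_num) e
  generalize Nat.add A.n A.k = s at da e
  generalize Nat.add D.n D.k = t at dd e k4
  replace k4 : (t : ℝ) ≤ 2 ^ 111 := (ble_r k4).trans (by norm_num)
  generalize hA' : y0 / ρ * (x - x0) - x0 / ρ * (y - y0) = a at *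
  generalize hD' : x0 / ρ * (x - x0) + y0 / ρ * (y - y0) = d at *
  have t0 : (0 : ℝ) ≤ t := Nat.cast_nonneg _
  have s0 : (0 : ℝ) ≤ s := Nat.cast_nonneg _
  have d2 : |d| ≤ t / 2 ^ 112 := by linarith [mul_le_of_le_one_right t0 ε.h]
  have := neg_abs_le d
  have E1 : y * y0 + x * x0 = ρ * (1 + d) := by rw [← hD']; field_simp; rw [hρ]; ring
  have E2 : x * y0 - y * x0 = ρ * a := by rw [← hA']; field_simp; ring
  have E := at_sub (n := x) (n0 := x0) py p0 (by rw [E1]; exact mul_pos pρ (by linarith))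
  rw [E1, E2, mul_div_mul_left _ _ pρ.ne'] at E
  refine (tac_s (y := arctan (x / y)) (y0 := arctan (x0 / y0)) hZ ?_ ?_ (by norm_num) e).imp fun Z h =>
    ⟨(h.1.mono (by norm_num)).congr rfl (by ring) (by rw [← hρ]; field_simp; ring), h.2⟩
  · have v := atv_s (m := n) (w := u) (by exact_mod_cast k2)
    have L := at_lip (x0 / y0) (vz X.t.c / u)
    have pq := mul_pos pg pu
    have q := (div_bd (Nat.shiftLeft (Nat.add (Nat.mul X.t.r0 u) (Nat.mul n Y.t.r0)) (nat_lit 112)) (Nat.mul g0 u) (by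
      rw [← cm] at pq; exact_mod_cast pq)).2
    rw [cshl, ca, cm, cm, cm] at q
    have L2 : |x0 / y0 - vz X.t.c / u| * (g0 * u) ≤ X.t.r0 * u + n * Y.t.r0 := by
      have w1 : |x0 / y0 - vz X.t.c / u| * (y0 * 2 ^ 112 * u) =
          |(x0 * 2 ^ 112 - vz X.t.c) * u - vz X.t.c * (y0 * 2 ^ 112 - vz Y.t.c)| := by
        rw [← abs_of_pos (by positivity : 0 < y0 * 2 ^ 112 * u), ← abs_mul, ← hu]
        congr 1; field_simp; ring
      have w2 := abs_sub ((x0 * 2 ^ 112 - vz X.t.c) * u) (vz X.t.c * (y0 * 2 ^ 112 - vz Y.t.c))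
      have w3 := prod_bd hx.i.e0 (abs_of_pos pu).le
      have w4 := prod_bd hn.ge hy.i.e0
      have := mul_le_mul_of_nonneg_left (mul_le_mul_of_nonneg_right b0 pu.le) (abs_nonneg (x0 / y0 - vz X.t.c / u))
      exact this.trans (w1.le.trans (w2.trans (add_le_add w3 w4)))
    rw [ca]
    generalize ((Nat.div _ _ : ℕ) : ℝ) = z at q ⊢
    have L3 : |x0 / y0 - vz X.t.c / u| * 2 ^ 112 ≤ z + 1 := le_of_mul_le_mul_right (by linarith) pq
    have L := abs_le.1 L
    have v := abs_le.1 v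
    have : arctan (n / u) < 2 := (arctan_lt_pi_div_two _).trans (by linarith [pi_lt_four])
    rcases sg_s X.t.c (a := atv n u) (by linarith) with ⟨h, g⟩ | ⟨h, g⟩ <;> rw [g, abs_le] <;> push_cast
    · rw [abs_of_nonpos h] at hn
      rw [show vz X.t.c = -n by linarith, neg_div, arctan_neg] at L
      rw [show vz X.t.c = -n by linarith, neg_div] at L3
      constructor <;> linarith [L.1, L.2, v.1, v.2]
    · rw [abs_of_nonneg h] at hn
      rw [← hn] at L L3
      constructor <;> linarith [L.1, L.2, v.1, v.2]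
  · have R := at_rem (a := a) d2 (by linarith)
    have q := (div_bd (nat_lit 26959946667150639794667015087019630673637144422540572481103610249216) (Nat.sub (nat_lit 5192296858534827628530496329220096) t) (by
      have : t ≤ 2 ^ 111 := by exact_mod_cast k4
      simp only [Nat.sub_eq]; omega)).2
    rw [cast_sub' (by push_cast; linarith)] at q
    generalize hh : Nat.add (Nat.div (nat_lit 26959946667150639794667015087019630673637144422540572481103610249216) (Nat.sub (nat_lit 5192296858534827628530496329220096) t)) (nat_lit 1) = h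
    have hh' : (h : ℝ) = _ := hh ▸ ca _ _
    have q2 : (1 - (t : ℝ) / 2 ^ 112)⁻¹ * 2 ^ 112 ≤ (h : ℝ) := by
      rw [inv_mul_le_iff₀ (by linarith), hh']; push_cast at q ⊢; linarith
    have q0 : 0 ≤ (1 - (t : ℝ) / 2 ^ 112)⁻¹ := inv_nonneg.2 (by linarith)
    generalize (1 - (t : ℝ) / 2 ^ 112)⁻¹ = c at R q2 q0
    have η2 := mul_nonneg ε.p ε.p
    have w1 := mul_le_mul (eta3 ε da s0) (pow_le_pow_left₀ (by positivity) q2 3) (by positivity) (by positivity)
    have w2 := mul_le_mul (mul_le_mul (da.trans (mul_le_of_le_one_right s0 ε.h))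
      (pow_le_pow_left₀ (by positivity) dd 2) (by positivity) s0) q2 (by positivity) (by have := ε.p; positivity)
    have z1 := shr_le (v := |a| * |d| ^ 2 * c * 2 ^ 112) (n := (Nat.mul (Nat.mul s (Nat.mul t t)) h)) (s := 336) η2
      (by simp only [cm]; linarith)
    have z2 := shr_le (v := |a| ^ 3 * c ^ 3 * 2 ^ 112) (n := (Nat.mul (Nat.mul (Nat.mul s s) s) (Nat.mul (Nat.mul h h) h))) (s := 560) η2
      (by simp only [cm]; linarith)
    have z3 := mul_le_mul_of_nonneg_right (div_bd (Nat.shiftRight (Nat.mul (Nat.mul (Nat.mul s s) s) (Nat.mul (Nat.mul h h) h)) (nat_lit 560)) (nat_lit 3) (by norm_num)).2 η2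
    rw [abs_mul, abs_of_pos (by positivity : (0 : ℝ) < 2 ^ 112), E, show arctan (x0 / y0) + arctan (a / (1 + d)) -
      (a - a * d + arctan (x0 / y0)) = arctan (a / (1 + d)) - (a - a * d) by ring]
    rw [ca] at z1 z2
    rw [ca, ca]
    generalize ((Nat.div _ _ : ℕ) : ℝ) = z at z3 ⊢
    generalize ((Nat.shiftRight _ _ : ℕ) : ℝ) = v at z1 ⊢
    generalize ((Nat.shiftRight _ _ : ℕ) : ℝ) = v' at z2 z3
    push_cast at z1 z2 z3 ⊢
    linarith

end Pool.Agent.Work.MP_c2ab8b_gt.K8
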