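import Pool.Agent.Work.MP_c2ab8b_gt.K8.TMc

/- Soundness of the box test with Taylor models. -/

noncomputable section
namespace Pool.Agent.Work.MP_c2ab8b_gt.K8
open Real
set_option exponentiation.threshold 2000

attribute [local irreducible] az rn rx za zs z4 nwt

variable {ε : Nz} {i j x x0 l y y0 m : ℝ}

def Uf (a b c : ℝ) : ℝ := 4 * (a * b) - (a + b - c) * (a + b - c)
def Pf (a b c : ℝ) : ℝ := Uf a b c - 4 * (a * b * c)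
def A2f (a b c : ℝ) : ℝ := arctan ((a - b + c) / √(Pf a b c))
def A3f (a b c : ℝ) : ℝ := arctan ((a + b - c) / √(Pf a b c))
def Ef (a b c : ℝ) : ℝ := arctan (√(Pf a b c) / (2 - a - b - c))
def dU (a b c p q r : ℝ) : ℝ := 4 * (a * q + b * p) - 2 * (a + b - c) * (p + q - r)
def dW (a b c p q r : ℝ) : ℝ :=
  1 / (2 * √(Pf a b c)) * (dU a b c p q r - 4 * (a * b * r + c * (a * q + b * p)))
def dq (n w p q : ℝ) : ℝ := (w * p - n * q) / (n ^ 2 + w ^ 2)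
def dT (a b c p q r : ℝ) : ℝ := 1 / (2 * √(Uf a b c)) * dU a b c p q r
def dE (a b c p q r : ℝ) : ℝ := dq (√(Pf a b c)) (2 - a - b - c) (dW a b c p q r) (-p - q - r)
def dA2 (a b c p q r : ℝ) : ℝ := dq (a - b + c) (√(Pf a b c)) (p - q + r) (dW a b c p q r)
def dA3 (a b c p q r : ℝ) : ℝ := dq (a + b - c) (√(Pf a b c)) (p + q - r) (dW a b c p q r)

theorem afe_s {b : Bs} {k0 k1 k2 k3 : ℕ} {k : TE → Bool} {x1 x2 x3 : ℝ} (ε : Nz) (hb : IB b x1 x2 x3)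
    (e : afe b k0 (nat_lit 0) k1 k2 k3 k = true) :
    ∃ Z, IE ε 2 Z (w k0 + w k1 * (x1 + w b.p1 * ε.e1) + w k2 * (x2 + w b.p2 * ε.e2) + w k3 * (x3 + w b.p3 * ε.e3))
      (w k0 + w k1 * x1 + w k2 * x2 + w k3 * x3)
      (w k1 * (w b.p1 * ε.e1) + w k2 * (w b.p2 * ε.e2) + w k3 * (w b.p3 * ε.e3)) ∧ k Z = true := by
  obtain ⟨X, hX, e⟩ := aff_s ε hb (w_ex k0) e
  exact tx_s hX e

theorem geoT_s {nal : ℕ} {b : Bs} {k : TM → TM → TM → TE → Bool} {x1 x2 x3 m1 m2 m3 : ℝ} (ε : Nz)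
    (hb : IB b x1 x2 x3) (h1 : w b.p1 * ε.e1 = m1) (h2 : w b.p2 * ε.e2 = m2) (h3 : w b.p3 * ε.e3 = m3)
    (hS : 0 < 2 - (x1 + m1) - (x2 + m2) - (x3 + m3)) (e : geoT nal b k = true) :
    A3f (x1 + m1) (x2 + m2) (x3 + m3) * 2 ^ 112 ≤ vz nal ∨ ∃ T E A2 A3,
      In ε 2 T (√(Uf (x1 + m1) (x2 + m2) (x3 + m3))) (√(Uf x1 x2 x3)) (dT x1 x2 x3 m1 m2 m3) ∧
      In ε 4 E (Ef (x1 + m1) (x2 + m2) (x3 + m3)) (Ef x1 x2 x3) (dE x1 x2 x3 m1 m2 m3) ∧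
      In ε 4 A2 (A2f (x1 + m1) (x2 + m2) (x3 + m3)) (A2f x1 x2 x3) (dA2 x1 x2 x3 m1 m2 m3) ∧
      IE ε 4 A3 (A3f (x1 + m1) (x2 + m2) (x3 + m3)) (A3f x1 x2 x3) (dA3 x1 x2 x3 m1 m2 m3) ∧
      k T E A2 A3 = true := by
  obtain ⟨Y1, hY1, e⟩ := afe_s ε hb e
  obtain ⟨Y2, hY2, e⟩ := afe_s ε hb e
  obtain ⟨Y3, hY3, e⟩ := afe_s ε hb e
  obtain ⟨N3, hN3, e⟩ := afe_s ε hb e
  rw [h1, h2, h3, w_B, w_1] at hY1 hY2 hY3 hN3
  rw [w_m] at hN3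
  replace hY1 := hY1.congr (y := x1 + m1) (y0 := x1) (m := m1) (by ring) (by ring) (by ring)
  replace hY2 := hY2.congr (y := x2 + m2) (y0 := x2) (m := m2) (by ring) (by ring) (by ring)
  replace hY3 := hY3.congr (y := x3 + m3) (y0 := x3) (m := m3) (by ring) (by ring) (by ring)
  replace hN3 := hN3.congr (y := x1 + m1 + (x2 + m2) - (x3 + m3)) (y0 := x1 + x2 - x3) (m := m1 + m2 - m3)
    (by ring) (by ring) (by ring)
  obtain ⟨X, hX, e⟩ := tmul_s hY1 hY2 e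
  obtain ⟨X, hX, e⟩ := tx_s hX e
  obtain ⟨Z, hZ, e⟩ := tmul_s hN3 hN3 e
  obtain ⟨V, hV, e⟩ := t4s_s hX.i hZ e
  obtain ⟨Z, hZ, e⟩ := tmul_s hX hY3 e
  obtain ⟨P, hP, e⟩ := ts4_s hV hZ e
  replace hV := hV.congr (y := Uf _ _ _) (y0 := Uf _ _ _) (m := dU x1 x2 x3 m1 m2 m3) rfl rfl (by unfold dU; ring)
  obtain ⟨P, hP, e⟩ := tx_s hP e
  replace hP := hP.congr (y := Pf _ _ _) (y0 := Pf _ _ _)
    (m := dU x1 x2 x3 m1 m2 m3 - 4 * (x1 * x2 * m3 + x3 * (x1 * m2 + x2 * m1))) rfl rfl (by unfold dU; ring)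
  obtain ⟨p, -, W, hW, e⟩ := tsq_s hP e
  obtain ⟨W, hW, e⟩ := tx_s hW e
  obtain ⟨A3, hA3, e⟩ := tang_s hN3 hW (sqrt_pos.2 p) e
  obtain ⟨A3, hA3, e⟩ := tx_s hA3 e
  rcases Bool.or_eq_true _ _ ▸ e with e | e
  · exact Or.inl (thi_s hA3 e)
  obtain ⟨S, hS', e⟩ := afe_s ε hb e
  rw [h1, h2, h3, w_2, w_m] at hS'
  replace hS' := hS'.congr (y := 2 - (x1 + m1) - (x2 + m2) - (x3 + m3)) (y0 := 2 - x1 - x2 - x3) (m := -m1 - m2 - m3)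
    (by ring) (by ring) (by ring)
  obtain ⟨E, hE, e⟩ := tang_s hW hS' hS e
  obtain ⟨N2, hN2, e⟩ := afe_s ε hb e
  rw [h1, h2, h3, w_B, w_1, w_m] at hN2
  replace hN2 := hN2.congr (y := x1 + m1 - (x2 + m2) + (x3 + m3)) (y0 := x1 - x2 + x3) (m := m1 - m2 + m3)
    (by ring) (by ring) (by ring)
  obtain ⟨A2, hA2, e⟩ := tang_s hN2 hW (sqrt_pos.2 p) e
  obtain ⟨V, hV, e⟩ := tx_s hV e
  obtain ⟨-, -, T, hT, e⟩ := tsq_s hV e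
  exact Or.inr ⟨T, E, A2, A3, hT, hE, hA2, hA3, e⟩

theorem pot_s {d : TE} {L : TM} {u v : ℕ} {k : TM → Bool} (hd : IE ε 2 d x x0 l) (hL : In ε 2 L y y0 m)
    (e : pot d L u v k = true) : ∃ Z n, In ε 3 Z (y + x * x * (w v * x + w u)) (y0 + x0 * x0 * (w v * x0 + w u)) n ∧
      k Z = true := by
  rcases brb_s e with ⟨h, e⟩ | ⟨-, e⟩
  · obtain ⟨a, b⟩ := chk_s h
    rw [Nat.eq_of_beq_eq_true a, Nat.eq_of_beq_eq_true b, w_B]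
    exact ⟨L, m, (hL.mono (by norm_num)).congr (by ring) (by ring) rfl, e⟩
  obtain ⟨a, ha, e⟩ := tsm_s hd (w_ex v) e
  obtain ⟨a, ha, e⟩ := tac0_s ha (w_ex u) (by norm_num) e
  obtain ⟨a, ha, e⟩ := tx_s ha e
  obtain ⟨s, hs, e⟩ := tmul_s hd hd e
  obtain ⟨s, hs, e⟩ := tx_s hs e
  obtain ⟨z, hz, e⟩ := tmul_s hs ha e
  obtain ⟨z, hz, e⟩ := tadd_s hL hz (by norm_num) e
  exact ⟨z, _, hz.mono (by norm_num), e⟩

theorem acc_s {G L : TM} {d : TE} {k : TM → Bool} {g g0 n j' : ℝ} (hG : In ε i G g g0 n) (hd : IE ε j d x x0 l)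
    (hL : In ε j' L y y0 m) (hi : i ≤ 9000) (e : acc G d L k = true) :
    ∃ Z, In ε (i + 1) Z (g + x * y) (g0 + x0 * y0) (n + (x0 * m + y0 * l)) ∧ k Z = true := by
  obtain ⟨L, hL, e⟩ := tx_s hL e
  obtain ⟨z, hz, e⟩ := tmul_s hd hL e
  exact tadd_s hG hz (by linarith) e

def kap (l : List (ℕ × ℕ)) (y : ℝ) : ℝ := (l.map fun e => w e.1 * max (w e.2 + y) 0 ^ 3).sum

theorem kl_s {b : Bs} {A : TE} {x1 x2 x3 : ℝ} (hb : IB b x1 x2 x3) (hA : IE ε j A x x0 l) (L : List (ℕ × ℕ)) :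
    ∀ {G : TM} {k : TM → Bool} {i g g0 n : ℝ}, In ε i G g g0 n → i + L.length ≤ 9000 → kl b A L G k = true →
    ∃ Z z0 n', In ε (i + L.length) Z (g + x * kap L (x3 + w b.p3 * ε.e3)) z0 n' ∧ k Z = true ∧
      (L = [] → z0 = g0 ∧ n' = n) := by
  induction L with
  | nil => exact fun hG _ e => ⟨_, _, _, (hG.mono (by simp)).congr (by simp [kap]) rfl rfl, e, fun _ => ⟨rfl, rfl⟩⟩
  | cons c L ih =>
    intro G k i g g0 n hG hi e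
    rw [List.length_cons, Nat.cast_succ] at hi ⊢
    have : (0 : ℝ) ≤ L.length := Nat.cast_nonneg _
    obtain ⟨u, hu, e⟩ := afe_s ε hb e
    rw [w_B, w_1] at hu
    replace hu := hu.congr (y := w c.2 + (x3 + w b.p3 * ε.e3)) (by ring) rfl rfl
    have K : kap (c :: L) (x3 + w b.p3 * ε.e3) =
      w c.1 * max (w c.2 + (x3 + w b.p3 * ε.e3)) 0 ^ 3 + kap L (x3 + w b.p3 * ε.e3) := by simp [kap]
    rcases brb_s e with ⟨h, e⟩ | ⟨-, e⟩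
    · have := thi_s hu h
      rw [vz_B] at this
      obtain ⟨Z, z0, n', hZ, e, -⟩ := ih hG (by linarith) e
      refine ⟨Z, z0, n', (hZ.mono (by linarith)).congr ?_ rfl rfl, e, by simp⟩
      rw [K, max_eq_right (by linarith)]; ring
    · obtain ⟨a, ha, e⟩ := tcb_s hu e
      obtain ⟨a, ha, e⟩ := tx_s ha e
      obtain ⟨a, ha, e⟩ := tsm_s ha (w_ex c.1) e
      obtain ⟨G, hG, e⟩ := acc_s hG hA ha (by linarith) e
      obtain ⟨Z, z0, n', hZ, e, -⟩ := ih hG (by linarith) e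
      refine ⟨Z, z0, n', (hZ.mono (by linarith)).congr ?_ rfl rfl, e, by simp⟩
      rw [K]; ring

/-- real centres and first order coefficients -/
structure RP where
  y1 : ℝ
  y2 : ℝ
  y3 : ℝ
  a1 : ℝ
  a2 : ℝ
  a3 : ℝ
  l0 : ℝ
  l1 : ℝ
  l2 : ℝ
  l3 : ℝ
  l4 : ℝ
  l5 : ℝ
  l6 : ℝ

def Nr (e u : ℕ) (x : ℝ) : Prop := |x * 2 ^ 112 - vz u| ≤ (e : ℝ)

structure RP.ok (r : RP) (p : Par) : Prop where
  y1 : Nr p.er p.y1 r.y1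
  y2 : Nr p.er p.y2 r.y2
  y3 : Nr p.er p.y3 r.y3
  a1 : Nr p.er p.a1 r.a1
  a2 : Nr p.er p.a2 r.a2
  a3 : Nr p.er p.a3 r.a3
  l0 : Nr p.er p.l0 r.l0
  l1 : Nr p.er p.l1 r.l1
  l2 : Nr p.er p.l2 r.l2
  l3 : Nr p.er p.l3 r.l3
  l4 : Nr p.er p.l4 r.l4
  l5 : Nr p.er p.l5 r.l5
  l6 : Nr p.er p.l6 r.l6

def RP.lin (r : RP) (d1 d2 d3 x y z : ℝ) : ℝ :=
  r.l0 + r.l1 * d1 + r.l2 * d2 + r.l3 * d3 + r.l4 * x + r.l5 * y + r.l6 * z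

def Par.qf (p : Par) (d1 d2 d3 x y z : ℝ) : ℝ :=
  d1 * (w p.q11 * d1 + w p.q12 * d2 + w p.q13 * d3 + w p.q14 * x + w p.q15 * y + w p.q16 * z) +
  d2 * (w p.q22 * d2 + w p.q23 * d3 + w p.q24 * x + w p.q25 * y + w p.q26 * z) +
  d3 * (w p.q33 * d3 + w p.q34 * x + w p.q35 * y + w p.q36 * z) +
  x * (w p.q44 * x + w p.q45 * y + w p.q46 * z) + y * (w p.q55 * y + w p.q56 * z) + z * (w p.q66 * z)

def pt (u v : ℕ) (d : ℝ) : ℝ := d ^ 3 * (w v * d + w u)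

/-- the quantity shown to be nonnegative, `d` the displacement of the sides -/
def Par.G (p : Par) (r : RP) (d1 d2 d3 y3 T E A2 A3 : ℝ) : ℝ :=
  r.lin d1 d2 d3 (E + r.a1) (A2 + r.a2) (A3 + r.a3) + p.qf d1 d2 d3 (E + r.a1) (A2 + r.a2) (A3 + r.a3) +
    (pt p.u1 p.v1 d1 + pt p.u2 p.v2 d2 + pt p.u3 p.v3 d3) + A3 * kap p.kk y3 - T

theorem comb_s {p : Par} {r : RP} {d b : Bs} {T E A2 : TM} {A3 : TE} {k : TM → Bool}
    {x1 x2 x3 d1 d2 d3 m1 m2 m3 t t0 lt e e0 le a a0 la c c0 lc : ℝ} (hr : r.ok p) (hk : p.kk.length ≤ 100)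
    (hd : IB d d1 d2 d3) (hb : IB b x1 x2 x3) (h1 : w d.p1 * ε.e1 = m1) (h2 : w d.p2 * ε.e2 = m2)
    (h3 : w d.p3 * ε.e3 = m3) (hT : In ε 2 T t t0 lt) (hE : In ε 4 E e e0 le) (hA : In ε 4 A2 a a0 la)
    (hC : IE ε 4 A3 c c0 lc) (h : comb p d b T E A2 A3 k = true) :
    ∃ Z g0 lg, In ε 200 Z (p.G r (d1 + m1) (d2 + m2) (d3 + m3) (x3 + w b.p3 * ε.e3) t e a c) g0 lg ∧ k Z = true ∧
      (p.kk = [] → d1 = 0 → d2 = 0 → d3 = 0 → e0 + r.a1 = 0 → a0 + r.a2 = 0 → c0 + r.a3 = 0 → g0 = r.l0 - t0 ∧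
        lg = r.l1 * m1 + r.l2 * m2 + r.l3 * m3 + r.l4 * le + r.l5 * la + r.l6 * lc - lt) := by
  obtain ⟨X, hX, h⟩ := tac0_s hE hr.a1 (by norm_num) h
  obtain ⟨X, hX, h⟩ := tx_s hX h
  obtain ⟨Y, hY, h⟩ := tac0_s hA hr.a2 (by norm_num) h
  obtain ⟨Y, hY, h⟩ := tx_s hY h
  obtain ⟨Z, hZ, h⟩ := tac0_s hC.i hr.a3 (by norm_num) h
  obtain ⟨Z, hZ, h⟩ := tx_s hZ h
  obtain ⟨L, hL, h⟩ := aff_s ε hd hr.l4 h
  obtain ⟨u, hu, h⟩ := tsm_s hX (w_ex _) h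
  obtain ⟨L, hL, h⟩ := tadd_s hL hu (by norm_num) h
  obtain ⟨u, hu, h⟩ := tsm_s hY (w_ex _) h
  obtain ⟨L, hL, h⟩ := tadd_s hL hu (by norm_num) h
  obtain ⟨u, hu, h⟩ := tsm_s hZ (w_ex _) h
  obtain ⟨L, hL, h⟩ := tadd_s hL hu (by norm_num) h
  obtain ⟨L, hL, h⟩ := tx_s hL h
  obtain ⟨G, hG, h⟩ := tmul_s hX hL h
  obtain ⟨G, hG, h⟩ := tsub_s hG hT (by norm_num) h
  obtain ⟨G, hG, h⟩ := tac0_s hG hr.l0 (by norm_num) h
  obtain ⟨L, hL, h⟩ := aff_s ε hd hr.l5 h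
  obtain ⟨u, hu, h⟩ := tsm_s hY (w_ex _) h
  obtain ⟨L, hL, h⟩ := tadd_s hL hu (by norm_num) h
  obtain ⟨u, hu, h⟩ := tsm_s hZ (w_ex _) h
  obtain ⟨L, hL, h⟩ := tadd_s hL hu (by norm_num) h
  obtain ⟨G, hG, h⟩ := acc_s hG hY hL (by norm_num) h
  obtain ⟨L, hL, h⟩ := aff_s ε hd hr.l6 h
  obtain ⟨u, hu, h⟩ := tsm_s hZ (w_ex _) h
  obtain ⟨L, hL, h⟩ := tadd_s hL hu (by norm_num) h
  obtain ⟨G, hG, h⟩ := acc_s hG hZ hL (by norm_num) h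
  obtain ⟨u, hu, h⟩ := afe_s ε hd h
  obtain ⟨L, hL, h⟩ := aff_s ε hd hr.l1 h
  obtain ⟨L, n1, hL, h⟩ := pot_s hu hL h
  obtain ⟨G, hG, h⟩ := acc_s hG hu hL (by norm_num) h
  obtain ⟨u, hu, h⟩ := afe_s ε hd h
  obtain ⟨L, hL, h⟩ := aff_s ε hd hr.l2 h
  obtain ⟨L, n2, hL, h⟩ := pot_s hu hL h
  obtain ⟨G, hG, h⟩ := acc_s hG hu hL (by norm_num) h
  obtain ⟨u, hu, h⟩ := afe_s ε hd h
  obtain ⟨L, hL, h⟩ := aff_s ε hd hr.l3 h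
  obtain ⟨L, n3, hL, h⟩ := pot_s hu hL h
  obtain ⟨G, hG, h⟩ := acc_s hG hu hL (by norm_num) h
  have hk : (p.kk.length : ℝ) ≤ 100 := by exact_mod_cast hk
  obtain ⟨G, g0, lg, hG, h, z⟩ := kl_s hb hC p.kk hG (by linarith) h
  rw [h1, h2, h3, w_B, w_1] at hG z
  refine ⟨G, g0, lg, (hG.mono (by linarith)).congr (by unfold Par.G RP.lin Par.qf pt; ring) rfl rfl, h, ?_⟩
  intro o o1 o2 o3 o4 o5 o6
  obtain ⟨z1, z2⟩ := z o
  rw [z1, z2, o1, o2, o3, o4, o5, o6]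
  constructor <;> ring

theorem sq_lo {a q e : ℝ} {n : ℕ} (he : |e| ≤ 1) (h : a - q ≤ n) : -(n : ℝ) ≤ (q - a) * (e * e) := by
  have h1 := mul_self_nonneg e
  have h2 : e * e ≤ 1 := by rw [← abs_mul_abs_self]; exact mul_le_one₀ he (abs_nonneg _) he
  have h3 : (0 : ℝ) ≤ n := Nat.cast_nonneg _
  nlinarith

theorem res_s {t0 t1 t2 t3 t4 t5 t6 t7 t8 : ℕ} {G : TM} (hG : In ε 200 G x x0 l) (hη : ε.η = 1)
    (b0 : |vz t0| ≤ 2 ^ 65) (b1 : |vz t1| ≤ 2 ^ 65) (b2 : |vz t2| ≤ 2 ^ 65) (b3 : |vz t3| ≤ 2 ^ 65)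
    (b4 : |vz t4| ≤ 2 ^ 65) (b5 : |vz t5| ≤ 2 ^ 65) (b6 : |vz t6| ≤ 2 ^ 65) (b7 : |vz t7| ≤ 2 ^ 65)
    (b8 : |vz t8| ≤ 2 ^ 65) (e : res t0 t1 t2 t3 t4 t5 t6 t7 t8 G = true) : 0 ≤ x := by
  obtain ⟨S, e0, e1, e2⟩ := hG
  obtain ⟨c, a1, a2, a3, q1, q2, q3, q4, q5, q6, r0, r1, r2⟩ := G
  have e := ble_r e
  have f : ∀ {a b : ℕ}, |vz a| ≤ 2 ^ 65 → |vz b| ≤ 2 ^ 65 → -2 ^ 130 ≤ vz a * vz b ∧ vz a * vz b ≤ 2 ^ 130 :=
    fun u v => abs_le.1 ((prod_bd u v).trans (by norm_num))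
  have g : ∀ {a n : ℕ} {z : ℝ}, |vz a| ≤ 200 * 2 ^ 141 → Md n z → |z| ≤ 2 ^ 140 → vz (zs a (rx n)) = vz a - z :=
    fun u v s => by
      have := rx_s v (s.trans (by norm_num))
      rw [(zs_s (j := 1) u (by rw [this]; linarith) (by norm_num)).1, this]
  have g' : ∀ {a n : ℕ} {z : ℝ}, Md n z → |z| ≤ 2 ^ 140 → z - vz a ≤ (Nat.sub (rx n) a : ℕ) := fun {a n z} v s => by
    have := rx_s v (s.trans (by norm_num))
    have := le_sub' (rx n) a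
    unfold vz at *; linarith
  have p00 := f b0 b0; have p01 := f b0 b1; have p02 := f b0 b2; have p03 := f b0 b3; have p11 := f b1 b1
  have p12 := f b1 b2; have p13 := f b1 b3; have p22 := f b2 b2; have p23 := f b2 b3; have p33 := f b3 b3
  have p44 := f b4 b4; have p45 := f b4 b5; have p46 := f b4 b6; have p55 := f b5 b5; have p56 := f b5 b6
  have p66 := f b6 b6; have p77 := f b7 b7; have p78 := f b7 b8; have p88 := f b8 b8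
  have z0 := g S.c (((Md.mul t0 t0).add (Md.mul t4 t4)).add (Md.mul t7 t7))
    (abs_le.2 ⟨by linarith only [p00.1, p44.1, p77.1], by linarith only [p00.2, p44.2, p77.2]⟩)
  have z1 := g S.a1 (Md.mul t0 t1).two (abs_le.2 ⟨by linarith only [p01.1], by linarith only [p01.2]⟩)
  have z2 := g S.a2 ((Md.mul t0 t2).add (Md.mul t4 t5)).two
    (abs_le.2 ⟨by linarith only [p02.1, p45.1], by linarith only [p02.2, p45.2]⟩)
  have z3 := g S.a3 (((Md.mul t0 t3).add (Md.mul t4 t6)).add (Md.mul t7 t8)).two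
    (abs_le.2 ⟨by linarith only [p03.1, p46.1, p78.1], by linarith only [p03.2, p46.2, p78.2]⟩)
  have z4 := g S.q4 (Md.mul t1 t2).two (abs_le.2 ⟨by linarith only [p12.1], by linarith only [p12.2]⟩)
  have z5 := g S.q5 (Md.mul t1 t3).two (abs_le.2 ⟨by linarith only [p13.1], by linarith only [p13.2]⟩)
  have z6 := g S.q6 ((Md.mul t2 t3).add (Md.mul t5 t6)).two
    (abs_le.2 ⟨by linarith only [p23.1, p56.1], by linarith only [p23.2, p56.2]⟩)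
  have h1 := hη ▸ ε.h1
  have h2 := hη ▸ ε.h2
  have h3 := hη ▸ ε.h3
  have y1 := sq_lo h1 (g' (a := q1) (Md.mul t1 t1) (abs_le.2 ⟨by linarith only [p11.1], by linarith only [p11.2]⟩))
  have y2 := sq_lo h2 (g' (a := q2) ((Md.mul t2 t2).add (Md.mul t5 t5))
    (abs_le.2 ⟨by linarith only [p22.1, p55.1], by linarith only [p22.2, p55.2]⟩))
  have y3 := sq_lo h3 (g' (a := q3) (((Md.mul t3 t3).add (Md.mul t6 t6)).add (Md.mul t8 t8))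
    (abs_le.2 ⟨by linarith only [p33.1, p66.1, p88.1], by linarith only [p33.2, p66.2, p88.2]⟩))
  dsimp only at z0 z1 z2 z3 z4 z5 z6
  simp only [ca, cast_az, z1, z2, z3, z4, z5, z6, cB] at e
  unfold vz at z0
  have m : ∀ {a e : ℝ}, |e| ≤ 1 → -|a| ≤ a * e := fun {a e} h => by
    have := prod_bd (le_refl |a|) h; linarith [neg_abs_le (a * e)]
  have m2 : ∀ {e f : ℝ}, |e| ≤ 1 → |f| ≤ 1 → |e * f| ≤ 1 := fun u v => (prod_bd u v).trans_eq (one_mul _)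
  have v1 := m (a := vz a1 - 2 * (vz t0 * vz t1)) h1
  have v2 := m (a := vz a2 - 2 * (vz t0 * vz t2 + vz t4 * vz t5)) h2
  have v3 := m (a := vz a3 - 2 * (vz t0 * vz t3 + vz t4 * vz t6 + vz t7 * vz t8)) h3
  have v4 := m (a := vz q4 - 2 * (vz t1 * vz t2)) (m2 h1 h2)
  have v5 := m (a := vz q5 - 2 * (vz t1 * vz t3)) (m2 h1 h3)
  have v6 := m (a := vz q6 - 2 * (vz t2 * vz t3 + vz t5 * vz t6)) (m2 h2 h3)
  have s1 := mul_self_nonneg (vz t0 + vz t1 * ε.e1 + vz t2 * ε.e2 + vz t3 * ε.e3)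
  have s2 := mul_self_nonneg (vz t4 + vz t5 * ε.e2 + vz t6 * ε.e3)
  have s3 := mul_self_nonneg (vz t7 + vz t8 * ε.e3)
  simp only [TM.L, TM.Q, Nz.lin, Nz.qd, hη, abs_le] at e0 e1 e2
  have z0' : ((zs c (rx (Nat.add (Nat.add (Nat.mul t0 t0) (Nat.mul t4 t4)) (Nat.mul t7 t7))) : ℕ) : ℝ) - 2 ^ 254 =
    vz c - (vz t0 * vz t0 + vz t4 * vz t4 + vz t7 * vz t7) := z0
  generalize |vz a1 - _| = n1 at e v1
  generalize |vz a2 - _| = n2 at e v2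
  generalize |vz a3 - _| = n3 at e v3
  generalize |vz q4 - _| = n4 at e v4
  generalize |vz q5 - _| = n5 at e v5
  generalize |vz q6 - _| = n6 at e v6
  linarith only [e, z0', e0.1, e1.1, e2.1, v1, v2, v3, v4, v5, v6, y1, y2, y3, s1, s2, s3]

theorem tau_s (pay i : ℕ) {sc : ℕ} (h : (sc : ℝ) ≤ 2 ^ 55) : |vz (tau pay sc i)| ≤ 2 ^ 65 := by
  have a : Nat.land (Nat.shiftRight pay i) (nat_lit 2047) ≤ 2047 := Nat.and_le_right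
  have a : ((Nat.land (Nat.shiftRight pay i) (nat_lit 2047) : ℕ) : ℝ) ≤ 2047 := by exact_mod_cast a
  have s : (0 : ℝ) ≤ sc := Nat.cast_nonneg _
  have b := mul_le_mul_of_nonneg_right a s
  have c := mul_nonneg (Nat.cast_nonneg (Nat.land (Nat.shiftRight pay i) (nat_lit 2047)) : (0 : ℝ) ≤ _) s
  unfold tau vz
  rw [cast_sub'] <;> rw [ca, cm, cm, cB] <;> push_cast
  · rw [abs_le]; constructor <;> linarith
  · linarith

def cf (c : ℕ) : ℝ := if c = 1 then 1 else if c = 2 then -1 else 0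

/-- a linear cut on the sides -/
def Ct (e : ℕ × ℕ × ℕ × ℕ) (y1 y2 y3 : ℝ) : Prop :=
  cf e.1 * (y1 * 2 ^ 32 + 2 ^ 52) + cf e.2.1 * (y2 * 2 ^ 32 + 2 ^ 52) + cf e.2.2.1 * (y3 * 2 ^ 32 + 2 ^ 52) ≤
    (e.2.2.2 : ℝ) - 4 * 2 ^ 52

theorem sl_s {c a r : ℕ} {y : ℝ} (h : Bx a r y) :
    (sl c 1 a : ℝ) - sl c 2 (Nat.add a (Nat.mul (nat_lit 2) r)) ≤ cf c * (y * 2 ^ 32 + 2 ^ 52) := by
  obtain ⟨h1, h2⟩ := h
  unfold vl at h1 h2
  unfold sl cf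
  rcases brn_s (Nat.beq c 1) (nat_lit 0) a with ⟨g, e⟩ | ⟨g, e⟩ <;> rw [e] <;>
    rcases brn_s (Nat.beq c 2) (nat_lit 0) (Nat.add a (Nat.mul (nat_lit 2) r)) with ⟨g', e⟩ | ⟨g', e⟩ <;> rw [e]
  · rw [if_neg (Nat.ne_of_beq_eq_false g), if_neg (Nat.ne_of_beq_eq_false g')]; simp
  · rw [if_neg (Nat.ne_of_beq_eq_false g), if_pos (Nat.eq_of_beq_eq_true g'), ca, cm]; push_cast; linarith
  · rw [if_pos (Nat.eq_of_beq_eq_true g)]; push_cast; linarith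
  · have := Nat.eq_of_beq_eq_true g; have := Nat.eq_of_beq_eq_true g'; omega

theorem cutT_s {e : ℕ × ℕ × ℕ × ℕ} {a1 r1 a2 r2 a3 r3 : ℕ} {y1 y2 y3 : ℝ} (b1 : Bx a1 r1 y1) (b2 : Bx a2 r2 y2)
    (b3 : Bx a3 r3 y3) (h : cutT e a1 (Nat.add a1 (Nat.mul (nat_lit 2) r1)) a2 (Nat.add a2 (Nat.mul (nat_lit 2) r2)) a3 (Nat.add a3 (Nat.mul (nat_lit 2) r3)) = true) :
    ¬ Ct e y1 y2 y3 := by
  have h := ble_r h
  rw [Nat.cast_succ, ca, ca, ca, ca, ca, ca] at h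
  have := sl_s (c := e.1) b1; have := sl_s (c := e.2.1) b2; have := sl_s (c := e.2.2.1) b3
  unfold Ct
  push_cast at h
  linarith

def Hl (h g : ℕ) (y : ℝ) : Prop := vl h ≤ y * 2 ^ 32 ∧ y * 2 ^ 32 ≤ vl g

def Par.Good (p : Par) (y1 y2 y3 : ℝ) : Prop :=
  (Hl p.h1 p.g1 y1 ∧ Hl p.h2 p.g2 y2 ∧ Hl p.h3 p.g3 y3) ∨ ((∀ e ∈ p.ct, Ct e y1 y2 y3) →
    vz p.nal < A3f y1 y2 y3 * 2 ^ 112 → 0 < 2 - y1 - y2 - y3 → ∀ r : RP, r.ok p →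
      0 ≤ p.G r (y1 - r.y1) (y2 - r.y2) (y3 - r.y3) y3 (√(Uf y1 y2 y3)) (Ef y1 y2 y3) (A2f y1 y2 y3) (A3f y1 y2 y3))

def Par.wf (p : Par) : Bool := (Nat.ble (Nat.add (Nat.add (az p.y1) (az p.y2)) (az p.y3)) (nat_lit 332306998946228968225951765070086144)) && Nat.ble p.kk.length 100

theorem cen_s {a r : ℕ} {y : ℝ} (h : Bx a r y) : ∃ e : ℝ, |e| ≤ 1 ∧
    y = w (Nat.add (Nat.shiftLeft (Nat.add a r) (nat_lit 80)) (nat_lit 28948022309329048855892746252171976957872978295675125594450402283069991026688)) + w (Nat.add (Nat.shiftLeft r (nat_lit 80)) (nat_lit 28948022309329048855892746252171976963317496166410141009864396001978282409984)) * e := by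
  obtain ⟨e, h1, h2⟩ := h.noise
  refine ⟨e, h1, ?_⟩
  unfold w vz vl at *
  rw [ca] at h2
  rw [ca, ca, cshl, cshl, ca, cB]
  push_cast at *
  linarith

theorem Hl.of {h g a r : ℕ} {y : ℝ} (b : Bx a r y) (h1 : Nat.ble h a = true) (h2 : (Nat.ble (Nat.add a (Nat.mul (nat_lit 2) r)) g) = true) :
    Hl h g y := by
  have := vl_le h1
  have := vl_le h2
  rw [vl_add, cm] at this
  push_cast at this
  exact ⟨by linarith [b.1], by linarith [b.2]⟩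

theorem tleaf_s {p : Par} (hp : p.wf = true) {pay a1 r1 a2 r2 a3 r3 : ℕ} (e : tleaf p pay a1 r1 a2 r2 a3 r3 = true) :
    Cov p.Good a1 r1 a2 r2 a3 r3 := by
  intro y1 y2 y3 b1 b2 b3
  rcases brb_s e with ⟨-, e⟩ | ⟨-, e⟩
  · rcases brb_s e with ⟨-, e⟩ | ⟨-, e⟩
    · simp only [Bool.and_eq_true] at e
      exact Or.inl ⟨Hl.of b1 e.1.1.1.1.1 e.1.1.1.1.2, Hl.of b2 e.1.1.1.2 e.1.1.2, Hl.of b3 e.1.2 e.2⟩
    · refine Or.inr fun h => absurd ?_ (cutT_s b1 b2 b3 e)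
      rw [List.getD_eq_getElem?_getD]
      cases g : p.ct[(Nat.shiftRight pay (nat_lit 1))]? with
      | none => simp [Ct, cf]; norm_num
      | some c => exact h c (List.mem_of_getElem? g)
  refine Or.inr fun _ hA hS r hr => ?_
  obtain ⟨e1, u1, v1⟩ := cen_s b1
  obtain ⟨e2, u2, v2⟩ := cen_s b2
  obtain ⟨e3, u3, v3⟩ := cen_s b3
  extract_lets c1 c2 c3 p1 p2 p3 sc at e
  have hsc : (sc : ℝ) ≤ 2 ^ 55 := by
    rcases brn_s (Nat.beq pay (nat_lit 0)) (Nat.shiftLeft (nat_lit 1) (Nat.add (Nat.land (Nat.shiftRight pay (nat_lit 1)) (nat_lit 31)) (nat_lit 24))) (nat_lit 0) with ⟨-, g⟩ | ⟨-, g⟩ <;>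
      rw [show sc = _ from g]
    · have : Nat.land (Nat.shiftRight pay (nat_lit 1)) (nat_lit 31) ≤ 31 := Nat.and_le_right
      rw [cshl]; push_cast; rw [one_mul]
      exact pow_le_pow_right₀ (by norm_num) (Nat.add_le_add_right this 24)
    · norm_num
  change y1 = w c1 + w p1 * e1 at v1
  change y2 = w c2 + w p2 * e2 at v2
  change y3 = w c3 + w p3 * e3 at v3
  clear_value c1 c2 c3 p1 p2 p3 sc
  obtain ⟨k, e⟩ := chk_s e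
  have k := ble_r k
  unfold Par.wf at hp
  rw [Bool.and_eq_true] at hp
  have k' := ble_r hp.1
  simp only [ca, cast_az] at k k'
  push_cast at k k'
  have := abs_nonneg (vz c1); have := abs_nonneg (vz c2); have := abs_nonneg (vz c3)
  have := abs_nonneg (vz p1); have := abs_nonneg (vz p2); have := abs_nonneg (vz p3)
  have := abs_nonneg (vz p.y1); have := abs_nonneg (vz p.y2); have := abs_nonneg (vz p.y3)
  have : (0 : ℝ) ≤ sc := Nat.cast_nonneg _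
  have q1 : |vz p1| ≤ 2 ^ 121 := by linarith
  have q2 : |vz p2| ≤ 2 ^ 121 := by linarith
  have q3 : |vz p3| ≤ 2 ^ 121 := by linarith
  have hb : IB ⟨c1, c2, c3, p1, p2, p3, (nat_lit 0)⟩ (w c1) (w c2) (w c3) :=
    ⟨w_ex _, w_ex _, w_ex _, by dsimp only; linarith, by dsimp only; linarith, by dsimp only; linarith, q1, q2, q3⟩
  have f : ∀ {c y : ℕ} {z : ℝ}, |vz c| ≤ 2 ^ 118 → |vz y| ≤ 2 ^ 118 → Nr p.er y z →
      |(w c - z) * 2 ^ 112 - vz (zs c y)| ≤ (p.er : ℝ) ∧ |vz (zs c y)| ≤ 2 ^ 121 := fun {c y z} s t u => by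
    have := zs_s (a := c) (b := y) (i := 1 / 2 ^ 23) (j := 1 / 2 ^ 23) (by linarith) (by linarith) (by norm_num)
    refine ⟨?_, this.2.trans (by norm_num)⟩
    rw [this.1, show (w c - z) * 2 ^ 112 - (vz c - vz y) = -(z * 2 ^ 112 - vz y) by unfold w; ring, abs_neg]
    exact u
  have f1 := f (c := c1) (by linarith) (by linarith) hr.y1
  have f2 := f (c := c2) (by linarith) (by linarith) hr.y2
  have f3 := f (c := c3) (by linarith) (by linarith) hr.y3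
  have hd : IB ⟨zs c1 p.y1, zs c2 p.y2, zs c3 p.y3, p1, p2, p3, p.er⟩ (w c1 - r.y1) (w c2 - r.y2) (w c3 - r.y3) :=
    ⟨f1.1, f2.1, f3.1, f1.2, f2.2, f3.2, q1, q2, q3⟩
  let ε : Nz := ⟨e1, e2, e3, 1, u1, u2, u3, le_rfl⟩
  rcases geoT_s ε hb rfl rfl rfl (by rw [v1, v2, v3] at hS; exact hS) e with h | ⟨T, E, A2, A3, hT, hE, h2, h3, e⟩
  · rw [v1, v2, v3] at hA; exact absurd h (not_le.2 hA)
  obtain ⟨Z, g0, lg, hZ, e, -⟩ := comb_s hr (Nat.le_of_ble_eq_true hp.2) hd hb rfl rfl rfl hT hE h2 h3 e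
  have := res_s hZ rfl (tau_s _ _ hsc) (tau_s _ _ hsc) (tau_s _ _ hsc) (tau_s _ _ hsc) (tau_s _ _ hsc) (tau_s _ _ hsc)
    (tau_s _ _ hsc) (tau_s _ _ hsc) (tau_s _ _ hsc) e
  rw [v1, v2, v3, add_sub_right_comm, add_sub_right_comm (w c2), add_sub_right_comm (w c3)]
  exact this

theorem bb2_succ (lf : ℕ → ℕ → ℕ → ℕ → ℕ → ℕ → ℕ → Bool) (f code a1 r1 a2 r2 a3 r3 : ℕ) :
    bb2 lf (f + 1) code a1 r1 a2 r2 a3 r3 =
    fN (Nat.land code 3) fun d => bif Nat.beq d 0 then fS (Nat.shiftRight code 2) fun y => lf y a1 r1 a2 r2 a3 r3 else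
    fN (Nat.land (Nat.shiftRight code 2) 31) fun w =>
    fN (Nat.land (Nat.shiftRight code 7) (Nat.pred (Nat.shiftLeft 1 w))) fun n =>
    fN (Nat.shiftRight code (Nat.add 7 w)) fun e =>
    fS (Nat.land e (Nat.pred (Nat.shiftLeft 1 n))) fun x => fS (Nat.shiftRight e n) fun z =>
    bif Nat.beq d 1 then fS (Nat.sub r1 (Nat.shiftRight r1 1)) fun s => fS (Nat.add a1 r1) fun b =>
      bb2 lf f x a1 s a2 r2 a3 r3 && bb2 lf f z b s a2 r2 a3 r3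
    else bif Nat.beq d 2 then fS (Nat.sub r2 (Nat.shiftRight r2 1)) fun s => fS (Nat.add a2 r2) fun b =>
      bb2 lf f x a1 r1 a2 s a3 r3 && bb2 lf f z a1 r1 b s a3 r3
    else fS (Nat.sub r3 (Nat.shiftRight r3 1)) fun s => fS (Nat.add a3 r3) fun b =>
      bb2 lf f x a1 r1 a2 r2 a3 s && bb2 lf f z a1 r1 a2 r2 b s := rfl

theorem bb2_s {G : ℝ → ℝ → ℝ → Prop} {lf : ℕ → ℕ → ℕ → ℕ → ℕ → ℕ → ℕ → Bool}
    (hl : ∀ y a1 r1 a2 r2 a3 r3, lf y a1 r1 a2 r2 a3 r3 = true → Cov G a1 r1 a2 r2 a3 r3) (fuel : ℕ) :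
    ∀ code a1 r1 a2 r2 a3 r3, bb2 lf fuel code a1 r1 a2 r2 a3 r3 = true → Cov G a1 r1 a2 r2 a3 r3 := by
  induction fuel with
  | zero => intro _ _ _ _ _ _ _ h; exact absurd h (by simp [bb2])
  | succ n ih =>
    intro code a1 r1 a2 r2 a3 r3 h
    rw [bb2_succ, fN_eq] at h
    rcases cond_s h with ⟨-, h⟩ | ⟨-, h⟩
    · exact hl _ _ _ _ _ _ _ h
    rw [fN_eq, fN_eq, fN_eq, fS_eq, fS_eq] at h
    rcases cond_s h with ⟨-, h⟩ | ⟨-, h⟩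
    · rw [fS_eq, fS_eq, Bool.and_eq_true] at h
      exact sp1 (ih _ _ _ _ _ _ _ h.1) (ih _ _ _ _ _ _ _ h.2)
    rcases cond_s h with ⟨-, h⟩ | ⟨-, h⟩
    · rw [fS_eq, fS_eq, Bool.and_eq_true] at h
      exact sp2 (ih _ _ _ _ _ _ _ h.1) (ih _ _ _ _ _ _ _ h.2)
    · rw [fS_eq, fS_eq, Bool.and_eq_true] at h
      exact sp3 (ih _ _ _ _ _ _ _ h.1) (ih _ _ _ _ _ _ _ h.2)

theorem cvT {p : Par} (hp : p.wf = true) {code a1 r1 a2 r2 a3 r3 : ℕ}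
    (h : bb2 (tleaf p) 80 code a1 r1 a2 r2 a3 r3 = true) : Cov p.Good a1 r1 a2 r2 a3 r3 :=
  bb2_s (fun _ _ _ _ _ _ _ e => tleaf_s hp e) 80 _ _ _ _ _ _ _ h

end Pool.Agent.Work.MP_c2ab8b_gt.K8
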