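import Pool.Agent.Work.MP_c2ab8b_gt.K8.Mod

/- Perturbation into general position, the limit of the area bound and the maximiser. -/

noncomputable section
namespace Pool.Agent.Work.MP_c2ab8b_gt.K8
open Real MeasureTheory Set Filter Topology
open scoped Pointwise

def Zi : Fin 8 → ℤ × ℤ × ℤ :=
  ![(-6, 3, -6), (4, -1, 8), (8, 1, -4), (-8, 4, 1), (-4, 4, 7), (-6, -3, -6), (3, 6, -6), (9, 0, 0)]
def Zr (i : Fin 8) : V := !₂[(Zi i).1 / 9, (Zi i).2.1 / 9, (Zi i).2.2 / 9]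

theorem Zr_dv (i j k : Fin 8) : dv (Zr i) (Zr j) (Zr k) = dvi (Zi i) (Zi j) (Zi k) / 729 := by
  simp only [dv, Zr, dvi, PiLp.toLp_apply, Matrix.cons_val]; push_cast; ring

theorem path {X : Fin 8 → V} (u : ∀ i, dt (X i) (X i) = 1) : ∃ Y : ℝ → Fin 8 → V, Continuous Y ∧ Y 0 = X ∧
    (∀ t i, dt (Y t i) (Y t i) = 1) ∧ ∀ᶠ t in 𝓝[≠] 0,
      (∀ i j k, i ≠ j → j ≠ k → k ≠ i → dv (Y t i) (Y t j) (Y t k) ≠ 0) ∧
      ∀ i j k l, i ≠ j → j ≠ k → k ≠ i → l ≠ i → l ≠ j → l ≠ k → d4 (Y t i) (Y t j) (Y t k) (Y t l) ≠ 0 := by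
  choose θ φ h using fun i => sph_surj (u i)
  choose θ' φ' h' using fun i => sph_surj (x := Zr i) (by
    have := (by decide : ∀ i, (Zi i).1 * (Zi i).1 + (Zi i).2.1 * (Zi i).2.1 + (Zi i).2.2 * (Zi i).2.2 = 81) i
    have : (((Zi i).1 * (Zi i).1 + (Zi i).2.1 * (Zi i).2.1 + (Zi i).2.2 * (Zi i).2.2 : ℤ) : ℝ) = (81 : ℤ) := by
      rw [this]
    simp only [dt, Zr, PiLp.toLp_apply, Matrix.cons_val]
    push_cast at this; linarith)
  let Y : ℝ → Fin 8 → V := fun t i => sph (θ i + t * (θ' i - θ i)) (φ i + t * (φ' i - φ i))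
  have y1 : ∀ i, Y 1 i = Zr i := fun i => by simp [Y, h']
  have an : ∀ i j k t, AnalyticAt ℝ (fun t => dv (Y t i) (Y t j) (Y t k)) t := by
    intro i j k t
    simp only [dv, Y, sph, PiLp.toLp_apply, Matrix.cons_val]
    fun_prop
  refine ⟨Y, ?_, by funext i; simp [Y, h], fun t i => sph_unit _ _, Eventually.and ?_ ?_⟩
  · refine continuous_pi fun i => (PiLp.continuous_toLp 2 _).comp (continuous_pi fun j => ?_)
    fin_cases j <;> simp <;> fun_prop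
  · simp only [eventually_all]
    intro i j k a b c
    refine ana (an i j k) ?_
    have := (by decide +kernel : ∀ i j k, i ≠ j → j ≠ k → k ≠ i → dvi (Zi i) (Zi j) (Zi k) ≠ 0) i j k a b c
    simp only [y1, Zr_dv]
    exact div_ne_zero (Int.cast_ne_zero.2 this) (by norm_num)
  · simp only [eventually_all]
    intro i j k l a b c d e f
    refine ana (fun t => (((an j k l t).sub (an i k l t)).add (an i j l t)).sub (an i j k t)) ?_
    have := (by decide +kernel : ∀ i j k l, i ≠ j → j ≠ k → k ≠ i → l ≠ i → l ≠ j → l ≠ k →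
      dvi (Zi j) (Zi k) (Zi l) - dvi (Zi i) (Zi k) (Zi l) + dvi (Zi i) (Zi j) (Zi l) - dvi (Zi i) (Zi j) (Zi k) ≠ 0)
      i j k l a b c d e f
    simp only [d4, y1, Zr_dv, ← sub_div, ← add_div]
    exact div_ne_zero (by exact_mod_cast this) (by norm_num)

theorem shrink {X Y : Fin 8 → V} {r : ℝ} (hr : 0 < r) (hb : Metric.closedBall 0 r ⊆ Hu X)
    (hc : 0 ≤ 1 - ‖Y - X‖ / r) : (1 - ‖Y - X‖ / r) • Hu X ⊆ Hu Y := by
  rintro _ ⟨x, hx, rfl⟩
  by_contra hn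
  obtain ⟨f, u, h1, h2⟩ := geometric_hahn_banach_closed_point (Hu.cv Y) (Hu.cp Y).isClosed hn
  set a := (InnerProductSpace.toDual ℝ V).symm f
  have e : ∀ y, f y = dt a y := fun y => by rw [← inner_dt, InnerProductSpace.toDual_symm_apply]
  obtain ⟨m, -, hm⟩ := Finset.exists_max_image Finset.univ (fun l => dt a (X l)) Finset.univ_nonempty
  have le := fun z hz => Hu.le (fun l => hm l (Finset.mem_univ l)) (z := z) hz
  have g1 : r * ‖a‖ ≤ dt a (X m) := by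
    rcases (norm_nonneg a).eq_or_lt with h | h
    · rw [← h, mul_zero]; simpa [dt] using le 0 (hb (by simp [hr.le]))
    · have := le ((r / ‖a‖) • a) (hb (by
        rw [mem_closedBall_zero_iff, norm_smul, Real.norm_eq_abs, abs_of_pos (by positivity)]
        exact le_of_eq (by field_simp)))
      rw [← inner_dt, inner_smul_right, real_inner_self_eq_norm_sq] at this
      refine le_trans (le_of_eq ?_) this
      field_simp
  have g2 : dt a (X m) - dt a (Y m) ≤ ‖a‖ * ‖Y - X‖ := by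
    rw [← inner_dt, ← inner_dt, ← inner_sub_right]
    refine (real_inner_le_norm _ _).trans (mul_le_mul_of_nonneg_left ?_ (norm_nonneg _))
    rw [norm_sub_rev]; exact norm_le_pi_norm (Y - X) m
  have g3 := h1 _ (Hu.mem Y m)
  have g4 := mul_le_mul_of_nonneg_left (le x hx) hc
  have g5 := mul_le_mul_of_nonneg_left g1 (div_nonneg (norm_nonneg (Y - X)) hr.le)
  rw [← mul_assoc, div_mul_cancel₀ _ hr.ne'] at g5
  simp only [map_smul, smul_eq_mul] at h2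
  rw [e] at h2 g3
  linarith

theorem Fc.comp {X : Fin 8 → V} {σ : Fin 8 → Fin 8} {i j k : Fin 8} (h : Function.Injective σ)
    (F : Fc X (σ i) (σ j) (σ k)) : Fc (X ∘ σ) i j k :=
  ⟨F.1, fun l a b c => F.2 (σ l) (h.ne a) (h.ne b) (h.ne c)⟩

theorem Hu_comp (X : Fin 8 → V) {σ : Fin 8 → Fin 8} (h : Function.Injective σ) : Hu (X ∘ σ) = Hu X := by
  unfold Hu; rw [(Finite.injective_iff_surjective.1 h).range_comp]

def ey (X : Fin 8 → V) (e : ℕ) : ℝ := yy (X (ED e).1) (X (ED e).2)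

def Bd (X : Fin 8 → V) (s : ℝ) : Prop :=
  s ≤ Fv U0 V0 - 1 / 2 ^ 141 ∨ ∃ p : Fin 8 → Fin 8, Function.Injective p ∧ Ori (X ∘ p) ∧
    P0 (pu (ey (X ∘ p))) (pv (ey (X ∘ p))) ∧
    s ≤ Fv (pu (ey (X ∘ p))) (pv (ey (X ∘ p))) - Ph (ey (X ∘ p)) (pu (ey (X ∘ p))) (pv (ey (X ∘ p))) / 1024

theorem Gen.ms {X : Fin 8 → V} (G : Gen X) (h0 : 0 ∈ interior (Hu X)) {L : List T3} (H : Hd (Fc X) L)
    (h : ∀ a b c, Fc X a b c → (a, b, c) ∈ L ∨ (b, c, a) ∈ L ∨ (c, a, b) ∈ L) :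
    0 ≤ sar X L ∧ μHE[2] (frontier (Hu X)) ≤ ENNReal.ofReal (sar X L) := by
  refine ⟨List.sum_nonneg ?_, le_trans (measure_mono fun z hz => ?_) (Un_le G.u H)⟩
  · simp only [List.mem_map]; rintro _ ⟨_, -, rfl⟩; unfold ar; positivity
  · obtain ⟨i, j, k, F, hz⟩ := G.front h0 hz
    rcases h _ _ _ F with h | h | h
    exacts [⟨_, h, hz⟩, ⟨_, h, tri_rot hz⟩, ⟨_, h, tri_rot (tri_rot hz)⟩]

theorem Gen.bd {X : Fin 8 → V} (G : Gen X) (h0 : 0 ∈ interior (Hu X)) :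
    ∃ s, 0 ≤ s ∧ μHE[2] (frontier (Hu X)) ≤ ENNReal.ofReal s ∧ Bd X s := by
  rcases G.ax.con with ⟨p, hp, H⟩ | ⟨z, h1, h2, h3⟩
  · have G' : Gen (X ∘ p) := ⟨fun i => G.u _, fun i j k a b c => G.g3 _ _ _ (hp.ne a) (hp.ne b) (hp.ne c),
      fun i j k l a b c d e f => G.g4 _ _ _ _ (hp.ne a) (hp.ne b) (hp.ne c) (hp.ne d) (hp.ne e) (hp.ne f),
      fun d hd => by
        obtain ⟨l, hl⟩ := G.ins d hd
        obtain ⟨l, rfl⟩ := Finite.injective_iff_surjective.1 hp l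
        exact ⟨l, hl⟩⟩
    have H' : Hd (Fc (X ∘ p)) ty0 := fun t ht => (H t ht).comp hp
    rw [← Hu_comp X hp] at h0 ⊢
    obtain ⟨a, b⟩ := G'.ms h0 H' fun _ _ _ => G'.ax.only H'
    obtain ⟨C, e⟩ := cfg_of G'.u H' (y := ey (X ∘ p)) fun _ _ => rfl
    exact ⟨_, a, b, e ▸ (loc C).imp_right fun h => ⟨p, hp, fun t ht => (H' t ht).1.le, h⟩⟩
  · obtain ⟨L, H, h, e⟩ := G.usum h1 h2 h3
    obtain ⟨a, b⟩ := G.ms h0 H h
    exact ⟨_, a, b, Or.inl (by linarith [P0_0.fin.1.1])⟩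

theorem cF : Continuous fun q : ℝ × ℝ => Fv q.1 q.2 := by unfold Fv Uf lf mf; fun_prop

theorem cy : ∀ e < 18, Continuous fun q : ℝ × ℝ => yv q.1 q.2 e := by
  intro e he
  interval_cases e <;> simp only [yv, yz, List.getD_cons_succ, List.getD_cons_zero, lf, mf] <;> fun_prop

theorem main_bd {X : Fin 8 → V} (u : ∀ i, dt (X i) (X i) = 1) (h0 : 0 ∈ interior (Hu X)) :
    ∃ s, 0 ≤ s ∧ μHE[2] (frontier (Hu X)) = ENNReal.ofReal s ∧ Bd X s := by
  obtain ⟨Y, cY, y0, yu, ev⟩ := path u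
  obtain ⟨r, hr, hb⟩ := Metric.nhds_basis_closedBall.mem_iff.1 (mem_interior_iff_mem_nhds.1 h0)
  set c : ℝ → ℝ := fun t => 1 - ‖Y t - X‖ / r
  have cc : Continuous c := by fun_prop
  have c0 : c 0 = 1 := by simp [c, y0]
  have ev2 : ∀ᶠ t in 𝓝[≠] 0, 0 < c t :=
    (cc.continuousAt.eventually (p := (0 < ·)) (by rw [c0]; exact lt_mem_nhds one_pos)).filter_mono nhdsWithin_le_nhds
  have key : ∀ᶠ t in 𝓝[≠] 0, 0 < c t ∧ ∃ s, 0 ≤ s ∧
      ENNReal.ofReal (c t ^ 2) * μHE[2] (frontier (Hu X)) ≤ ENNReal.ofReal s ∧ Bd (Y t) s := by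
    filter_upwards [ev, ev2] with t g p
    have sh : c t • Hu X ⊆ Hu (Y t) := shrink hr hb p.le
    have i0 : 0 ∈ interior (c t • Hu X) := by
      rw [interior_smul₀ p.ne']; exact ⟨0, h0, smul_zero _⟩
    have i1 := interior_mono sh i0
    have G : Gen (Y t) := ⟨yu t, g.1, g.2, fun d ⟨x, hx⟩ => by
      by_contra hn
      push Not at hn
      refine not_int (a := d) (c := 0) ?_ (fun y => Hu.le hn) (by simp [dt]) i1
      rw [dt_self]
      exact pow_pos (norm_pos_iff.2 (by rintro rfl; simp [dt] at hx)) 2⟩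
    obtain ⟨s, s0, h1, h2⟩ := G.bd i1
    refine ⟨p, s, s0, le_trans (le_of_eq ?_) ((area_mono ((Hu.cv X).smul _) ((Hu.cp X).smul _) i0
      (Hu.cp _) sh).trans h1), h2⟩
    have : frontier (c t • Hu X) = c t • frontier (Hu X) :=
      ((Homeomorph.smulOfNeZero _ p.ne').image_frontier _).symm
    rw [this, Measure.euclideanHausdorffMeasure_smul₀ 2 p.ne', ENNReal.smul_def, smul_eq_mul,
      ENNReal.ofReal_pow p.le, ENNReal.coe_pow, ← enorm_eq_nnnorm, Real.enorm_eq_ofReal p.le]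
  obtain ⟨t, p, s, -, h, -⟩ := key.exists
  have fin : μHE[2] (frontier (Hu X)) ≠ ⊤ := fun x => by
    rw [x, ENNReal.mul_top (by simpa using p.ne')] at h
    simp at h
  set A := (μHE[2] (frontier (Hu X))).toReal
  have eA : μHE[2] (frontier (Hu X)) = ENNReal.ofReal A := (ENNReal.ofReal_toReal fin).symm
  refine ⟨A, ENNReal.toReal_nonneg, eA, ?_⟩
  have cd : ∀ i j, Continuous fun t => dt (Y t i) (Y t j) := fun i j => by unfold dt; fun_prop
  have cl : IsClosed {t | Bd (Y t) (c t ^ 2 * A)} := by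
    simp only [Bd, Ori, P0, ofPred_or, ofPred_exists, ofPred_and, ofPred_forall]
    refine (isClosed_le (by fun_prop) continuous_const).union (isClosed_iUnion_of_finite fun p => ?_)
    have ce : ∀ e, Continuous fun t => ey (Y t ∘ p) e := fun e => by unfold ey yy; simp only [Function.comp]; fun_prop
    have cq : Continuous fun t => (pu (ey (Y t ∘ p)), pv (ey (Y t ∘ p))) := by unfold pu pv; fun_prop
    have c1 := cq.fst
    have c2 := cq.snd
    refine isClosed_const.inter ((isClosed_iInter fun t => isClosed_iInter fun _ =>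
      isClosed_le continuous_const ?_).inter (((isClosed_le (by fun_prop) continuous_const).inter
        (isClosed_le (by fun_prop) continuous_const)).inter (isClosed_le (by fun_prop) ((cF.comp cq).sub
          (Continuous.div_const (continuous_finsetSum _ fun e he => ((ce e).sub
            ((cy e (Finset.mem_range.1 he)).comp cq)).pow 2) _)))))
    unfold dv; simp only [Function.comp]; fun_prop
  have := cl.mem_of_tendsto (f := id) (b := 𝓝[≠] 0) (x := 0) nhdsWithin_le_nhds (by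
    filter_upwards [key] with t ⟨_, s, s0, h1, h2⟩
    rw [eA, ← ENNReal.ofReal_mul (sq_nonneg _), ENNReal.ofReal_le_ofReal_iff s0] at h1
    exact h2.imp h1.trans fun ⟨p, a, b, d, c⟩ => ⟨p, a, b, d, h1.trans c⟩)
  simpa [c0, y0] using this

variable {u v : ℝ}

theorem M4.low {s c S C : ℝ} (M : M4 s c S C) :
    ENNReal.ofReal (sar (XP s c S C) ty0) ≤ μHE[2] (frontier (Hu (XP s c S C))) := by
  rw [← Un_eq M.un M.fc (by decide)]
  exact measure_mono (Un_sub M.fc)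

theorem Ph_nn (y : ℕ → ℝ) (u v : ℝ) : 0 ≤ Ph y u v := Finset.sum_nonneg fun _ _ => sq_nonneg _

theorem Ph_z {y : ℕ → ℝ} (h : Ph y u v ≤ 0) : ∀ e < 18, y e = yv u v e := fun e he =>
  sub_eq_zero.1 (pow_eq_zero_iff two_ne_zero |>.1 ((Finset.sum_eq_zero_iff_of_nonneg fun _ _ => sq_nonneg _).1
    (le_antisymm h (Ph_nn y u v)) e (Finset.mem_range.2 he)))

theorem opt : ∃ u v, P0 u v ∧ ∀ u' v', P0 u' v' → Fv u' v' ≤ Fv u v ∧ (Fv u v ≤ Fv u' v' → u' = u ∧ v' = v) := by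
  obtain ⟨⟨u, v⟩, h, m⟩ := (isCompact_closedBall (U0, V0) (1 / 2 ^ 64)).exists_isMaxOn ⟨_, Metric.mem_closedBall_self
    (by norm_num)⟩ cF.continuousOn
  have e : ∀ u v, (u, v) ∈ Metric.closedBall (U0, V0) (1 / 2 ^ 64) ↔ P0 u v := fun u v => by
    simp only [Metric.mem_closedBall, Prod.dist_eq, max_le_iff, Real.dist_eq, P0]
  have h := (e _ _).1 h
  have m : ∀ u' v', P0 u' v' → Fv u' v' ≤ Fv u v := fun u' v' g => m ((e _ _).2 g)
  refine ⟨u, v, h, fun u' v' g => ⟨m _ _ g, fun k => ?_⟩⟩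
  have p : P0 ((u + u') / 2) ((v + v') / 2) := by
    simp only [P0, abs_le] at h g ⊢
    refine ⟨⟨?_, ?_⟩, ?_, ?_⟩ <;> linarith [h.1.1, h.1.2, h.2.1, h.2.2, g.1.1, g.1.2, g.2.1, g.2.2]
  obtain ⟨-, ν1, ν2, b⟩ := p.fin
  have b1 := b _ h.cfg.1 (by rw [Fv_eq]; linarith [h.fin.1.1])
  have b2 := b _ g.cfg.1 (by rw [Fv_eq]; linarith [g.fin.1.1])
  rw [Fv_eq] at b1 b2
  simp only [yv, yz, List.getD_cons_succ, List.getD_cons_zero] at b1 b2
  have := Ph_z (y := yv u v) (u := (u + u') / 2) (v := (v + v') / 2)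
    (by unfold yv; linarith [m _ _ p, Ph_nn (yz u' (lf u' v') (mf u' v') v') ((u + u') / 2) ((v + v') / 2)])
  have a : u = (u + u') / 2 := this 0 (by norm_num)
  have b : v = (v + v') / 2 := this 14 (by norm_num)
  constructor <;> linarith

theorem main : ∃ u v, P0 u v ∧ (∀ y, Cfg y → ary y ≤ Fv u v ∧ (Fv u v ≤ ary y → pu y = u ∧ pv y = v)) ∧ ∀ X : Fin 8 → V, (∀ i, dt (X i) (X i) = 1) → 0 ∈ interior (Hu X) →
    μHE[2] (frontier (Hu X)) ≤ ENNReal.ofReal (Fv u v) ∧ (μHE[2] (frontier (Hu X)) = ENNReal.ofReal (Fv u v) →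
      ∃ T : V ≃ₗᵢ[ℝ] V, Hu X = T '' Hu (XQ u v)) := by
  obtain ⟨u, v, h, m⟩ := opt
  have m0 := (m _ _ P0_0).1
  refine ⟨u, v, h, fun y C => ?_, fun X hu h0 => ?_⟩
  · rcases loc C with b | ⟨g, b⟩
    · exact ⟨by linarith, fun _ => by exfalso; linarith⟩
    · have := Ph_nn y (pu y) (pv y)
      exact ⟨by linarith [(m _ _ g).1], fun _ => (m _ _ g).2 (by linarith)⟩
  obtain ⟨s, s0, e, b⟩ := main_bd hu h0
  rw [e, ENNReal.ofReal_eq_ofReal_iff s0 (by linarith [h.fin.1.1])]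
  rcases b with b | ⟨p, hp, o, g, b⟩
  · exact ⟨ENNReal.ofReal_le_ofReal (by linarith), fun _ => by linarith⟩
  have m1 := m _ _ g
  have := Ph_nn (ey (X ∘ p)) (pu (ey (X ∘ p))) (pv (ey (X ∘ p)))
  refine ⟨ENNReal.ofReal_le_ofReal (by linarith [m1.1]), fun k => ?_⟩
  obtain ⟨e1, e2⟩ := m1.2 (by linarith)
  rw [e1, e2] at b
  obtain ⟨T, hT⟩ := h.m.rigid (X := X ∘ p) (fun i => hu _) o fun e he =>
    (Ph_z (y := ey (X ∘ p)) (by linarith) e he).trans (h.ed e he).symm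
  refine ⟨T, ?_⟩
  rw [← Hu_comp X hp, hT]
  unfold Hu
  rw [range_comp]
  exact (T.toLinearEquiv.toLinearMap.image_convexHull _).symm

theorem M4.area {s c S C : ℝ} (M : M4 s c S C) :
    Cfg (yz (s ^ 2) ((1 - c * C) / 2) ((1 - s * S + c * C) / 2) ((1 + C ^ 2) / 2)) ∧
    sar (XP s c S C) ty0 = ary (yz (s ^ 2) ((1 - c * C) / 2) ((1 - s * S + c * C) / 2) ((1 + C ^ 2) / 2)) ∧
    sar (XP s c S C) ty0 = 4 * s * √(S ^ 2 + (c - C) ^ 2) +
      4 * √(S ^ 2 * (c + C) ^ 2 + (2 * s * C + S * (c - C)) ^ 2 + S ^ 2 * (S - s) ^ 2) := by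
  obtain ⟨a, b⟩ := cfg_of M.un M.fc M.ed
  refine ⟨a, b, b.trans ?_⟩
  have e1 : Uf (s ^ 2) ((1 - c * C) / 2) ((1 - c * C) / 2) = s ^ 2 * (S ^ 2 + (c - C) ^ 2) := by
    unfold Uf; linear_combination -s ^ 2 * (M.u + M.v)
  have p : (S - s) ^ 2 + (C + c) ^ 2 = 4 * ((1 - s * S + c * C) / 2) := by linarith [M.u, M.v]
  have q : s ^ 2 + S ^ 2 + (C - c) ^ 2 = 4 * ((1 - c * C) / 2) := by linarith [M.u, M.v]
  have r : -s * (S - s) - (C + c) * (C - c) =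
      2 * ((1 - c * C) / 2 + (1 - s * S + c * C) / 2 - (1 + C ^ 2) / 2) := by linarith [M.u]
  have e2 : S ^ 2 * (c + C) ^ 2 + (2 * s * C + S * (c - C)) ^ 2 + S ^ 2 * (S - s) ^ 2 =
      2 ^ 2 * Uf ((1 - c * C) / 2) ((1 - s * S + c * C) / 2) ((1 + C ^ 2) / 2) := by
    rw [show S ^ 2 * (c + C) ^ 2 + (2 * s * C + S * (c - C)) ^ 2 + S ^ 2 * (S - s) ^ 2 = ((S - s) ^ 2 + (C + c) ^ 2) *
      (s ^ 2 + S ^ 2 + (C - c) ^ 2) - (-s * (S - s) - (C + c) * (C - c)) ^ 2 by ring, p, q, r]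
    unfold Uf; ring
  simp only [ary, yz, List.getD_cons_succ, List.getD_cons_zero]
  rw [e1, e2, sqrt_mul (sq_nonneg _), sqrt_mul (sq_nonneg _), sqrt_sq (by linarith [M.s.1]), sqrt_sq zero_le_two]
  ring

theorem M4.of {a b : ℝ} (ha : 0.5995 ≤ a ∧ a ≤ 0.5996) (hb : 0.2816 ≤ b ∧ b ≤ 0.2817) :
    M4 a √(1 - a ^ 2) √(1 - b ^ 2) b := by
  have a1 := pow_le_pow_left₀ (by norm_num) ha.1 2
  have a2 := pow_le_pow_left₀ (by linarith) ha.2 2
  have b1 := pow_le_pow_left₀ (by norm_num) hb.1 2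
  have b2 := pow_le_pow_left₀ (by linarith) hb.2 2
  exact ⟨by rw [sq_sqrt (by linarith)]; ring, by rw [sq_sqrt (by linarith)]; ring, ha,
    ⟨le_sqrt_of_sq_le (by linarith), sqrt_le_iff.2 ⟨by norm_num, by linarith⟩⟩,
    ⟨le_sqrt_of_sq_le (by linarith), sqrt_le_iff.2 ⟨by norm_num, by linarith⟩⟩, hb⟩

end Pool.Agent.Work.MP_c2ab8b_gt.K8
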