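import Pool.Agent.Work.MP_c2ab8b_gt.K8.CovA
import Pool.Agent.Work.MP_c2ab8b_gt.K8.TMd
import Pool.Agent.Work.MP_c2ab8b_gt.Faces
import Pool.Agent.Work.MP_c2ab8b_gt.Geo

/- Face inequalities in terms of the three sides. -/

noncomputable section
namespace Pool.Agent.Work.MP_c2ab8b_gt.K8
open Real

def m12 (i : ℕ) : ℕ := [1, 0, 2, 4, 3, 5, 6, 8, 7, 9, 13, 12, 11, 10, 15, 14].getD i 14
def m23 (i : ℕ) : ℕ := [0, 2, 1, 3, 5, 4, 6, 7, 9, 8, 11, 10, 15, 14, 13, 12].getD i 12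
def pev (m : ℕ → ℕ) (l : List (ℕ × List Cd)) : List (ℕ × List Cd) :=
  l.map fun e => (e.1, e.2.map fun d => (m d.1, d.2))
def Q8.s12 (q : Q8) : Q8 := ⟨q.p2, q.p1, q.p3, false, q.c, q.bm, pev m12 q.ev⟩
def Q8.s23 (q : Q8) : Q8 := ⟨q.p1, q.p3, q.p2, false, q.c, q.bm, pev m23 q.ev⟩

theorem ft12 (a b c d e f : ℝ) (i : ℕ) : ft b a c e d f (m12 i) = ft a b c d e f i := by
  match i with
  | 0 | 1 | 2 | 3 | 4 | 5 | 7 | 8 | 10 | 11 | 12 | 13 | 14 | 15 => rfl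
  | 6 => show b + a + c = a + b + c; ring
  | 9 => show b + a - c = a + b - c; ring
  | n + 16 => rfl

theorem ft23 (a b c d e f : ℝ) (i : ℕ) : ft a c b d f e (m23 i) = ft a b c d e f i := by
  match i with
  | 0 | 1 | 2 | 3 | 4 | 5 | 8 | 9 | 10 | 11 | 12 | 13 | 14 | 15 => rfl
  | 6 => show a + c + b = a + b + c; ring
  | 7 => show c + b - a = b + c - a; ring
  | n + 16 => rfl

theorem pev_s {m : ℕ → ℕ} {l : List (ℕ × List Cd)} {g g' : ℕ → ℝ} {F : ℝ} (h : ∀ i, g' (m i) = g i)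
    (H : ∀ e ∈ pev m l, (∀ d ∈ e.2, Ho g' d) → F ≤ vl e.1) : ∀ e ∈ l, (∀ d ∈ e.2, Ho g d) → F ≤ vl e.1 := by
  intro e he hd
  refine H (e.1, e.2.map fun d => (m d.1, d.2)) (List.mem_map.2 ⟨e, he, rfl⟩) fun d hd' => ?_
  obtain ⟨d, h1, rfl⟩ := List.mem_map.1 hd'
  have := hd d h1
  unfold Ho at *
  rwa [h]

variable {h s1 c1 s2 c2 s3 c3 : ℝ} {q r : Q8}

theorem ch12 (H : q.s12.Ch h s2 c2 s1 c1 s3 c3) : q.Ch h s1 c1 s2 c2 s3 c3 := by
  unfold Q8.Ch Q8.Cl at *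
  have e : ∀ T a b c d e f, q.s12.F T b a c e d f = q.F T a b c d e f := fun T a b c d e f => by
    unfold Q8.F Q8.s12; ring
  rw [e, mul_comm s2 s1] at H
  exact ⟨H.1, pev_s (ft12 _ _ _ _ _ _) H.2⟩

theorem ch23 (H : q.s23.Ch h s1 c1 s3 c3 s2 c2) : q.Ch h s1 c1 s2 c2 s3 c3 := by
  unfold Q8.Ch Q8.Cl at *
  have e : ∀ T a b c d e f, q.s23.F T a c b d f e = q.F T a b c d e f := fun T a b c d e f => by
    unfold Q8.F Q8.s23; ring
  rw [e, show s1 * s3 * ((1 - h ^ 2) * s2) = s1 * s2 * ((1 - h ^ 2) * s3) by ring] at H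
  exact ⟨H.1, pev_s (ft23 _ _ _ _ _ _) H.2⟩

def Sub (r q : Q8) : Bool :=
  decide (r.p1 = q.p1) && decide (r.p2 = q.p2) && decide (r.p3 = q.p3) && Nat.ble r.c q.c &&
    q.ev.all fun e => r.ev.any fun f => Nat.ble f.1 e.1 && f.2.all fun d => e.2.elem d

theorem Sub.ch (S : Sub r q = true) (H : r.Ch h s1 c1 s2 c2 s3 c3) : q.Ch h s1 c1 s2 c2 s3 c3 := by
  simp only [Sub, Bool.and_eq_true, decide_eq_true_eq, List.all_eq_true, List.any_eq_true, List.elem_eq_mem] at S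
  obtain ⟨⟨⟨⟨e1, e2⟩, e3⟩, e4⟩, e5⟩ := S
  unfold Q8.Ch Q8.Cl Q8.F at *
  rw [← e1, ← e2, ← e3]
  refine ⟨H.1.trans (vl_le e4), fun e he hd => ?_⟩
  obtain ⟨f, h1, h2, h3⟩ := e5 e he
  exact (H.2 f h1 fun d hd' => hd d (h3 d hd')).trans (vl_le h2)

theorem tg_ch (H : Root q.Good) (T : Tg h s1 c1 s2 c2 s3 c3) (o1 : c1 ≤ c3) (o2 : c2 ≤ c3)
    (o : q.sym = true → c1 ≤ c2) : q.Ch h s1 c1 s2 c2 s3 c3 := by
  obtain ⟨a1, a2, a3⟩ := MP_c2ab8b_gt.tau T.p1.le T.u1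
  obtain ⟨b1, b2, b3⟩ := MP_c2ab8b_gt.tau T.p2.le T.u2
  have := H.at T.h0.le T.h1 a3 b3
  unfold Q8.Good at this
  rw [a1, a2, b1, b2, ← T.e3, ← T.f3] at this
  exact this T.h0 T.p1 T.p2 T.p3 (tau_a a3 b3 (by rw [a1, a2, b1, b2, ← T.e3]; exact T.p3))
    (fun hs => tau_b a3 b3 (by rw [a2, b2]; exact o hs)) o1 o2

def Srt (q : Q8) : Prop :=
  ∀ ⦃h s1 c1 s2 c2 s3 c3⦄, Tg h s1 c1 s2 c2 s3 c3 → c1 ≤ c2 → c2 ≤ c3 → q.Ch h s1 c1 s2 c2 s3 c3
def All (q : Q8) : Prop := ∀ ⦃h s1 c1 s2 c2 s3 c3⦄, Tg h s1 c1 s2 c2 s3 c3 → q.Ch h s1 c1 s2 c2 s3 c3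

theorem Srt.of1 (H : Root r.Good) (S : Sub r q = true) : Srt q :=
  fun _ _ _ _ _ _ _ T a b => Sub.ch S (tg_ch H T (a.trans b) b fun _ => a)

theorem Srt.of2 (H : Root r.Good) (e : r.sym = false) (S : Sub r q.s12 = true) : Srt q :=
  fun _ _ _ _ _ _ _ T a b => ch12 (Sub.ch S (tg_ch H T.s12 b (a.trans b) fun x => absurd (e ▸ x) (by simp)))

theorem All.of (h1 : Srt q) (h2 : Srt q.s12) (h3 : Srt q.s23) (h4 : Srt q.s12.s23) (h5 : Srt q.s23.s12)
    (h6 : Srt q.s12.s23.s12) : All q := by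
  intro h s1 c1 s2 c2 s3 c3 T
  rcases le_total c1 c2 with a | a <;> rcases le_total c2 c3 with b | b <;> rcases le_total c1 c3 with c | c
  exacts [h1 T a b, h1 T a b, ch23 (h3 T.s23 c b), ch23 (ch12 (h5 T.s23.s12 c a)), ch12 (h2 T.s12 a c),
    ch12 (ch23 (h4 T.s12.s23 b c)), ch12 (h2 T.s12 a c), ch12 (ch23 (ch12 (h6 T.s12.s23.s12 b a)))]

theorem q0_all : All q0 := All.of (Srt.of2 m0b_cov rfl (by decide +kernel))
    (Srt.of1 m0b_cov (by decide +kernel))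
    (Srt.of2 m0b_cov rfl (by decide +kernel))
    (Srt.of1 m0a_cov (by decide +kernel))
    (Srt.of1 m0b_cov (by decide +kernel))
    (Srt.of1 m0a_cov (by decide +kernel))
theorem m1a_all : All m1a := All.of (Srt.of1 m1a_cov (by decide +kernel))
    (Srt.of2 m1a_cov rfl (by decide +kernel))
    (Srt.of1 m1b_cov (by decide +kernel))
    (Srt.of2 m1c_cov rfl (by decide +kernel))
    (Srt.of2 m1b_cov rfl (by decide +kernel))
    (Srt.of1 m1c_cov (by decide +kernel))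

def PU (i j : ℕ) : P8 :=
  if i + j ≤ 1 then u011a.p1 else if i + j = 2 then u011a.p3 else if i + j = 3 then u112a.p1 else u122a.p3
def cm3 (i j k : ℕ) : ℕ :=
  [0, 0, 0, 0, 3791983676, 0, 0, 0, 0, 0, 3791983676, 0, 3791983676, 4129009760, 4451003458, 0, 4451003458,
    4611978832, 0, 0, 0, 0, 4451003458, 4611978832, 0, 4611978832, 0].getD (9 * i + 3 * j + k) 0
def qU (i j k : ℕ) : Q8 :=
  ⟨PU i j, PU k i, PU j k, false, 4503599627370496 - cm3 i j k, 4503599627370496 - cm3 i j k, []⟩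

theorem u011 : All (qU 0 1 1) := All.of (Srt.of1 u011a_cov (by decide +kernel))
    (Srt.of1 u011a_cov (by decide +kernel))
    (Srt.of1 u011b_cov (by decide +kernel))
    (Srt.of1 u011b_cov (by decide +kernel))
    (Srt.of2 u011b_cov rfl (by decide +kernel))
    (Srt.of2 u011b_cov rfl (by decide +kernel))

theorem u101 : All (qU 1 0 1) := All.of (Srt.of1 u011b_cov (by decide +kernel))
    (Srt.of2 u011b_cov rfl (by decide +kernel))
    (Srt.of1 u011a_cov (by decide +kernel))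
    (Srt.of2 u011b_cov rfl (by decide +kernel))
    (Srt.of1 u011a_cov (by decide +kernel))
    (Srt.of1 u011b_cov (by decide +kernel))

theorem u110 : All (qU 1 1 0) := All.of (Srt.of2 u011b_cov rfl (by decide +kernel))
    (Srt.of1 u011b_cov (by decide +kernel))
    (Srt.of2 u011b_cov rfl (by decide +kernel))
    (Srt.of1 u011a_cov (by decide +kernel))
    (Srt.of1 u011b_cov (by decide +kernel))
    (Srt.of1 u011a_cov (by decide +kernel))

theorem u111 : All (qU 1 1 1) := All.of (Srt.of1 u111a_cov (by decide +kernel))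
    (Srt.of1 u111a_cov (by decide +kernel))
    (Srt.of1 u111a_cov (by decide +kernel))
    (Srt.of1 u111a_cov (by decide +kernel))
    (Srt.of1 u111a_cov (by decide +kernel))
    (Srt.of1 u111a_cov (by decide +kernel))

theorem u112 : All (qU 1 1 2) := All.of (Srt.of2 u112b_cov rfl (by decide +kernel))
    (Srt.of1 u112b_cov (by decide +kernel))
    (Srt.of2 u112b_cov rfl (by decide +kernel))
    (Srt.of1 u112a_cov (by decide +kernel))
    (Srt.of1 u112b_cov (by decide +kernel))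
    (Srt.of1 u112a_cov (by decide +kernel))

theorem u121 : All (qU 1 2 1) := All.of (Srt.of1 u112b_cov (by decide +kernel))
    (Srt.of2 u112b_cov rfl (by decide +kernel))
    (Srt.of1 u112a_cov (by decide +kernel))
    (Srt.of2 u112b_cov rfl (by decide +kernel))
    (Srt.of1 u112a_cov (by decide +kernel))
    (Srt.of1 u112b_cov (by decide +kernel))

theorem u122 : All (qU 1 2 2) := All.of (Srt.of1 u122a_cov (by decide +kernel))
    (Srt.of1 u122a_cov (by decide +kernel))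
    (Srt.of1 u122b_cov (by decide +kernel))
    (Srt.of1 u122b_cov (by decide +kernel))
    (Srt.of2 u122b_cov rfl (by decide +kernel))
    (Srt.of2 u122b_cov rfl (by decide +kernel))

theorem u211 : All (qU 2 1 1) := All.of (Srt.of1 u112a_cov (by decide +kernel))
    (Srt.of1 u112a_cov (by decide +kernel))
    (Srt.of1 u112b_cov (by decide +kernel))
    (Srt.of1 u112b_cov (by decide +kernel))
    (Srt.of2 u112b_cov rfl (by decide +kernel))
    (Srt.of2 u112b_cov rfl (by decide +kernel))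

theorem u212 : All (qU 2 1 2) := All.of (Srt.of1 u122b_cov (by decide +kernel))
    (Srt.of2 u122b_cov rfl (by decide +kernel))
    (Srt.of1 u122a_cov (by decide +kernel))
    (Srt.of2 u122b_cov rfl (by decide +kernel))
    (Srt.of1 u122a_cov (by decide +kernel))
    (Srt.of1 u122b_cov (by decide +kernel))

theorem u221 : All (qU 2 2 1) := All.of (Srt.of2 u122b_cov rfl (by decide +kernel))
    (Srt.of1 u122b_cov (by decide +kernel))
    (Srt.of2 u122b_cov rfl (by decide +kernel))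
    (Srt.of1 u122a_cov (by decide +kernel))
    (Srt.of1 u122b_cov (by decide +kernel))
    (Srt.of1 u122a_cov (by decide +kernel))


def A1f (a b c : ℝ) : ℝ := arctan ((b + c - a) / √(Pf a b c))

structure Tri (a b c : ℝ) : Prop where
  ch : ∃ h s1 c1 s2 c2 s3 c3, Tg h s1 c1 s2 c2 s3 c3 ∧ (1 - h ^ 2) * s1 ^ 2 = a ∧ (1 - h ^ 2) * s2 ^ 2 = b ∧
    (1 - h ^ 2) * s3 ^ 2 = c ∧ 2 * (s1 * s2 * ((1 - h ^ 2) * s3)) = √(Uf a b c) ∧
    arctan (c1 / (h * s1)) = A1f a b c ∧ arctan (c2 / (h * s2)) = A2f a b c ∧ arctan (c3 / (h * s3)) = A3f a b c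
  p : 0 < Pf a b c
  p1 : 0 < a
  p2 : 0 < b
  p3 : 0 < c
  q1 : a ≤ 1
  q2 : b ≤ 1
  q3 : c ≤ 1

theorem sw23 (a b c : ℝ) : A1f a c b = A1f a b c ∧ A2f a c b = A3f a b c ∧ A3f a c b = A2f a b c ∧
    Uf a c b = Uf a b c := by
  have e : Pf a c b = Pf a b c := by unfold Pf Uf; ring
  unfold A1f A2f A3f
  rw [e]
  refine ⟨?_, ?_, ?_, by unfold Uf; ring⟩ <;> congr 2 <;> ring

variable {a b c : ℝ}

theorem Tri.s23 (T : Tri a b c) : Tri a c b := by
  obtain ⟨h, s1, c1, s2, c2, s3, c3, t, e1, e2, e3, e4, e5, e6, e7⟩ := T.ch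
  obtain ⟨w1, w2, w3, w4⟩ := sw23 a b c
  exact ⟨⟨h, s1, c1, s3, c3, s2, c2, t.s23, e1, e3, e2, by rw [w4, ← e4]; ring, w1 ▸ e5, w2 ▸ e7, w3 ▸ e6⟩,
    by have := T.p; unfold Pf Uf at *; linarith, T.p1, T.p3, T.p2, T.q1, T.q3, T.q2⟩

theorem Tri.cl (H : All q) (T : Tri a b c) : q.Cl (√(Uf a b c)) a b c (A1f a b c) (A2f a b c) (A3f a b c) := by
  obtain ⟨h, s1, c1, s2, c2, s3, c3, t, e1, e2, e3, e4, e5, e6, e7⟩ := T.ch
  have := H t
  unfold Q8.Ch at this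
  rwa [e1, e2, e3, e4, e5, e6, e7] at this

theorem Tri.sum (T : Tri a b c) (hS : 0 < 2 - a - b - c) : A1f a b c = π / 2 + Ef a b c - A2f a b c - A3f a b c := by
  have D := sqrt_pos.2 T.p
  have D2 := sq_sqrt T.p.le
  have pa := T.p1; have pb := T.p2; have pc := T.p3
  have lo : -A2f a b c < A1f a b c := by
    unfold A1f A2f
    rw [← arctan_neg]
    refine arctan_strictMono ?_
    rw [← neg_div, div_lt_div_iff_of_pos_right D]; linarith
  have E0 : 0 < Ef a b c := arctan_pos.2 (div_pos D hS)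
  obtain ⟨r1, p1, a1, b1⟩ := atan_pol (T := b + c - a) D
  obtain ⟨r2, p2, a2, b2⟩ := atan_pol (T := a - b + c) D
  obtain ⟨r3, p3, a3, b3⟩ := atan_pol (T := a + b - c) D
  obtain ⟨r4, p4, a4, b4⟩ := atan_pol (T := √(Pf a b c)) hS
  have u1 := arctan_lt_pi_div_two ((b + c - a) / √(Pf a b c))
  have u2 := arctan_lt_pi_div_two ((a - b + c) / √(Pf a b c))
  have u3 := arctan_lt_pi_div_two ((a + b - c) / √(Pf a b c))
  have l3 := neg_pi_div_two_lt_arctan ((a + b - c) / √(Pf a b c))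
  have u4 := arctan_lt_pi_div_two (√(Pf a b c) / (2 - a - b - c))
  unfold A1f A2f A3f Ef at *
  generalize arctan ((b + c - a) / √(Pf a b c)) = x at *
  generalize arctan ((a - b + c) / √(Pf a b c)) = y at *
  generalize arctan ((a + b - c) / √(Pf a b c)) = z at *
  generalize arctan (√(Pf a b c) / (2 - a - b - c)) = e at *
  generalize √(Pf a b c) = W at *
  unfold Pf Uf at D2
  have c1 : r1 * r2 * r3 * cos (x + y + z) = W * W * W - W * ((b + c - a) * (a - b + c) + (b + c - a) * (a + b - c) +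
      (a - b + c) * (a + b - c)) := by
    rw [cos_add, cos_add, sin_add]
    linear_combination (-(W * W) + (b + c - a) * (a - b + c)) * a3 + (W * (b + c - a) + W * (a - b + c)) * b3 +
      (-(W * r3 * cos z) + (b + c - a) * r3 * sin z) * a2 + ((b + c - a) * r3 * cos z + W * r3 * sin z) * b2 +
      (-(r2 * cos y * r3 * cos z) + r2 * sin y * r3 * sin z) * a1 +
      (r2 * sin y * r3 * cos z + r2 * cos y * r3 * sin z) * b1
  have c2 : r1 * r2 * r3 * sin (x + y + z) = W * W * ((b + c - a) + (a - b + c) + (a + b - c)) -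
      (b + c - a) * (a - b + c) * (a + b - c) := by
    rw [sin_add, cos_add, sin_add]
    linear_combination (-(W * (b + c - a)) - W * (a - b + c)) * a3 + (-(W * W) + (b + c - a) * (a - b + c)) * b3 +
      (-((b + c - a) * r3 * cos z) - W * r3 * sin z) * a2 + (-(W * r3 * cos z) + (b + c - a) * r3 * sin z) * b2 +
      (-(r2 * sin y * r3 * cos z) - r2 * cos y * r3 * sin z) * a1 +
      (-(r2 * cos y * r3 * cos z) + r2 * sin y * r3 * sin z) * b1
  obtain ⟨k, hk⟩ := pol (c := r1 * r2 * r3) (d := 4 * (a * b * c) * r4) (A := x + y + z) (B := e + π / 2)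
    (by positivity) (by positivity)
    (by rw [c1, cos_add_pi_div_two]; linear_combination W * D2 - 4 * (a * b * c) * b4)
    (by rw [c2, sin_add_pi_div_two]; linear_combination (a + b + c) * D2 + 4 * (a * b * c) * a4)
  have pp := pi_pos
  have k1 : (-1 : ℝ) < k := by by_contra g; nlinarith [mul_nonneg pp.le (sub_nonneg.2 (not_lt.1 g))]
  have k2 : (k : ℝ) < 1 := by by_contra g; nlinarith [mul_nonneg pp.le (sub_nonneg.2 (not_lt.1 g))]
  have k1 : -1 < k := by exact_mod_cast k1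
  have k2 : k < 1 := by exact_mod_cast k2
  obtain rfl : k = 0 := by omega
  push_cast at hk; linarith

theorem ps_tri {a b c : V} (P : Ps a b c) {y1 y2 y3 : ℝ} (h1 : yy a b = y1) (h2 : yy c a = y2) (h3 : yy b c = y3) :
    Tri y1 y2 y3 ∧ An a b c = A1f y1 y2 y3 ∧ An c a b = A2f y1 y2 y3 ∧ An b c a = A3f y1 y2 y3 ∧
      ar a b c = √(Uf y1 y2 y3) := by
  have e : dv a b c ^ 2 = 2 ^ 2 * Pf y1 y2 y3 := by rw [P.gram, ← h1, ← h2, ← h3]; unfold Pf Uf yy; ring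
  have p : 0 < Pf y1 y2 y3 := by linarith [pow_pos P.d 2]
  have d : dv a b c = 2 * √(Pf y1 y2 y3) := by
    rw [← sqrt_sq P.d.le, e, sqrt_mul (by positivity), sqrt_sq (by norm_num)]
  have a1 : An a b c = A1f y1 y2 y3 := by
    unfold An A1f; rw [d, ← mul_div_mul_left _ (√_) two_ne_zero, ← h1, ← h2, ← h3]; congr 2; unfold Tt yy; ring
  have a2 : An c a b = A2f y1 y2 y3 := by
    unfold An A2f
    rw [dv_rot c, d, ← mul_div_mul_left (_ - _ + _) (√_) two_ne_zero, ← h1, ← h2, ← h3]; congr 2; unfold Tt yy; ring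
  have a3 : An b c a = A3f y1 y2 y3 := by
    unfold An A3f
    rw [← dv_rot a, d, ← mul_div_mul_left (_ + _ - _) (√_) two_ne_zero, ← h1, ← h2, ← h3]; congr 2; unfold Tt yy; ring
  have a4 : ar a b c = √(Uf y1 y2 y3) := by
    unfold ar
    rw [show Tt a b c * Tt c a b + Tt a b c * Tt b c a + Tt c a b * Tt b c a = 2 ^ 2 * Uf y1 y2 y3 by
      rw [← h1, ← h2, ← h3]; unfold Tt Uf yy; ring, sqrt_mul (by positivity), sqrt_sq (by norm_num)]; ring
  refine ⟨⟨?_, p, ?_, ?_, ?_, h1 ▸ (yy_bd P.ua P.ub).2, h2 ▸ (yy_bd P.uc P.ua).2, h3 ▸ (yy_bd P.ub P.uc).2⟩,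
    a1, a2, a3, a4⟩
  · rw [← a1, ← a2, ← a3, ← a4, ← h1, ← h2, ← h3]; exact P.chart
  · rw [← h1]; unfold yy; linarith [P.lt.2]
  · rw [← h2]; unfold yy; linarith [P.rot.rot.lt.2]
  · rw [← h3]; unfold yy; linarith [P.rot.lt.2]

theorem ps_tri' {a b c : V} (P : Ps a b c) {y1 y2 y3 : ℝ} (h1 : yy a b = y1) (h2 : yy b c = y2) (h3 : yy c a = y3) :
    Tri y1 y2 y3 ∧ An a b c = A1f y1 y2 y3 ∧ An b c a = A2f y1 y2 y3 ∧ An c a b = A3f y1 y2 y3 ∧
      ar a b c = √(Uf y1 y2 y3) := by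
  obtain ⟨T, e1, e2, e3, e4⟩ := ps_tri P h1 h3 h2
  obtain ⟨w1, w2, w3, w4⟩ := sw23 y1 y2 y3
  exact ⟨T.s23, w1 ▸ e1, w3 ▸ e3, w2 ▸ e2, w4 ▸ e4⟩

def P8.ψ (q : P8) (y A : ℝ) : ℝ := q.p.ψ y A + vl q.k4 / 2 ^ 32 * max (y + vl q.ny4 / 2 ^ 32) 0 ^ 2 * A

theorem P8.f_eq (q : P8) (y A : ℝ) : q.f y A = q.ψ y A + vl q.p.nw / 2 ^ 32 * A + vl q.p.p / 2 ^ 32 * y := by
  unfold P8.f P8.ψ; rw [Pf_eq]; ring

theorem P8.add {q : P8} (h : 4503599627370496 ≤ q.p.k2 ∧ 4503599627370496 ≤ q.p.k3 ∧ 4503599627370496 ≤ q.k4)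
    {y A A' : ℝ} (hy : y ≤ 1) (g : 0 ≤ A + A') : 0 ≤ q.ψ y A + q.ψ y A' := by
  have k : 0 ≤ vl q.k4 / 2 ^ 32 := div_nonneg (sub_nonneg.2 (by exact_mod_cast h.2.2)) (by positivity)
  have := mul_nonneg (mul_nonneg k (sq_nonneg (max (y + vl q.ny4 / 2 ^ 32) 0))) g
  have := q.p.ψ_add h.1 h.2.1 hy g
  unfold P8.ψ; linarith

end Pool.Agent.Work.MP_c2ab8b_gt.K8
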